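import Pool.Agent.H8.EF.WronNe

/-! # [EF-WRON] The Wronskian inequality

`W = det (of fun a b => derivative^[a] (φ b)) ∈ ℚ[X]`.
(1) `wron_ne` (file `WronNe`): `W = wron φ ≠ 0`.
(2) degree: `natDegree W ≤ ρ N` (Leibniz formula).
(3) Over `K`: complete the rows `c s` to a basis of `K^ρ`, i.e. to an invertible matrix `C` whose
columns `s < r` are `c s`; `W * det C = det (of fun a s => derivative^[a] (∑_b C b s φ_b))`, the
column `s < r` is divisible by `(X - α)^(I s - (ρ-1))` (`a ≤ ρ - 1` derivatives of a multiple of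
`(X-α)^(I s)`). So `(X - α)^k ∣ W.map`, `k = ∑_s (I s - (ρ-1))` (pull the factors out of the
columns), and therefore `(minpoly ℚ α)^k ∣ W` in `ℚ[X]`: write `W = μ^e W'`, `μ ∤ W'`, `μ` the
minimal polynomial; `W'(α) ≠ 0` and `μ` has a simple zero at `α` (separable), so `e ≥ k`.
(4) over `ℚ`, the same with the single vector `v`: `(X - m)^(J - (ρ-1)) ∣ W`.
(5) `μ` (irreducible of degree `n ≥ 2`) and `X - m` are coprime, so the product divides `W ≠ 0`. -/

namespace Pool.Agent.H8.EF

open Finset Polynomial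

theorem wron_map {F K : Type*} [Field F] [Field K] (g : F →+* K) {ρ : ℕ} (φ : Fin ρ → F[X]) :
    (wron φ).map g = wron (fun b => (φ b).map g) := by
  unfold wron
  rw [← Polynomial.coe_mapRingHom, RingHom.map_det]
  congr 1
  ext1 a b
  simp only [RingHom.mapMatrix_apply, Matrix.map_apply, Matrix.of_apply, coe_mapRingHom]
  exact (Polynomial.iterate_derivative_map (φ b) g a).symm

theorem wron_natDegree {F : Type*} [Field F] {ρ : ℕ} (φ : Fin ρ → F[X]) (N : ℕ)
    (hN : ∀ b, (φ b).natDegree ≤ N) : (wron φ).natDegree ≤ ρ * N := by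
  unfold wron
  rw [Matrix.det_apply]
  refine Polynomial.natDegree_sum_le_of_forall_le _ _ fun τ _ => ?_
  refine (Polynomial.natDegree_smul_le _ _).trans ?_
  refine (Polynomial.natDegree_prod_le _ _).trans ?_
  have h1 : ∀ b : Fin ρ, ((Matrix.of fun (a b : Fin ρ) => derivative^[(a : ℕ)] (φ b))
      (τ b) b).natDegree ≤ N := by
    intro b
    simp only [Matrix.of_apply]
    exact (Polynomial.natDegree_iterate_derivative _ _).trans ((Nat.sub_le _ _).trans (hN b))
  calc ∑ b : Fin ρ, ((Matrix.of fun (a b : Fin ρ) => derivative^[(a : ℕ)] (φ b))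
        (τ b) b).natDegree ≤ ∑ _b : Fin ρ, N := Finset.sum_le_sum fun b _ => h1 b
    _ = ρ * N := by simp

theorem sumExtend_inl {ι K V : Type*} [DivisionRing K] [AddCommGroup V] [Module K V] {v : ι → V}
    (hs : LinearIndependent K v) (i : ι) : Module.Basis.sumExtend hs (Sum.inl i) = v i := by
  unfold Module.Basis.sumExtend
  rw [Module.Basis.reindex_apply]
  exact (Module.Basis.extend_apply_self hs.linearIndepOn_id _).trans rfl

/-- derivatives of a multiple of a high power -/
theorem dvd_iterate_derivative {F : Type*} [Field F] (α : F) (ψ : F[X]) (I k : ℕ)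
    (h : (X - C α) ^ I ∣ ψ) : (X - C α) ^ (I - k) ∣ derivative^[k] ψ :=
  Polynomial.pow_sub_dvd_iterate_derivative_of_pow_dvd k h

theorem wron_dvd {K : Type*} [Field K] (α : K) {ρ : ℕ} (φ : Fin ρ → K[X]) {r : ℕ}
    (c : Fin r → Fin ρ → K) (hc : LinearIndependent K c) (I : Fin r → ℕ)
    (hI : ∀ s, (X - C α) ^ (I s) ∣ ∑ b, C (c s b) * φ b) :
    (X - C α) ^ (∑ s, (I s - (ρ - 1))) ∣ wron φ := by
  classical
  set B := Module.Basis.sumExtend hc with hB
  have hfin : Finite (Fin r ⊕ Module.Basis.sumExtendIndex hc) :=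
    Module.Finite.finite_basis B
  have : Finite (Module.Basis.sumExtendIndex hc) := Finite.sum_right (Fin r)
  have : Fintype (Module.Basis.sumExtendIndex hc) := Fintype.ofFinite _
  set e : (Fin r ⊕ Module.Basis.sumExtendIndex hc) ≃ Fin ρ :=
    B.indexEquiv (Pi.basisFun K (Fin ρ)) with he
  set T : Matrix (Fin ρ) (Fin ρ) K := Matrix.of fun b y => B (e.symm y) b with hT
  have hTdet : T.det ≠ 0 := by
    have h1 : (Pi.basisFun K (Fin ρ)).toMatrix (B.reindex e) = T := by
      ext b y
      simp [Module.Basis.toMatrix, hT]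
    have h2 := Module.Basis.invertibleToMatrix (Pi.basisFun K (Fin ρ)) (B.reindex e)
    rw [h1] at h2
    exact (Matrix.isUnit_det_of_invertible T).ne_zero
  set M : Matrix (Fin ρ) (Fin ρ) K[X] := Matrix.of fun a b => derivative^[(a : ℕ)] (φ b) with hM
  set k : Fin ρ → ℕ := fun y => Sum.elim (fun s => I s - (ρ - 1)) (fun _ => 0) (e.symm y) with hk
  set ψ : Fin ρ → K[X] := fun y => ∑ b, C (B (e.symm y) b) * φ b with hψ
  have hent : ∀ a y, (M * T.map C) a y = derivative^[(a : ℕ)] (ψ y) := by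
    intro a y
    simp only [hM, hT, hψ, Matrix.mul_apply, Matrix.of_apply, Matrix.map_apply,
      Polynomial.iterate_derivative_sum, Polynomial.iterate_derivative_C_mul]
    exact Finset.sum_congr rfl fun b _ => mul_comm _ _
  have hdvd : ∀ a y, (X - C α) ^ (k y) ∣ (M * T.map C) a y := by
    intro a y
    rw [hent]
    simp only [hk]
    rcases hy : e.symm y with s | t
    · simp only [Sum.elim_inl]
      have h1 : ψ y = ∑ b, C (c s b) * φ b := by
        simp only [hψ, hy, hB, sumExtend_inl]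
      rw [h1]
      refine dvd_trans (pow_dvd_pow _ ?_) (dvd_iterate_derivative α _ (I s) a (hI s))
      have := a.2
      omega
    · simp
  choose q hq using hdvd
  have hfac : (M * T.map C).det = (X - C α) ^ (∑ y, k y) * (Matrix.of q).det := by
    rw [← Finset.prod_pow_eq_pow_sum, ← Matrix.det_mul_row]
    congr 1
    ext1 a y
    rw [hq a y]
    rfl
  have hsum : ∑ y, k y = ∑ s, (I s - (ρ - 1)) := by
    have h1 := Equiv.sum_comp e k
    rw [← h1, Fintype.sum_sum_type]
    simp [hk]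
  have hdetT : (T.map C).det = C T.det := by
    have := (C : K →+* K[X]).map_det T
    simpa [RingHom.mapMatrix_apply] using this.symm
  have hunit : IsUnit ((T.map C).det) := by
    rw [hdetT]
    exact (isUnit_C).2 (isUnit_iff_ne_zero.2 hTdet)
  rw [Matrix.det_mul, hsum] at hfac
  have h2 : (X - C α) ^ (∑ s, (I s - (ρ - 1))) ∣ M.det * (T.map C).det := ⟨_, hfac⟩
  exact (hunit.dvd_mul_right).1 h2

theorem minpoly_pow_dvd {K : Type} [Field K] [NumberField K] (α : K) :
    ∀ (k : ℕ) (W : ℚ[X]), (X - C α) ^ k ∣ W.map (algebraMap ℚ K) → (minpoly ℚ α) ^ k ∣ W := by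
  have hint : IsIntegral ℚ α := Algebra.IsIntegral.isIntegral α
  have hirr := minpoly.irreducible hint
  have hsep : (minpoly ℚ α).Separable := hirr.separable
  have hroot : (X - C α) ∣ (minpoly ℚ α).map (algebraMap ℚ K) := by
    rw [Polynomial.dvd_iff_isRoot, IsRoot.def, Polynomial.eval_map_algebraMap]
    exact minpoly.aeval ℚ α
  obtain ⟨ν, hν⟩ := hroot
  have hcop : IsCoprime (X - C α) ν := by
    have h1 : ((minpoly ℚ α).map (algebraMap ℚ K)).Separable := hsep.map
    rw [hν] at h1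
    exact h1.isCoprime
  intro k
  induction k with
  | zero => intro W _; simp
  | succ k ih =>
    intro W hW
    have h1 : (X - C α) ∣ W.map (algebraMap ℚ K) :=
      dvd_trans (dvd_pow_self _ (Nat.succ_ne_zero k)) hW
    rw [Polynomial.dvd_iff_isRoot, IsRoot.def, Polynomial.eval_map_algebraMap] at h1
    obtain ⟨W₁, rfl⟩ := minpoly.dvd ℚ α h1
    rw [Polynomial.map_mul, hν, pow_succ', mul_assoc] at hW
    have h2 : (X - C α) ^ k ∣ ν * W₁.map (algebraMap ℚ K) :=
      (mul_dvd_mul_iff_left (X_sub_C_ne_zero α)).1 hW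
    have h3 : (X - C α) ^ k ∣ W₁.map (algebraMap ℚ K) :=
      (hcop.pow_left (m := k)).dvd_of_dvd_mul_left h2
    rw [pow_succ']
    exact mul_dvd_mul_left _ (ih W₁ h3)

theorem wronsk_ineq {K : Type} [Field K] [NumberField K] {n : ℕ} (hn : 2 ≤ n) (α : K)
    (hα : (minpoly ℚ α).natDegree = n) {ρ : ℕ} (φ : Fin ρ → ℚ[X])
    (hlin : LinearIndependent ℚ φ) (N : ℕ) (hN : ∀ b, (φ b).natDegree ≤ N) {r : ℕ}
    (c : Fin r → Fin ρ → K) (hc : LinearIndependent K c) (I : Fin r → ℕ)
    (hI : ∀ s, (X - C α) ^ (I s) ∣ ∑ b, C (c s b) * (φ b).map (algebraMap ℚ K))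
    (m : ℚ) (v : Fin ρ → ℚ) (hv : v ≠ 0) (J : ℕ)
    (hJ : (X - C m) ^ J ∣ ∑ b, C (v b) * φ b) :
    n * ∑ s, (I s - (ρ - 1)) + (J - (ρ - 1)) ≤ ρ * N := by
  have hint : IsIntegral ℚ α := Algebra.IsIntegral.isIntegral α
  have hirr := minpoly.irreducible hint
  have hW := wron_ne φ hlin
  have hdeg := wron_natDegree φ N hN
  have h1 : (minpoly ℚ α) ^ (∑ s, (I s - (ρ - 1))) ∣ wron φ := by
    refine minpoly_pow_dvd α _ _ ?_
    rw [wron_map]
    exact wron_dvd α _ c hc I hI
  have h2 : (X - C m) ^ (J - (ρ - 1)) ∣ wron φ := by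
    have h3 := wron_dvd m φ (r := 1) (fun _ => v) (by
      rw [Fintype.linearIndependent_iff]
      intro g hg i
      rw [Fin.sum_univ_one] at hg
      have : g 0 = 0 := by
        rcases smul_eq_zero.1 hg with h | h
        · exact h
        · exact absurd h hv
      rw [Subsingleton.elim i 0]
      exact this) (fun _ => J) (fun _ => hJ)
    simpa using h3
  have hcop : IsCoprime (minpoly ℚ α) (X - C m) := by
    rw [hirr.coprime_iff_not_dvd]
    intro hd
    have h4 := Polynomial.natDegree_le_of_dvd hd (X_sub_C_ne_zero m)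
    rw [natDegree_X_sub_C, hα] at h4
    omega
  have h5 := (hcop.pow (m := ∑ s, (I s - (ρ - 1))) (n := J - (ρ - 1))).mul_dvd h1 h2
  have h6 := Polynomial.natDegree_le_of_dvd h5 hW
  have hmon : (minpoly ℚ α).Monic := minpoly.monic hint
  rw [Polynomial.Monic.natDegree_mul (hmon.pow _) ((monic_X_sub_C m).pow _),
    hmon.natDegree_pow, (monic_X_sub_C m).natDegree_pow, natDegree_X_sub_C, hα, mul_one] at h6
  rw [mul_comm n]
  exact h6.trans hdeg

end Pool.Agent.H8.EF
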