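import Pool.Agent.H8.EF.Defs
import Pool.Agent.H72.ES.Taylor

/-! # [EF-AK] The coefficient polynomials of the curve

(1) `evt_eq_sum_ak`: `taylor_reindex`-like reindexing of the double sum (`k = n - i - j`).
(2) `ak_props`: `ak n F 0 = lead n F = f` (definitions; `D.hF.lead_eq`), monic of degree `n`
(`Norml.lead_props`); coefficients of `ak n F k`: `F (n-k-i) i` for `i ≤ n-k`, `0` otherwise
(`D.hF.bound`).
(3) `ak_coprime`: `f` is irreducible over `ℚ` (Gauss), `a_1 ≠ 0` (`D.one`) has degree `≤ n - 1 < n`,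
so `f.map` and `a_1.map` are coprime in `ℚ[X]`; a Bezout identity over `ℚ` maps to `S`
(`algebraMap ℚ S`, `DivisionRing.toRatAlgebra`, `IsCoprime.map`). -/

namespace Pool.Agent.H8.EF

open Finset Polynomial Pool.Agent.H72.ES NumberField

variable {K : Type} [Field K] [NumberField K] {j n Q m : ℕ} {A : ℝ} {f : ℤ[X]} {F : ℕ → ℕ → ℤ}

/-- `F~(t, z) = ∑_k a_k(z) t^k` -/
theorem evt_eq_sum_ak {S : Type*} [CommRing S] (n : ℕ) (F : ℕ → ℕ → ℤ) (t z : S) :
    evt n (cst S F) t z = ∑ k ∈ range (n + 1), aeval z (ak n F k) * t ^ k := by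
  unfold evt cst ak
  rw [taylor_reindex n (fun i j => ((F i j : ℤ) : S) * t ^ (n - i - j) * z ^ j)]
  refine sum_congr rfl fun k hk => ?_
  rw [map_sum, sum_mul]
  refine sum_congr rfl fun l hl => ?_
  simp only [mem_range] at hk hl
  have h1 : n - (n - k - l) - l = k := by omega
  rw [h1]
  simp only [map_mul, map_pow, aeval_X, eq_intCast, map_intCast]
  ring

theorem ak_coeff (n : ℕ) (F : ℕ → ℕ → ℤ) (k i : ℕ) :
    (ak n F k).coeff i = if i < n + 1 - k then F (n - k - i) i else 0 := by
  unfold ak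
  rw [finsetSum_coeff]
  simp only [coeff_C_mul, coeff_X_pow, mul_ite, mul_one, mul_zero]
  rw [Finset.sum_ite_eq (range (n + 1 - k)) i]
  simp only [mem_range]

theorem ak_zero (n : ℕ) (F : ℕ → ℕ → ℤ) : ak n F 0 = lead n F := by
  simp [ak, lead]

theorem ak_props (D : Dat K j n Q m A f F) : ak n F 0 = f ∧ (ak n F 0).Monic ∧
    (ak n F 0).natDegree = n ∧ (∀ k, (ak n F k).natDegree ≤ n - k) ∧
    (∀ k i, |(ak n F k).coeff i| ≤ (Q : ℤ)) := by
  have h0 : ak n F 0 = f := (ak_zero n F).trans D.hF.lead_eq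
  obtain ⟨hm, hd, -⟩ := D.hF.lead_props
  refine ⟨h0, by rw [h0]; exact hm, by rw [h0]; exact hd, ?_, ?_⟩
  · intro k
    rw [natDegree_le_iff_coeff_eq_zero]
    intro i hi
    rw [ak_coeff]
    split_ifs with h
    · -- `k > n` and then `n + 1 - k = 0`
      omega
    · rfl
  · intro k i
    rw [ak_coeff]
    split_ifs with h
    · exact D.hF.bound _ _ (by omega)
    · simp

/-- coprimality over any field of characteristic zero -/
theorem ak_coprime (D : Dat K j n Q m A f F) (S : Type*) [Field S] [CharZero S] :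
    IsCoprime (akS S n F 0) (akS S n F 1) := by
  obtain ⟨h0, hm, hd, hdeg, -⟩ := ak_props D
  have hn4 := D.hF.hn
  -- over `ℚ`
  have hQ : IsCoprime (akS ℚ n F 0) (akS ℚ n F 1) := by
    have hirr : Irreducible (akS ℚ n F 0) := by
      unfold akS
      rw [h0]
      have hm' : f.Monic := by rw [← h0]; exact hm
      have := (IsPrimitive.Int.irreducible_iff_irreducible_map_cast hm'.isPrimitive).1 D.irr
      exact this
    rcases (EuclideanDomain.dvd_or_coprime (akS ℚ n F 0) (akS ℚ n F 1) hirr) with h | h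
    · exfalso
      have hne : akS ℚ n F 1 ≠ 0 := by
        unfold akS
        intro h
        exact D.one ((Polynomial.map_eq_zero_iff (RingHom.injective_int _)).1 h)
      have hle := natDegree_le_of_dvd h hne
      have h1 : (akS ℚ n F 0).natDegree = n := by
        unfold akS
        rw [natDegree_map_eq_of_injective (RingHom.injective_int _), hd]
      have h2 : (akS ℚ n F 1).natDegree ≤ n - 1 := by
        unfold akS
        exact natDegree_map_le.trans (hdeg 1)
      omega
    · exact h
  have h := hQ.map (mapRingHom (algebraMap ℚ S))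
  unfold akS at h ⊢
  simp only [coe_mapRingHom, Polynomial.map_map] at h
  have he : (algebraMap ℚ S).comp (Int.castRingHom ℚ) = Int.castRingHom S := RingHom.ext_int _ _
  rw [he] at h
  exact h

end Pool.Agent.H8.EF
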