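import Pool.Agent.H8.EF.Defs

/-! # Anchored number fields -/

namespace Pool.Agent.H8.EF

open NumberField

/-- The number field `K`, of degree `n`, is anchored at the positive integer `m` with constant `A`:
there are `α` in the ring of integers of `K` and an embedding `φ` of `K` in `ℝ` with
`|φ(α) - m| m^(n-1) ≤ A`, such that every other embedding of `K` in `ℂ` is not real and maps `α` to
a number of absolute value at most `A`. -/
def Anchored (K : Type) [Field K] [NumberField K] (m : ℕ) (A : ℝ) : Prop :=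
  ∃ (α : 𝓞 K) (φ : K →+* ℝ), |φ α - m| * (m : ℝ) ^ (Module.finrank ℚ K - 1) ≤ A ∧
    ∀ σ : K →+* ℂ, σ ≠ Complex.ofRealHom.comp φ → ‖σ α‖ ≤ A ∧ ∃ x, (σ x).im ≠ 0

end Pool.Agent.H8.EF
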