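import Pool.Agent.H8.EF.Core
import Pool.Agent.H8.EF.Anch
import Pool.Agent.H8.KF.UniB

/-! # [EF-ARR] From a coefficient array to the normalised curve

`a = G 0 n ≠ 0`, `G' = nrm n G`, `f = lead n G'`, `Q = (2H)^n`: `Norml n Q f G'`
(`nrm_bound`: `≤ H^n ≤ Q`; `2^n ≤ Q` as `H ≥ 1` because `G 0 n ≠ 0`), `f` monic of degree `n`
(`lead_nrm_monic`) irreducible (`lead_nrm_irreducible`). `ak n G' k = 0` for `k > j`,
`ak n G' 1 ≠ 0`: the coefficients of `ak n G' k` (`k ≥ 1`) are `a^(n-1-i) G (n-k-i) i`.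
`θ' = a θ` is a root of `f` (`f(a z) = a^(n-1) leadQ(z)`, see the proof of `lead_nrm_irreducible`),
integral since `f` is monic: an element of `𝓞 K`. `exists_dat` gives `D`.
`ev n G' x (a y) = a^(n-1) ev n G x y = 0` (`ev_nrm`), so `core` gives
`|x| < (m b)^(2 n^4)`, `b = bb n Q = (2H)^(7 n^3)`. `slope_bound` (file `Far`) for `(x, a y)`: either
`max |x| |a y| ≤ Q^5` or `|a y| ≤ Q^2 |x|`. So `max |x| |y| ≤ Q^5 (m b)^(2 n^4) ≤
(m H)^(5 n + 2 n^4 + 14 n^7) ≤ (m H)^(15 n^7)` (`2 ≤ m`, `2H ≤ m H`; `n ≥ 8192`). -/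

namespace Pool.Agent.H8.EF

open Finset Polynomial Pool.Agent.H72.ES NumberField

theorem ak_coeff_arr (n : ℕ) (F : ℕ → ℕ → ℤ) (k i : ℕ) :
    (ak n F k).coeff i = if i < n + 1 - k then F (n - k - i) i else 0 := by
  unfold ak
  rw [finsetSum_coeff]
  simp only [coeff_C_mul, coeff_X_pow, mul_ite, mul_one, mul_zero]
  rw [Finset.sum_ite_eq (range (n + 1 - k)) i]
  simp only [mem_range]

/-- the final numerical estimate -/
theorem arr_num (n m H : ℕ) (hn : 8192 ≤ n) (hm : 2 ≤ m) (hH : 1 ≤ H) :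
    (((2 * H) ^ n) ^ 5 : ℝ) ≤ ((m * H : ℕ) : ℝ) ^ (15 * n ^ 7) ∧
    (((2 * H) ^ n) ^ 2 : ℝ) * (m * (((2 * H) ^ n : ℕ) : ℝ) ^ (7 * n ^ 2)) ^ (2 * n ^ 4) ≤
      ((m * H : ℕ) : ℝ) ^ (15 * n ^ 7) := by
  have hHR : (1 : ℝ) ≤ H := by exact_mod_cast hH
  have hmR : (2 : ℝ) ≤ m := by exact_mod_cast hm
  set Z : ℝ := ((m * H : ℕ) : ℝ) with hZ
  have hZe : Z = m * H := by rw [hZ]; push_cast; ring
  have h2H : (2 * H : ℝ) ≤ Z := by rw [hZe]; nlinarith
  have hmZ : (m : ℝ) ≤ Z := by rw [hZe]; nlinarith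
  have hZ1 : 1 ≤ Z := by linarith
  have hnn : 5 * n ≤ 15 * n ^ 7 := by
    have : n ≤ n ^ 7 := Nat.le_self_pow (by norm_num) n
    omega
  constructor
  · rw [← pow_mul]
    calc (2 * H : ℝ) ^ (n * 5) ≤ Z ^ (n * 5) := pow_le_pow_left₀ (by positivity) h2H _
      _ ≤ Z ^ (15 * n ^ 7) := pow_le_pow_right₀ hZ1 (by omega)
  · have hcast : (((2 * H) ^ n : ℕ) : ℝ) = (2 * (H : ℝ)) ^ n := by push_cast; ring
    rw [hcast]
    have e0 : ∀ u : ℝ, (u ^ n) ^ 2 * (m * (u ^ n) ^ (7 * n ^ 2)) ^ (2 * n ^ 4) =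
        u ^ (n * 2) * ((m : ℝ) ^ (2 * n ^ 4) * u ^ (n * (7 * n ^ 2) * (2 * n ^ 4))) := by
      intro u
      rw [mul_pow, ← pow_mul, ← pow_mul, ← pow_mul, mul_assoc n]
    rw [e0]
    calc (2 * (H : ℝ)) ^ (n * 2) * ((m : ℝ) ^ (2 * n ^ 4) *
          (2 * (H : ℝ)) ^ (n * (7 * n ^ 2) * (2 * n ^ 4)))
        ≤ Z ^ (n * 2) * (Z ^ (2 * n ^ 4) * Z ^ (n * (7 * n ^ 2) * (2 * n ^ 4))) := by
          gcongr
      _ = Z ^ (n * 2 + (2 * n ^ 4 + n * (7 * n ^ 2) * (2 * n ^ 4))) := by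
          rw [← pow_add, ← pow_add]
      _ ≤ Z ^ (15 * n ^ 7) := by
          refine pow_le_pow_right₀ hZ1 ?_
          have h1 : n * (7 * n ^ 2) * (2 * n ^ 4) = 14 * n ^ 7 := by ring
          have h2 : n * 2 + 2 * n ^ 4 ≤ n ^ 7 := by
            have h3 : n ≤ n ^ 4 := Nat.le_self_pow (by norm_num) n
            have h4 : 4 * n ^ 4 ≤ n ^ 7 := by
              calc 4 * n ^ 4 ≤ n ^ 3 * n ^ 4 := by
                    refine Nat.mul_le_mul_right _ ?_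
                    have : n ≤ n ^ 3 := Nat.le_self_pow (by norm_num) n
                    omega
                _ = n ^ 7 := by ring
            omega
          omega

theorem arr_bound (K : Type) [Field K] [NumberField K] (m : ℕ) (A : ℝ) (hA : 1 ≤ A)
    (hK : Anchored K m A) (j n : ℕ) (hj : 2 ≤ j) (hn : 64 * j ^ 7 ≤ n)
    (hKn : Module.finrank ℚ K = n) (hm : (16 * A) ^ (8 * n) ≤ m) (G : ℕ → ℕ → ℤ)
    (hlow : ∀ i k, i + k < n - j → G i k = 0) (hsub : ∃ i ≤ n - 1, G (n - 1 - i) i ≠ 0)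
    (ha : G 0 n ≠ 0) (hirr : Irreducible (leadQ n G)) (θ : K) (hθ : aeval θ (leadQ n G) = 0)
    (H : ℕ) (hH : ∀ i k, i + k ≤ n → |G i k| ≤ (H : ℤ)) (x y : ℤ) (h0 : ev n G x y = 0) :
    max |x| |y| ≤ ((m * H : ℕ) : ℤ) ^ (15 * n ^ 7) := by
  obtain ⟨hn1, hn2, hn3⟩ := num_n hj hn
  have hn1' : 1 ≤ n := by omega
  have hH1 : 1 ≤ H := by
    have h1 := hH 0 n (by omega)
    have h2 : 1 ≤ |G 0 n| := Int.one_le_abs ha
    have h3 : (1 : ℤ) ≤ H := h2.trans h1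
    exact_mod_cast h3
  set Q : ℕ := (2 * H) ^ n with hQ
  have hF : Norml n Q (lead n (nrm n G)) (nrm n G) :=
    { hn := by omega
      hQ := Nat.pow_le_pow_left (by omega) n
      lead_eq := rfl
      top := by simp [nrm]
      bound := fun i k hik => by
        refine (nrm_bound (by omega) G H hH1 hH i k hik).trans ?_
        exact_mod_cast Nat.pow_le_pow_left (by omega : H ≤ 2 * H) n }
  have hirr' : Irreducible (lead n (nrm n G)) := lead_nrm_irreducible (by omega) G ha hirr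
  obtain ⟨hmonic, -⟩ := lead_nrm_monic (n := n) G
  have hcoef : ∀ k, 1 ≤ k → ∀ i, i < n + 1 - k →
      (ak n (nrm n G) k).coeff i = (G 0 n) ^ (n - 1 - i) * G (n - k - i) i := by
    intro k hk i hi
    rw [ak_coeff_arr, if_pos hi]
    simp only [nrm]
    rw [if_neg (by omega)]
  have low : ∀ k, j < k → ak n (nrm n G) k = 0 := by
    intro k hk
    ext i
    by_cases hi : i < n + 1 - k
    · rw [hcoef k (by omega) i hi, hlow (n - k - i) i (by omega), mul_zero, coeff_zero]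
    · rw [ak_coeff_arr, if_neg hi, coeff_zero]
  have one : ak n (nrm n G) 1 ≠ 0 := by
    obtain ⟨i, hi, hne⟩ := hsub
    intro h
    have h1 := hcoef 1 le_rfl i (by omega)
    rw [h, coeff_zero] at h1
    exact (mul_ne_zero (pow_ne_zero _ ha) hne) h1.symm
  -- the root
  have hroot : eval₂ (algebraMap ℤ K) (((G 0 n : ℤ) : K) * θ) (lead n (nrm n G)) = 0 := by
    have h1 := Pool.Agent.H8.KF.eval_nrm hn1' G (algebraMap ℤ K) (algebraMap ℚ K) θ
    rw [h1, ← aeval_def, hθ, mul_zero]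
  have hint : IsIntegral ℤ (((G 0 n : ℤ) : K) * θ) := ⟨_, hmonic, hroot⟩
  set θ' : 𝓞 K := ⟨((G 0 n : ℤ) : K) * θ, hint⟩ with hθ'
  have hroot' : aeval θ' (lead n (nrm n G)) = 0 := by
    apply RingOfIntegers.coe_injective
    rw [map_zero, ← aeval_algebraMap_apply, aeval_def]
    exact hroot
  obtain ⟨α, φ, hnear, hother⟩ := hK
  rw [hKn] at hnear
  obtain ⟨D⟩ := exists_dat hF hirr' hj hn low one hKn α θ' φ hroot' hA hm hnear hother
  have hev : ev n (nrm n G) x (G 0 n * y) = 0 := by rw [ev_nrm hn1', h0, mul_zero]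
  have hc := core D x (G 0 n * y) hev
  have hm2 : 2 ≤ m := by
    have := (alpha_bounds D).1
    omega
  obtain ⟨hnum1, hnum2⟩ := arr_num n m H hn1 hm2 hH1
  have hbb : bb n Q = (((2 * H) ^ n : ℕ) : ℝ) ^ (7 * n ^ 2) := by
    rw [bb, hQ]
  rw [hbb] at hc
  have hay : |y| ≤ |G 0 n * y| := by
    rw [abs_mul]
    have : 1 ≤ |G 0 n| := Int.one_le_abs ha
    nlinarith [abs_nonneg y]
  have hQ2 : (1 : ℝ) ≤ ((2 * H) ^ n) ^ 2 := by
    have hHR : (1 : ℝ) ≤ H := by exact_mod_cast hH1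
    exact one_le_pow₀ (one_le_pow₀ (by linarith))
  have hxR : |(x : ℝ)| ≤ ((m * H : ℕ) : ℝ) ^ (15 * n ^ 7) := by
    refine le_trans ?_ hnum2
    have h1 : (0 : ℝ) ≤ (m * (((2 * H) ^ n : ℕ) : ℝ) ^ (7 * n ^ 2)) ^ (2 * n ^ 4) := by positivity
    nlinarith
  have hyR : |(y : ℝ)| ≤ ((m * H : ℕ) : ℝ) ^ (15 * n ^ 7) := by
    by_cases hbig : (Q : ℤ) ^ 5 < max |x| |G 0 n * y|
    · have h1 := slope_bound hF x (G 0 n * y) (by rw [hev]; simp) hbig
      have h2 : |(y : ℝ)| ≤ ((2 * H) ^ n) ^ 2 * |(x : ℝ)| := by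
        have h3 : |y| ≤ (Q : ℤ) ^ 2 * |x| := hay.trans h1
        have h4 : ((|y| : ℤ) : ℝ) ≤ (((Q : ℤ) ^ 2 * |x| : ℤ) : ℝ) := by exact_mod_cast h3
        push_cast at h4
        rw [hQ] at h4
        push_cast at h4
        exact h4
      refine h2.trans (le_trans ?_ hnum2)
      exact mul_le_mul_of_nonneg_left hc.le (by linarith)
    · push Not at hbig
      refine le_trans ?_ hnum1
      have h3 : |y| ≤ (Q : ℤ) ^ 5 := hay.trans ((le_max_right _ _).trans hbig)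
      have h4 : ((|y| : ℤ) : ℝ) ≤ (((Q : ℤ) ^ 5 : ℤ) : ℝ) := by exact_mod_cast h3
      push_cast at h4
      rw [hQ] at h4
      push_cast at h4
      exact h4
  refine max_le ?_ ?_
  · have : ((|x| : ℤ) : ℝ) ≤ (((((m * H : ℕ) : ℤ) ^ (15 * n ^ 7)) : ℤ) : ℝ) := by
      push_cast
      push_cast at hxR
      exact hxR
    exact_mod_cast this
  · have : ((|y| : ℤ) : ℝ) ≤ (((((m * H : ℕ) : ℤ) ^ (15 * n ^ 7)) : ℤ) : ℝ) := by
      push_cast
      push_cast at hyR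
      exact hyR
    exact_mod_cast this

end Pool.Agent.H8.EF
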