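import Pool.Agent.H8.EF.Defs
import Pool.Agent.H72.ES.BranchEx
import Pool.Agent.H8.KF.CoeffHouse
import Pool.Agent.H8.KF.HouseK

/-! # [EF-BR] The branch at infinity over a ring with a submultiplicative size; existence of `Dat`

(1) `exists_branch_gen`: literally `Pool.Agent.H72.ES.exists_branch` with the order `O` replaced by
a ring `R` with a size `ν` (`SubMul ν`, `ν m ≤ |m|`, `ν α ≤ Q²`). Its proof uses
`exists_series` and `branch_eq` (stated for every ring), and the bounds `tc_bound`, `kappa_bound`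
(file `Taylor`), `brCoef_bound` (file `BranchEx`), whose proofs only use `O.subMul`, `O.ν_int`,
`O.ν_α.trans (nQ_le ..)` (that is `ν α ≤ Q²`): copy them with `ν`.

(2) `exists_dat`: apply (1) to `R = 𝓞 K`, `ν = hs K` (`Pool.Agent.H8.KF.house_subMul`,
`NumberField.house_intCast`; `hs K θ ≤ Q + 1 ≤ Q²`: every conjugate of `θ` is a root of `f`,
`Pool.Agent.H8.KF.root_norm_le`, and `house` is the supremum of the norms of the conjugates). -/

namespace Pool.Agent.H8.EF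

open Finset Polynomial Pool.Agent.H72.ES NumberField

section gen

variable {R : Type} [CommRing R] {ν : R → ℝ} {n Q : ℕ} {f : ℤ[X]} {F : ℕ → ℕ → ℤ} {α : R}

theorem nu_pow_gen (hν : SubMul ν) (hα : ν α ≤ (Q : ℝ) ^ 2) (k : ℕ) :
    ν (α ^ k) ≤ (Q : ℝ) ^ (2 * k) := by
  refine (hν.pow _ _).trans ?_
  rw [pow_mul]
  exact pow_le_pow_left₀ (hν.nonneg _) hα _

theorem nu_nat_gen (hint : ∀ m : ℤ, ν (m : R) ≤ |(m : ℝ)|) (k : ℕ) : ν (k : R) ≤ k := by
  have := hint (k : ℤ)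
  simpa using this

theorem tc_bound_gen (hν : SubMul ν) (hint : ∀ m : ℤ, ν (m : R) ≤ |(m : ℝ)|)
    (hF : Norml n Q f F) (hα : ν α ≤ (Q : ℝ) ^ 2) {i j : ℕ} :
    ν (tc n F α i j) ≤ (Q : ℝ) ^ (3 * n) := by
  have hQ1 := one_le_QR hF.hn hF.hQ
  have hQ0 : (0 : ℝ) ≤ Q := by linarith
  unfold tc
  refine (hν.sum _ _).trans ?_
  have h1 : ∀ l ∈ range (n + 1 - i),
      ν ((F (n - i - l) l : R) * (l.choose j : R) * α ^ (l - j)) ≤
        (Q : ℝ) ^ (2 * n + 2) := by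
    intro l hl
    simp only [mem_range] at hl
    have hF1 : ν (F (n - i - l) l : R) ≤ Q := by
      refine (hint _).trans ?_
      have := hF.bound (n - i - l) l (by omega)
      exact_mod_cast this
    have hc : ν (l.choose j : R) ≤ Q := by
      refine (nu_nat_gen hint _).trans ?_
      have h2 : l.choose j ≤ 2 ^ l := Nat.choose_le_two_pow l j
      have h3 : 2 ^ l ≤ 2 ^ n := Nat.pow_le_pow_right (by norm_num) (by omega)
      exact_mod_cast (h2.trans h3).trans hF.hQ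
    have hα' : ν (α ^ (l - j)) ≤ (Q : ℝ) ^ (2 * n) :=
      (nu_pow_gen hν hα _).trans (Qpow_mono hF.hn hF.hQ (by omega))
    calc ν ((F (n - i - l) l : R) * (l.choose j : R) * α ^ (l - j))
        ≤ ν ((F (n - i - l) l : R) * (l.choose j : R)) * ν (α ^ (l - j)) := hν.mul _ _
      _ ≤ (ν (F (n - i - l) l : R) * ν (l.choose j : R)) * ν (α ^ (l - j)) :=
          mul_le_mul_of_nonneg_right (hν.mul _ _) (hν.nonneg _)
      _ ≤ ((Q : ℝ) * Q) * (Q : ℝ) ^ (2 * n) := by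
          refine mul_le_mul (mul_le_mul hF1 hc (hν.nonneg _) hQ0) hα' (hν.nonneg _) (by positivity)
      _ = (Q : ℝ) ^ (2 * n + 2) := by ring
  refine (sum_le_sum h1).trans ?_
  rw [sum_const, card_range, nsmul_eq_mul]
  have h2 : ((n + 1 - i : ℕ) : ℝ) ≤ Q := by
    have : n + 1 - i ≤ Q := (Nat.sub_le _ _).trans (n_add_one_le hF.hn hF.hQ)
    exact_mod_cast this
  calc ((n + 1 - i : ℕ) : ℝ) * (Q : ℝ) ^ (2 * n + 2) ≤ Q * (Q : ℝ) ^ (2 * n + 2) :=
        mul_le_mul_of_nonneg_right h2 (by positivity)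
    _ = (Q : ℝ) ^ (2 * n + 3) := by ring
    _ ≤ (Q : ℝ) ^ (3 * n) := Qpow_mono hF.hn hF.hQ (by have := hF.hn; omega)

theorem kappa_bound_gen (hν : SubMul ν) (hint : ∀ m : ℤ, ν (m : R) ≤ |(m : ℝ)|)
    (hF : Norml n Q f F) (hα : ν α ≤ (Q : ℝ) ^ 2) :
    ν (aeval α (derivative f)) ≤ (Q : ℝ) ^ (2 * n) := by
  have hQ1 := one_le_QR hF.hn hF.hQ
  have hQ0 : (0 : ℝ) ≤ Q := by linarith
  have hn4 := hF.hn
  have hk : aeval α (derivative f) = tc n F α 0 1 := by
    rw [tc_zero_one, hF.lead_eq]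
  rw [hk]
  unfold tc
  rw [tsub_zero, sum_range_succ']
  have h0 : (F (n - 0 - 0) 0 : R) * (Nat.choose 0 1 : R) * α ^ (0 - 1) = 0 := by simp
  rw [h0, add_zero]
  refine (hν.sum _ _).trans ?_
  have h1 : ∀ l ∈ range n,
      ν ((F (n - 0 - (l + 1)) (l + 1) : R) * ((l + 1).choose 1 : R) *
        α ^ (l + 1 - 1)) ≤ n * (Q : ℝ) ^ (2 * n - 1) := by
    intro l hl
    simp only [mem_range] at hl
    have hF1 : ν (F (n - 0 - (l + 1)) (l + 1) : R) ≤ Q := by
      refine (hint _).trans ?_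
      have := hF.bound (n - 0 - (l + 1)) (l + 1) (by omega)
      exact_mod_cast this
    have hc : ν ((l + 1).choose 1 : R) ≤ n := by
      refine (nu_nat_gen hint _).trans ?_
      rw [Nat.choose_one_right]
      exact_mod_cast (by omega : l + 1 ≤ n)
    have hα' : ν (α ^ (l + 1 - 1)) ≤ (Q : ℝ) ^ (2 * n - 2) :=
      (nu_pow_gen hν hα _).trans (Qpow_mono hF.hn hF.hQ (by omega))
    calc ν ((F (n - 0 - (l + 1)) (l + 1) : R) * ((l + 1).choose 1 : R) *
          α ^ (l + 1 - 1))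
        ≤ ν ((F (n - 0 - (l + 1)) (l + 1) : R) * ((l + 1).choose 1 : R)) *
          ν (α ^ (l + 1 - 1)) := hν.mul _ _
      _ ≤ (ν (F (n - 0 - (l + 1)) (l + 1) : R) * ν ((l + 1).choose 1 : R)) *
          ν (α ^ (l + 1 - 1)) := mul_le_mul_of_nonneg_right (hν.mul _ _) (hν.nonneg _)
      _ ≤ ((Q : ℝ) * n) * (Q : ℝ) ^ (2 * n - 2) := by
          refine mul_le_mul (mul_le_mul hF1 hc (hν.nonneg _) hQ0) hα' (hν.nonneg _) (by positivity)
      _ = n * (Q : ℝ) ^ (2 * n - 1) := by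
          have : 2 * n - 1 = (2 * n - 2) + 1 := by omega
          rw [this, pow_succ]
          ring
  refine (sum_le_sum h1).trans ?_
  rw [sum_const, card_range, nsmul_eq_mul]
  have h2 := n_sq_leR hF.hn hF.hQ
  calc (n : ℝ) * (n * (Q : ℝ) ^ (2 * n - 1)) = (n : ℝ) ^ 2 * (Q : ℝ) ^ (2 * n - 1) := by ring
    _ ≤ Q * (Q : ℝ) ^ (2 * n - 1) := mul_le_mul_of_nonneg_right h2 (by positivity)
    _ = (Q : ℝ) ^ (2 * n) := by
        rw [← pow_succ']
        congr 1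
        omega

/-- coefficients of the fixed point equation -/
noncomputable def brC (n : ℕ) (f : ℤ[X]) (F : ℕ → ℕ → ℤ) (α : R) (i j : ℕ) : R :=
  if i = 0 ∧ j ≤ 1 then 0 else -(tc n F α i j * aeval α (derivative f) ^ (2 * i + j - 2))

theorem brC_bound (hν : SubMul ν) (hint : ∀ m : ℤ, ν (m : R) ≤ |(m : ℝ)|)
    (hF : Norml n Q f F) (hα : ν α ≤ (Q : ℝ) ^ 2) {i j : ℕ}
    (hi : i ≤ n) (hj : j ≤ n) : ν (brC n f F α i j) ≤ (Q : ℝ) ^ (6 * n ^ 2) := by
  have hQ1 := one_le_QR hF.hn hF.hQ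
  unfold brC
  split_ifs with h
  · rw [hν.zero]
    positivity
  · rw [hν.neg]
    refine (hν.mul _ _).trans ?_
    have h1 : ν (tc n F α i j) ≤ (Q : ℝ) ^ (3 * n) := tc_bound_gen hν hint hF hα
    have h2 : ν (aeval α (derivative f) ^ (2 * i + j - 2)) ≤
        ((Q : ℝ) ^ (2 * n)) ^ (2 * i + j - 2) :=
      (hν.pow _ _).trans (pow_le_pow_left₀ (hν.nonneg _) (kappa_bound_gen hν hint hF hα) _)
    calc ν (tc n F α i j) * ν (aeval α (derivative f) ^ (2 * i + j - 2))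
        ≤ (Q : ℝ) ^ (3 * n) * ((Q : ℝ) ^ (2 * n)) ^ (2 * i + j - 2) :=
          mul_le_mul h1 h2 (hν.nonneg _) (by positivity)
      _ = (Q : ℝ) ^ (3 * n + 2 * n * (2 * i + j - 2)) := by
          rw [← pow_mul, ← pow_add]
      _ ≤ (Q : ℝ) ^ (6 * n ^ 2) := by
          refine Qpow_mono hF.hn hF.hQ ?_
          have h3 : 2 * i + j - 2 ≤ 3 * n - 2 := by omega
          have hn := hF.hn
          have h4 : 2 * n * (2 * i + j - 2) ≤ 2 * n * (3 * n - 2) := Nat.mul_le_mul_left _ h3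
          have h5 : 2 * n * (3 * n - 2) = 6 * n ^ 2 - 4 * n := by
            rw [Nat.mul_sub]
            congr 1 <;> ring
          have h6 : 4 * n ≤ 6 * n ^ 2 := by nlinarith
          omega

end gen

theorem exists_branch_gen {R : Type} [CommRing R] (ν : R → ℝ) (hν : SubMul ν)
    (hint : ∀ m : ℤ, ν (m : R) ≤ |(m : ℝ)|) {n Q : ℕ} {f : ℤ[X]} {F : ℕ → ℕ → ℤ}
    (hF : Norml n Q f F) (α : R) (hα : ν α ≤ (Q : ℝ) ^ 2) (hroot : aeval α f = 0) :
    ∃ w : PowerSeries R, PowerSeries.constantCoeff w = 0 ∧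
      evt n (cst (PowerSeries R) F) (PowerSeries.C (aeval α (derivative f)) ^ 2 * PowerSeries.X)
        (PowerSeries.C α + PowerSeries.C (aeval α (derivative f)) * w) = 0 ∧
      ∀ N, wn ν (1 / bb n Q ^ 2) N w ≤ 1 / bb n Q := by
  obtain ⟨w, hw0, hw⟩ := exists_series n (brC n f F α) (by simp [brC]) (by simp [brC])
  have hn := hF.hn
  have hQ := hF.hQ
  have hQ1 := one_le_QR hn hQ
  have hb := bb_pos hn hQ
  have hb1 := one_le_bb hn hQ
  have hρ : (0 : ℝ) ≤ 1 / bb n Q ^ 2 := by positivity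
  have hterm : ∀ K i j : ℕ, i ≤ n → j ≤ n → wn ν (1 / bb n Q ^ 2) K w ≤ 1 / bb n Q →
      wn ν (1 / bb n Q ^ 2) (K + 1)
        (PowerSeries.C (brC n f F α i j) * PowerSeries.X ^ i * w ^ j) ≤
      (Q : ℝ) ^ (6 * n ^ 2) * (1 / bb n Q ^ 2) := by
    intro K i j hi hj hK
    by_cases hij : i = 0 ∧ j ≤ 1
    · have : brC n f F α i j = 0 := by simp [brC, hij]
      rw [this, map_zero, zero_mul, zero_mul, wn_zero hν]
      positivity
    · have hij' : 1 ≤ i ∨ 2 ≤ j := by omega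
      rw [mul_assoc]
      refine (wn_mul_le hν hρ _ _ _).trans ?_
      rw [wn_C hν]
      refine mul_le_mul (brC_bound hν hint hF hα hi hj) ?_ (wn_nonneg hν hρ _ _) (by positivity)
      refine (wn_term_le hν hρ K i j w hw0 hij').trans ?_
      have hr0 := wn_nonneg hν hρ K w
      have hr1 : (1 : ℝ) / bb n Q ≤ 1 := by
        rw [div_le_one hb]
        exact hb1
      have hρ1 : (1 : ℝ) / bb n Q ^ 2 ≤ 1 := by
        rw [div_le_one (by positivity)]
        exact one_le_pow₀ hb1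
      rcases hij' with h | h
      · have h1 : (1 / bb n Q ^ 2) ^ i ≤ (1 / bb n Q ^ 2) ^ 1 :=
          pow_le_pow_of_le_one hρ hρ1 h
        have h2 : wn ν (1 / bb n Q ^ 2) K w ^ j ≤ 1 :=
          pow_le_one₀ hr0 (hK.trans hr1)
        rw [pow_one] at h1
        calc (1 / bb n Q ^ 2) ^ i * wn ν (1 / bb n Q ^ 2) K w ^ j
            ≤ (1 / bb n Q ^ 2) * 1 := mul_le_mul h1 h2 (pow_nonneg hr0 _) hρ
          _ = _ := mul_one _
      · have h1 : (1 / bb n Q ^ 2) ^ i ≤ 1 := pow_le_one₀ hρ hρ1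
        have h2 : wn ν (1 / bb n Q ^ 2) K w ^ j ≤ (1 / bb n Q) ^ j :=
          pow_le_pow_left₀ hr0 hK j
        have h3 : (1 / bb n Q) ^ j ≤ (1 / bb n Q) ^ 2 :=
          pow_le_pow_of_le_one (by positivity) hr1 h
        calc (1 / bb n Q ^ 2) ^ i * wn ν (1 / bb n Q ^ 2) K w ^ j
            ≤ 1 * (1 / bb n Q) ^ 2 :=
              mul_le_mul h1 (h2.trans h3) (pow_nonneg hr0 _) zero_le_one
          _ = _ := by rw [one_mul, div_pow, one_pow]
  refine ⟨w, hw0, ?_, ?_⟩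
  · -- the equation
    refine branch_eq n (by omega) F α (aeval α (derivative f)) ?_ ?_ (brC n f F α)
      (by simp [brC]) (by simp [brC]) ?_ w hw
    · rw [tc_zero_zero, hF.lead_eq, hroot]
    · rw [tc_zero_one, hF.lead_eq]
    · intro i j hij
      simp [brC, hij]
  · -- the bound
    intro K
    induction K with
    | zero =>
      have : wn ν (1 / bb n Q ^ 2) 0 w = 0 := by
        unfold wn
        simp [hw0, hν.zero]
      rw [this]
      positivity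
    | succ K ih =>
      have h1 : wn ν (1 / bb n Q ^ 2) (K + 1) w ≤
          ∑ i ∈ range (n + 1), ∑ j ∈ range (n + 1), (Q : ℝ) ^ (6 * n ^ 2) * (1 / bb n Q ^ 2) := by
        conv_lhs => rw [hw]
        refine (wn_sum_le hν hρ _ _ _).trans (sum_le_sum fun i hi => ?_)
        refine (wn_sum_le hν hρ _ _ _).trans (sum_le_sum fun j hj => ?_)
        simp only [mem_range] at hi hj
        exact hterm K i j (by omega) (by omega) ih
      refine h1.trans ?_
      simp only [sum_const, card_range, nsmul_eq_mul]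
      have h2 : ((n : ℝ) + 1) ≤ Q := n_add_one_leR hn hQ
      have h3 : ((n + 1 : ℕ) : ℝ) * (((n + 1 : ℕ) : ℝ) *
          ((Q : ℝ) ^ (6 * n ^ 2) * (1 / bb n Q ^ 2))) ≤
          (Q : ℝ) ^ (6 * n ^ 2 + 2) * (1 / bb n Q ^ 2) := by
        push_cast
        have h4 : ((n : ℝ) + 1) * ((n : ℝ) + 1) ≤ (Q : ℝ) * Q :=
          mul_le_mul h2 h2 (by positivity) (by positivity)
        calc ((n : ℝ) + 1) * (((n : ℝ) + 1) * ((Q : ℝ) ^ (6 * n ^ 2) * (1 / bb n Q ^ 2)))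
            = (((n : ℝ) + 1) * ((n : ℝ) + 1)) * ((Q : ℝ) ^ (6 * n ^ 2) * (1 / bb n Q ^ 2)) := by
              ring
          _ ≤ ((Q : ℝ) * Q) * ((Q : ℝ) ^ (6 * n ^ 2) * (1 / bb n Q ^ 2)) :=
              mul_le_mul_of_nonneg_right h4 (by positivity)
          _ = _ := by ring
      refine h3.trans ?_
      have h5 : (Q : ℝ) ^ (6 * n ^ 2 + 2) ≤ bb n Q := Qpow_le_bb hn hQ (by nlinarith)
      calc (Q : ℝ) ^ (6 * n ^ 2 + 2) * (1 / bb n Q ^ 2) ≤ bb n Q * (1 / bb n Q ^ 2) :=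
            mul_le_mul_of_nonneg_right h5 hρ
        _ = 1 / bb n Q := by
            field_simp

theorem hs_subMul (K : Type) [Field K] [NumberField K] : SubMul (hs K) :=
  Pool.Agent.H8.KF.house_subMul K

theorem hs_int (K : Type) [Field K] [NumberField K] (m : ℤ) :
    hs K ((m : ℤ) : 𝓞 K) ≤ |(m : ℝ)| := by
  unfold hs
  have h := house_intCast (K := K) m
  rw [map_intCast, h, Int.cast_abs]

/-- the house bounds every conjugate -/
theorem norm_em_le_hs {K : Type} [Field K] [NumberField K] (σ : K →+* ℂ) (a : 𝓞 K) :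
    ‖σ (a : K)‖ ≤ hs K a :=
  norm_embedding_le_house _ σ

theorem hs_root_le {K : Type} [Field K] [NumberField K] {n Q : ℕ} {f : ℤ[X]} {F : ℕ → ℕ → ℤ}
    (hF : Norml n Q f F) (θ : 𝓞 K) (hroot : aeval θ f = 0) : hs K θ ≤ (Q : ℝ) ^ 2 := by
  obtain ⟨hm, hd, hc⟩ := hF.lead_props
  have hQ1 := one_le_QR hF.hn hF.hQ
  have hQ2 : (2 : ℝ) ≤ Q := by
    have h1 : (2 : ℕ) ≤ Q := by
      calc 2 = 2 ^ 1 := by norm_num
        _ ≤ 2 ^ n := Nat.pow_le_pow_right (by norm_num) (by have := hF.hn; omega)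
        _ ≤ Q := hF.hQ
    exact_mod_cast h1
  have hgoal : ∀ σ : K →+* ℂ, ‖σ (θ : K)‖ ≤ (Q : ℝ) ^ 2 := by
    intro σ
    have h1 : (f.map (Int.castRingHom ℂ)).IsRoot (σ (θ : K)) := by
      rw [IsRoot.def, eval_map]
      have h2 : σ (algebraMap (𝓞 K) K (aeval θ f)) = 0 := by
        rw [hroot, map_zero, map_zero]
      have h3 : σ (algebraMap (𝓞 K) K (aeval θ f)) =
          eval₂ (Int.castRingHom ℂ) (σ (θ : K)) f := by
        have e1 : σ (algebraMap (𝓞 K) K (aeval θ f)) =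
            (σ.comp (algebraMap (𝓞 K) K)) (eval₂ (algebraMap ℤ (𝓞 K)) θ f) := rfl
        rw [e1, hom_eval₂]
        congr 1
        ext
        simp
      rw [← h3, h2]
    refine (Pool.Agent.H8.KF.root_norm_le hm hc h1).trans ?_
    nlinarith
  unfold hs
  rw [house_eq_sup']
  have hq0 : (0 : ℝ) ≤ (Q : ℝ) ^ 2 := by positivity
  have : (univ.sup' univ_nonempty (fun φ : K →+* ℂ ↦ ‖φ (algebraMap (𝓞 K) K θ)‖₊)) ≤
      (⟨(Q : ℝ) ^ 2, hq0⟩ : NNReal) := by
    refine Finset.sup'_le _ _ fun σ _ => ?_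
    exact hgoal σ
  exact this

theorem exists_dat {K : Type} [Field K] [NumberField K] {j n Q m : ℕ} {A : ℝ} {f : ℤ[X]}
    {F : ℕ → ℕ → ℤ} (hF : Norml n Q f F) (irr : Irreducible f) (hj : 2 ≤ j)
    (hjn : 64 * j ^ 7 ≤ n) (low : ∀ k, j < k → ak n F k = 0) (one : ak n F 1 ≠ 0)
    (hK : Module.finrank ℚ K = n) (α θ : 𝓞 K) (φ : K →+* ℝ) (root : aeval θ f = 0) (hA : 1 ≤ A)
    (hm : (16 * A) ^ (8 * n) ≤ m) (near : |φ α - m| * (m : ℝ) ^ (n - 1) ≤ A)
    (other : ∀ σ : K →+* ℂ, σ ≠ Complex.ofRealHom.comp φ → ‖σ α‖ ≤ A ∧ ∃ x, (σ x).im ≠ 0) :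
    Nonempty (Dat K j n Q m A f F) := by
  obtain ⟨w, w0, weq, wbd⟩ := exists_branch_gen (hs K) (hs_subMul K) (hs_int K) hF θ
    (hs_root_le hF θ root) root
  exact ⟨⟨hF, irr, hj, hjn, low, one, hK, α, θ, φ, root, hA, hm, near, other, w, w0, weq, wbd⟩⟩

end Pool.Agent.H8.EF
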