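import Pool.Agent.H8.EF.Ak

/-! # [EF-RINT] Values at integer points are almost integers

`a_k = ak n F k`, `a_0 = f` monic of degree `n`, `a_1 ≠ 0` of degree `≤ n-1`, coprime over `ℚ`.
`R = resultant a_0 a_1 n (n-1)` (`Polynomial.resultant`), `R ≠ 0` (`resultant_ne_zero` over `ℚ`;
or directly: if `R = 0` the identity below gives `a_0 ∣ a_1 v` over `ℚ`, ...),
`u a_0 + v a_1 = R` with `deg u < n-1`, `deg v < n` (`exists_mul_add_mul_eq_C_resultant`).
`|R| ≤ (2n-1)! Q^(2n-1) ≤ Q^(4n) ≤ b` (determinant of the Sylvester matrix with entries `≤ Q`,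
`Matrix.det_le` or as in `Pool.Agent.H72.ES.liou_adj`; or `|R| = ∏ |a_1(θ_i)|`).

Let `(x, y) = τ (q, p)`, `gcd(p,q) = 1`, `q ≠ 0`, `z = y/x = p/q`, `V = ∑_k g_k(z) x^(j-k)`.
Using `∑_k a_k(z) x^(j-k) = 0` (this is `ev n F x y = 0` divided by `x^(n-j)`; `a_k = 0` for
`k > j`):
`a_0(z) V = ∑_k (a_0 g_k - a_k g_0)(z) x^(j-k)`, `a_1(z) V = ∑_k (a_1 g_k - a_k g_1)(z) x^(j-k)`.
`deg (a_0 g_k - a_k g_0) ≤ n+j-k` and, since
`a_0 (a_1 g_k - a_k g_1) = a_1 (a_0 g_k - a_k g_0) - a_k (a_0 g_1 - a_1 g_0)`,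
`deg (a_1 g_k - a_k g_1) ≤ n-1+j-k`. For an integer polynomial `h` of degree `≤ d` the number
`q^d h(p/q)` is an integer. As `x^(j-k) = τ^(j-k) q^(j-k)`: `q^n a_0(z) V ∈ ℤ`,
`q^(n-1) a_1(z) V ∈ ℤ`, so `R q^(2n-1) V = (q^(n-1) u(z)) (q^n a_0(z) V) +
(q^n v(z)) (q^(n-1) a_1(z) V) ∈ ℤ`. `A_0 = q^n a_0(p/q) = p^n + q (...)` is prime to `q`, hence to
`q^(2n-1)`; from `A_0 V ∈ ℤ` and `R q^(2n-1) V ∈ ℤ` we get `R V ∈ ℤ`. -/

namespace Pool.Agent.H8.EF

open Finset Polynomial Pool.Agent.H72.ES NumberField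

variable {K : Type} [Field K] [NumberField K] {j n Q m : ℕ} {A : ℝ} {f : ℤ[X]} {F : ℕ → ℕ → ℤ}

/-- homogenised value -/
def riH (d : ℕ) (h : ℤ[X]) (p q : ℤ) : ℤ := ∑ i ∈ range (d + 1), h.coeff i * p ^ i * q ^ (d - i)

theorem riH_eq (d : ℕ) (h : ℤ[X]) (hd : h.natDegree ≤ d) (p q : ℤ) (z : ℝ) (hz : z * q = p) :
    ((riH d h p q : ℤ) : ℝ) = (q : ℝ) ^ d * (h.map (Int.castRingHom ℝ)).eval z := by
  have h1 : (h.map (Int.castRingHom ℝ)).natDegree < d + 1 :=
    lt_of_le_of_lt natDegree_map_le (by omega)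
  rw [eval_eq_sum_range' h1, riH, mul_sum]
  push_cast
  refine sum_congr rfl fun i hi => ?_
  rw [mem_range] at hi
  rw [coeff_map, eq_intCast, ← hz]
  have h2 : (q : ℝ) ^ d = q ^ (d - i) * q ^ i := by
    rw [← pow_add]
    congr 1
    omega
  rw [h2, mul_pow]
  ring

theorem riH_coprime (n : ℕ) (h : ℤ[X]) (hm : h.Monic) (hd : h.natDegree = n) (p q : ℤ)
    (hpq : IsCoprime p q) : IsCoprime (riH n h p q) q := by
  have h1 : riH n h p q = p ^ n + q * ∑ i ∈ range n, h.coeff i * p ^ i * q ^ (n - 1 - i) := by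
    rw [riH, sum_range_succ, add_comm]
    congr 1
    · have : h.coeff n = 1 := by rw [← hd]; exact hm
      rw [this, Nat.sub_self, pow_zero]
      ring
    · rw [mul_sum]
      refine sum_congr rfl fun i hi => ?_
      rw [mem_range] at hi
      have : n - i = (n - 1 - i) + 1 := by omega
      rw [this, pow_succ]
      ring
  rw [h1]
  exact (hpq.pow_left).add_mul_left_left _

theorem ri_natDegree_le {b : ℤ[X]} {d : ℕ} (h : b ∈ degreeLT ℤ (d + 1)) : b.natDegree ≤ d := by
  rw [mem_degreeLT] at h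
  by_cases hb : b = 0
  · rw [hb]; simp
  · have := (natDegree_lt_iff_degree_lt hb).2 h
    omega

/-- the curve equation in the coordinates `x`, `z = y/x` -/
theorem ri_curve (hjn : j ≤ n) (low : ∀ k, j < k → ak n F k = 0) (x y : ℤ) (hx : x ≠ 0)
    (hev : ev n F x y = 0) :
    ∑ k : Fin (j + 1), ((ak n F k).map (Int.castRingHom ℝ)).eval ((y : ℝ) / x) *
      (x : ℝ) ^ (j - (k : ℕ)) = 0 := by
  have hx' : (x : ℝ) ≠ 0 := by exact_mod_cast hx
  have h1 : ev n (cst ℝ F) (x : ℝ) (y : ℝ) = 0 := by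
    have := ev_map (Int.castRingHom ℝ) n F x y
    rw [hev, map_zero] at this
    exact this.symm
  have h2 : evt n (cst ℝ F) ((x : ℝ)⁻¹) ((x : ℝ)⁻¹ * y) = 0 := by
    rw [evt_eq_ev n _ (x : ℝ) y _ (inv_mul_cancel₀ hx'), h1, mul_zero]
  rw [evt_eq_sum_ak] at h2
  have hz : (x : ℝ)⁻¹ * y = (y : ℝ) / x := by ring
  rw [hz] at h2
  have h3 : ∑ k ∈ range (j + 1), aeval ((y : ℝ) / x) (ak n F k) * ((x : ℝ)⁻¹) ^ k = 0 := by
    rw [← h2]
    refine sum_subset (range_mono (by omega)) fun k _ hk => ?_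
    rw [mem_range, not_lt] at hk
    rw [low k (by omega), map_zero, zero_mul]
  have h4 : ∑ k ∈ range (j + 1), ((ak n F k).map (Int.castRingHom ℝ)).eval ((y : ℝ) / x) *
      (x : ℝ) ^ (j - k) = 0 := by
    have h5 := congrArg (fun t => (x : ℝ) ^ j * t) h3
    simp only [mul_zero] at h5
    rw [← h5, mul_sum]
    refine sum_congr rfl fun k hk => ?_
    rw [mem_range] at hk
    have h6 : (x : ℝ) ^ j = x ^ (j - k) * x ^ k := by
      rw [← pow_add]
      congr 1
      omega
    have h7 : (x : ℝ) ^ k * ((x : ℝ)⁻¹) ^ k = 1 := by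
      rw [← mul_pow, mul_inv_cancel₀ hx', one_pow]
    have h8 : aeval ((y : ℝ) / x) (ak n F k) =
        ((ak n F k).map (Int.castRingHom ℝ)).eval ((y : ℝ) / x) := by
      rw [eval_map, aeval_def]
      rfl
    rw [h8, h6]
    calc _ = ((ak n F k).map (Int.castRingHom ℝ)).eval ((y : ℝ) / x) * (x : ℝ) ^ (j - k) * 1 := by
          ring
      _ = _ := by rw [← h7]; ring
  rw [← h4, ← Fin.sum_univ_eq_sum_range (fun k => ((ak n F k).map (Int.castRingHom ℝ)).eval
    ((y : ℝ) / x) * (x : ℝ) ^ (j - k))]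

/-- the size of the resultant -/
theorem ri_size {n Q : ℕ} (hn : 4 ≤ n) (hQ : 2 ^ n ≤ Q) (a b : ℤ[X])
    (ha : ∀ i, |a.coeff i| ≤ (Q : ℤ)) (hb : ∀ i, |b.coeff i| ≤ (Q : ℤ)) :
    |((a.resultant b n (n - 1) : ℤ) : ℝ)| ≤ bb n Q := by
  have hQ1 : (1 : ℝ) ≤ Q := by
    have : 1 ≤ Q := le_trans Nat.one_le_two_pow hQ
    exact_mod_cast this
  have h1 : ∀ i k, (AbsoluteValue.abs : AbsoluteValue ℤ ℤ) (sylvester a b n (n - 1) i k) ≤ (Q : ℤ) := by
    intro i k
    change |sylvester a b n (n - 1) i k| ≤ (Q : ℤ)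
    rw [sylvester, Matrix.of_apply]
    refine Fin.addCases (fun k₁ => ?_) (fun k₁ => ?_) k
    · rw [Fin.addCases_left]
      split_ifs
      · exact hb _
      · simp
    · rw [Fin.addCases_right]
      split_ifs
      · exact ha _
      · simp
  have h2 := Matrix.det_le h1
  rw [Fintype.card_fin, nsmul_eq_mul] at h2
  have h3 : |a.resultant b n (n - 1)| ≤
      (((n + (n - 1)).factorial : ℕ) : ℤ) * (Q : ℤ) ^ (n + (n - 1)) := h2
  have h4 : |((a.resultant b n (n - 1) : ℤ) : ℝ)| ≤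
      ((n + (n - 1)).factorial : ℝ) * (Q : ℝ) ^ (n + (n - 1)) := by exact_mod_cast h3
  refine h4.trans ?_
  have h5 : (n + (n - 1)).factorial ≤ Q ^ (n + (n - 1)) := by
    refine (Nat.factorial_le_pow _).trans (Nat.pow_le_pow_left ?_ _)
    refine le_trans ?_ hQ
    have h6 : ∀ m : ℕ, 4 ≤ m → 2 * m ≤ 2 ^ m := by
      intro m hm
      induction m, hm using Nat.le_induction with
      | base => norm_num
      | succ m hm ih => rw [pow_succ]; omega
    have := h6 n hn
    omega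
  have h6 : ((n + (n - 1)).factorial : ℝ) ≤ (Q : ℝ) ^ (n + (n - 1)) := by exact_mod_cast h5
  calc ((n + (n - 1)).factorial : ℝ) * (Q : ℝ) ^ (n + (n - 1))
      ≤ (Q : ℝ) ^ (n + (n - 1)) * (Q : ℝ) ^ (n + (n - 1)) :=
        mul_le_mul_of_nonneg_right h6 (by positivity)
    _ = (Q : ℝ) ^ ((n + (n - 1)) + (n + (n - 1))) := by rw [← pow_add]
    _ ≤ (Q : ℝ) ^ (7 * n ^ 2) := by
        refine pow_le_pow_right₀ hQ1 ?_
        have : 4 * n ≤ 7 * n ^ 2 := by nlinarith
        omega
    _ = bb n Q := rfl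

theorem r_int (D : Dat K j n Q m A f F) : ∃ R : ℤ, R ≠ 0 ∧ |(R : ℝ)| ≤ bb n Q ∧
    ∀ g : Fin (j + 1) → ℤ[X], g ∈ Lsp ℤ j n 0 (ak n F) → ∀ x y : ℤ, x ≠ 0 → ev n F x y = 0 →
      ∃ v : ℤ, (v : ℝ) = R * val (x : ℝ) ((y : ℝ) / x) (mapG (Int.castRingHom ℝ) g) := by
  obtain ⟨hf0, hmon, hdeg, hdegk, hcoef⟩ := ak_props D
  have hj := D.hj
  have hjn : j ≤ n := by
    have h1 := D.hjn
    have h2 : j ≤ j ^ 7 := Nat.le_self_pow (by norm_num) j
    omega
  have hn4 := D.hF.hn
  set a0 := ak n F 0 with ha0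
  set a1 := ak n F 1 with ha1
  set R := a0.resultant a1 n (n - 1) with hR
  obtain ⟨u, v, hu, hv, huv⟩ := exists_mul_add_mul_eq_C_resultant a0 a1 hdeg.le
    (by simpa using hdegk 1 : a1.natDegree ≤ n - 1) (Or.inl (by omega))
  refine ⟨R, ?_, ?_, ?_⟩
  · -- nonvanishing
    intro h0
    have h1 := ak_coprime D ℚ
    have h2 := resultant_ne_zero _ _ h1
    apply h2
    have e0 : (akS ℚ n F 0).natDegree = n := by
      rw [akS, hmon.natDegree_map]
      exact hdeg
    have e0c : (akS ℚ n F 0).coeff n = 1 := by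
      have h3 : (akS ℚ n F 0).coeff (akS ℚ n F 0).natDegree = 1 := hmon.map (Int.castRingHom ℚ)
      rwa [e0] at h3
    have e1 : (akS ℚ n F 1).natDegree ≤ n - 1 := natDegree_map_le.trans (hdegk 1)
    rw [e0]
    obtain ⟨k, hk⟩ := Nat.exists_eq_add_of_le e1
    have h3 : resultant (akS ℚ n F 0) (akS ℚ n F 1) n (n - 1) =
        (akS ℚ n F 0).coeff n ^ k * resultant (akS ℚ n F 0) (akS ℚ n F 1) n
          (akS ℚ n F 1).natDegree := by
      rw [hk]
      exact resultant_add_right_deg _ _ _ _ k le_rfl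
    rw [e0c, one_pow, one_mul] at h3
    rw [← h3]
    have h4 := resultant_map_map a0 a1 n (n - 1) (Int.castRingHom ℚ)
    change resultant (a0.map (Int.castRingHom ℚ)) (a1.map (Int.castRingHom ℚ)) n (n - 1) = 0
    rw [h4, ← hR, h0, map_zero]
  · exact ri_size hn4 D.hF.hQ a0 a1 (hcoef 0) (hcoef 1)
  · intro g hg x y hx hev
    have hx' : (x : ℝ) ≠ 0 := by exact_mod_cast hx
    -- the polynomials
    have hb : ∀ k : Fin (j + 1), (a0 * g k - ak n F k * g 0).natDegree ≤ n + j - k := by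
      intro k
      have h1 := (hg k).2
      have h2 : n + j + 1 - (k : ℕ) - 0 = (n + j - k) + 1 := by have := k.2; omega
      rw [h2] at h1
      exact ri_natDegree_le h1
    set one : Fin (j + 1) := ⟨1, by omega⟩ with hone
    have hc : ∀ k : Fin (j + 1), (a1 * g k - ak n F k * g one).natDegree ≤ n - 1 + j - k := by
      intro k
      by_cases h0 : a1 * g k - ak n F k * g one = 0
      · rw [h0]; simp
      · have h1 : a0 * (a1 * g k - ak n F k * g one) =
            a1 * (a0 * g k - ak n F k * g 0) - ak n F k * (a0 * g one - ak n F one * g 0) := by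
          have : ak n F (one : ℕ) = a1 := rfl
          rw [this]
          ring
        have h2 := hmon.natDegree_mul' h0
        rw [h1, hdeg] at h2
        have h3 : (a1 * (a0 * g k - ak n F k * g 0) -
            ak n F k * (a0 * g one - ak n F one * g 0)).natDegree ≤ 2 * n - 1 + j - k := by
          refine (natDegree_sub_le _ _).trans (max_le ?_ ?_)
          · refine natDegree_mul_le.trans ?_
            have e1 := hb k
            have e2 : a1.natDegree ≤ n - 1 := hdegk 1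
            have := k.2
            omega
          · refine natDegree_mul_le.trans ?_
            have e1 : (a0 * g one - ak n F one * g 0).natDegree ≤ n + j - 1 := hb one
            have e2 := hdegk k
            have := k.2
            omega
        have := k.2
        omega
    -- reduce the point
    obtain ⟨τ, p, q, hτ, hpq, hy, hxq⟩ := Int.exists_gcd_one' (m := y) (n := x)
      (Int.gcd_pos_of_ne_zero_right _ hx)
    have hτ' : (τ : ℝ) ≠ 0 := by positivity
    have hq0 : (q : ℝ) ≠ 0 := by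
      intro h
      apply hx'
      rw [hxq]
      push_cast
      rw [h, zero_mul]
    set z : ℝ := (y : ℝ) / x with hz
    have hzq : z * q = p := by
      rw [hz, hy, hxq]
      push_cast
      field_simp
    have hcop : IsCoprime p q := Int.isCoprime_iff_gcd_eq_one.2 hpq
    have hxp : ∀ k : Fin (j + 1), (x : ℝ) ^ (j - (k : ℕ)) = (τ : ℝ) ^ (j - (k : ℕ)) *
        (q : ℝ) ^ (j - (k : ℕ)) := by
      intro k
      rw [← mul_pow, hxq]
      push_cast
      ring
    have hcurve := ri_curve hjn D.low x y hx hev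
    rw [← hz] at hcurve
    set ρ := Int.castRingHom ℝ with hρ
    set V : ℝ := val (x : ℝ) z (mapG ρ g) with hV
    have hVs : V = ∑ k : Fin (j + 1), ((g k).map ρ).eval z * (x : ℝ) ^ (j - (k : ℕ)) := rfl
    -- first function
    have h1 : ((∑ k : Fin (j + 1), (τ : ℤ) ^ (j - (k : ℕ)) *
        riH (n + j - k) (a0 * g k - ak n F k * g 0) p q : ℤ) : ℝ) =
        (q : ℝ) ^ n * (a0.map ρ).eval z * V := by
      push_cast
      have e1 : (a0.map ρ).eval z * V = ∑ k : Fin (j + 1),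
          ((a0 * g k - ak n F k * g 0).map ρ).eval z * (x : ℝ) ^ (j - (k : ℕ)) := by
        have e2 : ∑ k : Fin (j + 1),
            ((a0 * g k - ak n F k * g 0).map ρ).eval z * (x : ℝ) ^ (j - (k : ℕ)) =
            (a0.map ρ).eval z * V - ((g 0).map ρ).eval z *
              ∑ k : Fin (j + 1), ((ak n F k).map ρ).eval z * (x : ℝ) ^ (j - (k : ℕ)) := by
          rw [hVs, mul_sum, mul_sum, ← sum_sub_distrib]
          refine sum_congr rfl fun k _ => ?_
          rw [Polynomial.map_sub, Polynomial.map_mul, Polynomial.map_mul, eval_sub, eval_mul,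
            eval_mul]
          ring
        rw [e2, hcurve, mul_zero, sub_zero]
      rw [mul_assoc, e1, mul_sum]
      refine sum_congr rfl fun k _ => ?_
      rw [riH_eq _ _ (hb k) p q z hzq, hxp k]
      have e3 : (q : ℝ) ^ (n + j - (k : ℕ)) = q ^ n * q ^ (j - (k : ℕ)) := by
        rw [← pow_add]
        congr 1
        have := k.2
        omega
      rw [e3]
      ring
    have h2 : ((∑ k : Fin (j + 1), (τ : ℤ) ^ (j - (k : ℕ)) *
        riH (n - 1 + j - k) (a1 * g k - ak n F k * g one) p q : ℤ) : ℝ) =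
        (q : ℝ) ^ (n - 1) * (a1.map ρ).eval z * V := by
      push_cast
      have e1 : (a1.map ρ).eval z * V = ∑ k : Fin (j + 1),
          ((a1 * g k - ak n F k * g one).map ρ).eval z * (x : ℝ) ^ (j - (k : ℕ)) := by
        have e2 : ∑ k : Fin (j + 1),
            ((a1 * g k - ak n F k * g one).map ρ).eval z * (x : ℝ) ^ (j - (k : ℕ)) =
            (a1.map ρ).eval z * V - ((g one).map ρ).eval z *
              ∑ k : Fin (j + 1), ((ak n F k).map ρ).eval z * (x : ℝ) ^ (j - (k : ℕ)) := by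
          rw [hVs, mul_sum, mul_sum, ← sum_sub_distrib]
          refine sum_congr rfl fun k _ => ?_
          rw [Polynomial.map_sub, Polynomial.map_mul, Polynomial.map_mul, eval_sub, eval_mul,
            eval_mul]
          ring
        rw [e2, hcurve, mul_zero, sub_zero]
      rw [mul_assoc, e1, mul_sum]
      refine sum_congr rfl fun k _ => ?_
      rw [riH_eq _ _ (hc k) p q z hzq, hxp k]
      have e3 : (q : ℝ) ^ (n - 1 + j - (k : ℕ)) = q ^ (n - 1) * q ^ (j - (k : ℕ)) := by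
        rw [← pow_add]
        congr 1
        have := k.2
        omega
      rw [e3]
      ring
    set N0 : ℤ := ∑ k : Fin (j + 1), (τ : ℤ) ^ (j - (k : ℕ)) *
        riH (n + j - k) (a0 * g k - ak n F k * g 0) p q with hN0
    set N1 : ℤ := ∑ k : Fin (j + 1), (τ : ℤ) ^ (j - (k : ℕ)) *
        riH (n - 1 + j - k) (a1 * g k - ak n F k * g one) p q with hN1
    -- the cofactors
    have hun : u.natDegree ≤ n - 1 := by
      by_cases h0 : u = 0
      · rw [h0]; simp
      · have := (natDegree_lt_iff_degree_lt h0).2 hu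
        omega
    have hvn : v.natDegree ≤ n := by
      by_cases h0 : v = 0
      · rw [h0]; simp
      · have := (natDegree_lt_iff_degree_lt h0).2 hv
        omega
    have h3 : (R : ℝ) = (a0.map ρ).eval z * (u.map ρ).eval z + (a1.map ρ).eval z * (v.map ρ).eval z := by
      have e1 := congrArg (fun P : ℤ[X] => (P.map ρ).eval z) huv
      simp only [Polynomial.map_add, Polynomial.map_mul, eval_add, eval_mul, map_C, eval_C] at e1
      rw [e1, ← hR]
      rfl
    have h4 : ((riH (n - 1) u p q * N0 + riH n v p q * N1 : ℤ) : ℝ) =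
        R * (q : ℝ) ^ (n + (n - 1)) * V := by
      push_cast
      rw [riH_eq _ _ hun p q z hzq, riH_eq _ _ hvn p q z hzq, h1, h2, h3, pow_add]
      ring
    have h5 : IsCoprime (riH n a0 p q) (q ^ (n + (n - 1))) :=
      (riH_coprime n a0 hmon hdeg p q hcop).pow_right
    obtain ⟨s, t, hst⟩ := h5
    have h6 : ((riH n a0 p q : ℤ) : ℝ) * V = N0 := by
      rw [riH_eq _ _ hdeg.le p q z hzq, h1]
    refine ⟨s * R * N0 + t * (riH (n - 1) u p q * N0 + riH n v p q * N1), ?_⟩
    rw [Int.cast_add, Int.cast_mul t, h4]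
    have h7 : (s : ℝ) * ((riH n a0 p q : ℤ) : ℝ) + t * (q : ℝ) ^ (n + (n - 1)) = 1 := by
      exact_mod_cast hst
    calc ((s * R * N0 : ℤ) : ℝ) + (t : ℝ) * (R * (q : ℝ) ^ (n + (n - 1)) * V)
        = R * V * ((s : ℝ) * ((riH n a0 p q : ℤ) : ℝ) + t * (q : ℝ) ^ (n + (n - 1))) := by
          push_cast
          rw [← h6]
          ring
      _ = _ := by rw [h7, mul_one]

end Pool.Agent.H8.EF
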