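import Mathlib

/-! # [EF-TAY] Size of the derivatives near a high order zero

`p.taylor r = ∑_k p_k X^k` with `p_k = (hasseDeriv k p).eval r` (`taylor_coeff`), `p_k = 0` for
`k < I` and `k > N`. `(hasseDeriv i p).eval m = ∑_k C(k,i) p_k (m - r)^(k-i)` (apply `hasseDeriv` to
`p = (p.taylor r).comp (X - C r)`, or `taylor (m) p = taylor (m - r) (taylor r p)`
(`taylor_taylor`) and `taylor_coeff`, `hasseDeriv_apply`/`eval`).
`|p_k| ≤ ∑_e |p.coeff e| C(e,k) r^(e-k) ≤ (N+1) B 2^N r^(N-k) ≤ (N+1) B 2^N r^(N-I)` for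
`I ≤ k ≤ N`, `r ≥ 1`; `C(k,i) ≤ 2^N`; `|m - r|^(k-i) ≤ |m-r|^(I-i)`. At most `N + 1` terms. -/

namespace Pool.Agent.H8.EF

open Finset Polynomial

private theorem tay_hasse (q : ℝ[X]) (N i : ℕ) (s : ℝ) (hN : q.natDegree ≤ N) :
    (hasseDeriv i q).eval s =
      ∑ k ∈ range (N + 1), (k.choose i : ℝ) * q.coeff k * s ^ (k - i) := by
  rw [hasseDeriv_apply, sum_over_range' _ (by simp) (N + 1) (Nat.lt_succ_of_le hN),
    eval_finsetSum]
  refine Finset.sum_congr rfl fun k _ => ?_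
  rw [eval_monomial]

private theorem tay_choose (k i N : ℕ) (hk : k ≤ N) : ((k.choose i : ℕ) : ℝ) ≤ 2 ^ N := by
  have h1 : k.choose i ≤ 2 ^ N :=
    (Nat.choose_le_two_pow k i).trans (Nat.pow_le_pow_right (by norm_num) hk)
  exact_mod_cast h1

private theorem tay_coeff (p : ℝ[X]) (N k : ℕ) (B r : ℝ) (hN : p.natDegree ≤ N)
    (hB : ∀ e, |p.coeff e| ≤ B) (hr : 1 ≤ r) :
    |(hasseDeriv k p).eval r| ≤ (N + 1) * (2 ^ N * B * r ^ (N - k)) := by
  have hB0 : 0 ≤ B := (abs_nonneg _).trans (hB 0)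
  rw [tay_hasse p N k r hN]
  refine (Finset.abs_sum_le_sum_abs _ _).trans ?_
  have h1 : ∀ e ∈ range (N + 1), |(e.choose k : ℝ) * p.coeff e * r ^ (e - k)| ≤
      2 ^ N * B * r ^ (N - k) := by
    intro e he
    have he' : e ≤ N := Nat.lt_succ_iff.1 (Finset.mem_range.1 he)
    rw [abs_mul, abs_mul, abs_of_nonneg (by positivity : (0 : ℝ) ≤ (e.choose k : ℝ)),
      abs_of_nonneg (by positivity : (0 : ℝ) ≤ r ^ (e - k))]
    have h2 : r ^ (e - k) ≤ r ^ (N - k) := pow_le_pow_right₀ hr (Nat.sub_le_sub_right he' k)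
    exact mul_le_mul (mul_le_mul (tay_choose e k N he') (hB e) (abs_nonneg _) (by positivity)) h2
      (by positivity) (by positivity)
  have h3 := Finset.sum_le_card_nsmul _ _ _ h1
  rw [Finset.card_range, nsmul_eq_mul] at h3
  refine h3.trans (le_of_eq ?_)
  push_cast
  ring

theorem taylor_small (p : ℝ[X]) (N I i : ℕ) (B r m : ℝ) (hN : p.natDegree ≤ N) (hI : I ≤ N)
    (hi : i ≤ I) (hB : ∀ e, |p.coeff e| ≤ B) (hr : 1 ≤ r) (hm : |m - r| ≤ 1)
    (h0 : ∀ k < I, (hasseDeriv k p).eval r = 0) :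
    |(hasseDeriv i p).eval m| ≤
      (N + 1) ^ 2 * 4 ^ N * B * r ^ (N - I) * |m - r| ^ (I - i) := by
  have hB0 : 0 ≤ B := (abs_nonneg _).trans (hB 0)
  have hexp : (hasseDeriv i p).eval m =
      ∑ k ∈ range (N + 1), (k.choose i : ℝ) * (hasseDeriv k p).eval r * (m - r) ^ (k - i) := by
    have h1 : (hasseDeriv i p).eval m = (hasseDeriv i (taylor r p)).eval (m - r) := by
      rw [← taylor_coeff, ← taylor_coeff, taylor_taylor, sub_add_cancel]
    rw [h1, tay_hasse (taylor r p) N i (m - r) (by rw [natDegree_taylor]; exact hN)]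
    refine Finset.sum_congr rfl fun k _ => ?_
    rw [taylor_coeff]
  rw [hexp]
  refine (Finset.abs_sum_le_sum_abs _ _).trans ?_
  have h1 : ∀ k ∈ range (N + 1),
      |(k.choose i : ℝ) * (hasseDeriv k p).eval r * (m - r) ^ (k - i)| ≤
      2 ^ N * ((N + 1) * (2 ^ N * B * r ^ (N - I))) * |m - r| ^ (I - i) := by
    intro k hk
    have hk' : k ≤ N := Nat.lt_succ_iff.1 (Finset.mem_range.1 hk)
    rcases lt_or_ge k I with hkI | hkI
    · rw [h0 k hkI, mul_zero, zero_mul, abs_zero]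
      positivity
    · rw [abs_mul, abs_mul, abs_of_nonneg (by positivity : (0 : ℝ) ≤ (k.choose i : ℝ)), abs_pow]
      have h2 : |m - r| ^ (k - i) ≤ |m - r| ^ (I - i) :=
        pow_le_pow_of_le_one (abs_nonneg _) hm (Nat.sub_le_sub_right hkI i)
      have h3 : |(hasseDeriv k p).eval r| ≤ (N + 1) * (2 ^ N * B * r ^ (N - I)) := by
        refine (tay_coeff p N k B r hN hB hr).trans ?_
        have h4 : r ^ (N - k) ≤ r ^ (N - I) := pow_le_pow_right₀ hr (Nat.sub_le_sub_left hkI N)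
        have h5 : 2 ^ N * B * r ^ (N - k) ≤ 2 ^ N * B * r ^ (N - I) :=
          mul_le_mul_of_nonneg_left h4 (by positivity)
        exact mul_le_mul_of_nonneg_left h5 (by positivity)
      exact mul_le_mul (mul_le_mul (tay_choose k i N hk') h3 (abs_nonneg _) (by positivity)) h2
        (by positivity) (by positivity)
  have h3 := Finset.sum_le_card_nsmul _ _ _ h1
  rw [Finset.card_range, nsmul_eq_mul] at h3
  refine h3.trans (le_of_eq ?_)
  have h4 : (4 : ℝ) ^ N = 2 ^ N * 2 ^ N := by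
    rw [← mul_pow]
    norm_num
  rw [h4]
  push_cast
  ring

end Pool.Agent.H8.EF
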