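import Pool.Agent.H8.EF.NumB

/-! # [EF-UPPNUM2] Numerical inequalities of the upper bound: (2)

`b = bb n Q`, `q = qq j`, `DD = n q D'`, `Q₀ = m^(2 q DD)`, `(16 A)^(8 n) ≤ m`, so
`(16 A)^(8 DD) ≤ m^(q D')`; `b^(16 (j+1)) ≤ m^(q D')`.

(1) `upp_num1`: `I = II j n D' l`, `i < JJ j n D' ≤ I ≤ DD` (`num_JJ`, `num_II`).
`(DD+1)² 4^DD (2m)^(DD-I) (A/m^(n-1))^(I-i) ≤ 4 (32 A)^DD m^(DD-I) / m^((n-1)(I-i))`
(`DD + 1 ≤ 2^DD`), `(32 A)^DD ≤ (16 A)^(2 DD) ≤ m^(q D')`; `4 (j+1) n² b · b^(1+2j) b^(2j) ≤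
b^(4j+4) ≤ m^(q D')` (`4 (j+1) n² ≤ b²`). The exponent of `m` in total is at most
`2 q D' + [2 q DD + DD - I - (n-1)(I-i) + (j-l) LL (D'+1)]`, and the bracket is
`≤ - n D' (q² - q)/2` by `num_exp` (`i ≤ JJ`). Since `n (q²-q)/2 ≥ 2 q + 1`, the product is
`≤ 1/m ≤ 1/4 < 1/2`. (Work with integer exponents `zpow`, or multiply out.)

(2) `upp_num2`: exponent of `m`: `DD + 2 q DD - LL D' = - n D' (q² - q)`, and
`b n (DD+1) 2^DD b^(4j+8) ≤ b^(4j+10) 4^DD ≤ m^(2 q D')` (`4j+10 ≤ 16 (j+1)`). -/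

namespace Pool.Agent.H8.EF

open Finset Polynomial Pool.Agent.H72.ES NumberField

variable {j n Q m D' : ℕ} {A : ℝ}

theorem upp_num2 (hj : 2 ≤ j) (hn : 64 * j ^ 7 ≤ n) (hQ : 2 ^ n ≤ Q) (hA : 1 ≤ A)
    (hm : (16 * A) ^ (8 * n) ≤ m) (hD1 : 2 * n ^ 2 ≤ D')
    (hb : bb n Q ^ (16 * (j + 1)) ≤ (m : ℝ) ^ (qq j * D')) :
    bb n Q * (n * ((DD j n D' + 1) * 2 ^ DD j n D' * (m : ℝ) ^ DD j n D' * QZ j n m D') *
      bb n Q ^ (4 * j + 8) / (m : ℝ) ^ (LL j n * D')) < 1 / 2 := by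
  obtain ⟨hn1, -, -⟩ := num_n hj hn
  obtain ⟨hq1, -⟩ := num_q (j := j) hj
  have hn4 : 4 ≤ n := by omega
  have hB1 := one_le_bb hn4 hQ
  have hB0 : 0 < bb n Q := by linarith
  have hnB : (n : ℝ) ≤ bb n Q := by
    have h1 : n ≤ Q := le_trans (le_of_lt (Nat.lt_two_pow_self)) hQ
    exact le_trans (by exact_mod_cast h1) (Q_le_bb hn4 hQ)
  have hD0 : 1 ≤ D' := by nlinarith [sq_nonneg n]
  have hDD : 1 ≤ DD j n D' := by
    have : 0 < DD j n D' := by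
      unfold DD
      have h1 : 0 < n := by omega
      have h2 : 0 < qq j := by omega
      positivity
    omega
  -- `M ≥ 16`
  have hA16 : (16 : ℝ) ≤ 16 * A := by linarith
  have hM16 : (16 : ℝ) ≤ (m : ℝ) := by
    calc (16 : ℝ) ≤ 16 * A := hA16
      _ ≤ (16 * A) ^ (8 * n) := le_self_pow₀ (by linarith) (by omega)
      _ ≤ m := hm
  have hM1 : (1 : ℝ) ≤ (m : ℝ) := by linarith
  have hM0 : (0 : ℝ) < (m : ℝ) := by linarith
  -- `4 ^ DD ≤ M ^ (q D')`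
  have h4 : (4 : ℝ) ^ DD j n D' ≤ (m : ℝ) ^ (qq j * D') := by
    calc (4 : ℝ) ^ DD j n D' ≤ (16 * A) ^ DD j n D' := by gcongr; linarith
      _ ≤ (16 * A) ^ (8 * n * (qq j * D')) := by
          apply pow_le_pow_right₀ (by linarith)
          unfold DD
          nlinarith [Nat.zero_le (n * qq j * D')]
      _ = ((16 * A) ^ (8 * n)) ^ (qq j * D') := pow_mul _ _ _
      _ ≤ (m : ℝ) ^ (qq j * D') := by gcongr
  -- `(DD + 1) 2 ^ DD ≤ 4 ^ DD`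
  have h2 : ((DD j n D' : ℝ) + 1) * 2 ^ DD j n D' ≤ 4 ^ DD j n D' := by
    have h1 : (DD j n D' : ℝ) + 1 ≤ 2 ^ DD j n D' := by
      have : DD j n D' + 1 ≤ 2 ^ DD j n D' := Nat.lt_two_pow_self
      exact_mod_cast this
    calc ((DD j n D' : ℝ) + 1) * 2 ^ DD j n D' ≤ 2 ^ DD j n D' * 2 ^ DD j n D' := by gcongr
      _ = 4 ^ DD j n D' := by rw [← mul_pow]; norm_num
  -- `b ^ (4 j + 10) ≤ M ^ (q D')`
  have hb2 : bb n Q ^ (4 * j + 10) ≤ (m : ℝ) ^ (qq j * D') :=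
    le_trans (pow_le_pow_right₀ hB1 (by omega)) hb
  have hQZ : ((QZ j n m D' : ℕ) : ℝ) = (m : ℝ) ^ (2 * qq j * DD j n D') := by
    unfold QZ
    push_cast
    rfl
  -- exponents
  have hexp : qq j * D' + qq j * D' + DD j n D' + 2 * qq j * DD j n D' + 1 ≤ LL j n * D' := by
    unfold LL DD
    obtain ⟨q, hq⟩ : ∃ q, qq j = q := ⟨_, rfl⟩
    rw [hq] at hq1 ⊢
    have e1 : 36 * (n * (q * D')) ≤ q * (n * (q * D')) := Nat.mul_le_mul_right _ hq1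
    have e2 : 8192 * (q * D') ≤ n * (q * D') := Nat.mul_le_mul_right _ hn1
    have e3 : 1 ≤ q * D' := Nat.mul_pos (by omega) (by omega)
    have e4 : 2 * q * (n * q * D') = 2 * (q * (n * (q * D'))) := by ring
    have e5 : 3 * n * q ^ 2 * D' = 3 * (q * (n * (q * D'))) := by ring
    have e6 : n * q * D' = n * (q * D') := by ring
    rw [e4, e5, e6]
    omega
  have hnum : bb n Q * (n * (((DD j n D' : ℝ) + 1) * 2 ^ DD j n D' * (m : ℝ) ^ DD j n D' *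
      (QZ j n m D' : ℕ)) * bb n Q ^ (4 * j + 8)) * m ≤ (m : ℝ) ^ (LL j n * D') := by
    rw [hQZ]
    calc bb n Q * (n * (((DD j n D' : ℝ) + 1) * 2 ^ DD j n D' * (m : ℝ) ^ DD j n D' *
          (m : ℝ) ^ (2 * qq j * DD j n D')) * bb n Q ^ (4 * j + 8)) * m
        ≤ bb n Q * (bb n Q * (4 ^ DD j n D' * (m : ℝ) ^ DD j n D' *
          (m : ℝ) ^ (2 * qq j * DD j n D')) * bb n Q ^ (4 * j + 8)) * m := by gcongr
      _ = bb n Q ^ (4 * j + 10) * 4 ^ DD j n D' * (m : ℝ) ^ DD j n D' *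
          (m : ℝ) ^ (2 * qq j * DD j n D') * m := by ring
      _ ≤ (m : ℝ) ^ (qq j * D') * (m : ℝ) ^ (qq j * D') * (m : ℝ) ^ DD j n D' *
          (m : ℝ) ^ (2 * qq j * DD j n D') * m := by gcongr
      _ = (m : ℝ) ^ (qq j * D' + qq j * D' + DD j n D' + 2 * qq j * DD j n D' + 1) := by
          rw [pow_add, pow_add, pow_add, pow_add, pow_one]
      _ ≤ (m : ℝ) ^ (LL j n * D') := pow_le_pow_right₀ hM1 hexp
  have hP : (0 : ℝ) < (m : ℝ) ^ (LL j n * D') := by positivity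
  rw [← mul_div_assoc, div_lt_iff₀ hP]
  have hX : 0 ≤ bb n Q * (n * (((DD j n D' : ℝ) + 1) * 2 ^ DD j n D' * (m : ℝ) ^ DD j n D' *
      (QZ j n m D' : ℕ)) * bb n Q ^ (4 * j + 8)) := by positivity
  nlinarith

end Pool.Agent.H8.EF
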