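import Pool.Agent.H8.EF.Br

/-! # [EF-MU] The monomial functionals

(1) `lam_eq_sum`: expand `(g k).eval₂ C Z` (degree `< n - k`, `eval₂_eq_sum_range'`).
(2) `lam_map`, `mu_map`: a ring homomorphism commutes with everything
(`PowerSeries.coeff_map`, `Polynomial.hom_eval₂`, `PowerSeries.map_C`, `PowerSeries.map_X`).
(3) `mu_bound`: as `Pool.Agent.H8.KF.bc_bound` with `ν = hs K`:
`wn ν (1/b²) l (Z^i T^k) ≤ b` for `i < n` (`wn ν (1/b²) N Z ≤ Q² + Q^(2n)/b ≤ 2 Q²`,
`wn ν (1/b²) N (C κ ^ 2 X) ≤ 1`), and `ν (coeff l a) (1/b²)^l ≤ wn ν (1/b²) l a` (`coeff_le_wn`).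
`ν κ ≤ Q^(2n)`: copy `kappa_bound` (file `Pool/Agent/H72/ES/Taylor.lean`) with `ν` for `O.ν`
(`ν θ ≤ Q²`, `hs_root_le`). -/

namespace Pool.Agent.H8.EF

open Finset Polynomial Pool.Agent.H72.ES NumberField

theorem lam_eq_sum {S : Type*} [CommRing S] {j : ℕ} (κ θ : S) (w : PowerSeries S) (l n : ℕ)
    (g : Fin (j + 1) → S[X]) (hg : ∀ k : Fin (j + 1), g k ∈ degreeLT S (n - k)) :
    lam κ θ w l g = ∑ k : Fin (j + 1), ∑ i ∈ range (n - k), (g k).coeff i * mu κ θ w l k i := by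
  unfold lam expn mu
  rw [map_sum]
  refine sum_congr rfl fun k _ => ?_
  have h1 : (g k).eval₂ PowerSeries.C (PowerSeries.C θ + PowerSeries.C κ * w) =
      ∑ i ∈ range (n - k), PowerSeries.C ((g k).coeff i) *
        (PowerSeries.C θ + PowerSeries.C κ * w) ^ i := by
    by_cases hnk : n - (k : ℕ) = 0
    · have h0 : g k = 0 := by
        have := hg k
        rw [hnk] at this
        rw [mem_degreeLT] at this
        by_contra hne
        rw [degree_eq_natDegree hne] at this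
        norm_cast at this
      rw [h0, hnk]
      simp
    · have hdeg : (g k).natDegree < n - k := by
        by_cases h0 : g k = 0
        · rw [h0, natDegree_zero]
          omega
        · exact (natDegree_lt_iff_degree_lt h0).2 (mem_degreeLT.1 (hg k))
      exact eval₂_eq_sum_range' PowerSeries.C hdeg _
  rw [h1, sum_mul, map_sum]
  refine sum_congr rfl fun i _ => ?_
  rw [mul_assoc, PowerSeries.coeff_C_mul]

theorem mu_map {S S' : Type*} [CommRing S] [CommRing S'] (ρ : S →+* S') (κ θ : S)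
    (w : PowerSeries S) (l k i : ℕ) :
    ρ (mu κ θ w l k i) = mu (ρ κ) (ρ θ) (PowerSeries.map ρ w) l k i := by
  unfold mu
  rw [← PowerSeries.coeff_map]
  simp only [map_mul, map_pow, map_add, PowerSeries.map_C, PowerSeries.map_X]

theorem lam_map {S S' : Type*} [CommRing S] [CommRing S'] (ρ : S →+* S') {j : ℕ} (κ θ : S)
    (w : PowerSeries S) (l : ℕ) (g : Fin (j + 1) → S[X]) :
    ρ (lam κ θ w l g) = lam (ρ κ) (ρ θ) (PowerSeries.map ρ w) l (mapG ρ g) := by
  unfold lam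
  rw [← PowerSeries.coeff_map]
  congr 1
  unfold expn mapG
  rw [map_sum]
  refine sum_congr rfl fun k _ => ?_
  rw [map_mul, Polynomial.hom_eval₂, Polynomial.eval₂_map]
  have h1 : (PowerSeries.map ρ).comp PowerSeries.C = (PowerSeries.C (R := S')).comp ρ := by
    ext x
    simp
  rw [h1]
  simp only [map_mul, map_pow, map_add, PowerSeries.map_C, PowerSeries.map_X]

/-- the functionals are additive -/
theorem lam_add {S : Type*} [CommRing S] {j : ℕ} (κ θ : S) (w : PowerSeries S) (l : ℕ)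
    (g h : Fin (j + 1) → S[X]) : lam κ θ w l (g + h) = lam κ θ w l g + lam κ θ w l h := by
  unfold lam expn
  rw [← map_add, ← sum_add_distrib]
  congr 1
  refine sum_congr rfl fun k _ => ?_
  rw [Pi.add_apply, eval₂_add, add_mul]

theorem lam_smul {S : Type*} [CommRing S] {j : ℕ} (κ θ : S) (w : PowerSeries S) (l : ℕ) (c : S)
    (g : Fin (j + 1) → S[X]) : lam κ θ w l (c • g) = c * lam κ θ w l g := by
  unfold lam
  rw [← PowerSeries.coeff_C_mul]
  congr 1
  unfold expn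
  rw [mul_sum]
  refine sum_congr rfl fun k _ => ?_
  rw [Pi.smul_apply, eval₂_smul, mul_assoc]

theorem lam_sum {S : Type*} [CommRing S] {j : ℕ} (κ θ : S) (w : PowerSeries S) (l : ℕ)
    {ι : Type*} (s : Finset ι) (g : ι → Fin (j + 1) → S[X]) :
    lam κ θ w l (∑ i ∈ s, g i) = ∑ i ∈ s, lam κ θ w l (g i) := by
  classical
  induction s using Finset.induction_on with
  | empty =>
    rw [sum_empty, sum_empty]
    have := lam_smul κ θ w l (0 : S) (0 : Fin (j + 1) → S[X])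
    rw [zero_smul, zero_mul] at this
    exact this
  | insert a s ha ih => rw [sum_insert ha, sum_insert ha, lam_add, ih]

variable {K : Type} [Field K] [NumberField K] {j n Q m : ℕ} {A : ℝ} {f : ℤ[X]} {F : ℕ → ℕ → ℤ}

theorem hs_pow_root_le (D : Dat K j n Q m A f F) (k : ℕ) :
    hs K (D.θ ^ k) ≤ (Q : ℝ) ^ (2 * k) := by
  refine ((hs_subMul K).pow _ _).trans ?_
  rw [pow_mul]
  exact pow_le_pow_left₀ ((hs_subMul K).nonneg _) (hs_root_le D.hF D.θ D.root) _

theorem hs_nat (K : Type) [Field K] [NumberField K] (k : ℕ) : hs K (k : 𝓞 K) ≤ k := by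
  have := hs_int K (k : ℤ)
  simpa using this

theorem hs_kappa_le (D : Dat K j n Q m A f F) : hs K D.κ ≤ (Q : ℝ) ^ (2 * n) := by
  have hF := D.hF
  have hsub := hs_subMul K
  have hQ1 := one_le_QR hF.hn hF.hQ
  have hQ0 : (0 : ℝ) ≤ Q := by linarith
  have hn4 := hF.hn
  have hκ : D.κ = tc n F D.θ 0 1 := by
    rw [tc_zero_one, hF.lead_eq]
    rfl
  rw [hκ]
  unfold tc
  rw [tsub_zero, sum_range_succ']
  have h0 : (F (n - 0 - 0) 0 : 𝓞 K) * (Nat.choose 0 1 : 𝓞 K) * D.θ ^ (0 - 1) = 0 := by simp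
  rw [h0, add_zero]
  refine (hsub.sum _ _).trans ?_
  have h1 : ∀ l ∈ range n,
      hs K ((F (n - 0 - (l + 1)) (l + 1) : 𝓞 K) * ((l + 1).choose 1 : 𝓞 K) *
        D.θ ^ (l + 1 - 1)) ≤ n * (Q : ℝ) ^ (2 * n - 1) := by
    intro l hl
    simp only [mem_range] at hl
    have hF1 : hs K (F (n - 0 - (l + 1)) (l + 1) : 𝓞 K) ≤ Q := by
      refine (hs_int K _).trans ?_
      have := hF.bound (n - 0 - (l + 1)) (l + 1) (by omega)
      exact_mod_cast this
    have hc : hs K ((l + 1).choose 1 : 𝓞 K) ≤ n := by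
      refine (hs_nat K _).trans ?_
      rw [Nat.choose_one_right]
      exact_mod_cast (by omega : l + 1 ≤ n)
    have hα : hs K (D.θ ^ (l + 1 - 1)) ≤ (Q : ℝ) ^ (2 * n - 2) :=
      (hs_pow_root_le D _).trans (Qpow_mono hF.hn hF.hQ (by omega))
    calc hs K ((F (n - 0 - (l + 1)) (l + 1) : 𝓞 K) * ((l + 1).choose 1 : 𝓞 K) *
          D.θ ^ (l + 1 - 1))
        ≤ hs K ((F (n - 0 - (l + 1)) (l + 1) : 𝓞 K) * ((l + 1).choose 1 : 𝓞 K)) *
          hs K (D.θ ^ (l + 1 - 1)) := hsub.mul _ _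
      _ ≤ (hs K (F (n - 0 - (l + 1)) (l + 1) : 𝓞 K) * hs K ((l + 1).choose 1 : 𝓞 K)) *
          hs K (D.θ ^ (l + 1 - 1)) := mul_le_mul_of_nonneg_right (hsub.mul _ _) (hsub.nonneg _)
      _ ≤ ((Q : ℝ) * n) * (Q : ℝ) ^ (2 * n - 2) := by
          refine mul_le_mul (mul_le_mul hF1 hc (hsub.nonneg _) hQ0) hα (hsub.nonneg _)
            (by positivity)
      _ = n * (Q : ℝ) ^ (2 * n - 1) := by
          have : 2 * n - 1 = (2 * n - 2) + 1 := by omega
          rw [this, pow_succ]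
          ring
  refine (sum_le_sum h1).trans ?_
  rw [sum_const, card_range, nsmul_eq_mul]
  have h2 := n_sq_leR hF.hn hF.hQ
  calc (n : ℝ) * (n * (Q : ℝ) ^ (2 * n - 1)) = (n : ℝ) ^ 2 * (Q : ℝ) ^ (2 * n - 1) := by ring
    _ ≤ Q * (Q : ℝ) ^ (2 * n - 1) := mul_le_mul_of_nonneg_right h2 (by positivity)
    _ = (Q : ℝ) ^ (2 * n) := by
        rw [← pow_succ']
        congr 1
        omega

theorem mu_bound (D : Dat K j n Q m A f F) (l k i : ℕ) (hi : i < n) :
    hs K (mu D.κ D.θ D.w l k i) ≤ bb n Q ^ (1 + 2 * l) := by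
  have hn := D.hF.hn
  have hQ := D.hF.hQ
  have hsub := hs_subMul K
  have hb0 : 0 < bb n Q := bb_pos hn hQ
  have hb1 : 1 ≤ bb n Q := one_le_bb hn hQ
  unfold mu
  set b := bb n Q with hb
  have hρ : (0 : ℝ) ≤ 1 / b ^ 2 := by positivity
  set ρ : ℝ := 1 / b ^ 2 with hρd
  have hκ : hs K D.κ ≤ (Q : ℝ) ^ (2 * n) := hs_kappa_le D
  have hκb : hs K D.κ ≤ b := hκ.trans (Qpow_le_bb hn hQ (by nlinarith))
  have hκ0 : 0 ≤ hs K D.κ := hsub.nonneg _
  have h1 : wn (hs K) ρ l (PowerSeries.C D.κ ^ 2 * PowerSeries.X) ≤ 1 := by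
    refine (wn_mul_le hsub hρ l _ _).trans ?_
    have ha : wn (hs K) ρ l (PowerSeries.C D.κ ^ 2) ≤ b ^ 2 := by
      refine (wn_pow_le hsub hρ l _ 2).trans ?_
      rw [wn_C hsub]
      exact pow_le_pow_left₀ hκ0 hκb 2
    have hb' := wn_X_le (R := 𝓞 K) hsub hρ l
    calc wn (hs K) ρ l (PowerSeries.C D.κ ^ 2) * wn (hs K) ρ l PowerSeries.X ≤ b ^ 2 * ρ :=
          mul_le_mul ha hb' (wn_nonneg hsub hρ l _) (by positivity)
      _ = 1 := by
          rw [hρd]
          field_simp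
  have h2 : wn (hs K) ρ l (PowerSeries.C D.θ + PowerSeries.C D.κ * D.w) ≤ (Q : ℝ) ^ 3 := by
    refine (wn_add_le hsub hρ l _ _).trans ?_
    rw [wn_C hsub]
    have ha : wn (hs K) ρ l (PowerSeries.C D.κ * D.w) ≤ 1 := by
      refine (wn_mul_le hsub hρ l _ _).trans ?_
      rw [wn_C hsub]
      calc hs K D.κ * wn (hs K) ρ l D.w ≤ b * (1 / b) :=
            mul_le_mul hκb (D.wbd l) (wn_nonneg hsub hρ l _) hb0.le
        _ = 1 := by field_simp
    have hα := hs_root_le D.hF D.θ D.root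
    have h4 := sixteen_leR hn hQ
    calc hs K D.θ + wn (hs K) ρ l (PowerSeries.C D.κ * D.w) ≤ (Q : ℝ) ^ 2 + 1 := by linarith
      _ ≤ (Q : ℝ) ^ 3 := by nlinarith [sq_nonneg (Q : ℝ)]
  have ha : wn (hs K) ρ l ((PowerSeries.C D.θ + PowerSeries.C D.κ * D.w) ^ i *
      (PowerSeries.C D.κ ^ 2 * PowerSeries.X) ^ k) ≤ b := by
    refine (wn_mul_le hsub hρ l _ _).trans ?_
    have hx : wn (hs K) ρ l ((PowerSeries.C D.κ ^ 2 * PowerSeries.X) ^ k) ≤ 1 :=
      (wn_pow_le hsub hρ l _ _).trans (pow_le_one₀ (wn_nonneg hsub hρ l _) h1)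
    have hy : wn (hs K) ρ l ((PowerSeries.C D.θ + PowerSeries.C D.κ * D.w) ^ i) ≤ b := by
      refine (wn_pow_le hsub hρ l _ i).trans ?_
      refine (pow_le_pow_left₀ (wn_nonneg hsub hρ l _) h2 i).trans ?_
      rw [← pow_mul]
      exact Qpow_le_bb hn hQ (by nlinarith)
    calc _ ≤ b * 1 := mul_le_mul hy hx (wn_nonneg hsub hρ l _) hb0.le
      _ = b := mul_one b
  have h4 := (coeff_le_wn hsub hρ (le_refl l) ((PowerSeries.C D.θ + PowerSeries.C D.κ * D.w) ^ i *
      (PowerSeries.C D.κ ^ 2 * PowerSeries.X) ^ k)).trans ha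
  set v := hs K (PowerSeries.coeff l ((PowerSeries.C D.θ + PowerSeries.C D.κ * D.w) ^ i *
      (PowerSeries.C D.κ ^ 2 * PowerSeries.X) ^ k)) with hv
  have h5 : v = v * ρ ^ l * (b ^ 2) ^ l := by
    rw [mul_assoc, ← mul_pow, hρd]
    have : 1 / b ^ 2 * b ^ 2 = 1 := by field_simp
    rw [this, one_pow, mul_one]
  rw [h5]
  calc v * ρ ^ l * (b ^ 2) ^ l ≤ b * (b ^ 2) ^ l :=
        mul_le_mul_of_nonneg_right h4 (by positivity)
    _ = b ^ (1 + 2 * l) := by
        rw [pow_add, pow_one, pow_mul]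

/-- the integral functionals are bounded at every place -/
theorem lamZ_bound (D : Dat K j n Q m A f F) (l : ℕ) (g : Fin (j + 1) → ℤ[X])
    (hg : ∀ k : Fin (j + 1), g k ∈ degreeLT ℤ (n - k)) (B : ℝ)
    (hB : ∀ k i, |(((g k).coeff i : ℤ) : ℝ)| ≤ B) :
    hs K (D.lamZ l g) ≤ (n : ℝ) ^ 2 * bb n Q ^ (1 + 2 * l) * B := by
  have hsub := hs_subMul K
  have hn := D.hF.hn
  have hQ := D.hF.hQ
  have hb0 : 0 < bb n Q := bb_pos hn hQ
  have hB0 : 0 ≤ B := (abs_nonneg _).trans (hB 0 0)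
  have hj7 : j + 1 ≤ n := by
    have h1 := D.hjn
    have h2 := D.hj
    have h3 : j ≤ j ^ 7 := Nat.le_self_pow (by norm_num) j
    omega
  unfold Dat.lamZ
  rw [lam_eq_sum D.κ D.θ D.w l n]
  · refine (hsub.sum _ _).trans ?_
    have h1 : ∀ k ∈ (univ : Finset (Fin (j + 1))),
        hs K (∑ i ∈ range (n - k), (mapG (Int.castRingHom (𝓞 K)) g k).coeff i *
          mu D.κ D.θ D.w l k i) ≤ (n : ℝ) * (B * bb n Q ^ (1 + 2 * l)) := by
      intro k _
      refine (hsub.sum _ _).trans ?_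
      have h2 : ∀ i ∈ range (n - (k : ℕ)), hs K ((mapG (Int.castRingHom (𝓞 K)) g k).coeff i *
          mu D.κ D.θ D.w l k i) ≤ B * bb n Q ^ (1 + 2 * l) := by
        intro i hi
        simp only [mem_range] at hi
        refine (hsub.mul _ _).trans ?_
        refine mul_le_mul ?_ (mu_bound D l k i (by omega)) (hsub.nonneg _) hB0
        unfold mapG
        rw [coeff_map]
        refine (hs_int K _).trans ?_
        exact hB k i
      refine (sum_le_sum h2).trans ?_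
      rw [sum_const, card_range, nsmul_eq_mul]
      refine mul_le_mul_of_nonneg_right ?_ (by positivity)
      exact_mod_cast Nat.sub_le n k
    refine (sum_le_sum h1).trans ?_
    rw [sum_const, card_univ, Fintype.card_fin, nsmul_eq_mul]
    have h3 : ((j + 1 : ℕ) : ℝ) ≤ n := by exact_mod_cast hj7
    calc ((j + 1 : ℕ) : ℝ) * ((n : ℝ) * (B * bb n Q ^ (1 + 2 * l)))
        ≤ n * ((n : ℝ) * (B * bb n Q ^ (1 + 2 * l))) :=
          mul_le_mul_of_nonneg_right h3 (by positivity)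
      _ = (n : ℝ) ^ 2 * bb n Q ^ (1 + 2 * l) * B := by ring
  · intro k
    unfold mapG
    rw [mem_degreeLT]
    exact lt_of_le_of_lt degree_map_le (mem_degreeLT.1 (hg k))

/-- the integral functionals at a place -/
theorem lamZ_em (D : Dat K j n Q m A f F) {S : Type*} [CommRing S] (σ : K →+* S) (l : ℕ)
    (g : Fin (j + 1) → ℤ[X]) :
    σ (D.lamZ l g : K) = D.lamS σ l (mapG (Int.castRingHom S) g) := by
  have h1 : σ (D.lamZ l g : K) = Dat.em K σ (D.lamZ l g) := rfl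
  rw [h1]
  unfold Dat.lamZ Dat.lamS
  rw [lam_map]
  congr 1
  unfold mapG
  funext k
  rw [Polynomial.map_map]
  congr 1
  exact RingHom.ext_int _ _

end Pool.Agent.H8.EF
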