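import Pool.Agent.H8.EF.Emb
import Pool.Agent.H72.ES.Far
import Pool.Agent.H72.ES.NearRoot

/-! # [EF-NEAR] Integer points far away are near the real branch (part (1))

Write `b = bb n Q`. (1) `near_point`: `|x| ≥ b^(n+3) > Q^5`, so `slope_bound` and `lead_small`
(file `Far`; `ev n F x y = 0`) give `|f(y/x)| ≤ Q^(2n+4)/|x| ≤ 1/b^(n+2)`, and `near_root` gives a
real root `θ` of `f` with `|y/x - θ| ≤ 1/b`; `θ = φ θ` by `real_root`.

(2) `val_bound`: let `θ = D.φ D.θ`, `O` from `exists_ord ℝ` (file `Norm`), `br` from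
`exists_branch O hF`. The real power series `map (em K φ) D.w` and `map O.φ br.w` satisfy the same
equation (`O.φ_α`, `O.φ O.κ = f'(θ) = em K φ D.κ ≠ 0`, `kappa_lower`), so they agree
(`branch_unique`; map the two equations with `PowerSeries.map`, `evt` commutes with ring
homomorphisms). Put `c i' i = (g k).coeff i` if `i' + i ≤ n - 1` and `k = n-1-i'-i ≤ j`, and `0`
otherwise (`(g k).coeff i ≠ 0` forces `i < n - k`). Then for every `t, z` in a commutative
`ℝ`-algebra `evt (n-1) c t z = ∑_k g_k(z) t^k` (`taylor_reindex`), in particular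
`coeff l (evt (n-1) (C c) (C κ² X) (C θ + C κ w)) = D.lamS D.φ l g`, which by
`Pool.Agent.H8.KF.bc_coeff` is `∑ c i' i O.φ (bc O br (n-1) i' i l)`.
Apply `Pool.Agent.H8.KF.small_real` with `t = C (1/x)`, `z = C (y/x)`, `ρ = 1`, `τ = 1/|x|`,
`d = n-1`, `T = j+1`, `m l = |D.lamS D.φ l g|`, `K = 0`; `evt n F t z = 0` is
`ev n F x y = 0` divided by `x^n`. Finally `val x (y/x) g = x^j evt (n-1) c (1/x) (y/x)`. -/

namespace Pool.Agent.H8.EF

open Finset Polynomial Pool.Agent.H72.ES NumberField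

variable {K : Type} [Field K] [NumberField K] {j n Q m : ℕ} {A : ℝ} {f : ℤ[X]} {F : ℕ → ℕ → ℤ}

theorem near_point (D : Dat K j n Q m A f F) (x y : ℤ) (hx : bb n Q ^ (n + 3) ≤ |(x : ℝ)|)
    (hev : ev n F x y = 0) : |(y : ℝ) / x - D.φ (D.θ : K)| ≤ 1 / bb n Q ∧
      |y| ≤ (Q : ℤ) ^ 2 * |x| := by
  have hN := D.hF
  have hn := hN.hn
  have hQ := hN.hQ
  have hb := bb_pos hn hQ
  have hb1 := one_le_bb hn hQ
  have hQ16 := sixteen_leR hn hQ
  have hQ1 := one_le_QR hn hQ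
  have hx6 : (Q : ℝ) ^ 6 ≤ |(x : ℝ)| := by
    refine le_trans (Qpow_le_bb hn hQ (k := 6) (by nlinarith)) (le_trans ?_ hx)
    calc bb n Q = bb n Q ^ 1 := (pow_one _).symm
      _ ≤ bb n Q ^ (n + 3) := pow_le_pow_right₀ hb1 (by omega)
  have hx5 : (Q : ℝ) ^ 5 < |(x : ℝ)| := by
    refine lt_of_lt_of_le ?_ hx6
    exact pow_lt_pow_right₀ (by linarith) (by norm_num)
  have hbig : (Q : ℤ) ^ 5 < max |x| |y| := by
    refine lt_of_lt_of_le ?_ (le_max_left _ _)
    exact_mod_cast hx5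
  have hev0 : |ev n F x y| ≤ (Q : ℤ) := by
    rw [hev, abs_zero]
    positivity
  have hy := slope_bound hN x y hev0 hbig
  have hx0 : x ≠ 0 := by
    intro h
    rw [h, Int.cast_zero, abs_zero] at hx5
    have : (0:ℝ) ≤ (Q : ℝ) ^ 5 := by positivity
    linarith
  have hl := lead_small hN x y hev0 hx0 hy
  have hxpos : 0 < |(x : ℝ)| := lt_of_le_of_lt (by positivity) hx5
  obtain ⟨θ, hθ, hθ2⟩ := near_root hN D.irr ((y : ℝ) / x) (hl.trans (by
    rw [div_le_div_iff₀ hxpos (by positivity), one_mul]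
    refine le_trans ?_ hx
    have h1 : (Q : ℝ) ^ (2 * n + 4) ≤ bb n Q := Qpow_le_bb hn hQ (by nlinarith)
    calc (Q : ℝ) ^ (2 * n + 4) * bb n Q ^ (n + 2) ≤ bb n Q * bb n Q ^ (n + 2) := by gcongr
      _ = bb n Q ^ (n + 3) := by ring))
  rw [real_root D θ hθ] at hθ2
  exact ⟨hθ2, hy⟩

end Pool.Agent.H8.EF
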