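import Pool.Agent.H8.EF.Uniq
import Pool.Agent.H8.EF.Mu
import Pool.Agent.H8.EF.Near
import Pool.Agent.H8.KF.SmallReal
import Pool.Agent.H8.KF.SmallReal

/-! # [EF-VAL] Size of a function at an integer point near infinity

Write `b = bb n Q`. (1) `near_point` (file `Near`): `|x| ≥ b^(n+3) > Q^5`, so `slope_bound` and `lead_small`
(file `Far`; `ev n F x y = 0`) give `|f(y/x)| ≤ Q^(2n+4)/|x| ≤ 1/b^(n+2)`, and `near_root` gives a
real root `θ` of `f` with `|y/x - θ| ≤ 1/b`; `θ = φ θ` by `real_root`.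

(2) `val_bound`: let `θ = D.φ D.θ`, `O` from `exists_ord ℝ` (file `Norm`), `br` from
`exists_branch O hF`. The real power series `map (em K φ) D.w` and `map O.φ br.w` satisfy the same
equation (`O.φ_α`, `O.φ O.κ = f'(θ) = em K φ D.κ ≠ 0`, `kappa_lower`), so they agree
(`branch_unique`; map the two equations with `PowerSeries.map`, `evt` commutes with ring
homomorphisms). Put `c i' i = (g k).coeff i` if `i' + i ≤ n - 1` and `k = n-1-i'-i ≤ j`, and `0`
otherwise (`(g k).coeff i ≠ 0` forces `i < n - k`). Then for every `t, z` in a commutative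
`ℝ`-algebra `evt (n-1) c t z = ∑_k g_k(z) t^k` (`taylor_reindex`), in particular
`coeff l (evt (n-1) (C c) (C κ² X) (C θ + C κ w)) = D.lamS D.φ l g`, which by
`Pool.Agent.H8.KF.bc_coeff` is `∑ c i' i O.φ (bc O br (n-1) i' i l)`.
Apply `Pool.Agent.H8.KF.small_real` with `t = C (1/x)`, `z = C (y/x)`, `ρ = 1`, `τ = 1/|x|`,
`d = n-1`, `T = j+1`, `m l = |D.lamS D.φ l g|`, `K = 0`; `evt n F t z = 0` is
`ev n F x y = 0` divided by `x^n`. Finally `val x (y/x) g = x^j evt (n-1) c (1/x) (y/x)`. -/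

namespace Pool.Agent.H8.EF

open Finset Polynomial Pool.Agent.H72.ES NumberField

variable {K : Type} [Field K] [NumberField K] {j n Q m : ℕ} {A : ℝ} {f : ℤ[X]} {F : ℕ → ℕ → ℤ}

/-- the coefficient array of the function `g` -/
noncomputable def vc (n : ℕ) {j : ℕ} (g : Fin (j + 1) → ℝ[X]) (i' i : ℕ) : ℝ :=
  if h : i' + i ≤ n - 1 ∧ n - 1 - i' - i < j + 1 then (g ⟨n - 1 - i' - i, h.2⟩).coeff i else 0

theorem vc_le {n j : ℕ} (g : Fin (j + 1) → ℝ[X]) (B : ℝ) (hB : ∀ k i, |(g k).coeff i| ≤ B)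
    (i' i : ℕ) : |vc n g i' i| ≤ B := by
  unfold vc
  split_ifs with h
  · exact hB _ _
  · rw [abs_zero]
    exact (abs_nonneg _).trans (hB 0 0)

theorem vc_supp {n j : ℕ} (g : Fin (j + 1) → ℝ[X]) (i' i : ℕ) (h : vc n g i' i ≠ 0) :
    i' + i ≤ n - 1 ∧ i ≤ n := by
  unfold vc at h
  split_ifs at h with h1
  · exact ⟨h1.1, by omega⟩
  · exact absurd rfl h

/-- the homogenised value of the array of `g` -/
theorem vc_evt {S : Type*} [CommRing S] (ρ : ℝ →+* S) {n j : ℕ} (hjn : j < n)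
    (g : Fin (j + 1) → ℝ[X]) (hg : ∀ k : Fin (j + 1), g k ∈ degreeLT ℝ (n - k)) (t z : S) :
    evt (n - 1) (fun i' i => ρ (vc n g i' i)) t z =
      ∑ k : Fin (j + 1), (g k).eval₂ ρ z * t ^ (k : ℕ) := by
  set G : ℕ → ℕ → S := fun a l =>
    (if h : a < j + 1 then ρ ((g ⟨a, h⟩).coeff l) else 0) * t ^ a * z ^ l with hG
  have h1 : evt (n - 1) (fun i' i => ρ (vc n g i' i)) t z =
      ∑ i ∈ range (n - 1 + 1), ∑ l ∈ range (n - 1 + 1 - i), G (n - 1 - i - l) l := by
    unfold evt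
    refine sum_congr rfl fun i hi => sum_congr rfl fun l hl => ?_
    simp only [mem_range] at hi hl
    simp only [hG]
    congr 2
    unfold vc
    by_cases h : n - 1 - i - l < j + 1
    · rw [dif_pos ⟨by omega, h⟩, dif_pos h]
    · rw [dif_neg (fun hh => h hh.2), dif_neg h, map_zero]
  rw [h1, ← taylor_reindex (n - 1) G]
  have h2 : ∑ a ∈ range (n - 1 + 1), ∑ l ∈ range (n - 1 + 1 - a), G a l =
      ∑ a ∈ range (j + 1), ∑ l ∈ range (n - 1 + 1 - a), G a l := by
    symm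
    apply sum_subset
    · intro a ha
      rw [mem_range] at ha ⊢
      omega
    · intro a _ ha
      rw [mem_range] at ha
      refine sum_eq_zero fun l _ => ?_
      simp only [hG]
      rw [dif_neg ha, zero_mul, zero_mul]
  rw [h2, Finset.sum_range]
  refine sum_congr rfl fun k _ => ?_
  have hk := k.2
  have hdeg : (g k).natDegree < n - 1 + 1 - (k : ℕ) := by
    have h3 := mem_degreeLT.1 (hg k)
    have h4 : n - 1 + 1 - (k : ℕ) = n - (k : ℕ) := by omega
    rw [h4]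
    by_cases h0 : g k = 0
    · rw [h0, natDegree_zero]; omega
    · exact (natDegree_lt_iff_degree_lt h0).2 h3
  rw [eval₂_eq_sum_range' ρ hdeg z, sum_mul]
  refine sum_congr rfl fun l _ => ?_
  simp only [hG]
  rw [dif_pos hk]
  ring

/-- `val` in terms of the homogenised value -/
theorem vc_val {n j : ℕ} (hjn : j < n) (g : Fin (j + 1) → ℝ[X])
    (hg : ∀ k : Fin (j + 1), g k ∈ degreeLT ℝ (n - k)) (x z : ℝ) (hx : x ≠ 0) :
    val x z g = x ^ j * evt (n - 1) (vc n g) (1 / x) z := by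
  have h1 := vc_evt (RingHom.id ℝ) hjn g hg (1 / x) z
  simp only [RingHom.id_apply] at h1
  have h2 : evt (n - 1) (vc n g) (1 / x) z = evt (n - 1) (fun i' i => vc n g i' i) (1 / x) z :=
    rfl
  rw [h2, h1, mul_sum]
  unfold val
  refine sum_congr rfl fun k _ => ?_
  have hk : (k : ℕ) ≤ j := by have := k.2; omega
  have h3 : x ^ j = x ^ (j - (k : ℕ)) * x ^ (k : ℕ) := by
    rw [← pow_add]; congr 1; omega
  have h4 : x ^ (k : ℕ) * (1 / x) ^ (k : ℕ) = 1 := by
    rw [← mul_pow, mul_one_div_cancel hx, one_pow]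
  rw [h3, eval₂_id]
  calc eval z (g k) * x ^ (j - (k : ℕ)) = eval z (g k) * x ^ (j - (k : ℕ)) *
        (x ^ (k : ℕ) * (1 / x) ^ (k : ℕ)) := by rw [h4, mul_one]
    _ = _ := by ring

theorem val_bound (D : Dat K j n Q m A f F) (x y : ℤ) (hx : bb n Q ^ (n + 3) ≤ |(x : ℝ)|)
    (hev : ev n F x y = 0) (g : Fin (j + 1) → ℝ[X])
    (hg : ∀ k : Fin (j + 1), g k ∈ degreeLT ℝ (n - k)) (B : ℝ)
    (hB : ∀ k i, |(g k).coeff i| ≤ B) :
    |val (x : ℝ) ((y : ℝ) / x) g| ≤
      ∑ l ∈ range (j + 1), |D.lamS D.φ l g| * |(x : ℝ)| ^ (j - l) * bb n Q ^ (2 * l) +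
        n * B * bb n Q ^ (4 * j + 8) / |(x : ℝ)| := by
  have hF := D.hF
  have hn := hF.hn
  have hQ := hF.hQ
  have hj := D.hj
  have hjn : j < n := by
    have h1 := D.hjn
    have h2 : j ^ 1 ≤ j ^ 7 := Nat.pow_le_pow_right (by omega) (by norm_num)
    rw [pow_one] at h2
    omega
  have hb1 : 1 ≤ bb n Q := one_le_bb hn hQ
  have hb0 : 0 < bb n Q := bb_pos hn hQ
  have hx1 : 1 ≤ |(x : ℝ)| := (one_le_pow₀ hb1).trans hx
  have hxpos : 0 < |(x : ℝ)| := by linarith
  have hx0 : (x : ℝ) ≠ 0 := abs_pos.1 hxpos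
  obtain ⟨hnear, -⟩ := near_point D x y hx hev
  set θ : ℝ := D.φ (D.θ : K) with hθdef
  have hθem : Dat.em K D.φ D.θ = θ := rfl
  have hθ : aeval θ f = 0 := by
    have h1 := congrArg (Dat.em K D.φ) D.root
    rw [map_zero] at h1
    rw [← h1, ← hθem, aeval_def, aeval_def, hom_eval₂]
    congr 1
    exact Subsingleton.elim _ _
  obtain ⟨hm', hd, hc⟩ := hF.lead_props
  obtain ⟨O⟩ := exists_ord ℝ hn hQ hm' hd hc D.irr θ hθ
  obtain ⟨br⟩ := exists_branch O hF
  -- the derivative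
  have hκem : Dat.em K D.φ D.κ = aeval θ (derivative f) := by
    unfold Dat.κ
    rw [← hθem, aeval_def, aeval_def, hom_eval₂]
    congr 1
    exact Subsingleton.elim _ _
  have hκO : O.φ O.κ = aeval θ (derivative f) := by
    unfold Ord.κ
    rw [aeval_def, hom_eval₂, O.φ_α, aeval_def]
    congr 1
    exact Subsingleton.elim _ _
  have hκeq : Dat.em K D.φ D.κ = O.φ O.κ := by rw [hκem, hκO]
  have hκ0 : O.φ O.κ ≠ 0 := by
    intro h0
    have h1 := kappa_lower O hF
    rw [h0, norm_zero, zero_mul] at h1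
    linarith
  -- the two branches agree
  have hbranch : PowerSeries.map O.φ br.w = PowerSeries.map (Dat.em K D.φ) D.w := by
    refine branch_unique (n := n) (F := F) θ (O.φ O.κ) ?_ hκ0 _ _ ?_ ?_ ?_ ?_
    · rw [hF.lead_eq]; exact hκO
    · rw [← PowerSeries.coeff_zero_eq_constantCoeff_apply, PowerSeries.coeff_map,
        PowerSeries.coeff_zero_eq_constantCoeff_apply, br.h0, map_zero]
    · rw [← PowerSeries.coeff_zero_eq_constantCoeff_apply, PowerSeries.coeff_map,
        PowerSeries.coeff_zero_eq_constantCoeff_apply, D.w0, map_zero]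
    · have h1 := congrArg (PowerSeries.map O.φ) br.eq
      rw [evt_map, cst_map, map_zero] at h1
      simpa only [map_mul, map_pow, map_add, PowerSeries.map_C, PowerSeries.map_X, O.φ_α] using h1
    · have h1 := congrArg (PowerSeries.map (Dat.em K D.φ)) D.weq
      rw [evt_map, cst_map, map_zero] at h1
      have h2 : Dat.em K D.φ (aeval D.θ (derivative f)) = O.φ O.κ := hκeq
      simpa only [map_mul, map_pow, map_add, PowerSeries.map_C, PowerSeries.map_X, h2, hθem]
        using h1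
  -- the functionals
  have hlam : ∀ l, D.lamS D.φ l g = ∑ i ∈ range (n - 1 + 1), ∑ i' ∈ range (n - 1 + 1 - i),
      vc n g i i' * O.φ (Pool.Agent.H8.KF.bc O br (n - 1) i i' l) := by
    intro l
    rw [← Pool.Agent.H8.KF.bc_coeff O br (n - 1) (vc n g) l]
    have h1 := vc_evt (PowerSeries.C (R := ℝ)) hjn g hg
      (PowerSeries.C (O.φ O.κ) ^ 2 * PowerSeries.X)
      (PowerSeries.C θ + PowerSeries.C (O.φ O.κ) * PowerSeries.map O.φ br.w)
    rw [h1]
    unfold Dat.lamS lam expn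
    rw [hκeq, hθem, hbranch]
  -- the point
  have ht0 : (1 / (x : ℝ)) * x = 1 := one_div_mul_cancel hx0
  have hz : (y : ℝ) / x = 1 / (x : ℝ) * y := by ring
  have hevR : evt n (cst ℝ F) (1 / (x : ℝ)) ((y : ℝ) / x) = 0 := by
    rw [hz, evt_eq_ev n (cst ℝ F) (x : ℝ) (y : ℝ) _ ht0]
    have h1 := congrArg (Int.castRingHom ℝ) hev
    rw [ev_map, map_zero] at h1
    have h2 : ev n (cst ℝ F) (x : ℝ) (y : ℝ) = 0 := h1
    rw [h2, mul_zero]
  have hwC : ∀ (N : ℕ) (a : ℝ), wn (fun a : ℝ => |a|) 1 N (PowerSeries.C a) = |a| :=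
    fun N a => wn_C subMul_abs N a
  have hsr := Pool.Agent.H8.KF.small_real O hF br (PowerSeries.C (1 / (x : ℝ)))
    (PowerSeries.C ((y : ℝ) / x)) 1 one_pos (1 / |(x : ℝ)|)
    (by intro N; rw [hwC, abs_div, abs_one])
    (by
      rw [one_div, inv_mul_le_iff₀ hxpos, mul_one]
      refine le_trans ?_ hx
      exact pow_le_pow_right₀ hb1 (by omega))
    (by
      intro N
      rw [← map_sub, hwC]
      exact hnear)
    (by
      have h1 := evt_map (PowerSeries.C (R := ℝ)) n (cst ℝ F) (1 / (x : ℝ)) ((y : ℝ) / x)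
      rw [cst_map, hevR, map_zero] at h1
      exact h1.symm)
    (n - 1) (vc n g) (vc_supp g) B (vc_le g B hB) (j + 1) (fun l => |D.lamS D.φ l g|)
    (by intro k _; rw [← hlam k]) 0
  have hevt : evt (n - 1) (fun i i' => PowerSeries.C (vc n g i i'))
      (PowerSeries.C (1 / (x : ℝ))) (PowerSeries.C ((y : ℝ) / x)) =
      PowerSeries.C (evt (n - 1) (vc n g) (1 / (x : ℝ)) ((y : ℝ) / x)) :=
    (evt_map (PowerSeries.C (R := ℝ)) (n - 1) (vc n g) (1 / (x : ℝ)) ((y : ℝ) / x)).symm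
  rw [hevt, hwC] at hsr
  rw [vc_val hjn g hg _ _ hx0, abs_mul, abs_pow]
  have hn1 : ((n - 1 : ℕ) : ℝ) + 1 = n := by
    have h1 : (n - 1) + 1 = n := by omega
    exact_mod_cast h1
  rw [hn1] at hsr
  calc |(x : ℝ)| ^ j * |evt (n - 1) (vc n g) (1 / (x : ℝ)) ((y : ℝ) / x)|
      ≤ |(x : ℝ)| ^ j * ((∑ k ∈ range (j + 1), |D.lamS D.φ k g| *
          (1 / |(x : ℝ)| * bb n Q ^ 2) ^ k) +
        n * B * bb n Q ^ 4 * (1 / |(x : ℝ)| * bb n Q ^ 4) ^ (j + 1)) :=
        mul_le_mul_of_nonneg_left hsr (by positivity)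
    _ = _ := by
        rw [mul_add, mul_sum]
        congr 1
        · refine sum_congr rfl fun l hl => ?_
          rw [mem_range] at hl
          have h3 : |(x : ℝ)| ^ j = |(x : ℝ)| ^ (j - l) * |(x : ℝ)| ^ l := by
            rw [← pow_add]; congr 1; omega
          have h4 : |(x : ℝ)| ^ l * (1 / |(x : ℝ)|) ^ l = 1 := by
            rw [← mul_pow, mul_one_div_cancel hxpos.ne', one_pow]
          rw [h3, mul_pow, ← pow_mul]
          calc |(x : ℝ)| ^ (j - l) * |(x : ℝ)| ^ l *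
                (|D.lamS D.φ l g| * ((1 / |(x : ℝ)|) ^ l * bb n Q ^ (2 * l)))
              = |D.lamS D.φ l g| * |(x : ℝ)| ^ (j - l) * bb n Q ^ (2 * l) *
                (|(x : ℝ)| ^ l * (1 / |(x : ℝ)|) ^ l) := by ring
            _ = _ := by rw [h4, mul_one]
        · have h4 : |(x : ℝ)| ^ j * (1 / |(x : ℝ)|) ^ j = 1 := by
            rw [← mul_pow, mul_one_div_cancel hxpos.ne', one_pow]
          rw [mul_pow, pow_succ (1 / |(x : ℝ)|) j, ← pow_mul]
          calc |(x : ℝ)| ^ j * (n * B * bb n Q ^ 4 *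
                ((1 / |(x : ℝ)|) ^ j * (1 / |(x : ℝ)|) * bb n Q ^ (4 * (j + 1))))
              = n * B * (bb n Q ^ 4 * bb n Q ^ (4 * (j + 1))) * (1 / |(x : ℝ)|) *
                (|(x : ℝ)| ^ j * (1 / |(x : ℝ)|) ^ j) := by ring
            _ = n * B * bb n Q ^ (4 * j + 8) / |(x : ℝ)| := by
                rw [h4, ← pow_add]
                have : 4 + 4 * (j + 1) = 4 * j + 8 := by ring
                rw [this]
                ring

end Pool.Agent.H8.EF
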