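import Pool.Agent.H8.EF.UppNum1
import Pool.Agent.H8.EF.UppNum2
import Pool.Agent.H8.EF.Val
import Pool.Agent.H8.EF.RInt
import Pool.Agent.H8.EF.Tay

/-! # [EF-UPP] The auxiliary function vanishes to high order at the integer point

Fix `i < JJ`. `G = ∑_(e ≤ DD) C(e,i) m^(e-i) • g_e ∈ Lsp ℤ j n 0 (ak n F)` (a submodule), an integer
vector with coefficients `≤ (DD+1) 2^DD m^DD Q₀`. By linearity the sum in the statement is
`V = val x (y/x) (mapG G)`. `val_bound` (for `mapG (Int.castRingHom ℝ) G`):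
`|V| ≤ ∑_(l ≤ j) |λ_l| |x|^(j-l) b^(2l) + n B b^(4j+8) / |x|`, where
`λ_l = D.lamS D.φ l (mapG G) = φ(D.lamZ l G)` (`lamZ_em`) `= ∑_e C(e,i) m^(e-i) φ(lamZ l (g e)) =
(hasseDeriv i p).eval m` with `p = (D.HH l DD g).map (em K D.φ) ∈ ℝ[X]` (`hasseDeriv_apply`).
`taylor_small` with `N = DD`, `I = II j n D' l`, `r = φ α`, `B = n² b^(1+2l) Q₀` (`lamZ_bound`,
`norm_em_le_hs` or its real version; `g e k` has degree `< n - k`), `h0` from `hvan`
(map by `em K D.φ`), `1 ≤ φ α ≤ 2m`, `|m - φ α| ≤ A / m^(n-1)`, `≤ 1` (`D.near`, `alpha_bounds`):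
`|λ_l| ≤ (DD+1)² 4^DD B (2m)^(DD-I) (A/m^(n-1))^(I-i)`. With `|x| ≤ m^(LL (D'+1))`,
`|x| ≥ m^(LL D')`, `|R| ≤ b` (`r_int`), `upp_num1`, `upp_num2`: `|R V| < 1`; `R V` is an integer,
so `V = 0`. -/

namespace Pool.Agent.H8.EF

open Finset Polynomial Pool.Agent.H72.ES NumberField

variable {K : Type} [Field K] [NumberField K] {j n Q m : ℕ} {A : ℝ} {f : ℤ[X]} {F : ℕ → ℕ → ℤ}

/-- `val` of an integral combination -/
theorem upp_val_sum {j : ℕ} (x z : ℝ) (s : Finset ℕ) (c : ℕ → ℤ)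
    (g : ℕ → Fin (j + 1) → ℤ[X]) :
    val x z (mapG (Int.castRingHom ℝ) (∑ e ∈ s, c e • g e)) =
      ∑ e ∈ s, (c e : ℝ) * val x z (mapG (Int.castRingHom ℝ) (g e)) := by
  unfold val mapG
  simp only [Finset.mul_sum]
  rw [Finset.sum_comm]
  refine Finset.sum_congr rfl fun k _ => ?_
  rw [Finset.sum_apply, Polynomial.map_sum, Polynomial.eval_finsetSum, Finset.sum_mul]
  refine Finset.sum_congr rfl fun e _ => ?_
  rw [Pi.smul_apply, Polynomial.smul_eq_C_mul, Polynomial.map_mul, Polynomial.eval_mul,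
    Polynomial.map_C, Polynomial.eval_C]
  simp only [eq_intCast]
  ring

/-- `mapG` of an integral combination -/
theorem upp_mapG_sum {j : ℕ} (s : Finset ℕ) (c : ℕ → ℤ) (g : ℕ → Fin (j + 1) → ℤ[X]) :
    mapG (Int.castRingHom ℝ) (∑ e ∈ s, c e • g e) =
      ∑ e ∈ s, (c e : ℝ) • mapG (Int.castRingHom ℝ) (g e) := by
  funext k
  unfold mapG
  rw [Finset.sum_apply, Polynomial.map_sum, Finset.sum_apply]
  refine Finset.sum_congr rfl fun e _ => ?_
  rw [Pi.smul_apply, Pi.smul_apply, Polynomial.smul_eq_C_mul, Polynomial.map_mul,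
    Polynomial.map_C, Polynomial.smul_eq_C_mul]
  simp only [eq_intCast]

theorem upp_hasse_eval (N i : ℕ) (c : ℕ → ℝ) (m : ℝ) :
    (hasseDeriv i (∑ e ∈ range (N + 1), C (c e) * X ^ e)).eval m =
      ∑ e ∈ range (N + 1), (e.choose i : ℝ) * m ^ (e - i) * c e := by
  rw [map_sum, Polynomial.eval_finsetSum]
  refine Finset.sum_congr rfl fun e _ => ?_
  rw [Polynomial.C_mul_X_pow_eq_monomial, Polynomial.hasseDeriv_monomial,
    Polynomial.eval_monomial]
  ring

theorem upp_hasse_map {S T : Type*} [CommRing S] [CommRing T] (ρ : S →+* T) (k : ℕ) (p : S[X]) :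
    hasseDeriv k (p.map ρ) = (hasseDeriv k p).map ρ := by
  ext i
  rw [Polynomial.hasseDeriv_coeff, Polynomial.coeff_map, Polynomial.coeff_map,
    Polynomial.hasseDeriv_coeff, map_mul, map_natCast]

theorem upp_choose_le {e d i : ℕ} (he : e ≤ d) : (e.choose i : ℝ) ≤ 2 ^ d := by
  have h1 : e.choose i ≤ 2 ^ e := Nat.choose_le_two_pow e i
  have h2 : 2 ^ e ≤ 2 ^ d := Nat.pow_le_pow_right (by norm_num) he
  exact_mod_cast h1.trans h2

/-- the combination -/
noncomputable def uppG (d i m : ℕ) (g : ℕ → Fin (j + 1) → ℤ[X]) : Fin (j + 1) → ℤ[X] :=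
  ∑ e ∈ range (d + 1), ((e.choose i : ℤ) * (m : ℤ) ^ (e - i)) • g e

theorem uppG_mem (d i m : ℕ) (g : ℕ → Fin (j + 1) → ℤ[X])
    (hL : ∀ e, g e ∈ Lsp ℤ j n 0 (ak n F)) : uppG d i m g ∈ Lsp ℤ j n 0 (ak n F) :=
  Submodule.sum_mem _ fun e _ => Submodule.smul_mem _ _ (hL e)

theorem uppG_coeff (d i m : ℕ) (hm : 1 ≤ m) (g : ℕ → Fin (j + 1) → ℤ[X]) (Q₀ : ℕ)
    (hsize : ∀ e k i, |(g e k).coeff i| ≤ (Q₀ : ℤ)) (k : Fin (j + 1)) (i' : ℕ) :
    |(((uppG d i m g) k).coeff i' : ℝ)| ≤ ((d + 1) * 2 ^ d * (m : ℝ) ^ d * Q₀) := by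
  unfold uppG
  rw [Finset.sum_apply, Polynomial.finsetSum_coeff]
  push_cast
  refine (Finset.abs_sum_le_sum_abs _ _).trans ?_
  have h1 : ∀ e ∈ range (d + 1), |(((((e.choose i : ℤ) * (m : ℤ) ^ (e - i)) • g e) k).coeff i' : ℝ)|
      ≤ 2 ^ d * (m : ℝ) ^ d * Q₀ := by
    intro e he
    have he' : e ≤ d := by
      have := Finset.mem_range.1 he
      omega
    rw [Pi.smul_apply, Polynomial.coeff_smul, smul_eq_mul]
    push_cast
    rw [abs_mul, abs_mul]
    have h2 : |(e.choose i : ℝ)| ≤ 2 ^ d := by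
      rw [abs_of_nonneg (by positivity)]
      exact upp_choose_le he'
    have h3 : |(m : ℝ) ^ (e - i)| ≤ (m : ℝ) ^ d := by
      rw [abs_of_nonneg (by positivity)]
      exact pow_le_pow_right₀ (by exact_mod_cast hm) (by omega)
    have h4 : |(((g e k).coeff i' : ℤ) : ℝ)| ≤ Q₀ := by
      have := hsize e k i'
      have h5 : ((|(g e k).coeff i'| : ℤ) : ℝ) ≤ ((Q₀ : ℤ) : ℝ) := by exact_mod_cast this
      simpa using h5
    gcongr
  refine (Finset.sum_le_sum h1).trans ?_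
  rw [Finset.sum_const, Finset.card_range, nsmul_eq_mul]
  push_cast
  apply le_of_eq
  ring

theorem upp (D : Dat K j n Q m A f F) (D' : ℕ) (hD1 : 2 * n ^ 2 ≤ D')
    (hb : bb n Q ^ (16 * (j + 1)) ≤ (m : ℝ) ^ (qq j * D')) (g : ℕ → Fin (j + 1) → ℤ[X])
    (hL : ∀ e, g e ∈ Lsp ℤ j n 0 (ak n F))
    (hsize : ∀ e k i, |(g e k).coeff i| ≤ (QZ j n m D' : ℤ))
    (hvan : ∀ l ≤ j, ∀ i < II j n D' l,
      (hasseDeriv i (D.HH l (DD j n D') g)).eval D.α = 0)
    (x y : ℤ) (hx0 : bb n Q ^ (n + 3) ≤ |(x : ℝ)|)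
    (hx1 : (m : ℝ) ^ (LL j n * D') ≤ |(x : ℝ)|)
    (hx2 : |(x : ℝ)| ≤ (m : ℝ) ^ (LL j n * (D' + 1))) (hev : ev n F x y = 0) (i : ℕ)
    (hi : i < JJ j n D') :
    ∑ e ∈ range (DD j n D' + 1), (e.choose i : ℝ) * (m : ℝ) ^ (e - i) *
      val (x : ℝ) ((y : ℝ) / x) (mapG (Int.castRingHom ℝ) (g e)) = 0 := by
  classical
  have hj := D.hj
  have hjn := D.hjn
  have hQ : 2 ^ n ≤ Q := D.hF.hQ
  obtain ⟨h8192, hn4096, -⟩ := num_n hj hjn
  have hn4 : 4 ≤ n := by omega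
  have hb1 : 1 ≤ bb n Q := one_le_bb hn4 hQ
  have hb0 : 0 < bb n Q := bb_pos hn4 hQ
  obtain ⟨hm16, hnear1, hα1, hα2⟩ := alpha_bounds D
  have hm1 : (1 : ℝ) ≤ m := by exact_mod_cast (by omega : 1 ≤ m)
  have hm0 : (0 : ℝ) < m := by linarith
  have hx : (0 : ℝ) < |(x : ℝ)| := lt_of_lt_of_le (by positivity) hx0
  have hxne : x ≠ 0 := by
    rintro rfl
    simp at hx
  set d := DD j n D' with hd
  set G := uppG d i m g with hG
  have hGL : G ∈ Lsp ℤ j n 0 (ak n F) := uppG_mem d i m g hL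
  -- the sum is the value of `G`
  have hV : ∑ e ∈ range (d + 1), (e.choose i : ℝ) * (m : ℝ) ^ (e - i) *
      val (x : ℝ) ((y : ℝ) / x) (mapG (Int.castRingHom ℝ) (g e)) =
      val (x : ℝ) ((y : ℝ) / x) (mapG (Int.castRingHom ℝ) G) := by
    rw [hG]
    unfold uppG
    rw [upp_val_sum]
    push_cast
    rfl
  rw [hV]
  obtain ⟨R, hR0, hRb, hR⟩ := r_int D
  obtain ⟨v, hv⟩ := hR G hGL x y hxne hev
  set V := val (x : ℝ) ((y : ℝ) / x) (mapG (Int.castRingHom ℝ) G) with hVdef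
  -- it suffices to bound
  suffices hlt : |(R : ℝ) * V| < 1 by
    rw [← hv] at hlt
    have h1 : |v| < 1 := by exact_mod_cast hlt
    have h2 : v = 0 := Int.abs_lt_one_iff.1 h1
    rw [h2] at hv
    have h3 : (R : ℝ) ≠ 0 := by exact_mod_cast hR0
    rcases mul_eq_zero.1 (by simpa using hv.symm : (R : ℝ) * V = 0) with h | h
    · exact absurd h h3
    · exact h
  -- the functionals
  have hlamle : ∀ l ≤ j, |D.lamS D.φ l (mapG (Int.castRingHom ℝ) G)| ≤
      ((d + 1) ^ 2 * 4 ^ d * (n ^ 2 * bb n Q ^ (1 + 2 * l) * QZ j n m D') *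
        (2 * m) ^ (d - II j n D' l) * (A / m ^ (n - 1)) ^ (II j n D' l - i)) := by
    intro l hl
    have hI1 : II j n D' l ≤ d := num_II hj hjn D' l
    have hI2 : i ≤ II j n D' l := hi.le.trans (num_JJ hj hjn D' l hD1)
    set p : ℝ[X] := (D.HH l d g).map (Dat.em K D.φ) with hp
    have hpe : p = ∑ e ∈ range (d + 1), C (D.φ (D.lamZ l (g e) : K)) * X ^ e := by
      rw [hp]
      unfold Dat.HH
      rw [Polynomial.map_sum]
      refine Finset.sum_congr rfl fun e _ => ?_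
      rw [Polynomial.map_mul, Polynomial.map_C, Polynomial.map_pow, Polynomial.map_X]
      rfl
    have hlam : D.lamS D.φ l (mapG (Int.castRingHom ℝ) G) = (hasseDeriv i p).eval (m : ℝ) := by
      rw [hpe, upp_hasse_eval, hG]
      unfold uppG
      rw [upp_mapG_sum]
      unfold Dat.lamS
      rw [lam_sum]
      refine Finset.sum_congr rfl fun e _ => ?_
      rw [lam_smul]
      have h1 := lamZ_em D D.φ l (g e)
      unfold Dat.lamS at h1
      rw [h1]
      push_cast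
      rfl
    rw [hlam]
    have hpN : p.natDegree ≤ d := by
      rw [hpe]
      refine Polynomial.natDegree_sum_le_of_forall_le _ _ fun e he => ?_
      refine (Polynomial.natDegree_C_mul_X_pow_le _ _).trans ?_
      have := Finset.mem_range.1 he
      omega
    have hpB : ∀ e, |p.coeff e| ≤ (n : ℝ) ^ 2 * bb n Q ^ (1 + 2 * l) * QZ j n m D' := by
      intro e
      rw [hpe, Polynomial.finsetSum_coeff]
      simp only [Polynomial.coeff_C_mul_X_pow]
      rw [Finset.sum_ite_eq]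
      split_ifs with he
      · have h1 : hs K (D.lamZ l (g e)) ≤ (n : ℝ) ^ 2 * bb n Q ^ (1 + 2 * l) * QZ j n m D' := by
          refine lamZ_bound D l (g e) (fun k => ?_) _ fun k i' => ?_
          · have := ((mem_Lsp.1 (hL e)) k).1
            simpa using this
          · have h5 : ((|(g e k).coeff i'| : ℤ) : ℝ) ≤ (((QZ j n m D' : ℕ) : ℤ) : ℝ) := by
              exact_mod_cast hsize e k i'
            simpa using h5
        refine le_trans ?_ h1
        have h2 := norm_embedding_le_house (K := K) (D.lamZ l (g e) : K)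
          (Complex.ofRealHom.comp D.φ)
        have h3 : ‖(Complex.ofRealHom.comp D.φ) (D.lamZ l (g e) : K)‖ =
            |D.φ (D.lamZ l (g e) : K)| := by
          simp
        rw [h3] at h2
        exact h2
      · rw [abs_zero]
        positivity
    have h0 : ∀ k < II j n D' l, (hasseDeriv k p).eval (D.φ (D.α : K)) = 0 := by
      intro k hk
      rw [hp, upp_hasse_map, Polynomial.eval_map]
      have h1 : D.φ (D.α : K) = Dat.em K D.φ D.α := rfl
      rw [h1, Polynomial.eval₂_at_apply, hvan l hl k hk, map_zero]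
    have hT := taylor_small p d (II j n D' l) i _ (D.φ (D.α : K)) (m : ℝ) hpN hI1 hI2 hpB hα1
      (by rw [abs_sub_comm]; exact hnear1) h0
    refine hT.trans ?_
    have hA0 : (0 : ℝ) ≤ A := by linarith [D.hA]
    have hn1 : |(m : ℝ) - D.φ (D.α : K)| ≤ A / (m : ℝ) ^ (n - 1) := by
      rw [le_div_iff₀ (by positivity), abs_sub_comm]
      exact D.near
    have h2 : (D.φ (D.α : K)) ^ (d - II j n D' l) ≤ (2 * (m : ℝ)) ^ (d - II j n D' l) :=
      pow_le_pow_left₀ (by linarith) hα2 _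
    have h3 : |(m : ℝ) - D.φ (D.α : K)| ^ (II j n D' l - i) ≤
        (A / (m : ℝ) ^ (n - 1)) ^ (II j n D' l - i) :=
      pow_le_pow_left₀ (abs_nonneg _) hn1 _
    gcongr
  -- coefficient bound
  have hGk : ∀ k : Fin (j + 1), mapG (Int.castRingHom ℝ) G k ∈ degreeLT ℝ (n - k) := by
    intro k
    have h1 := ((mem_Lsp.1 hGL) k).1
    rw [Polynomial.mem_degreeLT] at h1 ⊢
    simp only [Nat.sub_zero] at h1
    exact lt_of_le_of_lt Polynomial.degree_map_le h1
  have hvb := val_bound D x y hx0 hev (mapG (Int.castRingHom ℝ) G) hGk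
    ((d + 1) * 2 ^ d * (m : ℝ) ^ d * QZ j n m D') (fun k i' => by
      have := uppG_coeff (j := j) d i m (by omega) g (QZ j n m D') hsize k i'
      unfold mapG
      rw [Polynomial.coeff_map]
      simpa using this)
  have hu1 : ∀ l ≤ j, bb n Q * (((j : ℝ) + 1) *
      (|D.lamS D.φ l (mapG (Int.castRingHom ℝ) G)| * |(x : ℝ)| ^ (j - l) * bb n Q ^ (2 * l)))
      < 1 / 2 := by
    intro l hl
    have h1 := upp_num1 hj hjn hQ D.hA D.hm hD1 hb l i hl hi
    refine lt_of_le_of_lt ?_ h1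
    have h2 := hlamle l hl
    have h3 : |(x : ℝ)| ^ (j - l) ≤ ((m : ℝ) ^ (LL j n * (D' + 1))) ^ (j - l) :=
      pow_le_pow_left₀ (abs_nonneg _) hx2 _
    have h4 := (abs_nonneg _).trans h2
    rw [← hd]
    gcongr
  have hu2 := upp_num2 hj hjn hQ D.hA D.hm hD1 hb
  have hu2' : bb n Q * (n * ((d + 1) * 2 ^ d * (m : ℝ) ^ d * QZ j n m D') *
      bb n Q ^ (4 * j + 8) / |(x : ℝ)|) < 1 / 2 := by
    refine lt_of_le_of_lt ?_ hu2
    rw [← hd]
    gcongr
  have hsum : bb n Q * ∑ l ∈ range (j + 1), |D.lamS D.φ l (mapG (Int.castRingHom ℝ) G)| *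
      |(x : ℝ)| ^ (j - l) * bb n Q ^ (2 * l) ≤ 1 / 2 := by
    rw [Finset.mul_sum]
    have h1 : ∀ l ∈ range (j + 1), bb n Q * (|D.lamS D.φ l (mapG (Int.castRingHom ℝ) G)| *
        |(x : ℝ)| ^ (j - l) * bb n Q ^ (2 * l)) ≤ 1 / 2 / (j + 1) := by
      intro l hl
      have hl' : l ≤ j := by
        have := Finset.mem_range.1 hl
        omega
      have h2 := (hu1 l hl').le
      rw [le_div_iff₀ (by positivity)]
      calc _ = _ := by ring
        _ ≤ _ := h2
    refine (Finset.sum_le_sum h1).trans ?_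
    rw [Finset.sum_const, Finset.card_range, nsmul_eq_mul]
    push_cast
    apply le_of_eq
    field_simp
  rw [abs_mul]
  calc |(R : ℝ)| * |V| ≤ bb n Q * |V| := mul_le_mul_of_nonneg_right hRb (abs_nonneg _)
    _ ≤ bb n Q * (∑ l ∈ range (j + 1), |D.lamS D.φ l (mapG (Int.castRingHom ℝ) G)| *
        |(x : ℝ)| ^ (j - l) * bb n Q ^ (2 * l) +
        n * ((d + 1) * 2 ^ d * (m : ℝ) ^ d * QZ j n m D') * bb n Q ^ (4 * j + 8) / |(x : ℝ)|) :=
        mul_le_mul_of_nonneg_left hvb hb0.le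
    _ < 1 := by
        rw [mul_add]
        linarith

end Pool.Agent.H8.EF
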