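import Pool.Agent.H8.EF.Num

/-! # [EF-DIML] The dimension of the space of functions is at most `M = n + j(j+1)/2`

`S` a field, `a 0` monic of degree `n`, coprime to `a 1`. The linear map
`u : Lsp S j n 0 a → degreeLT S (n + j)`, `g ↦ a_0 g_1 - a_1 g_0` (condition `k = 1` of `Lsp`) has
kernel: `a_0 g_1 = a_1 g_0`, so `a_0 ∣ g_0`, `deg g_0 < n`, so `g_0 = 0`, `g_1 = 0`; then
`a_0 g_k` has degree `< n + j + 1 - k`, so `deg g_k < j + 1 - k` for `k ≥ 2`. So the kernel injects
into `∏_(k = 2..j) degreeLT S (j+1-k)`, of dimension `∑_(k=2..j) (j+1-k) = j(j-1)/2`; in total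
`n + j + j(j-1)/2 = MM j n` (`num_M`). (`LinearMap.finrank_range_add_finrank_ker`; for
finite-dimensionality: `Lsp` injects into `∏_k degreeLT S (n-k)`.) -/

namespace Pool.Agent.H8.EF

open Finset Polynomial Pool.Agent.H72.ES NumberField

theorem fd_degreeLT (S : Type*) [Field S] (m : ℕ) :
    FiniteDimensional S (degreeLT S m) ∧ Module.finrank S (degreeLT S m) = m := by
  constructor
  · exact LinearEquiv.finiteDimensional (degreeLTEquiv S m).symm
  · rw [LinearEquiv.finrank_eq (degreeLTEquiv S m), Module.finrank_fin_fun]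

/-- products of spaces of polynomials of bounded degree -/
theorem fd_pi (S : Type*) [Field S] {N : ℕ} (d : Fin N → ℕ) :
    FiniteDimensional S (∀ k : Fin N, degreeLT S (d k)) ∧
      Module.finrank S (∀ k : Fin N, degreeLT S (d k)) = ∑ k, d k := by
  have h1 : ∀ k, FiniteDimensional S (degreeLT S (d k)) := fun k => (fd_degreeLT S (d k)).1
  constructor
  · infer_instance
  · rw [Module.finrank_pi_fintype]
    exact Finset.sum_congr rfl fun k _ => (fd_degreeLT S (d k)).2

/-- if `A` is monic of degree `n` and `A * g` has degree `< n + d` then `g` has degree `< d` -/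
theorem mem_degreeLT_of_mul {S : Type*} [Field S] {A g : S[X]} {n d : ℕ} (hA : A.Monic)
    (hn : A.natDegree = n) (h : A * g ∈ degreeLT S (n + d)) : g ∈ degreeLT S d := by
  rw [mem_degreeLT] at h ⊢
  by_cases hg : g = 0
  · rw [hg, degree_zero]
    exact WithBot.bot_lt_coe _
  rw [degree_mul, degree_eq_natDegree hA.ne_zero, degree_eq_natDegree hg, hn] at h
  rw [degree_eq_natDegree hg]
  have h' : n + g.natDegree < n + d := by exact_mod_cast h
  have : g.natDegree < d := by omega
  exact_mod_cast this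

theorem finrank_Lsp {S : Type*} [Field S] {j n : ℕ} (hj : 2 ≤ j) (hn : 64 * j ^ 7 ≤ n)
    (a : ℕ → S[X]) (h0 : (a 0).Monic) (hd : (a 0).natDegree = n) (hcop : IsCoprime (a 0) (a 1)) :
    FiniteDimensional S (Lsp S j n 0 a) ∧ Module.finrank S (Lsp S j n 0 a) ≤ MM j n := by
  classical
  have hj1 : 1 < j + 1 := by omega
  set i1 : Fin (j + 1) := ⟨1, hj1⟩ with hi1
  -- finite dimension
  have hfd : FiniteDimensional S (Lsp S j n 0 a) := by
    have h1 := (fd_pi S (fun k : Fin (j + 1) => n - 0 - (k : ℕ))).1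
    let e : Lsp S j n 0 a →ₗ[S] (∀ k : Fin (j + 1), degreeLT S (n - 0 - (k : ℕ))) :=
      { toFun := fun g k => ⟨g.1 k, (g.2 k).1⟩
        map_add' := fun g h => rfl
        map_smul' := fun c g => rfl }
    refine FiniteDimensional.of_injective e ?_
    intro g h hgh
    apply Subtype.ext
    funext k
    have := congrFun hgh k
    exact congrArg Subtype.val this
  refine ⟨hfd, ?_⟩
  -- the map `u`
  have hu1 : ∀ g : Lsp S j n 0 a, a 0 * g.1 i1 - a 1 * g.1 0 ∈ degreeLT S (n + j) := by
    intro g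
    have h1 := (g.2 i1).2
    have e : n + j + 1 - ((i1 : Fin (j + 1)) : ℕ) - 0 = n + j := by
      simp only [hi1]; omega
    rw [e] at h1
    exact h1
  let u : Lsp S j n 0 a →ₗ[S] degreeLT S (n + j) :=
    { toFun := fun g => ⟨a 0 * g.1 i1 - a 1 * g.1 0, hu1 g⟩
      map_add' := fun g h => by
        apply Subtype.ext
        simp only [Submodule.coe_add, Pi.add_apply]
        ring
      map_smul' := fun c g => by
        apply Subtype.ext
        simp only [Submodule.coe_smul, Pi.smul_apply, RingHom.id_apply, smul_sub, mul_smul_comm] }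
  have hker0 : ∀ g : Lsp S j n 0 a, g ∈ LinearMap.ker u → g.1 0 = 0 ∧ g.1 i1 = 0 := by
    intro g hg
    have h1 : a 0 * g.1 i1 - a 1 * g.1 0 = 0 := congrArg Subtype.val (LinearMap.mem_ker.1 hg)
    have h2 : a 0 ∣ a 1 * g.1 0 := ⟨g.1 i1, (sub_eq_zero.1 h1).symm⟩
    have h3 : a 0 ∣ g.1 0 := hcop.dvd_of_dvd_mul_left h2
    have h4 : g.1 0 = 0 := by
      by_contra hne
      have h5 := degree_le_of_dvd h3 hne
      have h6 := (g.2 0).1
      rw [mem_degreeLT] at h6
      rw [degree_eq_natDegree h0.ne_zero, hd] at h5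
      have h7 : ((n : ℕ) : WithBot ℕ) < ((n - 0 - ((0 : Fin (j + 1)) : ℕ) : ℕ) : WithBot ℕ) :=
        lt_of_le_of_lt h5 h6
      have h8 : n < n - 0 - ((0 : Fin (j + 1)) : ℕ) := by exact_mod_cast h7
      omega
    refine ⟨h4, ?_⟩
    rw [h4, mul_zero, sub_zero] at h1
    rcases mul_eq_zero.1 h1 with h | h
    · exact absurd h h0.ne_zero
    · exact h
  -- the kernel
  have hmem : ∀ (g : LinearMap.ker u) (k : Fin (j - 1)),
      g.1.1 ⟨(k : ℕ) + 2, by have := k.2; omega⟩ ∈ degreeLT S (j - 1 - (k : ℕ)) := by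
    intro g k
    have hk := k.2
    have h1 := (g.1.2 ⟨(k : ℕ) + 2, by omega⟩).2
    rw [(hker0 g.1 g.2).1, mul_zero, sub_zero] at h1
    have e : n + j + 1 - ((⟨(k : ℕ) + 2, by omega⟩ : Fin (j + 1)) : ℕ) - 0 =
        n + (j - 1 - (k : ℕ)) := by
      simp only; omega
    rw [e] at h1
    exact mem_degreeLT_of_mul h0 hd h1
  let v : LinearMap.ker u →ₗ[S] (∀ k : Fin (j - 1), degreeLT S (j - 1 - (k : ℕ))) :=
    { toFun := fun g k => ⟨g.1.1 ⟨(k : ℕ) + 2, by have := k.2; omega⟩, hmem g k⟩
      map_add' := fun g h => rfl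
      map_smul' := fun c g => rfl }
  have hvinj : Function.Injective v := by
    rw [injective_iff_map_eq_zero]
    intro g hg
    apply Subtype.ext
    apply Subtype.ext
    funext k
    rcases Nat.lt_or_ge (k : ℕ) 2 with hk | hk
    · rcases Nat.lt_or_ge (k : ℕ) 1 with hk1 | hk1
      · have : k = 0 := by
          apply Fin.ext
          have : (k : ℕ) = 0 := by omega
          rw [this]; rfl
        rw [this]
        exact (hker0 g.1 g.2).1
      · have : k = i1 := by
          apply Fin.ext
          simp only [hi1]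
          omega
        rw [this]
        exact (hker0 g.1 g.2).2
    · have hkj := k.2
      have h1 := congrArg Subtype.val (congrFun hg ⟨(k : ℕ) - 2, by omega⟩)
      have h2 : (⟨((⟨(k : ℕ) - 2, by omega⟩ : Fin (j - 1)) : ℕ) + 2, by simp only; omega⟩ :
          Fin (j + 1)) = k := by
        apply Fin.ext
        simp only
        omega
      change g.1.1 ⟨((⟨(k : ℕ) - 2, by omega⟩ : Fin (j - 1)) : ℕ) + 2, _⟩ = 0 at h1
      rw [h2] at h1
      exact h1
  have hfdv := (fd_pi S (fun k : Fin (j - 1) => j - 1 - (k : ℕ))).1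
  have hker : Module.finrank S (LinearMap.ker u) ≤ j * (j - 1) / 2 := by
    have h1 := LinearMap.finrank_le_finrank_of_injective hvinj
    rw [(fd_pi S (fun k : Fin (j - 1) => j - 1 - (k : ℕ))).2] at h1
    refine h1.trans (le_of_eq ?_)
    rw [Fin.sum_univ_eq_sum_range (fun k => j - 1 - k) (j - 1)]
    have h2 : ∑ k ∈ range (j - 1), (j - 1 - k) = ∑ k ∈ range (j - 1), (k + 1) := by
      rw [← Finset.sum_range_reflect (fun k => k + 1) (j - 1)]
      refine Finset.sum_congr rfl fun k hk => ?_
      have := Finset.mem_range.1 hk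
      omega
    rw [h2]
    have h3 := Finset.sum_range_succ' (fun k => k) (j - 1)
    rw [add_zero] at h3
    rw [← h3, Finset.sum_range_id]
    have : j - 1 + 1 = j := by omega
    rw [this]
  have hrange : Module.finrank S (LinearMap.range u) ≤ n + j := by
    have := (fd_degreeLT S (n + j)).1
    have h1 := Submodule.finrank_le (LinearMap.range u)
    rw [(fd_degreeLT S (n + j)).2] at h1
    exact h1
  have h1 := LinearMap.finrank_range_add_finrank_ker u
  have h2 := (num_M hj hn).2.2
  omega

end Pool.Agent.H8.EF
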