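import Pool.Agent.H8.EF.Defs
import Pool.Agent.H72.ES.Const

/-! # [EF-NUM] Facts about the parameters

`j ≥ 2`, `n ≥ 64 j^7`, `q = qq j = 2 j (j+1)² ≤ 4.5 j³` (as `j + 1 ≤ 1.5 j`), `M = MM j n`,
`ι = io j n = 3 q j + n/q + 1`, so `3 q² j + n < q ι ≤ 3 q² j + n + q`, `c = n/(j+1)`,
`e = ee j n = (c+1)/(j+1)`.

`io_lt_ee`: `e ≥ n/(j+1)² - 1` (real division), `j ι ≤ 3 q j² + j n / q + j`,
`j n / q = n / (2 (j+1)²)`; `n / (2 (j+1)²) ≥ 6 j³ (j+1)² + j + 2` because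
`12 j³ (j+1)^4 + 2 (j+2) (j+1)² ≤ 64 j^7 ≤ n` (`(j+1)^4 ≤ 81/16 j^4`, `(j+2)(j+1)² ≤ 4.5 j^3`).
All statements below were checked numerically. -/

namespace Pool.Agent.H8.EF

open Finset Polynomial Pool.Agent.H72.ES NumberField

variable {j n : ℕ}

theorem num_n (hj : 2 ≤ j) (hn : 64 * j ^ 7 ≤ n) : 8192 ≤ n ∧ 4096 * j ≤ n ∧ 12 * j ≤ n := by
  have h6 : 2 ^ 6 ≤ j ^ 6 := Nat.pow_le_pow_left hj 6
  have h1 : 64 * j ≤ j ^ 6 * j := Nat.mul_le_mul_right j (by simpa using h6)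
  have h2 : 64 * j ^ 7 = 64 * (j ^ 6 * j) := by ring
  refine ⟨?_, ?_, ?_⟩ <;> omega

theorem aux_pow (hj : 2 ≤ j) : 64 * j ≤ j ^ 7 ∧ 16 * j ^ 3 ≤ j ^ 7 ∧ 2 * j ^ 6 ≤ j ^ 7 ∧
    8 * j ^ 4 ≤ j ^ 7 := by
  have h6 : 2 ^ 6 ≤ j ^ 6 := Nat.pow_le_pow_left hj 6
  have h4 : 2 ^ 4 ≤ j ^ 4 := Nat.pow_le_pow_left hj 4
  have h3 : 2 ^ 3 ≤ j ^ 3 := Nat.pow_le_pow_left hj 3
  refine ⟨?_, ?_, ?_, ?_⟩
  · calc 64 * j ≤ j ^ 6 * j := Nat.mul_le_mul_right j (by simpa using h6)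
      _ = j ^ 7 := by ring
  · calc 16 * j ^ 3 ≤ j ^ 4 * j ^ 3 := Nat.mul_le_mul_right _ (by simpa using h4)
      _ = j ^ 7 := by ring
  · calc 2 * j ^ 6 ≤ j * j ^ 6 := Nat.mul_le_mul_right _ hj
      _ = j ^ 7 := by ring
  · calc 8 * j ^ 4 ≤ j ^ 3 * j ^ 4 := Nat.mul_le_mul_right _ (by simpa using h3)
      _ = j ^ 7 := by ring

theorem num_q (hj : 2 ≤ j) : 36 ≤ qq j ∧ 2 * qq j ≤ 9 * j ^ 3 := by
  unfold qq
  have h1 : 3 ^ 2 ≤ (j + 1) ^ 2 := Nat.pow_le_pow_left (by omega) 2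
  have h2 : (2 * (j + 1)) ^ 2 ≤ (3 * j) ^ 2 := Nat.pow_le_pow_left (by omega) 2
  constructor
  · calc 36 = 2 * 2 * 3 ^ 2 := by norm_num
      _ ≤ 2 * j * (j + 1) ^ 2 := Nat.mul_le_mul (by omega) h1
  · calc 2 * (2 * j * (j + 1) ^ 2) = j * (2 * (j + 1)) ^ 2 := by ring
      _ ≤ j * (3 * j) ^ 2 := Nat.mul_le_mul_left j h2
      _ = 9 * j ^ 3 := by ring

theorem num_qn (hj : 2 ≤ j) (hn : 64 * j ^ 7 ≤ n) : 6 * qq j ^ 2 ≤ n ∧ 3 * j * qq j ^ 2 ≤ n ∧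
    qq j * (j + 1) ≤ n := by
  obtain ⟨-, hq⟩ := num_q hj
  obtain ⟨a1, a2, a3, a4⟩ := aux_pow hj
  have hq2 : (2 * qq j) ^ 2 ≤ (9 * j ^ 3) ^ 2 := Nat.pow_le_pow_left hq 2
  have e1 : (2 * qq j) ^ 2 = 4 * qq j ^ 2 := by ring
  have e2 : (9 * j ^ 3) ^ 2 = 81 * j ^ 6 := by ring
  rw [e1, e2] at hq2
  refine ⟨by omega, ?_, ?_⟩
  · have h := Nat.mul_le_mul_left j hq2
    have e3 : j * (4 * qq j ^ 2) = 4 * (j * qq j ^ 2) := by ring
    have e4 : j * (81 * j ^ 6) = 81 * j ^ 7 := by ring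
    have e5 : 3 * j * qq j ^ 2 = 3 * (j * qq j ^ 2) := by ring
    rw [e3, e4] at h
    rw [e5]
    omega
  · have h := Nat.mul_le_mul hq (show 2 * (j + 1) ≤ 3 * j by omega)
    have e3 : 2 * qq j * (2 * (j + 1)) = 4 * (qq j * (j + 1)) := by ring
    have e4 : 9 * j ^ 3 * (3 * j) = 27 * j ^ 4 := by ring
    rw [e3, e4] at h
    omega

theorem aux_tri (j : ℕ) : j * (j + 1) / 2 * 2 = j * (j + 1) ∧
    j * (j + 1) / 2 = j + j * (j - 1) / 2 := by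
  have h1 : j * (j + 1) / 2 * 2 = j * (j + 1) := Nat.div_mul_cancel (Nat.even_mul_succ_self j).two_dvd
  refine ⟨h1, ?_⟩
  rcases Nat.eq_zero_or_pos j with h | h
  · subst h
    simp
  · obtain ⟨i, rfl⟩ : ∃ i, j = i + 1 := ⟨j - 1, by omega⟩
    have h2 : i * (i + 1) / 2 * 2 = i * (i + 1) :=
      Nat.div_mul_cancel (Nat.even_mul_succ_self i).two_dvd
    have h3 : (i + 1) * (i + 1 - 1) = i * (i + 1) := by
      simp [Nat.mul_comm]
    have h4 : (i + 1) * (i + 1 + 1) = i * (i + 1) + 2 * (i + 1) := by ring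
    rw [h3]
    omega

theorem num_M (hj : 2 ≤ j) (hn : 64 * j ^ 7 ≤ n) : n ≤ MM j n ∧ 4 * MM j n ≤ 5 * n ∧
    MM j n = n + j + j * (j - 1) / 2 := by
  unfold MM
  obtain ⟨t1, t2⟩ := aux_tri j
  refine ⟨by omega, ?_, by omega⟩
  obtain ⟨a1, a2, a3, a4⟩ := aux_pow hj
  have h : j * (j + 1) ≤ j ^ 3 := by
    have : j + 1 ≤ j ^ 2 := by nlinarith
    calc j * (j + 1) ≤ j * j ^ 2 := Nat.mul_le_mul_left j this
      _ = j ^ 3 := by ring
  omega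

/-- number of unknowns minus number of equations -/
theorem num_count (hj : 2 ≤ j) (hn : 64 * j ^ 7 ≤ n) :
    ∑ k ∈ range (j + 1), (n - k) = j * (n - 1 - j) + MM j n := by
  obtain ⟨-, h2, -⟩ := num_n hj hn
  have hjn : j + 1 ≤ n := by omega
  have h1 : ∑ k ∈ range (j + 1), (n - k) + ∑ k ∈ range (j + 1), k = (j + 1) * n := by
    rw [← Finset.sum_add_distrib]
    rw [Finset.sum_congr rfl (g := fun _ => n)]
    · simp
    · intro k hk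
      have := Finset.mem_range.1 hk
      omega
  have h3 : (∑ k ∈ range (j + 1), k) * 2 = (j + 1) * j := by
    have := Finset.sum_range_id_mul_two (j + 1)
    simpa using this
  obtain ⟨t1, -⟩ := aux_tri j
  unfold MM
  obtain ⟨r, hr⟩ : ∃ r, n = r + (j + 1) := ⟨n - (j + 1), by omega⟩
  have h4 : n - 1 - j = r := by omega
  rw [h4]
  have h5 : (j + 1) * n = j * r + j * (j + 1) + n := by
    rw [hr]
    ring
  have h6 : (j + 1) * j = j * (j + 1) := Nat.mul_comm _ _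
  omega

theorem num_io (hj : 2 ≤ j) (hn : 64 * j ^ 7 ≤ n) : j * (j + 1) / 2 + 1 ≤ io j n ∧
    3 * qq j ^ 2 * j + n ≤ qq j * io j n ∧ qq j * io j n ≤ 3 * qq j ^ 2 * j + n + qq j := by
  have hq := (num_q hj).1
  have e : qq j * io j n = 3 * qq j ^ 2 * j + qq j * (n / qq j) + qq j := by
    unfold io
    ring
  have h1 : qq j * (n / qq j) ≤ n := Nat.mul_div_le n _
  have h2 : n < qq j * (n / qq j) + qq j := by
    have := Nat.lt_mul_div_succ n (show 0 < qq j by omega)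
    rw [Nat.mul_add, Nat.mul_one] at this
    exact this
  refine ⟨?_, by omega, by omega⟩
  unfold io
  have h3 : j * (j + 1) ≤ 3 * qq j * j := by
    have : j + 1 ≤ 3 * qq j := by
      unfold qq
      nlinarith
    calc j * (j + 1) ≤ j * (3 * qq j) := Nat.mul_le_mul_left j this
      _ = 3 * qq j * j := by ring
  calc j * (j + 1) / 2 + 1 ≤ 3 * qq j * j + 1 := by omega
    _ ≤ 3 * qq j * j + n / qq j + 1 := by
      have := Nat.le_add_right (3 * qq j * j) (n / qq j)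
      exact Nat.add_le_add_right this 1

theorem io_lt_ee (hj : 2 ≤ j) (hn : 64 * j ^ 7 ≤ n) : j * io j n + 1 ≤ ee j n := by
  unfold ee
  rw [Nat.le_div_iff_mul_le (by omega)]
  have key : ((j * io j n + 1) * (j + 1) - 1) * (j + 1) ≤ n := by
    obtain ⟨-, -, h3⟩ := num_io hj hn
    obtain ⟨a1, a2, a3, a4⟩ := aux_pow hj
    have hq := (num_q hj).2
    have e1 : qq j * io j n = 2 * (j * io j n * (j + 1) ^ 2) := by
      unfold qq
      ring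
    rw [e1] at h3
    have e2 : ((j * io j n + 1) * (j + 1) - 1) * (j + 1) ≤
        j * io j n * (j + 1) ^ 2 + (j + 1) ^ 2 := by
      calc ((j * io j n + 1) * (j + 1) - 1) * (j + 1) ≤ ((j * io j n + 1) * (j + 1)) * (j + 1) :=
            Nat.mul_le_mul_right _ (Nat.sub_le _ _)
        _ = j * io j n * (j + 1) ^ 2 + (j + 1) ^ 2 := by ring
    -- `3 j q² ≤ 60.75 j^7`
    have hq2 : (2 * qq j) ^ 2 ≤ (9 * j ^ 3) ^ 2 := Nat.pow_le_pow_left hq 2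
    have e3 : j * (2 * qq j) ^ 2 = 4 * (qq j ^ 2 * j) := by ring
    have e4 : j * (9 * j ^ 3) ^ 2 = 81 * j ^ 7 := by ring
    have h4 := Nat.mul_le_mul_left j hq2
    rw [e3, e4] at h4
    have e5 : 3 * qq j ^ 2 * j = 3 * (qq j ^ 2 * j) := by ring
    rw [e5] at h3
    have h5 : 2 * (j + 1) ^ 2 ≤ qq j := by
      unfold qq
      exact Nat.mul_le_mul_right _ (by omega)
    have h6 : 4 * (qq j) ≤ 18 * j ^ 3 := by omega
    omega
  have h2 : (j * io j n + 1) * (j + 1) - 1 ≤ n / (j + 1) := by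
    rw [Nat.le_div_iff_mul_le (by omega)]
    exact key
  omega

theorem num_ee (hj : 2 ≤ j) (hn : 64 * j ^ 7 ≤ n) : j ≤ n / (j + 1) ∧ (j + 1) * (n / (j + 1)) < MM j n ∧
    ee j n * (j + 1) ≤ n / (j + 1) + 1 ∧ ee j n ≤ n ∧ 1 ≤ ee j n ∧ j * io j n < MM j n := by
  obtain ⟨m1, m2, m3⟩ := num_M hj hn
  obtain ⟨n1, n2, n3⟩ := num_n hj hn
  have h0 := io_lt_ee hj hn
  have h1 : (j + 1) * (n / (j + 1)) ≤ n := Nat.mul_div_le _ _
  have h2 : ee j n * (j + 1) ≤ n / (j + 1) + 1 := Nat.div_mul_le_self _ _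
  have h3 : n / (j + 1) ≤ n / 2 := Nat.div_le_div_left (by omega) (by norm_num)
  have h4 : ee j n ≤ n / (j + 1) + 1 := Nat.div_le_self _ _
  have h5 : j * (j + 1) ≤ n := by
    obtain ⟨a1, a2, a3, a4⟩ := aux_pow hj
    have : j + 1 ≤ j ^ 2 := by nlinarith
    have : j * (j + 1) ≤ j ^ 3 := by
      calc j * (j + 1) ≤ j * j ^ 2 := Nat.mul_le_mul_left j this
        _ = j ^ 3 := by ring
    omega
  refine ⟨?_, by omega, h2, by omega, by omega, by omega⟩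
  rw [Nat.le_div_iff_mul_le (by omega)]
  exact h5

end Pool.Agent.H8.EF
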