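import Pool.Agent.H8.EF.Ak
import Pool.Agent.H8.EF.Num

/-! # [EF-F1] A rational function of small degree

`c = n/(j+1)` (`≥ j`, `num_ee`), `a = akS ℚ n F`. The linear map from
`∏_(k ≤ j) degreeLT ℚ (n-c-k)` to `∏_(k=1..j) ℚ^(n-1-j)` sending `g` to the coefficients of
`a_0 g_k - a_k g_0` in the degrees `n+j+1-k-c+d`, `d < n-1-j` (all coefficients of degree
`≥ 2n-k-c` vanish: `deg a_k ≤ n-k`, `ak_props`) goes from dimension
`∑_(k≤j) (n-c-k) = (j+1)(n-c) - j(j+1)/2` to dimension `j(n-1-j)`, and the difference is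
`M - (j+1)c > 0` (`num_ee`). So there is a nonzero `g` in the kernel
(`LinearMap.ker_ne_bot_of_finrank_lt` or `LinearMap.exists_ne_zero_of_..`), i.e. a nonzero
`g ∈ Lsp ℚ j n c a`. If `g 0 = 0` then `a_0 g_k` has degree `< n+j+1-k-c`, so `deg g_k < j+1-k-c`,
which is `≤ 0` for `k ≥ 1` as `c ≥ j`: `g = 0`, a contradiction. -/

namespace Pool.Agent.H8.EF

open Finset Polynomial Pool.Agent.H72.ES NumberField

variable {K : Type} [Field K] [NumberField K] {j n Q m : ℕ} {A : ℝ} {f : ℤ[X]} {F : ℕ → ℕ → ℤ}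

/-- the coefficients of `a_0 g_k - a_k g_0` -/
noncomputable def f1Map (j n c : ℕ) (a : ℕ → ℚ[X]) :
    ((k : Fin (j + 1)) → degreeLT ℚ (n - c - k)) →ₗ[ℚ] (Fin j × Fin (n - 1 - j) → ℚ) where
  toFun := fun g p => (a 0 * (g p.1.succ : ℚ[X]) - a (p.1.succ : Fin (j + 1)) * (g 0 : ℚ[X])).coeff
    (n + j + 1 - (p.1.succ : Fin (j + 1)) - c + p.2)
  map_add' := by
    intro g h
    funext p
    simp only [Pi.add_apply, Submodule.coe_add]
    rw [← coeff_add]
    congr 1
    ring
  map_smul' := by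
    intro r g
    funext p
    simp only [Pi.smul_apply, Submodule.coe_smul, RingHom.id_apply, mul_smul_comm]
    rw [← smul_sub, coeff_smul]

theorem f1_deg {N M : ℕ} {p q : ℚ[X]} (hp : p.natDegree ≤ N) (hq : q ∈ degreeLT ℚ M) (i : ℕ)
    (hi : N + M ≤ i) : (p * q).coeff i = 0 := by
  rcases eq_or_ne q 0 with rfl | hq0
  · simp
  refine coeff_eq_zero_of_natDegree_lt ?_
  refine lt_of_le_of_lt natDegree_mul_le ?_
  rw [mem_degreeLT, degree_eq_natDegree hq0] at hq
  have : q.natDegree < M := by exact_mod_cast hq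
  omega

theorem exists_f1 (D : Dat K j n Q m A f F) :
    ∃ g : Fin (j + 1) → ℚ[X], g ∈ Lsp ℚ j n (n / (j + 1)) (akS ℚ n F) ∧ g 0 ≠ 0 := by
  obtain ⟨hc1, hc2, -, -, -, -⟩ := num_ee D.hj D.hjn
  obtain ⟨hn1, hn2, hn3⟩ := num_n D.hj D.hjn
  obtain ⟨ha0, ham, had, hak, -⟩ := ak_props D
  have hj := D.hj
  set c := n / (j + 1) with hc
  have hcn : c ≤ n / 3 := Nat.div_le_div_left (by omega) (by norm_num)
  set a := akS ℚ n F with ha
  have hadeg : ∀ k, (a k).natDegree ≤ n - k := by
    intro k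
    exact natDegree_map_le.trans (hak k)
  have ha0d : (a 0).natDegree = n := by
    rw [ha, akS, ham.natDegree_map, had]
  have ha0m : (a 0).Monic := ham.map _
  have hfd : ∀ N, FiniteDimensional ℚ (degreeLT ℚ N) := fun N =>
    Module.Finite.equiv (degreeLTEquiv ℚ N).symm
  have hfr : ∀ N, Module.finrank ℚ (degreeLT ℚ N) = N := by
    intro N
    rw [(degreeLTEquiv ℚ N).finrank_eq, Module.finrank_fin_fun]
  have hdim : Module.finrank ℚ (Fin j × Fin (n - 1 - j) → ℚ) <
      Module.finrank ℚ ((k : Fin (j + 1)) → degreeLT ℚ (n - c - k)) := by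
    rw [Module.finrank_fintype_fun_eq_card, Fintype.card_prod,
      Fintype.card_fin, Fintype.card_fin, Module.finrank_pi_fintype]
    simp only [hfr]
    rw [Fin.sum_univ_eq_sum_range (fun k => n - c - k) (j + 1)]
    have h1 := num_count D.hj D.hjn
    have h2 : ∑ k ∈ range (j + 1), (n - k) = ∑ k ∈ range (j + 1), (n - c - k) + (j + 1) * c := by
      have h3 : ∀ k ∈ range (j + 1), n - k = (n - c - k) + c := by
        intro k hk
        simp only [mem_range] at hk
        omega
      rw [sum_congr rfl h3, sum_add_distrib]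
      simp
    omega
  have hker := LinearMap.ker_ne_bot_of_finrank_lt (f := f1Map j n c a) hdim
  obtain ⟨g, hgk, hg0⟩ := (Submodule.ne_bot_iff _).1 hker
  have hgc : ∀ k : Fin (j + 1), a 0 * (g k : ℚ[X]) - a k * (g 0 : ℚ[X]) ∈
      degreeLT ℚ (n + j + 1 - k - c) := by
    intro k
    rcases Fin.eq_zero_or_eq_succ k with rfl | ⟨k', rfl⟩
    · simp
    · rw [mem_degreeLT, degree_lt_iff_coeff_zero]
      intro i hi
      have hk' := k'.2
      simp only [Fin.val_succ] at hi
      rcases Nat.lt_or_ge i (2 * n - c - (k' + 1)) with h | h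
      · have h1 := congrFun (show f1Map j n c a g = 0 from hgk)
          (k', ⟨i - (n + j + 1 - (k' + 1) - c), by omega⟩)
        simp only [f1Map, LinearMap.coe_mk, AddHom.coe_mk, Pi.zero_apply] at h1
        have h2 : n + j + 1 - ((k'.succ : Fin (j + 1)) : ℕ) - c +
            (i - (n + j + 1 - ((k' : ℕ) + 1) - c)) = i := by
          simp only [Fin.val_succ]
          omega
        rw [h2] at h1
        exact h1
      · rw [coeff_sub]
        have h1 : (a 0 * (g k'.succ : ℚ[X])).coeff i = 0 := by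
          refine f1_deg (hadeg 0) (g k'.succ).2 i ?_
          simp only [Fin.val_succ]
          omega
        have h2 : (a (k'.succ : Fin (j + 1)) * (g 0 : ℚ[X])).coeff i = 0 := by
          refine f1_deg (hadeg _) (g 0).2 i ?_
          simp only [Fin.val_succ, Fin.val_zero]
          omega
        rw [h1, h2, sub_zero]
  refine ⟨fun k => (g k : ℚ[X]), ?_, ?_⟩
  · rw [mem_Lsp]
    intro k
    exact ⟨(g k).2, hgc k⟩
  · intro h0
    simp only at h0
    apply hg0
    funext k
    refine Subtype.ext ?_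
    simp only [Pi.zero_apply, ZeroMemClass.coe_zero]
    by_contra hk
    have hk0 : k ≠ 0 := by
      intro h
      rw [h] at hk
      exact hk h0
    have h1 := hgc k
    rw [h0, mul_zero, sub_zero, mem_degreeLT, degree_eq_natDegree (mul_ne_zero ha0m.ne_zero hk),
      natDegree_mul ha0m.ne_zero hk, ha0d] at h1
    have h2 : n + (g k : ℚ[X]).natDegree < n + j + 1 - k - c := by exact_mod_cast h1
    have h3 : (k : ℕ) ≠ 0 := fun h => hk0 (Fin.ext h)
    omega

end Pool.Agent.H8.EF
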