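import Pool.Agent.H8.EF.Defs

/-! # [EF-LIN] Linear algebra

(1) `first_dep`: take the least `r ≤ N` with `c r ∈ span (c 0 .. c (r-1))` (if there is none the
family is independent, e.g. by `linearIndependent_fin_succ'`/`LinearIndependent.fin_snoc..` or
induction); `r ≥ 1` because `c 0 ≠ 0`.
(2) `base_indep`: if `∑ z_b v_b = 0` over `ℂ` then for every `ℚ`-linear `ψ : ℂ → ℚ` (apply `ψ` to all
coefficients) `∑ ψ(z_b) v_b = 0`, so `ψ(z_b) = 0`; hence `z_b = 0` (a `ℚ`-basis of `ℂ`, or
`Module.forall_dual_apply_eq_zero_iff`). -/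

namespace Pool.Agent.H8.EF

open Finset Polynomial

theorem first_dep {K : Type*} [Field K] {N ρ : ℕ} (c : ℕ → Fin ρ → K)
    (h : ¬ LinearIndependent K (fun s : Fin (N + 1) => c s)) (h0 : c 0 ≠ 0) :
    ∃ r, 1 ≤ r ∧ r ≤ N ∧ ∃ β : ℕ → K, c r = ∑ s ∈ range r, β s • c s := by
  classical
  rw [Fintype.not_linearIndependent_iff] at h
  obtain ⟨g, hg, i, hi⟩ := h
  -- the largest index with a nonzero coefficient
  have hne : (Finset.univ.filter fun s : Fin (N + 1) => g s ≠ 0).Nonempty :=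
    ⟨i, by simp [hi]⟩
  obtain ⟨r, hr, hmax⟩ := Finset.exists_max_image _ (fun s : Fin (N + 1) => (s : ℕ)) hne
  have hgr : g r ≠ 0 := by simpa using hr
  have hgt : ∀ s : Fin (N + 1), (r : ℕ) < (s : ℕ) → g s = 0 := by
    intro s hs
    by_contra hne'
    have := hmax s (by simp [hne'])
    omega
  set G : ℕ → K := fun s => if hs : s < N + 1 then g ⟨s, hs⟩ else 0 with hG
  have hsum : ∑ s ∈ range (N + 1), G s • c s = 0 := by
    rw [← hg, ← Fin.sum_univ_eq_sum_range (fun s => G s • c s)]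
    refine Finset.sum_congr rfl fun s _ => ?_
    have h1 : G s = g s := by
      simp only [hG]
      rw [dif_pos s.2]
    rw [h1]
  have hGgt : ∀ s, (r : ℕ) < s → G s = 0 := by
    intro s hs
    simp only [hG]
    split_ifs with h1
    · exact hgt ⟨s, h1⟩ hs
    · rfl
  have hGr : G r ≠ 0 := by
    simp only [hG]
    rw [dif_pos r.2]
    exact hgr
  have hsum2 : ∑ s ∈ range ((r : ℕ) + 1), G s • c s = 0 := by
    rw [← hsum]
    refine Finset.sum_subset (fun s hs => ?_) (fun s _ hs => ?_)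
    · rw [Finset.mem_range] at hs ⊢
      have := r.2
      omega
    · rw [Finset.mem_range] at hs
      rw [hGgt s (by omega), zero_smul]
  rw [Finset.sum_range_succ] at hsum2
  have hcr : c r = ∑ s ∈ range (r : ℕ), (-(G r)⁻¹ * G s) • c s := by
    have h1 : G r • c r = -∑ s ∈ range (r : ℕ), G s • c s := by
      rw [eq_neg_iff_add_eq_zero, add_comm]
      exact hsum2
    have h2 : c r = (G r)⁻¹ • (G r • c r) := by
      rw [smul_smul, inv_mul_cancel₀ hGr, one_smul]
    rw [h2, h1, smul_neg, Finset.smul_sum, ← Finset.sum_neg_distrib]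
    refine Finset.sum_congr rfl fun s _ => ?_
    rw [smul_smul, neg_mul, neg_smul]
  refine ⟨r, ?_, Nat.lt_succ_iff.1 r.2, _, hcr⟩
  by_contra hr0
  have hr0' : (r : ℕ) = 0 := by omega
  rw [hr0', Finset.range_zero, Finset.sum_empty] at hcr
  exact h0 hcr

theorem base_indep {j ρ : ℕ} (v : Fin ρ → (Fin (j + 1) → ℚ[X])) (hv : LinearIndependent ℚ v) :
    LinearIndependent ℂ (fun b => mapG (algebraMap ℚ ℂ) (v b)) := by
  classical
  rw [Fintype.linearIndependent_iff] at hv ⊢
  intro z hz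
  have key : ∀ ψ : ℂ →ₗ[ℚ] ℚ, ∀ b, ψ (z b) = 0 := by
    intro ψ
    apply hv
    funext k
    ext e
    have h1 := congrArg (fun p : ℂ[X] => p.coeff e) (congrFun hz k)
    simp only [Finset.sum_apply, Pi.smul_apply, mapG, finsetSum_coeff, coeff_smul, coeff_map,
      smul_eq_mul, Pi.zero_apply, coeff_zero] at h1 ⊢
    have h2 := congrArg ψ h1
    rw [map_sum, map_zero] at h2
    rw [← h2]
    refine Finset.sum_congr rfl fun b _ => ?_
    rw [mul_comm (z b), ← Algebra.smul_def, map_smul, smul_eq_mul, mul_comm]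
  intro b
  exact (Module.forall_dual_apply_eq_zero_iff ℚ (z b)).1 fun ψ => key ψ b

end Pool.Agent.H8.EF
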