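import Pool.Agent.H8.EF.Herm
import Pool.Agent.H8.EF.F1
import Pool.Agent.H8.EF.DimL
import Pool.Agent.H8.EF.Lin

/-! # [EF-DEP] Dependent functionals force a small dimension

`e = ee j n`, `(j+1) e ≤ c + 1`, `c = n/(j+1)`, `e ≤ n` (`num_ee`). Choose a finset `S'` of `e`
embeddings `K →+* ℂ` (there are `n`, `NumberField.Embeddings.card`, `D.hK`). Work in
`L = Lsp ℂ j n 0 (akS ℂ n F)`, `finrank L ≤ M` (`finrank_Lsp`, `ak_props`, `ak_coprime`).

* `A = {x ∈ ℂ^ρ : ∑_b x_b λ_s^σ(v_b) = 0 for s < r, σ ∈ S'}` has dimension `≥ ρ - r e`; its image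
`A'` under the injective map `x ↦ ∑ x_b v_b` (`base_indep`) is a subspace of `L` of dimension
`≥ ρ - r e` on which `λ_s^σ` vanishes for `s < r`, and also for `s = r`: apply `σ` to `hβ`
(`lam_map`: `σ (lamQ s g) = lamS σ s (mapG (algebraMap ℚ ℂ) g)`).
* `B' = {P g1 : deg P < (r+1) e}`, `g1` from `exists_f1`: contained in `L` since `(r+1) e ≤ c + 1`
(`deg P ≤ c`; the conditions of `Lsp ℚ j n c` are multiplied by `P`), of dimension `(r+1) e`
(`g1 0 ≠ 0`).
* `A' ∩ B' = 0` by `herm`. So `ρ - r e + (r+1) e ≤ M`. -/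

namespace Pool.Agent.H8.EF

open Finset Polynomial Pool.Agent.H72.ES NumberField

variable {K : Type} [Field K] [NumberField K] {j n Q m : ℕ} {A : ℝ} {f : ℤ[X]} {F : ℕ → ℕ → ℤ}

theorem lamQ_map (D : Dat K j n Q m A f F) (σ : K →+* ℂ) (l : ℕ) (g : Fin (j + 1) → ℚ[X]) :
    σ (D.lamQ l g) = D.lamS σ l (mapG (algebraMap ℚ ℂ) g) := by
  unfold Dat.lamQ Dat.lamS
  rw [lam_map]
  have h1 : PowerSeries.map σ (PowerSeries.map (Dat.em K (RingHom.id K)) D.w) =
      PowerSeries.map (Dat.em K σ) D.w := by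
    ext i
    simp only [PowerSeries.coeff_map]
    rfl
  have h2 : mapG σ (mapG (algebraMap ℚ K) g) = mapG (algebraMap ℚ ℂ) g := by
    funext k
    simp only [mapG, Polynomial.map_map]
    congr 1
    exact RingHom.ext_rat _ _
  rw [h1, h2]
  rfl

/-- multiplication of a polynomial of degree `≤ c` -/
theorem dep_mul_mem {S : Type*} [Field S] {N c : ℕ} {P p : S[X]} (hP : P ∈ degreeLT S (c + 1))
    (hp : p ∈ degreeLT S (N - c)) : P * p ∈ degreeLT S N := by
  rcases eq_or_ne p 0 with rfl | hp0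
  · simp
  rcases eq_or_ne P 0 with rfl | hP0
  · simp
  rw [mem_degreeLT] at hP hp ⊢
  rw [degree_eq_natDegree hP0] at hP
  rw [degree_eq_natDegree hp0] at hp
  rw [degree_eq_natDegree (mul_ne_zero hP0 hp0), natDegree_mul hP0 hp0]
  have h1 : P.natDegree < c + 1 := by exact_mod_cast hP
  have h2 : p.natDegree < N - c := by exact_mod_cast hp
  have h3 : P.natDegree + p.natDegree < N := by omega
  exact_mod_cast h3

theorem dep_map_mem {S S' : Type*} [CommRing S] [CommRing S'] (ρ : S →+* S') {c : ℕ}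
    {g : Fin (j + 1) → S[X]} (hg : g ∈ Lsp S j n c (akS S n F)) :
    mapG ρ g ∈ Lsp S' j n c (akS S' n F) := by
  have hak : ∀ k, akS S' n F k = (akS S n F k).map ρ := by
    intro k
    simp only [akS, Polynomial.map_map]
    congr 1
    exact RingHom.ext_int _ _
  rw [mem_Lsp] at hg ⊢
  intro k
  obtain ⟨h1, h2⟩ := hg k
  refine ⟨?_, ?_⟩
  · rw [mem_degreeLT] at h1 ⊢
    exact lt_of_le_of_lt degree_map_le h1
  · rw [mem_degreeLT] at h2 ⊢
    have : akS S' n F 0 * mapG ρ g k - akS S' n F k * mapG ρ g 0 =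
        (akS S n F 0 * g k - akS S n F k * g 0).map ρ := by
      rw [hak, hak]
      simp only [mapG, Polynomial.map_sub, Polynomial.map_mul]
    rw [this]
    exact lt_of_le_of_lt degree_map_le h2

/-- the functional as a linear map -/
noncomputable def lamLin (D : Dat K j n Q m A f F) (σ : K →+* ℂ) (l : ℕ) :
    (Fin (j + 1) → ℂ[X]) →ₗ[ℂ] ℂ where
  toFun := D.lamS σ l
  map_add' := fun g h => lam_add _ _ _ l g h
  map_smul' := fun c g => lam_smul _ _ _ l c g

theorem lamLin_apply (D : Dat K j n Q m A f F) (σ : K →+* ℂ) (l : ℕ) (g : Fin (j + 1) → ℂ[X]) :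
    lamLin D σ l g = D.lamS σ l g := rfl

/-- multiplication by polynomials of bounded degree as a linear map -/
noncomputable def dep_mulLin (j N : ℕ) (g : Fin (j + 1) → ℂ[X]) :
    degreeLT ℂ N →ₗ[ℂ] (Fin (j + 1) → ℂ[X]) where
  toFun := fun P k => (P : ℂ[X]) * g k
  map_add' := by
    intro P P'
    funext k
    simp only [Submodule.coe_add, Pi.add_apply]
    ring
  map_smul' := by
    intro c P
    funext k
    simp only [Submodule.coe_smul, Pi.smul_apply, smul_mul_assoc, RingHom.id_apply]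

theorem dep_bound (D : Dat K j n Q m A f F) {ρ r : ℕ} (v : Fin ρ → (Fin (j + 1) → ℚ[X]))
    (hv : LinearIndependent ℚ v) (hvL : ∀ b, v b ∈ Lsp ℚ j n 0 (akS ℚ n F)) (hr1 : 1 ≤ r)
    (hrj : r ≤ j) (β : ℕ → K)
    (hβ : ∀ b, D.lamQ r (v b) = ∑ s ∈ range r, β s * D.lamQ s (v b)) :
    ρ + ee j n ≤ MM j n := by
  obtain ⟨hc1, hc2, hc3, hc4, hc5, hc6⟩ := num_ee D.hj D.hjn
  obtain ⟨ha0, ham, had, -, -⟩ := ak_props D
  set e := ee j n with he
  set c := n / (j + 1) with hc
  -- embeddings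
  have hcard : Fintype.card (K →+* ℂ) = n := by
    rw [NumberField.Embeddings.card, D.hK]
  obtain ⟨S', -, hS'⟩ := Finset.exists_subset_card_eq (s := (univ : Finset (K →+* ℂ))) (n := e)
    (by rw [card_univ, hcard]; exact hc4)
  -- the big space
  have hfin := finrank_Lsp (S := ℂ) D.hj D.hjn (akS ℂ n F) (ham.map _)
    (by rw [akS, ham.natDegree_map, had]) (ak_coprime D ℂ)
  obtain ⟨hfd, hfr⟩ := hfin
  set L := Lsp ℂ j n 0 (akS ℂ n F) with hL
  -- the first map
  set u : Fin ρ → (Fin (j + 1) → ℂ[X]) := fun b => mapG (algebraMap ℚ ℂ) (v b) with hu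
  have huL : ∀ b, u b ∈ L := fun b => dep_map_mem (algebraMap ℚ ℂ) (hvL b)
  have hui : LinearIndependent ℂ u := base_indep v hv
  set E : (Fin ρ → ℂ) →ₗ[ℂ] (Fin (j + 1) → ℂ[X]) := Fintype.linearCombination ℂ u with hE
  have hEinj : Function.Injective E := by
    exact linearIndependent_iff_injective_fintypeLinearCombination.1 hui
  have hEapp : ∀ x, E x = ∑ b, x b • u b := fun x => Fintype.linearCombination_apply ℂ u x
  set Λ : (Fin ρ → ℂ) →ₗ[ℂ] (S' × Fin r → ℂ) :=
    LinearMap.pi (fun p : S' × Fin r => (lamLin D p.1.1 p.2).comp E) with hΛ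
  set A1 := LinearMap.ker Λ with hA1
  have hA1r : ρ ≤ Module.finrank ℂ A1 + e * r := by
    have h1 := LinearMap.finrank_range_add_finrank_ker Λ
    have h2 : Module.finrank ℂ (LinearMap.range Λ) ≤ e * r := by
      refine (Submodule.finrank_le _).trans ?_
      rw [Module.finrank_fintype_fun_eq_card, Fintype.card_prod, Fintype.card_coe, hS',
        Fintype.card_fin]
    rw [Module.finrank_fin_fun] at h1
    rw [← hA1] at h1
    omega
  set A' := A1.map E with hA'
  have hA'r : Module.finrank ℂ A' = Module.finrank ℂ A1 :=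
    (LinearEquiv.finrank_eq (Submodule.equivMapOfInjective E hEinj A1)).symm
  have hA'L : A' ≤ L := by
    rintro _ ⟨x, -, rfl⟩
    rw [hEapp]
    exact Submodule.sum_mem _ fun b _ => Submodule.smul_mem _ _ (huL b)
  -- the second map
  obtain ⟨g1, hg1, hg10⟩ := exists_f1 D
  have hg1n : (g1 0).degree < n := by
    have := (hg1 0).1
    rw [mem_degreeLT] at this
    refine lt_of_lt_of_le this ?_
    have : n - n / (j + 1) - ((0 : Fin (j + 1)) : ℕ) ≤ n := by omega
    exact_mod_cast this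
  have hg1C := dep_map_mem (algebraMap ℚ ℂ) hg1
  set g : Fin (j + 1) → ℂ[X] := mapG (algebraMap ℚ ℂ) g1 with hg
  have hg0 : g 0 ≠ 0 := by
    rw [hg]
    simp only [mapG]
    rw [Polynomial.map_ne_zero_iff (algebraMap ℚ ℂ).injective]
    exact hg10
  set B := dep_mulLin j ((r + 1) * e) g with hB
  have hBapp : ∀ P : degreeLT ℂ ((r + 1) * e), B P = fun k => (P : ℂ[X]) * g k := fun P => rfl
  have hBinj : Function.Injective B := by
    rw [← LinearMap.ker_eq_bot, LinearMap.ker_eq_bot']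
    intro P hP
    have h1 := congrFun hP 0
    rw [hBapp] at h1
    simp only [Pi.zero_apply, mul_eq_zero] at h1
    rcases h1 with h1 | h1
    · exact Subtype.ext h1
    · exact absurd h1 hg0
  set B' := LinearMap.range B with hB'
  have : FiniteDimensional ℂ (degreeLT ℂ ((r + 1) * e)) :=
    Module.Finite.equiv (degreeLTEquiv ℂ ((r + 1) * e)).symm
  have hB'r : Module.finrank ℂ B' = (r + 1) * e := by
    rw [hB', LinearMap.finrank_range_of_inj hBinj]
    rw [(degreeLTEquiv ℂ ((r + 1) * e)).finrank_eq, Module.finrank_fin_fun]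
  have hre : (r + 1) * e ≤ c + 1 := by
    refine le_trans ?_ hc3
    rw [mul_comm]
    exact Nat.mul_le_mul_left _ (by omega)
  have hB'L : B' ≤ L := by
    rintro _ ⟨P, rfl⟩
    have hP : (P : ℂ[X]) ∈ degreeLT ℂ (c + 1) := degreeLT_mono hre P.2
    rw [hBapp, hL, mem_Lsp]
    intro k
    obtain ⟨h1, h2⟩ := hg1C k
    refine ⟨?_, ?_⟩
    · rw [Nat.sub_zero]
      refine dep_mul_mem (c := c) hP ?_
      rw [Nat.sub_right_comm]
      exact h1
    · rw [Nat.sub_zero]
      have : akS ℂ n F 0 * ((P : ℂ[X]) * g k) - akS ℂ n F k * ((P : ℂ[X]) * g 0) =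
          (P : ℂ[X]) * (akS ℂ n F 0 * g k - akS ℂ n F k * g 0) := by ring
      rw [this]
      exact dep_mul_mem (c := c) hP h2
  -- trivial intersection
  have hinf : A' ⊓ B' = ⊥ := by
    rw [Submodule.eq_bot_iff]
    rintro z ⟨⟨x, hx, hxz⟩, ⟨P, hPz⟩⟩
    have hxker : Λ x = 0 := hx
    have hs : ∀ σ ∈ S', ∀ l < r, D.lamS σ l (E x) = 0 := by
      intro σ hσ l hl
      have h1 := congrFun hxker (⟨σ, hσ⟩, ⟨l, hl⟩)
      simpa [hΛ, lamLin_apply] using h1
    have hsE : ∀ σ : K →+* ℂ, ∀ l, D.lamS σ l (E x) = ∑ b, x b * σ (D.lamQ l (v b)) := by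
      intro σ l
      rw [← lamLin_apply, hEapp, map_sum]
      refine sum_congr rfl fun b _ => ?_
      rw [map_smul, lamLin_apply, lamQ_map, smul_eq_mul]
    have hsr : ∀ σ ∈ S', D.lamS σ r (E x) = 0 := by
      intro σ hσ
      rw [hsE]
      have h1 : ∀ b, x b * σ (D.lamQ r (v b)) =
          ∑ s ∈ range r, σ (β s) * (x b * σ (D.lamQ s (v b))) := by
        intro b
        rw [hβ b, map_sum, mul_sum]
        refine sum_congr rfl fun s _ => ?_
        rw [map_mul]
        ring
      rw [sum_congr rfl fun b _ => h1 b, sum_comm]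
      refine sum_eq_zero fun s hs' => ?_
      rw [← mul_sum, ← hsE, hs σ hσ s (mem_range.1 hs'), mul_zero]
    have hEB : E x = fun k => (P : ℂ[X]) * (g1 k).map (algebraMap ℚ ℂ) := by
      rw [hxz, ← hPz, hBapp]
      rfl
    have hP0 : (P : ℂ[X]) = 0 := by
      refine herm D g1 hg1n hg10 S' r P ?_ ?_
      · rw [hS']
        exact mem_degreeLT.1 P.2
      · intro σ hσ l hl
        rw [← hEB]
        rcases Nat.lt_or_ge l r with h | h
        · exact hs σ hσ l h
        · have : l = r := le_antisymm hl h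
          rw [this]
          exact hsr σ hσ
    rw [← hPz]
    have : P = 0 := Subtype.ext hP0
    rw [this, map_zero]
  have hfA : FiniteDimensional ℂ A' := inferInstance
  have hfB : FiniteDimensional ℂ B' := inferInstance
  have hsum := Submodule.finrank_sup_add_finrank_inf_eq A' B'
  rw [hinf, finrank_bot, add_zero] at hsum
  have hle : Module.finrank ℂ (A' ⊔ B' : Submodule ℂ (Fin (j + 1) → ℂ[X])) ≤
      Module.finrank ℂ L := Submodule.finrank_mono (sup_le hA'L hB'L)
  rw [hsum, hA'r, hB'r] at hle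
  have : (r + 1) * e = e * r + e := by ring
  omega

end Pool.Agent.H8.EF
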