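import Pool.Agent.H8.EF.Defs

/-! # [EF-EMB] The embeddings of `K`

`f` is monic irreducible of degree `n = [K:ℚ]` with root `θ ∈ K`, so `f.map` is the minimal
polynomial of `θ` over `ℚ` (Gauss: `Monic.irreducible_iff_irreducible_map_fraction_map`,
`minpoly.eq_of_irreducible_of_monic`; `hF.lead_eq`, `Pool.Agent.H72.ES.Norml.lead_props`) and
`K = ℚ(θ)` (see `Pool.Agent.H8.KF.nfac_of_field` for the same arguments).

(1) `theta_indep`: a nonzero polynomial over `ℚ` of degree `< n` does not vanish at `θ`.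
(2) `emb_inj`: an embedding is determined by the image of `θ`.
(3) `real_root`: if `r` is a real root of `f` there is `ψ : K →+* ℝ` with `ψ θ = r` (lift of
`ℚ[X]/(minpoly) ≃ K`, or `IntermediateField.adjoin.powerBasis`/`PowerBasis.lift`); then
`σ = ofRealHom.comp ψ` has only real values, so `D.other` forces `σ = ofRealHom.comp φ`.
(4) `alpha_deg`: `[ℚ(α):ℚ] = n`. Otherwise `L = ℚ(α)` has `[K:L] > 1`; make `ℂ` an algebra over `L`
via `ofRealHom.comp φ` restricted to `L`; there are `[K:L] ≥ 2` `L`-algebra homomorphisms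
`K → ℂ` (`AlgHom.card`), so one of them, `τ`, is different from `ofRealHom.comp φ` and has
`τ α = φ α`. By `D.other` `|φ α| ≤ A`, but `|φ α| ≥ m - A ≥ (16 A)^(8 n) - A > A`
(`D.near`, `m ≥ 1`). (Alternatively: compare traces, `trace_eq_trace_adjoin`.) -/

namespace Pool.Agent.H8.EF

open Finset Polynomial Pool.Agent.H72.ES NumberField

variable {K : Type} [Field K] [NumberField K] {j n Q m : ℕ} {A : ℝ} {f : ℤ[X]} {F : ℕ → ℕ → ℤ}

theorem n_large (D : Dat K j n Q m A f F) : 2 ≤ n := by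
  have h1 := D.hjn
  have h2 := D.hj
  have h3 : 1 ≤ j ^ 7 := Nat.one_le_pow _ _ (by omega)
  omega

theorem min_theta (D : Dat K j n Q m A f F) : f.map (algebraMap ℤ ℚ) = minpoly ℚ (D.θ : K) := by
  obtain ⟨hm, hd, -⟩ := D.hF.lead_props
  refine minpoly.eq_of_irreducible_of_monic ?_ ?_ (hm.map _)
  · exact (hm.irreducible_iff_irreducible_map_fraction_map (K := ℚ)).1 D.irr
  · rw [aeval_map_algebraMap]
    have h1 := aeval_algebraMap_apply K D.θ f
    rw [D.root, map_zero] at h1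
    exact h1

theorem theta_top (D : Dat K j n Q m A f F) : IntermediateField.adjoin ℚ {(D.θ : K)} = ⊤ := by
  obtain ⟨hm, hd, -⟩ := D.hF.lead_props
  rw [Field.primitive_element_iff_minpoly_natDegree_eq, ← min_theta D, hm.natDegree_map, hd, D.hK]

theorem splitsC (x : K) : ((minpoly ℚ x).map (algebraMap ℚ ℂ)).Splits :=
  IsAlgClosed.splits _

theorem theta_indep (D : Dat K j n Q m A f F) (p : ℚ[X]) (hp : p.degree < n)
    (h : aeval (D.θ : K) p = 0) : p = 0 := by
  obtain ⟨hm, hd, -⟩ := D.hF.lead_props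
  have h1 := minpoly.dvd ℚ (D.θ : K) h
  refine Polynomial.eq_zero_of_dvd_of_degree_lt h1 ?_
  rw [← min_theta D, hm.degree_map, degree_eq_natDegree hm.ne_zero, hd]
  exact hp

theorem emb_inj (D : Dat K j n Q m A f F) (σ τ : K →+* ℂ) (h : σ (D.θ : K) = τ (D.θ : K)) :
    σ = τ := by
  have h1 := (Field.primitive_element_iff_algHom_eq_of_eval' ℚ ℂ splitsC (D.θ : K)).1 (theta_top D)
  have h2 : σ.toRatAlgHom = τ.toRatAlgHom := h1 h
  have h3 := congrArg AlgHom.toRingHom h2
  ext x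
  exact DFunLike.congr_fun h2 x

theorem real_root (D : Dat K j n Q m A f F) (r : ℝ) (hr : aeval r f = 0) :
    r = D.φ (D.θ : K) := by
  obtain ⟨hm, hd, -⟩ := D.hF.lead_props
  have hint : IsIntegral ℚ (D.θ : K) := IsIntegral.of_finite ℚ _
  have htop : Algebra.adjoin ℚ {(D.θ : K)} = ⊤ := by
    have h1 := IntermediateField.adjoin_simple_toSubalgebra_of_isAlgebraic
      (hint.isAlgebraic)
    rw [theta_top D] at h1
    rw [← h1]
    rfl
  obtain ⟨pb, hpb⟩ : ∃ pb : PowerBasis ℚ K, pb.gen = (D.θ : K) :=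
    ⟨PowerBasis.ofAdjoinEqTop hint htop, by simp⟩
  have hr' : aeval r (minpoly ℚ pb.gen) = 0 := by
    rw [hpb, ← min_theta D, aeval_map_algebraMap]
    exact hr
  set ψ : K →ₐ[ℚ] ℝ := pb.lift r hr' with hψ
  have hψθ : ψ (D.θ : K) = r := by
    rw [← hpb, hψ, pb.lift_gen]
  by_cases hcase : Complex.ofRealHom.comp ψ.toRingHom = Complex.ofRealHom.comp D.φ
  · have h1 := RingHom.congr_fun hcase (D.θ : K)
    simp only [RingHom.comp_apply, Complex.ofRealHom_eq_coe, Complex.ofReal_inj] at h1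
    rw [← h1]
    exact hψθ.symm
  · obtain ⟨-, x, hx⟩ := D.other _ hcase
    exfalso
    apply hx
    simp

/-- `m ≥ 16`, `|φ α - m| ≤ 1`, `1 ≤ φ α ≤ 2 m` -/
theorem alpha_bounds (D : Dat K j n Q m A f F) : 16 ≤ m ∧ |D.φ (D.α : K) - m| ≤ 1 ∧
    1 ≤ D.φ (D.α : K) ∧ D.φ (D.α : K) ≤ 2 * m := by
  have hn := n_large D
  have hA := D.hA
  have h16 : (16 : ℝ) * A ≤ m := by
    refine le_trans ?_ D.hm
    exact le_self_pow₀ (by linarith) (by omega)
  have hm16 : (16 : ℝ) ≤ m := by linarith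
  have hm16' : 16 ≤ m := by exact_mod_cast hm16
  have h1 : |D.φ (D.α : K) - m| ≤ 1 := by
    have h2 := D.near
    have h3 : (m : ℝ) ≤ (m : ℝ) ^ (n - 1) := le_self_pow₀ (by linarith) (by omega)
    by_contra hlt
    push Not at hlt
    have h4 : (m : ℝ) < |D.φ (D.α : K) - m| * (m : ℝ) ^ (n - 1) := by
      calc (m : ℝ) ≤ (m : ℝ) ^ (n - 1) := h3
        _ = 1 * (m : ℝ) ^ (n - 1) := (one_mul _).symm
        _ < |D.φ (D.α : K) - m| * (m : ℝ) ^ (n - 1) :=
          mul_lt_mul_of_pos_right hlt (by positivity)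
    have h5 := h4.trans_le h2
    linarith
  have h2 := abs_le.1 h1
  refine ⟨hm16', h1, ?_, ?_⟩ <;> linarith [h2.1, h2.2]

theorem alpha_big (D : Dat K j n Q m A f F) : A < D.φ (D.α : K) := by
  have hn := n_large D
  have hA := D.hA
  have h16 : (16 : ℝ) * A ≤ m := by
    refine le_trans ?_ D.hm
    exact le_self_pow₀ (by linarith) (by omega)
  obtain ⟨-, h1, -, -⟩ := alpha_bounds D
  have h2 := abs_le.1 h1
  linarith [h2.1]

theorem alpha_deg (D : Dat K j n Q m A f F) : (minpoly ℚ (D.α : K)).natDegree = n := by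
  refine Eq.trans ?_ D.hK
  rw [← Field.primitive_element_iff_minpoly_natDegree_eq,
    Field.primitive_element_iff_algHom_eq_of_eval ℚ ℂ splitsC (D.α : K)
      (Complex.ofRealHom.comp D.φ).toRatAlgHom]
  intro ψ hψ
  by_contra hne
  have hne' : (ψ : K →+* ℂ) ≠ Complex.ofRealHom.comp D.φ := by
    intro h
    apply hne
    ext x
    exact (RingHom.congr_fun h x).symm
  have h1 := (D.other _ hne').1
  have h2 : (ψ : K →+* ℂ) (D.α : K) = ((D.φ (D.α : K) : ℝ) : ℂ) := hψ.symm
  rw [h2, Complex.norm_real, Real.norm_eq_abs] at h1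
  have h3 := alpha_big D
  have h4 := D.hA
  rw [abs_of_pos (by linarith)] at h1
  linarith

end Pool.Agent.H8.EF
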