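import Pool.Agent.H8.EF.Mu
import Pool.Agent.H8.EF.Emb
import Pool.Agent.H8.EF.Ak

/-! # [EF-W1] `κ ≠ 0` and the first coefficient of the branch

`κ = f'(θ) ≠ 0`: `f'` is nonzero of degree `n - 1 < n` (`theta_indep` for `f'.map`, `f` monic of
degree `n`; characteristic zero). `w_one`: by `evt_eq_sum_ak` the branch equation `D.weq` is
`∑_k a_k(Z) T^k = 0` with `Z = C θ + C κ w`, `T = C κ² X`. Compare the coefficients of `X`:
for `k = 0`: `f(Z) ≡ f(θ) + f'(θ) κ w` modulo `(κ w)²`, `f(θ) = 0`, so `κ² w_1`;
for `k = 1`: `a_1(θ) κ²`; for `k ≥ 2` zero. So `κ² (w_1 + a_1(θ)) = 0`, `w_1 = - a_1(θ)`, and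
`a_1(θ) ≠ 0` since `a_1 ≠ 0` has degree `< n` (`ak_props`, `D.one`, `theta_indep`). -/

namespace Pool.Agent.H8.EF

open Finset Polynomial Pool.Agent.H72.ES NumberField

variable {K : Type} [Field K] [NumberField K] {j n Q m : ℕ} {A : ℝ} {f : ℤ[X]} {F : ℕ → ℕ → ℤ}

theorem w1_npos (D : Dat K j n Q m A f F) : 0 < n := by
  have h1 := D.hjn
  have h2 := D.hj
  have h3 : 0 < 64 * j ^ 7 := by positivity
  omega

/-- an integral polynomial of degree less than `n` that vanishes at `θ` is zero -/
theorem w1_indep (D : Dat K j n Q m A f F) (p : ℤ[X]) (hp : p.natDegree < n)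
    (h : aeval D.θ p = 0) : p = 0 := by
  have h1 : aeval (D.θ : K) (p.map (Int.castRingHom ℚ)) = 0 := by
    have e1 : aeval (D.θ : K) (p.map (Int.castRingHom ℚ)) = aeval (D.θ : K) p := by
      rw [aeval_def, eval₂_map, aeval_def]
      congr 1
      exact RingHom.ext_int _ _
    rw [e1]
    have e2 : aeval (algebraMap (𝓞 K) K D.θ) p = algebraMap (𝓞 K) K (aeval D.θ p) :=
      aeval_algebraMap_apply K D.θ p
    rw [h, map_zero] at e2
    exact e2
  have h2 : p.map (Int.castRingHom ℚ) = 0 := by
    apply theta_indep D _ _ h1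
    refine lt_of_le_of_lt (degree_map_le) ?_
    refine lt_of_le_of_lt degree_le_natDegree ?_
    exact_mod_cast hp
  exact (Polynomial.map_eq_zero_iff (Int.cast_injective (α := ℚ))).1 h2

theorem kappa_ne (D : Dat K j n Q m A f F) : D.κ ≠ 0 := by
  intro h
  have hn := w1_npos D
  obtain ⟨h0, hm, hd, _, _⟩ := ak_props D
  rw [h0] at hm hd
  have h1 : derivative f = 0 := by
    apply w1_indep D _ _ h
    have := natDegree_derivative_lt (p := f) (by omega)
    omega
  have h2 := natDegree_eq_zero_of_derivative_eq_zero h1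
  omega

/-- the curve equation with `eval₂` -/
theorem w1_evt {S : Type*} [CommRing S] (n : ℕ) (F : ℕ → ℕ → ℤ) (t z : S) :
    evt n (cst S F) t z =
      ∑ k ∈ range (n + 1), (ak n F k).eval₂ (Int.castRingHom S) z * t ^ k :=
  evt_eq_sum_ak n F t z

/-- the first coefficient of a polynomial in a power series -/
theorem w1_coeff_aeval {R : Type*} [CommRing R] (p : ℤ[X]) (Z : PowerSeries R) :
    PowerSeries.coeff 1 (p.eval₂ (Int.castRingHom (PowerSeries R)) Z) =
      aeval (PowerSeries.constantCoeff Z) (derivative p) * PowerSeries.coeff 1 Z := by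
  induction p using Polynomial.induction_on' with
  | add p q hp hq => simp only [map_add, hp, hq, add_mul, eval₂_add]
  | monomial i a =>
    rw [eval₂_monomial, derivative_monomial, aeval_monomial]
    have e1 : (Int.castRingHom (PowerSeries R)) a = PowerSeries.C (a : R) := by
      simp
    rw [e1, PowerSeries.coeff_C_mul, PowerSeries.coeff_one_pow]
    simp only [map_mul, map_natCast, eq_intCast, Int.cast_natCast]
    ring

/-- the constant coefficient of a polynomial in a power series -/
theorem w1_const_aeval {R : Type*} [CommRing R] (p : ℤ[X]) (Z : PowerSeries R) :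
    PowerSeries.constantCoeff (p.eval₂ (Int.castRingHom (PowerSeries R)) Z) =
      aeval (PowerSeries.constantCoeff Z) p := by
  induction p using Polynomial.induction_on' with
  | add p q hp hq => simp only [map_add, hp, hq, eval₂_add]
  | monomial i a =>
    rw [eval₂_monomial, aeval_monomial, map_mul, map_pow]
    congr 1
    have e1 : (Int.castRingHom (PowerSeries R)) a = PowerSeries.C (a : R) := by
      simp
    rw [e1]
    simp

theorem w_one (D : Dat K j n Q m A f F) :
    PowerSeries.coeff 1 D.w = - aeval D.θ (ak n F 1) ∧ PowerSeries.coeff 1 D.w ≠ 0 := by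
  have hn := w1_npos D
  have hκ := kappa_ne D
  obtain ⟨h0, hm, hd, hdk, _⟩ := ak_props D
  have hne : aeval D.θ (ak n F 1) ≠ 0 := by
    intro h
    apply D.one
    apply w1_indep D _ _ h
    have := hdk 1
    omega
  have key : PowerSeries.coeff 1 D.w = - aeval D.θ (ak n F 1) := by
    have h1 := D.weq
    rw [w1_evt] at h1
    have h2 := congrArg (PowerSeries.coeff 1) h1
    rw [map_sum, map_zero] at h2
    have hk : aeval D.θ (derivative f) = D.κ := rfl
    rw [hk] at h2
    have cZ : PowerSeries.constantCoeff (PowerSeries.C D.θ + PowerSeries.C D.κ * D.w) = D.θ := by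
      simp [D.w0]
    have oZ : PowerSeries.coeff 1 (PowerSeries.C D.θ + PowerSeries.C D.κ * D.w) =
        D.κ * PowerSeries.coeff 1 D.w := by
      rw [map_add, PowerSeries.coeff_C_mul, PowerSeries.coeff_C]
      simp
    have cT : PowerSeries.constantCoeff (PowerSeries.C D.κ ^ 2 * PowerSeries.X) = 0 := by
      simp
    have oT : PowerSeries.coeff 1 (PowerSeries.C D.κ ^ 2 * PowerSeries.X) = D.κ ^ 2 := by
      rw [← map_pow, PowerSeries.coeff_C_mul, PowerSeries.coeff_one_X, mul_one]
    have hterm : ∀ k ∈ range (n + 1), PowerSeries.coeff 1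
        ((ak n F k).eval₂ (Int.castRingHom (PowerSeries (𝓞 K)))
          (PowerSeries.C D.θ + PowerSeries.C D.κ * D.w) *
          (PowerSeries.C D.κ ^ 2 * PowerSeries.X) ^ k) =
        (if k = 0 then D.κ * (D.κ * PowerSeries.coeff 1 D.w) else 0) +
        (if k = 1 then aeval D.θ (ak n F 1) * D.κ ^ 2 else 0) := by
      intro k _
      rw [PowerSeries.coeff_one_mul, w1_coeff_aeval, cZ, oZ, PowerSeries.coeff_one_pow, map_pow,
        cT, oT]
      rcases Nat.lt_or_ge k 1 with hk0 | hk1
      · have : k = 0 := by omega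
        subst this
        rw [h0, hk]
        simp
      · rcases Nat.lt_or_ge k 2 with hk2 | hk2
        · have : k = 1 := by omega
          subst this
          rw [w1_const_aeval, cZ]
          simp
          ring
        · have e1 : k ≠ 0 := by omega
          have e2 : k ≠ 1 := by omega
          have e3 : k - 1 ≠ 0 := by omega
          simp [e1, e2, e3, zero_pow]
    have h2 := (Finset.sum_congr rfl hterm).symm.trans h2
    rw [Finset.sum_add_distrib, Finset.sum_ite_eq',
      Finset.sum_ite_eq', if_pos (by simp), if_pos (by simp; omega)] at h2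
    have h3 : D.κ ^ 2 * (PowerSeries.coeff 1 D.w + aeval D.θ (ak n F 1)) = 0 := by
      rw [← h2]
      ring
    rcases mul_eq_zero.1 h3 with h4 | h4
    · exact absurd (pow_eq_zero_iff (two_ne_zero)|>.1 h4) hκ
    · exact eq_neg_of_add_eq_zero_left h4
  refine ⟨key, ?_⟩
  rw [key]
  exact neg_ne_zero.2 hne

end Pool.Agent.H8.EF
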