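import Pool.Agent.H8.EF.NumB
import Pool.Agent.H8.EF.W1
import Pool.Agent.H8.EF.DimL

/-! # [EF-Z2] The case where the leading functional vanishes

`lamQ 0 g = (g 0)(θ)` (constant coefficient of the expansion: `w` has constant coefficient `0`, and
the terms `k ≥ 1` are divisible by `X`). `g 0` has degree `< n`, so `lamQ 0 (v b) = 0` gives
`v b 0 = 0` (`theta_indep`). Then `a_0 * (v b k)` has degree `< n + j + 1 - k`, so
`deg (v b k) < j + 1 - k` for `1 ≤ k ≤ j` (`a_0` monic of degree `n`, `ak_props`). So all `v b` lie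
in a space isomorphic to `∏_(k=1..j) degreeLT ℚ (j+1-k)` of dimension `j (j+1)/2`; `v` is linearly
independent: `ρ ≤ j(j+1)/2`.
Second part: `v b₀ ≠ 0` (`b₀` any index, `ρ ≥ 1`); let `k ≥ 1` be minimal with `v b₀ k ≠ 0`; the
coefficient of `X^k` in the expansion is `κ^(2k) (v b₀ k)(θ) ≠ 0` (degree `< n`, `kappa_ne`). -/

namespace Pool.Agent.H8.EF

open Finset Polynomial Pool.Agent.H72.ES NumberField

variable {K : Type} [Field K] [NumberField K] {j n Q m : ℕ} {A : ℝ} {f : ℤ[X]} {F : ℕ → ℕ → ℤ}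

/-- the leading coefficient of the expansion -/
theorem lam_first {S : Type*} [CommRing S] {j : ℕ} (κ θ : S) (w : PowerSeries S)
    (hw : PowerSeries.constantCoeff w = 0) (g : Fin (j + 1) → S[X]) (k : Fin (j + 1))
    (hg : ∀ i, i < k → g i = 0) :
    lam κ θ w (k : ℕ) g = (κ ^ 2) ^ (k : ℕ) * (g k).eval θ := by
  unfold lam expn
  rw [map_sum, Finset.sum_eq_single k]
  · rw [mul_pow, ← mul_assoc, PowerSeries.coeff_mul_X_pow', if_pos le_rfl, Nat.sub_self,
      PowerSeries.coeff_zero_eq_constantCoeff_apply]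
    rw [map_mul, map_pow, map_pow, PowerSeries.constantCoeff_C, Polynomial.hom_eval₂, map_add,
      map_mul, PowerSeries.constantCoeff_C, PowerSeries.constantCoeff_C, hw, mul_zero, add_zero]
    have : (PowerSeries.constantCoeff : PowerSeries S →+* S).comp PowerSeries.C =
        RingHom.id S := by
      ext x
      simp
    rw [this, Polynomial.eval₂_id, mul_comm]
  · intro i _ hik
    rcases lt_or_gt_of_ne hik with h | h
    · rw [hg i h, Polynomial.eval₂_zero, zero_mul, map_zero]
    · rw [mul_pow, ← mul_assoc, PowerSeries.coeff_mul_X_pow', if_neg]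
      exact not_le.2 h
  · intro h
    exact absurd (Finset.mem_univ _) h

theorem lamQ_first (D : Dat K j n Q m A f F) (g : Fin (j + 1) → ℚ[X]) (k : Fin (j + 1))
    (hg : ∀ i, i < k → g i = 0) :
    D.lamQ (k : ℕ) g = (((D.κ : 𝓞 K) : K) ^ 2) ^ (k : ℕ) * aeval (D.θ : K) (g k) := by
  unfold Dat.lamQ Dat.lamS
  rw [lam_first]
  · congr 1
    simp only [mapG]
    rw [Polynomial.eval_map, Polynomial.aeval_def]
    rfl
  · rw [← PowerSeries.coeff_zero_eq_constantCoeff_apply, PowerSeries.coeff_map,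
      PowerSeries.coeff_zero_eq_constantCoeff_apply, D.w0, map_zero]
  · intro i hi
    simp only [mapG]
    rw [hg i hi, Polynomial.map_zero]

theorem lead_zero (D : Dat K j n Q m A f F) {ρ : ℕ} (v : Fin ρ → (Fin (j + 1) → ℚ[X]))
    (hv : LinearIndependent ℚ v) (hvL : ∀ b, v b ∈ Lsp ℚ j n 0 (akS ℚ n F)) (hρ : 1 ≤ ρ)
    (h0 : ∀ b, D.lamQ 0 (v b) = 0) :
    ρ ≤ j * (j + 1) / 2 ∧ ∃ s, 1 ≤ s ∧ s ≤ j ∧ ∃ b, D.lamQ s (v b) ≠ 0 := by
  classical
  have hv0 : ∀ b, v b 0 = 0 := by
    intro b
    have h1 := lamQ_first D (v b) 0 (fun i hi => absurd hi (Fin.not_lt_zero i))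
    simp only [Fin.val_zero, pow_zero, one_mul] at h1
    rw [h0 b] at h1
    have h2 := ((hvL b) 0).1
    rw [mem_degreeLT] at h2
    refine theta_indep D _ (lt_of_lt_of_le h2 ?_) h1.symm
    have : n - 0 - ((0 : Fin (j + 1)) : ℕ) ≤ n := by omega
    exact_mod_cast this
  have hprops := ak_props D
  have hmon : (akS ℚ n F 0).Monic := hprops.2.1.map _
  have hdeg : (akS ℚ n F 0).natDegree = n := by
    unfold akS
    rw [hprops.2.1.natDegree_map]
    exact hprops.2.2.1
  have hlow : ∀ b (k : Fin (j + 1)), v b k ∈ degreeLT ℚ (j + 1 - (k : ℕ)) := by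
    intro b k
    have h1 := ((hvL b) k).2
    rw [hv0 b, mul_zero, sub_zero] at h1
    refine mem_degreeLT_of_mul hmon hdeg ?_
    have hk := k.2
    have e : n + j + 1 - (k : ℕ) - 0 = n + (j + 1 - (k : ℕ)) := by omega
    rw [e] at h1
    exact h1
  constructor
  · set v' : Fin ρ → (∀ k : Fin j, degreeLT ℚ (j - (k : ℕ))) := fun b k =>
      ⟨v b k.succ, by
        have h1 := hlow b k.succ
        have e : j + 1 - ((k.succ : Fin (j + 1)) : ℕ) = j - (k : ℕ) := by
          rw [Fin.val_succ]; omega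
        rw [e] at h1
        exact h1⟩ with hv'
    have hli : LinearIndependent ℚ v' := by
      rw [Fintype.linearIndependent_iff]
      intro g hg
      apply (Fintype.linearIndependent_iff.1 hv) g
      funext k
      rw [Finset.sum_apply]
      refine Fin.cases ?_ (fun k => ?_) k
      · simp only [Pi.smul_apply, hv0, smul_zero, Finset.sum_const_zero, Pi.zero_apply]
      · have h1 := congrArg Subtype.val (congrFun hg k)
        rw [Finset.sum_apply] at h1
        simpa [hv'] using h1
    have h1 := hli.fintype_card_le_finrank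
    rw [(fd_pi ℚ (fun k : Fin j => j - (k : ℕ))).2, Fintype.card_fin] at h1
    refine h1.trans (le_of_eq ?_)
    rw [Fin.sum_univ_eq_sum_range (fun k => j - k) j]
    have h2 : ∑ k ∈ range j, (j - k) = ∑ k ∈ range j, (k + 1) := by
      rw [← Finset.sum_range_reflect (fun k => k + 1) j]
      refine Finset.sum_congr rfl fun k hk => ?_
      have := Finset.mem_range.1 hk
      omega
    rw [h2]
    have h3 := Finset.sum_range_succ' (fun k => k) j
    rw [add_zero] at h3
    rw [← h3, Finset.sum_range_id, Nat.add_sub_cancel, mul_comm]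
  · set b₀ : Fin ρ := ⟨0, hρ⟩ with hb₀
    have hne : v b₀ ≠ 0 := hv.ne_zero b₀
    have hex : ∃ k : Fin (j + 1), v b₀ k ≠ 0 := by
      by_contra hcon
      push Not at hcon
      exact hne (funext hcon)
    obtain ⟨k, hk, hmin⟩ := Finset.exists_min_image
      (Finset.univ.filter fun k : Fin (j + 1) => v b₀ k ≠ 0) (fun k => (k : ℕ))
      (by obtain ⟨k, hk⟩ := hex; exact ⟨k, Finset.mem_filter.2 ⟨Finset.mem_univ _, hk⟩⟩)
    have hk' := (Finset.mem_filter.1 hk).2
    have hlt : ∀ i, i < k → v b₀ i = 0 := by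
      intro i hi
      by_contra h
      have h1 := hmin i (Finset.mem_filter.2 ⟨Finset.mem_univ _, h⟩)
      have h2 : (i : ℕ) < (k : ℕ) := hi
      omega
    refine ⟨(k : ℕ), ?_, Nat.lt_succ_iff.1 k.2, b₀, ?_⟩
    · by_contra h
      have h1 : k = 0 := by
        apply Fin.ext
        rw [Fin.val_zero]
        omega
      rw [h1] at hk'
      exact hk' (hv0 b₀)
    · rw [lamQ_first D (v b₀) k hlt]
      have hκ : ((D.κ : 𝓞 K) : K) ≠ 0 := by
        have := kappa_ne D
        exact_mod_cast this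
      refine mul_ne_zero (pow_ne_zero _ (pow_ne_zero _ hκ)) ?_
      intro h
      apply hk'
      refine theta_indep D _ ?_ h
      have h2 := ((hvL b₀) k).1
      rw [mem_degreeLT] at h2
      refine lt_of_lt_of_le h2 ?_
      have : n - 0 - (k : ℕ) ≤ n := by omega
      exact_mod_cast this

end Pool.Agent.H8.EF
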