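import Pool.Agent.H8.EF.Mu

/-! # Auxiliary lemmas for the zero estimate -/

namespace Pool.Agent.H8.EF

open Finset Polynomial Pool.Agent.H72.ES NumberField

/-- a polynomial with vanishing Hasse derivatives -/
theorem dvd_of_hasse {R : Type*} [CommRing R] (p : R[X]) (r : R) (I : ℕ)
    (h : ∀ i < I, (hasseDeriv i p).eval r = 0) : (X - C r) ^ I ∣ p := by
  rw [X_sub_C_pow_dvd_iff]
  have : p.comp (X + C r) = taylor r p := rfl
  rw [this, X_pow_dvd_iff]
  intro d hd
  rw [taylor_coeff]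
  exact h d hd

/-- Hasse derivative of a sum of monomials -/
theorem hasse_eval_sum {R : Type*} [CommRing R] (N : ℕ) (c : ℕ → R) (i : ℕ) (r : R) :
    (hasseDeriv i (∑ e ∈ range (N + 1), C (c e) * X ^ e)).eval r =
      ∑ e ∈ range (N + 1), (e.choose i : R) * r ^ (e - i) * c e := by
  rw [map_sum, eval_finsetSum]
  refine sum_congr rfl fun e _ => ?_
  rw [C_mul_X_pow_eq_monomial, hasseDeriv_monomial, eval_monomial]
  ring

theorem mapG_add {S S' : Type*} [CommRing S] [CommRing S'] {j : ℕ} (ρ : S →+* S')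
    (g h : Fin (j + 1) → S[X]) : mapG ρ (g + h) = mapG ρ g + mapG ρ h := by
  funext k
  simp [mapG]

theorem mapG_smul {S S' : Type*} [CommRing S] [CommRing S'] {j : ℕ} (ρ : S →+* S') (c : S)
    (g : Fin (j + 1) → S[X]) : mapG ρ (c • g) = ρ c • mapG ρ g := by
  funext k
  simp [mapG, Polynomial.map_smul]

theorem mapG_sum {S S' : Type*} [CommRing S] [CommRing S'] {j : ℕ} (ρ : S →+* S')
    {ι : Type*} (s : Finset ι) (g : ι → Fin (j + 1) → S[X]) :
    mapG ρ (∑ i ∈ s, g i) = ∑ i ∈ s, mapG ρ (g i) := by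
  funext k
  simp [mapG, Polynomial.map_sum]

theorem mapG_comp {S S' S'' : Type*} [CommRing S] [CommRing S'] [CommRing S''] {j : ℕ}
    (ρ : S →+* S') (τ : S' →+* S'') (g : Fin (j + 1) → S[X]) :
    mapG τ (mapG ρ g) = mapG (τ.comp ρ) g := by
  funext k
  simp [mapG, Polynomial.map_map]

theorem val_add {S : Type*} [CommRing S] {j : ℕ} (x z : S) (g h : Fin (j + 1) → S[X]) :
    val x z (g + h) = val x z g + val x z h := by
  simp [val, add_mul, sum_add_distrib]

theorem val_smul {S : Type*} [CommRing S] {j : ℕ} (x z : S) (c : S) (g : Fin (j + 1) → S[X]) :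
    val x z (c • g) = c * val x z g := by
  simp [val, mul_sum, mul_assoc]

theorem val_sum {S : Type*} [CommRing S] {j : ℕ} (x z : S) {ι : Type*} (s : Finset ι)
    (g : ι → Fin (j + 1) → S[X]) : val x z (∑ i ∈ s, g i) = ∑ i ∈ s, val x z (g i) := by
  classical
  induction s using Finset.induction_on with
  | empty => simp [val]
  | insert a s ha ih => rw [sum_insert ha, sum_insert ha, val_add, ih]

/-- the space of functions and change of rings -/
theorem mapG_mem_Lsp {S S' : Type*} [CommRing S] [CommRing S'] {j n c : ℕ} (ρ : S →+* S')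
    (a : ℕ → S[X]) (g : Fin (j + 1) → S[X]) (hg : g ∈ Lsp S j n c a) :
    mapG ρ g ∈ Lsp S' j n c (fun k => (a k).map ρ) := by
  rw [mem_Lsp] at hg ⊢
  intro k
  obtain ⟨h1, h2⟩ := hg k
  rw [mem_degreeLT] at h1 h2 ⊢
  rw [mem_degreeLT]
  refine ⟨lt_of_le_of_lt degree_map_le h1, ?_⟩
  have : (a 0).map ρ * mapG ρ g k - (a k).map ρ * mapG ρ g 0 =
      (a 0 * g k - a k * g 0).map ρ := by
    simp [mapG]
  rw [this]
  exact lt_of_le_of_lt degree_map_le h2

variable {K : Type} [Field K] [NumberField K] {j n Q m : ℕ} {A : ℝ} {f : ℤ[X]} {F : ℕ → ℕ → ℤ}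

theorem lamQ_sum_smul (D : Dat K j n Q m A f F) (l : ℕ) {ι : Type*} (s : Finset ι) (c : ι → ℚ)
    (g : ι → Fin (j + 1) → ℚ[X]) :
    D.lamQ l (∑ i ∈ s, c i • g i) = ∑ i ∈ s, algebraMap ℚ K (c i) * D.lamQ l (g i) := by
  unfold Dat.lamQ Dat.lamS
  rw [mapG_sum, lam_sum]
  refine sum_congr rfl fun i _ => ?_
  rw [mapG_smul, lam_smul]

theorem lamZ_eq_lamQ (D : Dat K j n Q m A f F) (l : ℕ) (g : Fin (j + 1) → ℤ[X]) :
    ((D.lamZ l g : 𝓞 K) : K) = D.lamQ l (mapG (Int.castRingHom ℚ) g) := by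
  have h := lamZ_em D (RingHom.id K) l g
  rw [RingHom.id_apply] at h
  rw [h]
  unfold Dat.lamQ
  rw [mapG_comp]
  congr 2
  exact RingHom.ext_int _ _

end Pool.Agent.H8.EF
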