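import Pool.Agent.H8.EF.Wron
import Pool.Agent.H8.EF.Dep
import Pool.Agent.H8.EF.Z2
import Pool.Agent.H8.EF.ZeroAux

/-! # [EF-ZERO] The zero estimate

`V = span ℚ {gQ e : e ≤ DD}`, `gQ e = mapG (g e) ∈ Lsp ℚ j n 0 (akS ℚ n F)`, `ρ = finrank V ≥ 1`,
`v` a basis of `V`, `gQ e = ∑_b φ_(b,e) v_b`, `φ_b = ∑_e φ_(b,e) X^e`, linearly independent.
`c_s = (λ_s(v_b))_b ∈ K^ρ`. `∑_b C (c_s b) φ_b = (H_s).map` vanishes at `α` to the order `II s`.
Cases: `c_0 = 0`: `lead_zero`, `num_z4` and `wronsk_ineq` with `r = 1`. `c_0 ≠ 0` and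
`c_0, …, c_j` dependent: `first_dep`, `dep_bound`, `num_z3`, `wronsk_ineq` with `r = 1` and `c_0`.
Independent, `ρ < M`: `num_z1`, `wronsk_ineq` with all functionals (`J = 0`).
Independent, `ρ = M` (`ρ ≤ M` by `finrank_Lsp`): `V = Lsp`, contains the constant function
`(0,…,0,1)`, so the vector `(val v_b)_b` is not zero and `num_z2` gives the contradiction. -/

namespace Pool.Agent.H8.EF

open Finset Polynomial Pool.Agent.H72.ES NumberField

variable {K : Type} [Field K] [NumberField K] {j n Q m : ℕ} {A : ℝ} {f : ℤ[X]} {F : ℕ → ℕ → ℤ}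

/-- coordinates of a finite family with respect to a basis of its span -/
theorem exists_coords {W : Type*} [AddCommGroup W] [Module ℚ W] (N : ℕ) (u : ℕ → W)
    (hnz : ∃ e ≤ N, u e ≠ 0) :
    ∃ (ρ : ℕ) (v : Fin ρ → W) (co : ℕ → Fin ρ → ℚ), 1 ≤ ρ ∧ LinearIndependent ℚ v ∧
      (∀ e ≤ N, u e = ∑ b, co e b • v b) ∧
      (∀ b, v b ∈ Submodule.span ℚ (u '' Set.Iic N)) ∧
      LinearIndependent ℚ (fun b => ∑ e ∈ range (N + 1), C (co e b) * X ^ e : Fin ρ → ℚ[X]) := by
  classical
  set V : Submodule ℚ W := Submodule.span ℚ (u '' Set.Iic N) with hV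
  have hfin : FiniteDimensional ℚ V :=
    FiniteDimensional.span_of_finite ℚ ((Set.finite_Iic N).image u)
  set B := Module.finBasis ℚ V with hB
  have hmem : ∀ e ≤ N, u e ∈ V := fun e he => Submodule.subset_span ⟨e, he, rfl⟩
  set co : ℕ → Fin (Module.finrank ℚ V) → ℚ := fun e b =>
    if h : e ≤ N then B.repr ⟨u e, hmem e h⟩ b else 0 with hco
  have hco' : ∀ e (he : e ≤ N) b, co e b = B.repr ⟨u e, hmem e he⟩ b := by
    intro e he b
    simp only [hco, dif_pos he]
  have hu : ∀ e ≤ N, u e = ∑ b, co e b • ((B b : V) : W) := by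
    intro e he
    have h1 := B.sum_repr ⟨u e, hmem e he⟩
    have h2 := congrArg (fun x : V => (x : W)) h1
    simp only [Submodule.coe_sum, Submodule.coe_smul] at h2
    rw [← h2]
    exact sum_congr rfl fun b _ => by rw [hco' e he]
  refine ⟨Module.finrank ℚ V, fun b => ((B b : V) : W), co, ?_, ?_, hu, fun b => (B b).2, ?_⟩
  · obtain ⟨e, he, hne⟩ := hnz
    rw [Nat.one_le_iff_ne_zero]
    intro h0
    rw [Module.finrank_eq_zero_iff_of_free] at h0
    have h1 : (⟨u e, hmem e he⟩ : V) = 0 := Subsingleton.elim _ _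
    exact hne (by simpa using congrArg (fun x : V => (x : W)) h1)
  · exact B.linearIndependent.map' V.subtype (Submodule.ker_subtype V)
  · rw [Fintype.linearIndependent_iff]
    intro y hy
    have h1 : ∀ e ≤ N, ∑ b, y b * co e b = 0 := by
      intro e he
      have h2 := congrArg (fun p : ℚ[X] => p.coeff e) hy
      simp only [finsetSum_coeff, coeff_smul, smul_eq_mul, coeff_C_mul, coeff_X_pow, mul_ite,
        mul_one, mul_zero, coeff_zero] at h2
      rw [← h2]
      refine sum_congr rfl fun b _ => ?_
      rw [Finset.sum_ite_eq (range (N + 1)) e, if_pos (mem_range.2 (by omega))]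
    -- the linear functional on V
    set Y : V →ₗ[ℚ] ℚ := ∑ b, y b • B.coord b with hY
    have hYz : Y = 0 := by
      have h3 : ∀ x : V, Y x = 0 := by
        rintro ⟨x, hx⟩
        induction hx using Submodule.span_induction with
        | mem x hx =>
          obtain ⟨e, he, rfl⟩ := hx
          have h4 := h1 e he
          simp only [hY, LinearMap.coe_sum, LinearMap.smul_apply, Finset.sum_apply,
            Module.Basis.coord_apply, smul_eq_mul]
          rw [← h4]
          exact sum_congr rfl fun b _ => by rw [hco' e he]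
        | zero => exact map_zero Y
        | add x y hx hy ihx ihy =>
          have : (⟨x + y, Submodule.add_mem _ hx hy⟩ : V) = ⟨x, hx⟩ + ⟨y, hy⟩ := rfl
          rw [this, map_add, ihx, ihy, add_zero]
        | smul c x hx ihx =>
          have : (⟨c • x, Submodule.smul_mem _ c hx⟩ : V) = c • ⟨x, hx⟩ := rfl
          rw [this, map_smul, ihx, smul_zero]
      exact LinearMap.ext h3
    intro b
    have h5 : Y (B b) = y b := by
      simp only [hY, LinearMap.coe_sum, LinearMap.smul_apply, Finset.sum_apply,
        Module.Basis.coord_apply, smul_eq_mul, Module.Basis.repr_self]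
      rw [sum_eq_single b]
      · simp
      · intro b' _ hb'
        rw [Finsupp.single_apply, if_neg (Ne.symm hb'), mul_zero]
      · intro h
        exact absurd (mem_univ b) h
    rw [← h5, hYz, LinearMap.zero_apply]

theorem zero_est (D : Dat K j n Q m A f F) (D' : ℕ) (hD1 : 2 * n ^ 2 ≤ D')
    (g : ℕ → Fin (j + 1) → ℤ[X]) (hL : ∀ e, g e ∈ Lsp ℤ j n 0 (ak n F))
    (hnz : ∃ e ≤ DD j n D', g e ≠ 0)
    (hvan : ∀ l ≤ j, ∀ i < II j n D' l,
      (hasseDeriv i (D.HH l (DD j n D') g)).eval D.α = 0)
    (x z : ℚ) (hJ : ∀ i < JJ j n D',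
      ∑ e ∈ range (DD j n D' + 1), (e.choose i : ℚ) * (m : ℚ) ^ (e - i) *
        val x z (mapG (Int.castRingHom ℚ) (g e)) = 0) : False := by
  classical
  have hj := D.hj
  have hn := D.hjn
  obtain ⟨hn1, hn2, hn3⟩ := num_n hj hn
  set N := DD j n D' with hN
  set u : ℕ → Fin (j + 1) → ℚ[X] := fun e => mapG (Int.castRingHom ℚ) (g e) with hu
  have huL : ∀ e, u e ∈ Lsp ℚ j n 0 (akS ℚ n F) := fun e =>
    mapG_mem_Lsp (Int.castRingHom ℚ) (ak n F) (g e) (hL e)
  have hunz : ∃ e ≤ N, u e ≠ 0 := by
    obtain ⟨e, he, hne⟩ := hnz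
    refine ⟨e, he, fun h => hne ?_⟩
    funext k
    have h1 := congrFun h k
    simp only [hu, mapG, Pi.zero_apply] at h1 ⊢
    exact (Polynomial.map_eq_zero_iff (RingHom.injective_int _)).1 h1
  obtain ⟨ρ, v, co, hρ, hv, huv, hvV, hlin⟩ := exists_coords N u hunz
  have hVL : Submodule.span ℚ (u '' Set.Iic N) ≤ Lsp ℚ j n 0 (akS ℚ n F) := by
    rw [Submodule.span_le]
    rintro _ ⟨e, _, rfl⟩
    exact huL e
  have hvL : ∀ b, v b ∈ Lsp ℚ j n 0 (akS ℚ n F) := fun b => hVL (hvV b)
  set φ : Fin ρ → ℚ[X] := fun b => ∑ e ∈ range (N + 1), C (co e b) * X ^ e with hφ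
  have hdeg : ∀ b, (φ b).natDegree ≤ N := by
    intro b
    refine natDegree_sum_le_of_forall_le _ _ fun e he => ?_
    exact (natDegree_C_mul_X_pow_le _ _).trans (by have := mem_range.1 he; omega)
  set c : ℕ → Fin ρ → K := fun s b => D.lamQ s (v b) with hc
  -- divisibility at α
  have hdvd : ∀ s ≤ j, (X - C (D.α : K)) ^ (II j n D' s) ∣
      ∑ b, C (c s b) * (φ b).map (algebraMap ℚ K) := by
    intro s hs
    have h1 : ∑ b, C (c s b) * (φ b).map (algebraMap ℚ K) =
        (D.HH s N g).map (algebraMap (𝓞 K) K) := by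
      simp only [hφ, Dat.HH, Polynomial.map_sum, Polynomial.map_mul, map_C, Polynomial.map_pow,
        map_X, mul_sum]
      rw [Finset.sum_comm]
      refine sum_congr rfl fun e he => ?_
      have he' : e ≤ N := by have := mem_range.1 he; omega
      have h2 : (algebraMap (𝓞 K) K) (D.lamZ s (g e)) =
          ∑ b, algebraMap ℚ K (co e b) * D.lamQ s (v b) := by
        have h3 := lamZ_eq_lamQ D s (g e)
        have h4 : mapG (Int.castRingHom ℚ) (g e) = ∑ b, co e b • v b := huv e he'
        rw [h4, lamQ_sum_smul] at h3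
        exact h3
      rw [h2, map_sum, sum_mul]
      refine sum_congr rfl fun b _ => ?_
      rw [map_mul]
      ring
    rw [h1]
    refine dvd_of_hasse _ _ _ fun i hi => ?_
    have h5 := hvan s hs i hi
    have h6 : hasseDeriv i ((D.HH s N g).map (algebraMap (𝓞 K) K)) =
        (hasseDeriv i (D.HH s N g)).map (algebraMap (𝓞 K) K) := by
      ext d
      simp [hasseDeriv_coeff]
    rw [h6]
    have h7 : (D.α : K) = algebraMap (𝓞 K) K D.α := rfl
    rw [h7, eval_map_apply, h5, map_zero]
  have hmindeg := alpha_deg D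
  -- the case of one functional
  have hone : ∀ s ≤ j, c s ≠ 0 → n * (II j n D' s - (ρ - 1)) ≤ ρ * N := by
    intro s hs hcs
    have hb0 : 0 < ρ := by omega
    have h1 := wronsk_ineq (by omega : 2 ≤ n) (D.α : K) hmindeg φ hlin N hdeg
      (r := 1) (fun _ => c s) (by rw [linearIndependent_unique_iff]; exact hcs)
      (fun _ => II j n D' s) (fun _ => hdvd s hs) 0 (Pi.single ⟨0, hb0⟩ 1)
      (by intro h; have := congrFun h ⟨0, hb0⟩; simp at this) 0 (by simp)
    simp only [univ_unique, sum_const, card_singleton, one_smul] at h1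
    omega
  by_cases hc0 : c 0 = 0
  · -- the leading functional vanishes
    obtain ⟨h1, s, hs1, hsj, b, hb⟩ := lead_zero D v hv hvL hρ (fun b => congrFun hc0 b)
    have h2 := hone s hsj (fun h => hb (congrFun h b))
    have h3 := num_z4 hj hn D' ρ s hρ h1 hs1 hD1
    rw [← hN] at h3
    omega
  by_cases hind : LinearIndependent K (fun s : Fin (j + 1) => c s)
  · -- independent
    have hfr := finrank_Lsp (S := ℚ) hj hn (akS ℚ n F)
      (by have := (ak_props D).2.1; exact this.map _)
      (by have h1 := (ak_props D).2.1; have h2 := (ak_props D).2.2.1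
          show ((ak n F 0).map _).natDegree = n
          rw [h1.natDegree_map, h2]) (ak_coprime D ℚ)
    obtain ⟨hfd, hfr⟩ := hfr
    have hρM : ρ ≤ MM j n := by
      have hv' : LinearIndependent ℚ (fun b => (⟨v b, hvL b⟩ : Lsp ℚ j n 0 (akS ℚ n F))) := by
        refine LinearIndependent.of_comp (Lsp ℚ j n 0 (akS ℚ n F)).subtype ?_
        exact hv
      have := hv'.fintype_card_le_finrank
      rw [Fintype.card_fin] at this
      omega
    rcases Nat.lt_or_ge ρ (MM j n) with hlt | hge
    · have hb0 : 0 < ρ := by omega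
      have h1 := wronsk_ineq (by omega : 2 ≤ n) (D.α : K) hmindeg φ hlin N hdeg
        (fun s : Fin (j + 1) => c s) hind (fun s => II j n D' s)
        (fun s => hdvd s (by have := s.2; omega)) 0 (Pi.single ⟨0, hb0⟩ 1)
        (by intro h; have := congrFun h ⟨0, hb0⟩; simp at this) 0 (by simp)
      have h2 := num_z1 hj hn D' ρ hρ hlt hD1
      rw [Finset.sum_range (fun s => II j n D' s - (ρ - 1)), ← hN] at h2
      omega
    · have hρe : ρ = MM j n := le_antisymm hρM hge
      -- V is everything
      have hone_mem : (fun k : Fin (j + 1) => if (k : ℕ) = j then (1 : ℚ[X]) else 0) ∈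
          Lsp ℚ j n 0 (akS ℚ n F) := by
        rw [mem_Lsp]
        intro k
        have hkj : (k : ℕ) ≤ j := by have := k.2; omega
        have h0j : ((0 : Fin (j + 1)) : ℕ) ≠ j := by simp; omega
        simp only [h0j, if_false, mul_zero, sub_zero]
        split_ifs with hk
        · refine ⟨?_, ?_⟩
          · rw [mem_degreeLT]
            refine lt_of_le_of_lt degree_one_le ?_
            have : 0 < n - 0 - (k : ℕ) := by omega
            exact_mod_cast this
          · rw [mul_one, mem_degreeLT]
            have h1 : (akS ℚ n F 0).degree ≤ (n : WithBot ℕ) := by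
              refine (degree_map_le).trans (degree_le_of_natDegree_le ?_)
              rw [(ak_props D).2.2.1]
            refine lt_of_le_of_lt h1 ?_
            have : n < n + j + 1 - (k : ℕ) - 0 := by omega
            exact_mod_cast this
        · simp
      have hspan : Submodule.span ℚ (Set.range v) = Lsp ℚ j n 0 (akS ℚ n F) := by
        refine Submodule.eq_of_le_of_finrank_le ?_ ?_
        · rw [Submodule.span_le]
          rintro _ ⟨b, rfl⟩
          exact hvL b
        · rw [finrank_span_eq_card hv, Fintype.card_fin]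
          omega
      rw [← hspan] at hone_mem
      rw [Submodule.mem_span_range_iff_exists_fun] at hone_mem
      obtain ⟨y, hy⟩ := hone_mem
      have hval : val x z (fun k : Fin (j + 1) => if (k : ℕ) = j then (1 : ℚ[X]) else 0) = 1 := by
        unfold val
        rw [sum_eq_single (Fin.last j)]
        · simp
        · intro k _ hk
          have : (k : ℕ) ≠ j := fun h => hk (Fin.ext (by simpa using h))
          simp [this]
        · intro h
          exact absurd (mem_univ _) h
      rw [← hy, val_sum] at hval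
      have hvne : (fun b => val x z (v b)) ≠ 0 := by
        intro h0
        have : ∀ b, val x z (v b) = 0 := fun b => congrFun h0 b
        simp only [val_smul, this, mul_zero, sum_const_zero] at hval
        exact zero_ne_one hval
      have hJd : (X - C (m : ℚ)) ^ (JJ j n D') ∣ ∑ b, C (val x z (v b)) * φ b := by
        have h1 : ∑ b, C (val x z (v b)) * φ b =
            ∑ e ∈ range (N + 1), C (val x z (u e)) * X ^ e := by
          simp only [hφ, mul_sum]
          rw [Finset.sum_comm]
          refine sum_congr rfl fun e he => ?_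
          have he' : e ≤ N := by have := mem_range.1 he; omega
          rw [huv e he', val_sum, map_sum, sum_mul]
          refine sum_congr rfl fun b _ => ?_
          rw [val_smul, map_mul]
          ring
        rw [h1]
        refine dvd_of_hasse _ _ _ fun i hi => ?_
        rw [hasse_eval_sum]
        exact hJ i hi
      have h1 := wronsk_ineq (by omega : 2 ≤ n) (D.α : K) hmindeg φ hlin N hdeg
        (fun s : Fin (j + 1) => c s) hind (fun s => II j n D' s)
        (fun s => hdvd s (by have := s.2; omega)) (m : ℚ) (fun b => val x z (v b)) hvne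
        (JJ j n D') hJd
      have h2 := num_z2 hj hn D' hD1
      rw [Finset.sum_range (fun s => II j n D' s - (MM j n - 1)), ← hN] at h2
      rw [hρe] at h1
      omega
  · -- dependent
    obtain ⟨r, hr1, hrj, β, hβ⟩ := first_dep c hind hc0
    have h1 := dep_bound D v hv hvL hr1 hrj β (fun b => by
      have := congrFun hβ b
      simp only [Finset.sum_apply, Pi.smul_apply, smul_eq_mul] at this
      exact this)
    have h2 := hone 0 (by omega) hc0
    have h3 := num_z3 hj hn D' ρ hρ h1 hD1
    rw [← hN] at h3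
    omega

end Pool.Agent.H8.EF
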