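import Pool.Agent.H8.EF.Sieg
import Pool.Agent.H8.EF.Upp
import Pool.Agent.H8.EF.Zero

/-! # [EF-CORE] The effective bound for a normalised curve

Suppose `|x| ≥ (m b)^(2 n^4)`. `D' = Nat.log (m^LL) |x|`, so `m^(LL D') ≤ |x| < m^(LL (D'+1))`.
`LL = 3 n q² ≤ n²/2` (`num_qn`). `LL (D'+1) > 2 n^4` gives `D' ≥ 2 n²`;
`m^(LL D') ≥ |x|/m^LL ≥ b^(2 n^4)`, `(m^(q D'))^LL = (m^(LL D'))^q ≥ b^(2 n^4 q) ≥
b^(16 (j+1) LL)`, so `m^(q D') ≥ b^(16 (j+1))`; `|x| ≥ b^(n+3)`. `sieg`, `upp`, `zero_est`. -/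

namespace Pool.Agent.H8.EF

open Finset Polynomial Pool.Agent.H72.ES NumberField

variable {K : Type} [Field K] [NumberField K] {j n Q m : ℕ} {A : ℝ} {f : ℤ[X]} {F : ℕ → ℕ → ℤ}

theorem val_cast {j : ℕ} (x y : ℤ) (g : Fin (j + 1) → ℤ[X]) :
    (((val (x : ℚ) ((y : ℚ) / x) (mapG (Int.castRingHom ℚ) g)) : ℚ) : ℝ) =
      val (x : ℝ) ((y : ℝ) / x) (mapG (Int.castRingHom ℝ) g) := by
  unfold val mapG
  push_cast
  refine sum_congr rfl fun k _ => ?_
  congr 1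
  rw [eval_map, eval_map, ← eq_ratCast (algebraMap ℚ ℝ), hom_eval₂]
  have h1 : (algebraMap ℚ ℝ).comp (Int.castRingHom ℚ) = Int.castRingHom ℝ := RingHom.ext_int _ _
  rw [h1]
  congr 1
  simp

theorem core (D : Dat K j n Q m A f F) (x y : ℤ) (hev : ev n F x y = 0) :
    |(x : ℝ)| < (m * bb n Q) ^ (2 * n ^ 4) := by
  by_contra hcon
  push Not at hcon
  have hj := D.hj
  have hjn := D.hjn
  obtain ⟨hn1, hn2, hn3⟩ := num_n hj hjn
  obtain ⟨hq1, -, hq3⟩ := num_qn hj hjn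
  obtain ⟨hq36, -⟩ := num_q hj
  obtain ⟨hm16, -, -, -⟩ := alpha_bounds D
  have hb1 : 1 ≤ bb n Q := one_le_bb D.hF.hn D.hF.hQ
  have hb0 : 0 < bb n Q := by linarith
  have hmR : (16 : ℝ) ≤ m := by exact_mod_cast hm16
  have hm1 : (1 : ℝ) ≤ m := by linarith
  have hm0 : (0 : ℝ) < m := by linarith
  have hn4 : 0 < n ^ 4 := by positivity
  -- the scale
  have hLL : 2 * LL j n ≤ n ^ 2 := by
    unfold LL
    calc 2 * (3 * n * qq j ^ 2) = n * (6 * qq j ^ 2) := by ring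
      _ ≤ n * n := Nat.mul_le_mul_left _ hq1
      _ = n ^ 2 := by ring
  have hLL0 : 0 < LL j n := by unfold LL; positivity
  have hbase : 1 < m ^ LL j n := Nat.one_lt_pow (by omega) (by omega)
  set D' := Nat.log (m ^ LL j n) x.natAbs with hD'
  have hxabs : |(x : ℝ)| = (x.natAbs : ℝ) := by
    rw [← Int.cast_abs, Int.abs_eq_natAbs]
    simp
  have hmb1 : (1 : ℝ) ≤ (m * bb n Q) ^ (2 * n ^ 4) := one_le_pow₀ (by nlinarith)
  have hx0 : x.natAbs ≠ 0 := by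
    intro h
    rw [hxabs, h] at hcon
    simp only [Nat.cast_zero] at hcon
    linarith
  have hlow : (m : ℝ) ^ (LL j n * D') ≤ |(x : ℝ)| := by
    rw [hxabs, pow_mul]
    exact_mod_cast Nat.pow_log_le_self (m ^ LL j n) hx0
  have hupp : |(x : ℝ)| < (m : ℝ) ^ (LL j n * (D' + 1)) := by
    rw [hxabs, pow_mul]
    exact_mod_cast Nat.lt_pow_succ_log_self hbase x.natAbs
  have hmpow : (m : ℝ) ^ (2 * n ^ 4) ≤ |(x : ℝ)| := by
    refine le_trans ?_ hcon
    exact pow_le_pow_left₀ hm0.le (by nlinarith) _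
  have hbpow : bb n Q ^ (2 * n ^ 4) * (m : ℝ) ^ (2 * n ^ 4) ≤ |(x : ℝ)| := by
    rw [← mul_pow, mul_comm]
    exact hcon
  have hD1' : 2 * n ^ 4 < LL j n * (D' + 1) := by
    have h1 : (m : ℝ) ^ (2 * n ^ 4) < (m : ℝ) ^ (LL j n * (D' + 1)) := lt_of_le_of_lt hmpow hupp
    exact (pow_lt_pow_iff_right₀ (by linarith)).1 h1
  have hD1 : 2 * n ^ 2 ≤ D' := by
    have h1 : 4 * n ^ 4 < n ^ 2 * (D' + 1) := by
      calc 4 * n ^ 4 = 2 * (2 * n ^ 4) := by ring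
        _ < 2 * (LL j n * (D' + 1)) := by omega
        _ = (2 * LL j n) * (D' + 1) := by ring
        _ ≤ n ^ 2 * (D' + 1) := Nat.mul_le_mul_right _ hLL
    have h2 : n ^ 2 * (4 * n ^ 2) < n ^ 2 * (D' + 1) := by
      calc n ^ 2 * (4 * n ^ 2) = 4 * n ^ 4 := by ring
        _ < _ := h1
    have h3 : 4 * n ^ 2 < D' + 1 := Nat.lt_of_mul_lt_mul_left h2
    have h4 : 0 < n ^ 2 := by positivity
    omega
  have hb : bb n Q ^ (16 * (j + 1)) ≤ (m : ℝ) ^ (qq j * D') := by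
    have h1 : bb n Q ^ (2 * n ^ 4) ≤ (m : ℝ) ^ (LL j n * D') := by
      have h2 : bb n Q ^ (2 * n ^ 4) * (m : ℝ) ^ (2 * n ^ 4) <
          (m : ℝ) ^ (LL j n * D') * (m : ℝ) ^ LL j n := by
        rw [← pow_add]
        refine lt_of_le_of_lt hbpow ?_
        have : LL j n * D' + LL j n = LL j n * (D' + 1) := by ring
        rw [this]
        exact hupp
      have h3 : (m : ℝ) ^ LL j n ≤ (m : ℝ) ^ (2 * n ^ 4) := by
        refine pow_le_pow_right₀ hm1 ?_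
        have : n ^ 2 ≤ n ^ 4 := Nat.pow_le_pow_right (by omega) (by norm_num)
        omega
      have h4 : (0 : ℝ) < (m : ℝ) ^ (2 * n ^ 4) := by positivity
      have h5 : (m : ℝ) ^ (LL j n * D') * (m : ℝ) ^ LL j n ≤
          (m : ℝ) ^ (LL j n * D') * (m : ℝ) ^ (2 * n ^ 4) :=
        mul_le_mul_of_nonneg_left h3 (by positivity)
      exact (lt_of_mul_lt_mul_right (lt_of_lt_of_le h2 h5) h4.le).le
    have h6 : (bb n Q ^ (16 * (j + 1))) ^ LL j n ≤ ((m : ℝ) ^ (qq j * D')) ^ LL j n := by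
      calc (bb n Q ^ (16 * (j + 1))) ^ LL j n = bb n Q ^ (16 * (j + 1) * LL j n) := by
            rw [← pow_mul]
        _ ≤ bb n Q ^ (2 * n ^ 4 * qq j) := by
            refine pow_le_pow_right₀ hb1 ?_
            unfold LL
            calc 16 * (j + 1) * (3 * n * qq j ^ 2) = 48 * n * (qq j * (j + 1)) * qq j := by ring
              _ ≤ 48 * n * n * qq j := by gcongr
              _ = 48 * n ^ 2 * qq j := by ring
              _ ≤ 2 * n ^ 4 * qq j := by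
                  refine Nat.mul_le_mul_right _ ?_
                  have hnn : 24 ≤ n ^ 2 := le_trans (by omega) (Nat.le_self_pow two_ne_zero n)
                  calc 48 * n ^ 2 ≤ (2 * n ^ 2) * n ^ 2 := Nat.mul_le_mul_right _ (by omega)
                    _ = 2 * n ^ 4 := by ring
        _ = (bb n Q ^ (2 * n ^ 4)) ^ qq j := by rw [← pow_mul]
        _ ≤ ((m : ℝ) ^ (LL j n * D')) ^ qq j := pow_le_pow_left₀ (by positivity) h1 _
        _ = ((m : ℝ) ^ (qq j * D')) ^ LL j n := by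
            rw [← pow_mul, ← pow_mul]
            congr 1
            ring
    exact le_of_pow_le_pow_left₀ hLL0.ne' (by positivity) h6
  have hxb : bb n Q ^ (n + 3) ≤ |(x : ℝ)| := by
    refine le_trans ?_ hbpow
    have h1 : bb n Q ^ (n + 3) ≤ bb n Q ^ (2 * n ^ 4) := by
      refine pow_le_pow_right₀ hb1 ?_
      have : n ≤ n ^ 4 := Nat.le_self_pow (by norm_num) n
      omega
    have h2 : (1 : ℝ) ≤ (m : ℝ) ^ (2 * n ^ 4) := one_le_pow₀ hm1
    calc bb n Q ^ (n + 3) ≤ bb n Q ^ (2 * n ^ 4) * 1 := by linarith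
      _ ≤ _ := mul_le_mul_of_nonneg_left h2 (by positivity)
  obtain ⟨g, hgL, hgnz, hgsize, hgvan⟩ := sieg D D' hD1 hb
  refine zero_est D D' hD1 g hgL hgnz hgvan (x : ℚ) ((y : ℚ) / x) fun i hi => ?_
  have h1 := upp D D' hD1 hb g hgL hgsize hgvan x y hxb hlow hupp.le hev i hi
  have h2 : ((∑ e ∈ range (DD j n D' + 1), (e.choose i : ℚ) * (m : ℚ) ^ (e - i) *
      val (x : ℚ) ((y : ℚ) / x) (mapG (Int.castRingHom ℚ) (g e)) : ℚ) : ℝ) = 0 := by
    rw [← h1]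
    push_cast
    refine sum_congr rfl fun e _ => ?_
    rw [val_cast]
  exact_mod_cast h2

end Pool.Agent.H8.EF
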