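import Pool.Agent.H72.ES.Bridge
import Pool.Agent.H8.KF.HouseK

/-!
# MP_821da1_nt: effective Siegel theorem for plane curves with a point of high multiplicity

`F = F_n + F_(n-1) + ... + F_(n-j)` (homogeneous parts), monic in `y` after normalisation,
`n ≥ 64 j^7`. In the coordinates `t = 1/x`, `z = y/x` the curve is `∑_k a_k(z) t^k = 0`,
`a_k = ak n F k`, `deg a_k ≤ n - k`, `a_0 = f` the leading form, `a_k = 0` for `k > j`.

Functions on the curve with poles of order at most `j` at the `n` (conjugate) points at infinity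
are written `∑_(k ≤ j) g_k(z) x^(j-k)`, `deg g_k < n - k`,
`deg (a_0 g_k - a_k g_0) ≤ n + j - k`: the space `Lsp S j n 0 a`.
-/

namespace Pool.Agent.H8.EF

open Finset Polynomial Pool.Agent.H72.ES NumberField

/-- the coefficient polynomials of the curve: `F~(t,z) = ∑_k a_k(z) t^k` -/
noncomputable def ak (n : ℕ) (F : ℕ → ℕ → ℤ) (k : ℕ) : ℤ[X] :=
  ∑ i ∈ range (n + 1 - k), C (F (n - k - i) i) * X ^ i

/-- the coefficient polynomials over a ring -/
noncomputable def akS (S : Type*) [CommRing S] (n : ℕ) (F : ℕ → ℕ → ℤ) (k : ℕ) : S[X] :=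
  (ak n F k).map (Int.castRingHom S)

/-- the space of functions `∑ g_k(z) x^(j-k)` with poles of order `≤ j` at the points at infinity,
vanishing to order `≥ c` on the fibre `z = ∞` -/
def Lsp (S : Type*) [CommRing S] (j n c : ℕ) (a : ℕ → S[X]) :
    Submodule S (Fin (j + 1) → S[X]) where
  carrier := {g | ∀ k : Fin (j + 1), g k ∈ degreeLT S (n - c - k) ∧
    a 0 * g k - a k * g 0 ∈ degreeLT S (n + j + 1 - k - c)}
  add_mem' := by
    intro g h hg hh k
    refine ⟨Submodule.add_mem _ (hg k).1 (hh k).1, ?_⟩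
    have : a 0 * (g + h) k - a k * (g + h) 0 =
        (a 0 * g k - a k * g 0) + (a 0 * h k - a k * h 0) := by
      simp only [Pi.add_apply]
      ring
    rw [this]
    exact Submodule.add_mem _ (hg k).2 (hh k).2
  zero_mem' := by
    intro k
    simp
  smul_mem' := by
    intro c g hg k
    refine ⟨Submodule.smul_mem _ c (hg k).1, ?_⟩
    have : a 0 * (c • g) k - a k * (c • g) 0 = c • (a 0 * g k - a k * g 0) := by
      simp only [Pi.smul_apply, smul_sub, mul_smul_comm]
    rw [this]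
    exact Submodule.smul_mem _ c (hg k).2

theorem mem_Lsp {S : Type*} [CommRing S] {j n c : ℕ} {a : ℕ → S[X]} {g : Fin (j + 1) → S[X]} :
    g ∈ Lsp S j n c a ↔ ∀ k : Fin (j + 1), g k ∈ degreeLT S (n - c - k) ∧
      a 0 * g k - a k * g 0 ∈ degreeLT S (n + j + 1 - k - c) := Iff.rfl

/-- change of the coefficient ring -/
noncomputable def mapG {S S' : Type*} [CommRing S] [CommRing S'] {j : ℕ} (ρ : S →+* S')
    (g : Fin (j + 1) → S[X]) : Fin (j + 1) → S'[X] := fun k => (g k).map ρ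

/-- the expansion of `∑ g_k(z) t^k` along the branch `t = κ² X`, `z = θ + κ w(X)` -/
noncomputable def expn {S : Type*} [CommRing S] {j : ℕ} (κ θ : S) (w : PowerSeries S)
    (g : Fin (j + 1) → S[X]) : PowerSeries S :=
  ∑ k : Fin (j + 1), (g k).eval₂ PowerSeries.C (PowerSeries.C θ + PowerSeries.C κ * w) *
    (PowerSeries.C κ ^ 2 * PowerSeries.X) ^ (k : ℕ)

/-- the functionals: coefficients of the expansion -/
noncomputable def lam {S : Type*} [CommRing S] {j : ℕ} (κ θ : S) (w : PowerSeries S) (l : ℕ)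
    (g : Fin (j + 1) → S[X]) : S := PowerSeries.coeff l (expn κ θ w g)

/-- the monomial functionals -/
noncomputable def mu {S : Type*} [CommRing S] (κ θ : S) (w : PowerSeries S) (l k i : ℕ) : S :=
  PowerSeries.coeff l ((PowerSeries.C θ + PowerSeries.C κ * w) ^ i *
    (PowerSeries.C κ ^ 2 * PowerSeries.X) ^ k)

/-- the value `∑ g_k(z) x^(j-k)` -/
noncomputable def val {S : Type*} [CommRing S] {j : ℕ} (x z : S) (g : Fin (j + 1) → S[X]) : S :=
  ∑ k : Fin (j + 1), (g k).eval z * x ^ (j - (k : ℕ))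

/-! ### Parameters -/

/-- `M = n + j (j+1) / 2`, the dimension of the space of functions -/
def MM (j n : ℕ) : ℕ := n + j * (j + 1) / 2

/-- `q = 2 j (j+1)²` -/
def qq (j : ℕ) : ℕ := 2 * j * (j + 1) ^ 2

/-- the weight `ι = 3 q j + ⌊n/q⌋ + 1` -/
def io (j n : ℕ) : ℕ := 3 * qq j * j + n / qq j + 1

/-- the degree of the auxiliary polynomial in `z₁` -/
def DD (j n D' : ℕ) : ℕ := n * qq j * D'

/-- the vanishing orders -/
def II (j n D' s : ℕ) : ℕ :=
  if s = 0 then (qq j * (MM j n - j * io j n) - 1) * D' else io j n * qq j * D'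

/-- the number of derivatives -/
def JJ (j n D' : ℕ) : ℕ := n * D' + (j + 2) * n * MM j n

/-- the size of the auxiliary polynomial: `Q₀ = m^(h D)`, `h = 2 q` -/
def QZ (j n m D' : ℕ) : ℕ := m ^ (2 * qq j * DD j n D')

/-- `|x|` is between `m^(L D')` and `m^(L (D'+1))`, `L = 3 n q²` -/
def LL (j n : ℕ) : ℕ := 3 * n * qq j ^ 2

/-- the number of conditions in the dimension estimate -/
def ee (j n : ℕ) : ℕ := (n / (j + 1) + 1) / (j + 1)

/-! ### The arithmetic data -/

/-- the size on the ring of integers: the house -/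
noncomputable def hs (K : Type) [Field K] [NumberField K] (a : 𝓞 K) : ℝ :=
  house (algebraMap (𝓞 K) K a)

/-- The data: a normalised curve with `F = F_n + ... + F_(n-j)`, `F_(n-1) ≠ 0`, the number field
`K` of degree `n`, the root `θ ∈ 𝓞 K` of the leading form, the anchored element `α ∈ 𝓞 K`, the
real place `φ`, and the branch at infinity `w` over `𝓞 K`. -/
structure Dat (K : Type) [Field K] [NumberField K] (j n Q m : ℕ) (A : ℝ) (f : ℤ[X])
    (F : ℕ → ℕ → ℤ) where
  hF : Norml n Q f F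
  irr : Irreducible f
  hj : 2 ≤ j
  hjn : 64 * j ^ 7 ≤ n
  low : ∀ k, j < k → ak n F k = 0
  one : ak n F 1 ≠ 0
  hK : Module.finrank ℚ K = n
  α : 𝓞 K
  θ : 𝓞 K
  φ : K →+* ℝ
  root : aeval θ f = 0
  hA : 1 ≤ A
  hm : (16 * A) ^ (8 * n) ≤ m
  near : |φ α - m| * (m : ℝ) ^ (n - 1) ≤ A
  other : ∀ σ : K →+* ℂ, σ ≠ Complex.ofRealHom.comp φ → ‖σ α‖ ≤ A ∧ ∃ x, (σ x).im ≠ 0
  w : PowerSeries (𝓞 K)
  w0 : PowerSeries.constantCoeff w = 0
  weq : evt n (cst (PowerSeries (𝓞 K)) F) (PowerSeries.C (aeval θ (derivative f)) ^ 2 *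
    PowerSeries.X) (PowerSeries.C θ + PowerSeries.C (aeval θ (derivative f)) * w) = 0
  wbd : ∀ N, wn (hs K) (1 / bb n Q ^ 2) N w ≤ 1 / bb n Q

namespace Dat

variable {K : Type} [Field K] [NumberField K] {j n Q m : ℕ} {A : ℝ} {f : ℤ[X]} {F : ℕ → ℕ → ℤ}

/-- `κ = f'(θ)` -/
noncomputable def κ (D : Dat K j n Q m A f F) : 𝓞 K := aeval D.θ (derivative f)

/-- the functionals over `ℤ` with values in `𝓞 K` -/
noncomputable def lamZ (D : Dat K j n Q m A f F) (l : ℕ) (g : Fin (j + 1) → ℤ[X]) : 𝓞 K :=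
  lam D.κ D.θ D.w l (mapG (Int.castRingHom (𝓞 K)) g)

/-- the embedding of `𝓞 K` given by an embedding of `K` -/
noncomputable def em (K : Type) [Field K] [NumberField K] {S : Type*} [CommRing S]
    (σ : K →+* S) : 𝓞 K →+* S := σ.comp (algebraMap (𝓞 K) K)

/-- the functionals over a `𝓞 K`-ring given by an embedding -/
noncomputable def lamS (D : Dat K j n Q m A f F) {S : Type*} [CommRing S] (σ : K →+* S) (l : ℕ)
    (g : Fin (j + 1) → S[X]) : S :=
  lam (em K σ D.κ) (em K σ D.θ) (PowerSeries.map (em K σ) D.w) l g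

/-- the functionals over `ℚ` with values in `K` -/
noncomputable def lamQ (D : Dat K j n Q m A f F) (l : ℕ) (g : Fin (j + 1) → ℚ[X]) : K :=
  D.lamS (RingHom.id K) l (mapG (algebraMap ℚ K) g)

/-- `H_l(z₁) = ∑_(e ≤ N) λ_l(g_e) z₁^e` -/
noncomputable def HH (D : Dat K j n Q m A f F) (l N : ℕ) (g : ℕ → Fin (j + 1) → ℤ[X]) :
    (𝓞 K)[X] := ∑ e ∈ range (N + 1), C (D.lamZ l (g e)) * X ^ e

end Dat

end Pool.Agent.H8.EF
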