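import Mathlib

/-! # [EF-PM1] The roots of `X^n - m X^(n-1) - 1`, `n` odd

`p(z) = z^n - m z^(n-1) - 1 = z^(n-1) (z - m) - 1`, `n ≥ 3` odd, `m ≥ 3`.
(1) `pm_real`: `p(m) = -1 < 0`, `p(m+1) = (m+1)^(n-1) - 1 > 0`: a root `a ∈ (m, m+1)`,
`a^(n-1) (a - m) = 1`, so `(a - m) m^(n-1) ≤ 1`. It is the only real root: `x^(n-1) ≥ 0`
(`n - 1` even), so `p(x) < 0` for `x ≤ m`, and `x^(n-1)(x-m)` is strictly increasing for `x ≥ m`.
(2) `pm_complex`: a complex root `z` with `‖z‖ ≥ 1` equals `a`: `‖z - m‖ = ‖z‖^(-(n-1)) ≤ 1`, so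
`‖z‖ ≥ m - 1 ≥ 2`, and for `u = z⁻¹`, `v = a⁻¹`, `‖u‖, ‖v‖ ≤ 1/2`:
`z - a = u^(n-1) - v^(n-1)`, `‖z - a‖ ≤ (n-1) (1/2)^(n-2) ‖u - v‖ = (n-1)(1/2)^(n-2) ‖z-a‖ ‖u‖ ‖v‖
≤ (n-1) / 2^n ‖z - a‖`, and `n - 1 < 2^n`.
(3) `pm_irreducible`: for `P ∈ ℤ[X]` (monic; then over `ℚ` by Gauss,
`Monic.irreducible_iff_irreducible_map_fraction_map`): if `P = R S` with `R, S ∈ ℤ[X]` monic of
positive degree; `a` is a simple root of `P` (`P'(a) = a^(n-2) (n a - (n-1) m) > 0`), so one of
`R, S`, say `S`, does not vanish at `a`, all its roots have absolute value `< 1` and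
`|S(0)| = ∏ ‖roots‖ < 1`, so `S(0) = 0`, but `R(0) S(0) = P(0) = -1`. -/

namespace Pool.Agent.H8.EF

open Polynomial

theorem pm_real (n m : ℕ) (hn : Odd n) (hn3 : 3 ≤ n) (hm : 3 ≤ m) :
    ∃ a : ℝ, a ^ n - m * a ^ (n - 1) - 1 = 0 ∧ (m : ℝ) < a ∧ a < m + 1 ∧
      |a - m| * (m : ℝ) ^ (n - 1) ≤ 1 ∧
      ∀ r : ℝ, r ^ n - m * r ^ (n - 1) - 1 = 0 → r = a := by
  obtain ⟨k, rfl⟩ : ∃ k, n = k + 1 := ⟨n - 1, by omega⟩
  have hk : Even k := by
    rcases Nat.even_or_odd k with h | h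
    · exact h
    · exact absurd hn (by simpa using h.add_one)
  have hk2 : 2 ≤ k := by omega
  simp only [Nat.add_sub_cancel]
  have hm3 : (3 : ℝ) ≤ m := by exact_mod_cast hm
  have hid : ∀ x : ℝ, x ^ (k + 1) - m * x ^ k - 1 = x ^ k * (x - m) - 1 := by
    intro x; ring
  have hivt := intermediate_value_Ioo (show (m : ℝ) ≤ m + 1 by linarith)
    (f := fun x : ℝ => x ^ k * (x - m)) (by fun_prop)
  have h1 : (1 : ℝ) ∈ Set.Ioo ((fun x : ℝ => x ^ k * (x - m)) m)
      ((fun x : ℝ => x ^ k * (x - m)) (m + 1)) := by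
    constructor
    · simp
    · have : (1 : ℝ) < ((m : ℝ) + 1) ^ k := one_lt_pow₀ (by linarith) (by omega)
      simpa using this
  obtain ⟨a, ⟨ha1, ha2⟩, ha3⟩ := hivt h1
  have ha3' : a ^ k * (a - m) = 1 := ha3
  refine ⟨a, by rw [hid, ha3']; ring, ha1, ha2, ?_, ?_⟩
  · rw [abs_of_pos (by linarith), ← ha3', mul_comm]
    exact mul_le_mul_of_nonneg_right (pow_le_pow_left₀ (by linarith) ha1.le _) (by linarith)
  · intro r hr
    rw [hid] at hr
    have hr' : r ^ k * (r - m) = 1 := by linarith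
    have hrk : 0 ≤ r ^ k := hk.pow_nonneg r
    have hrm : (m : ℝ) < r := by
      by_contra hcon
      have : r ^ k * (r - m) ≤ 0 := mul_nonpos_of_nonneg_of_nonpos hrk (by linarith)
      linarith
    have key : ∀ x y : ℝ, (m : ℝ) < x → x < y → x ^ k * (x - m) < y ^ k * (y - m) := by
      intro x y hx hxy
      have e1 : x ^ k ≤ y ^ k := pow_le_pow_left₀ (by linarith) hxy.le _
      have e2 : 0 < y ^ k := pow_pos (by linarith) _
      calc x ^ k * (x - m) ≤ y ^ k * (x - m) := mul_le_mul_of_nonneg_right e1 (by linarith)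
        _ < y ^ k * (y - m) := mul_lt_mul_of_pos_left (by linarith) e2
    rcases lt_trichotomy r a with h | h | h
    · have := key r a hrm h; linarith
    · exact h
    · have := key a r ha1 h; linarith

theorem pm_complex (n m : ℕ) (hn : Odd n) (hn3 : 3 ≤ n) (hm : 3 ≤ m) (a : ℝ)
    (ha : a ^ n - m * a ^ (n - 1) - 1 = 0) (z : ℂ) (hz : z ^ n - m * z ^ (n - 1) - 1 = 0)
    (hza : z ≠ a) : ‖z‖ < 1 := by
  by_contra hcon
  have hz1 : 1 ≤ ‖z‖ := not_lt.1 hcon
  obtain ⟨k, rfl⟩ : ∃ k, n = k + 1 := ⟨n - 1, by omega⟩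
  have hk : Even k := by
    rcases Nat.even_or_odd k with h | h
    · exact h
    · exact absurd hn (by simpa using h.add_one)
  have hk2 : 2 ≤ k := by omega
  simp only [Nat.add_sub_cancel] at ha hz
  have hm3 : (3 : ℝ) ≤ m := by exact_mod_cast hm
  have ha' : a ^ k * (a - m) = 1 := by linear_combination ha
  have hz' : z ^ k * (z - m) = 1 := by linear_combination hz
  have ham : (m : ℝ) < a := by
    by_contra hc
    have : a ^ k * (a - m) ≤ 0 :=
      mul_nonpos_of_nonneg_of_nonpos (hk.pow_nonneg a) (by linarith)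
    linarith
  have hzn : ‖z‖ ^ k * ‖z - m‖ = 1 := by rw [← norm_pow, ← norm_mul, hz', norm_one]
  have hzm : ‖z - m‖ ≤ 1 := by
    have : 1 ≤ ‖z‖ ^ k := one_le_pow₀ hz1
    nlinarith [norm_nonneg (z - m)]
  have hz2 : 2 ≤ ‖z‖ := by
    have e1 : ‖(m : ℂ)‖ ≤ ‖z‖ + ‖z - m‖ := by
      have : (m : ℂ) = z - (z - m) := by ring
      calc ‖(m : ℂ)‖ = ‖z - (z - m)‖ := by rw [← this]
        _ ≤ _ := norm_sub_le _ _
    rw [Complex.norm_natCast] at e1
    linarith
  have hz0 : z ≠ 0 := by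
    rintro rfl
    simp at hz2
    linarith
  have ha0 : (a : ℂ) ≠ 0 := by
    have : a ≠ 0 := by linarith
    exact_mod_cast this
  set u : ℂ := z⁻¹ with hu
  set v : ℂ := (a : ℂ)⁻¹ with hv
  have hu2 : ‖u‖ ≤ 1 / 2 := by
    rw [hu, norm_inv, one_div]
    exact inv_anti₀ (by norm_num) hz2
  have hv2 : ‖v‖ ≤ 1 / 2 := by
    rw [hv, norm_inv, one_div]
    refine inv_anti₀ (by norm_num) ?_
    rw [Complex.norm_real, Real.norm_of_nonneg (by linarith)]
    linarith
  have hzu : z - m = u ^ k := by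
    rw [hu, inv_pow]
    exact eq_inv_of_mul_eq_one_right hz'
  have hau : (a : ℂ) - m = v ^ k := by
    rw [hv, inv_pow]
    apply eq_inv_of_mul_eq_one_right
    exact_mod_cast ha'
  have hdiff : z - a = u ^ k - v ^ k := by rw [← hzu, ← hau]; ring
  have huv : u - v = -((z - a) * u * v) := by
    rw [hu, hv]
    field_simp
    ring
  have hsum : ‖∑ i ∈ Finset.range k, u ^ i * v ^ (k - 1 - i)‖ ≤ k * (1 / 2) ^ (k - 1) := by
    refine (norm_sum_le _ _).trans ?_
    have : ∀ i ∈ Finset.range k, ‖u ^ i * v ^ (k - 1 - i)‖ ≤ (1 / 2 : ℝ) ^ (k - 1) := by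
      intro i hi
      have hik : i < k := Finset.mem_range.1 hi
      rw [norm_mul, norm_pow, norm_pow]
      calc ‖u‖ ^ i * ‖v‖ ^ (k - 1 - i) ≤ (1 / 2) ^ i * (1 / 2) ^ (k - 1 - i) := by
            refine mul_le_mul (pow_le_pow_left₀ (norm_nonneg _) hu2 _)
              (pow_le_pow_left₀ (norm_nonneg _) hv2 _) (by positivity) (by positivity)
        _ = (1 / 2) ^ (k - 1) := by
            rw [← pow_add]
            congr 1
            omega
    refine (Finset.sum_le_sum this).trans ?_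
    simp
  have hmain : ‖z - a‖ ≤ (k * (1 / 2) ^ (k - 1)) * (‖z - a‖ * (1 / 2) * (1 / 2)) := by
    have e : z - a = (∑ i ∈ Finset.range k, u ^ i * v ^ (k - 1 - i)) * (u - v) := by
      rw [(Commute.all u v).geom_sum₂_mul, hdiff]
    calc ‖z - a‖ = ‖∑ i ∈ Finset.range k, u ^ i * v ^ (k - 1 - i)‖ * ‖u - v‖ := by
          rw [← norm_mul, ← e]
      _ ≤ (k * (1 / 2) ^ (k - 1)) * (‖z - a‖ * (1 / 2) * (1 / 2)) := by
          refine mul_le_mul hsum ?_ (norm_nonneg _) (by positivity)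
          rw [huv, norm_neg, norm_mul, norm_mul]
          gcongr
  have hpos : 0 < ‖z - a‖ := norm_pos_iff.2 (sub_ne_zero.2 hza)
  have hkk : (k : ℝ) * (1 / 2) ^ (k - 1) ≤ 2 := by
    obtain ⟨j, rfl⟩ : ∃ j, k = j + 1 := ⟨k - 1, by omega⟩
    simp only [Nat.add_sub_cancel]
    have h2 : (j : ℝ) + 1 ≤ 2 ^ (j + 1) := by
      have := (Nat.lt_two_pow_self (n := j + 1)).le
      exact_mod_cast this
    rw [one_div, inv_pow, ← div_eq_mul_inv, div_le_iff₀ (by positivity)]
    push_cast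
    rw [pow_succ] at h2
    linarith
  nlinarith

theorem prod_norm_lt (s : Multiset ℂ) (hs : ∀ z ∈ s, ‖z‖ < 1) :
    ‖s.prod‖ ≤ 1 ∧ (s ≠ 0 → ‖s.prod‖ < 1) := by
  induction s using Multiset.induction with
  | empty => simp
  | cons z s ih =>
    obtain ⟨h1, -⟩ := ih fun w hw => hs w (Multiset.mem_cons_of_mem hw)
    have hz : ‖z‖ < 1 := hs z (Multiset.mem_cons_self z s)
    have : ‖(z ::ₘ s).prod‖ < 1 := by
      rw [Multiset.prod_cons, norm_mul]
      nlinarith [norm_nonneg z, norm_nonneg s.prod]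
    exact ⟨this.le, fun _ => this⟩

theorem coeff_zero_of_roots (g : ℤ[X]) (hg : g.Monic) (hd : g.natDegree ≠ 0)
    (hr : ∀ z : ℂ, aeval z g = 0 → ‖z‖ < 1) : g.coeff 0 = 0 := by
  set G : ℂ[X] := g.map (Int.castRingHom ℂ) with hG
  have hGm : G.Monic := hg.map _
  have hsp : G.Splits := IsAlgClosed.splits G
  have h0 := hsp.coeff_zero_eq_prod_roots_of_monic hGm
  have hnd : G.natDegree = g.natDegree := hg.natDegree_map _
  have hne : G.roots ≠ 0 := by
    intro h
    have := hsp.natDegree_eq_card_roots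
    rw [h, Multiset.card_zero, hnd] at this
    exact hd this
  have hlt : ‖G.roots.prod‖ < 1 := by
    refine (prod_norm_lt _ fun z hz => hr z ?_).2 hne
    have := (mem_roots hGm.ne_zero).1 hz
    rw [IsRoot.def, hG, eval_map] at this
    rw [aeval_def]
    exact this
  have h1 : ‖((g.coeff 0 : ℤ) : ℂ)‖ < 1 := by
    have : ((g.coeff 0 : ℤ) : ℂ) = G.coeff 0 := by rw [hG, coeff_map]; rfl
    rw [this, h0, norm_mul, norm_pow, norm_neg, norm_one, one_pow, one_mul]
    exact hlt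
  rw [Complex.norm_intCast] at h1
  have h2 : |g.coeff 0| < 1 := by exact_mod_cast h1
  exact Int.abs_lt_one_iff.1 h2

theorem pm_irreducible (n m : ℕ) (hn : Odd n) (hn3 : 3 ≤ n) (hm : 3 ≤ m) :
    Irreducible (X ^ n - C (m : ℚ) * X ^ (n - 1) - 1 : ℚ[X]) := by
  obtain ⟨a, ha, ham, -, -, -⟩ := pm_real n m hn hn3 hm
  set P : ℤ[X] := X ^ n - C (m : ℤ) * X ^ (n - 1) - 1 with hP
  have hPm : P.Monic := by
    have : P = X ^ n - (C (m : ℤ) * X ^ (n - 1) + 1) := by rw [hP]; ring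
    rw [this]
    apply monic_X_pow_sub
    refine lt_of_le_of_lt (degree_add_le _ _) (max_lt ?_ ?_)
    · refine lt_of_le_of_lt (degree_C_mul_X_pow_le _ _) ?_
      exact_mod_cast (show n - 1 < n by omega)
    · rw [degree_one]
      exact_mod_cast (show 0 < n by omega)
  have hmap : P.map (algebraMap ℤ ℚ) = X ^ n - C (m : ℚ) * X ^ (n - 1) - 1 := by
    rw [hP]
    simp
  rw [← hmap]
  refine (Monic.irreducible_iff_irreducible_map_fraction_map hPm).1 ?_
  rw [hPm.irreducible_iff_natDegree]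
  have hn1 : n - 1 ≠ 0 := by omega
  have hn0 : n ≠ 0 := by omega
  have hP0 : P.coeff 0 = -1 := by
    rw [hP, coeff_zero_eq_eval_zero]
    simp [hn1, hn0]
  refine ⟨fun h => by rw [h] at hP0; simp at hP0, ?_⟩
  intro f g hf hg hfg
  by_contra hcon
  push Not at hcon
  obtain ⟨hfd, hgd⟩ := hcon
  have hPa : aeval a P = 0 := by
    rw [hP]
    simpa using ha
  have hP' : aeval a (derivative P) ≠ 0 := by
    obtain ⟨j, rfl⟩ : ∃ j, n = j + 2 := ⟨n - 2, by omega⟩
    have e : aeval a (derivative P) = a ^ j * ((j + 2) * a - (j + 1) * m) := by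
      rw [hP]
      simp only [Nat.add_sub_cancel, show j + 2 - 1 = j + 1 by omega]
      simp only [derivative_sub, derivative_mul, derivative_X_pow, derivative_C, derivative_one,
        zero_mul, zero_add, sub_zero, map_sub, map_mul, aeval_C, map_pow, aeval_X,
        Nat.add_sub_cancel, show j + 2 - 1 = j + 1 by omega]
      simp
      ring
    rw [e]
    have hm3 : (3 : ℝ) ≤ m := by exact_mod_cast hm
    have h1 : 0 < a ^ j := pow_pos (by linarith) _
    have h2 : 0 < ((j : ℝ) + 2) * a - (j + 1) * m := by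
      have hj : (0 : ℝ) ≤ j := Nat.cast_nonneg j
      nlinarith
    exact (mul_pos h1 h2).ne'
  -- a factor not vanishing at `a` has constant coefficient zero
  have key : ∀ g : ℤ[X], g.Monic → g.natDegree ≠ 0 → g ∣ P → aeval a g ≠ 0 → g.coeff 0 = 0 := by
    intro g hg hd hgP hga
    refine coeff_zero_of_roots g hg hd fun z hz => ?_
    have hPz : aeval z P = 0 := by
      obtain ⟨q, hq⟩ := hgP
      rw [hq, map_mul, hz, zero_mul]
    refine pm_complex n m hn hn3 hm a ha z ?_ ?_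
    · rw [hP] at hPz
      simpa using hPz
    · rintro rfl
      apply hga
      have := aeval_algebraMap_apply ℂ a g
      have h2 : (algebraMap ℝ ℂ) (aeval a g) = 0 := by
        rw [← this]
        exact hz
      simpa using h2
  have hcz : f.coeff 0 * g.coeff 0 = -1 := by rw [← mul_coeff_zero, hfg, hP0]
  have hor : aeval a f ≠ 0 ∨ aeval a g ≠ 0 := by
    by_contra hc
    push Not at hc
    apply hP'
    rw [← hfg, derivative_mul, map_add, map_mul, map_mul, hc.1, hc.2]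
    ring
  rcases hor with h | h
  · rw [key f hf hfd ⟨g, hfg.symm⟩ h] at hcz
    simp at hcz
  · rw [key g hg hgd ⟨f, by rw [← hfg, mul_comm]⟩ h] at hcz
    simp at hcz

end Pool.Agent.H8.EF
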