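import Pool.Agent.H8.EF.Anch
import Pool.Agent.H8.EF.Pm1

/-! # [EF-PM2] The fields generated by a root of `X^n - m X^(n-1) - 1` are anchored, `n` odd

`K` of degree `n` with a root `α` of `P = X^n - m X^(n-1) - 1` (irreducible, `pm_irreducible`):
`P = minpoly ℚ α`, `K = ℚ(α)` (`Field.primitive_element_iff_minpoly_natDegree_eq`), an embedding of
`K` is determined by the image of `α`, and there is `φ : K →+* ℝ` with `φ α = a`, the real root of
`pm_real` (`IntermediateField.adjoin.powerBasis` + `PowerBasis.lift`, or `AdjoinRoot.lift` and the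
isomorphism `AdjoinRoot P ≃ K`). `α` is integral (`P` monic over `ℤ`). If
`σ ≠ ofRealHom.comp φ` then `σ α ≠ a` is a root of `P`, so `‖σ α‖ < 1` (`pm_complex`) and `σ α` is
not real (the last part of `pm_real`). -/

namespace Pool.Agent.H8.EF

open Polynomial NumberField

theorem pm_anchored (n m : ℕ) (hn : Odd n) (hn3 : 3 ≤ n) (hm : 3 ≤ m) (K : Type) [Field K]
    [NumberField K] (hK : Module.finrank ℚ K = n) (α : K)
    (hα : α ^ n - m * α ^ (n - 1) - 1 = 0) : Anchored K m 1 := by
  obtain ⟨a, ha, ham, ham1, haA, huniq⟩ := pm_real n m hn hn3 hm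
  have hirr := pm_irreducible n m hn hn3 hm
  set P : ℚ[X] := X ^ n - C (m : ℚ) * X ^ (n - 1) - 1 with hP
  have hmon : ∀ (R : Type) [CommRing R] [Nontrivial R],
      (X ^ n - C (m : R) * X ^ (n - 1) - 1 : R[X]).Monic ∧
      (X ^ n - C (m : R) * X ^ (n - 1) - 1 : R[X]).natDegree = n := by
    intro R _ _
    have hd : (C (m : R) * X ^ (n - 1) + 1 : R[X]).degree < n := by
      refine lt_of_le_of_lt (degree_add_le _ _) (max_lt ?_ ?_)
      · refine lt_of_le_of_lt (degree_C_mul_X_pow_le _ _) ?_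
        exact_mod_cast (show n - 1 < n by omega)
      · rw [degree_one]
        exact_mod_cast (show 0 < n by omega)
    have e : (X ^ n - C (m : R) * X ^ (n - 1) - 1 : R[X]) =
      X ^ n - (C (m : R) * X ^ (n - 1) + 1) := by ring
    rw [e]
    refine ⟨monic_X_pow_sub hd, ?_⟩
    apply natDegree_eq_of_degree_eq_some
    rw [degree_sub_eq_left_of_degree_lt, degree_X_pow]
    rwa [degree_X_pow]
  have hPα : aeval α P = 0 := by
    rw [hP]
    simpa using hα
  have hmin : P = minpoly ℚ α := minpoly.eq_of_irreducible_of_monic hirr hPα (hmon ℚ).1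
  have htop : IntermediateField.adjoin ℚ {α} = ⊤ := by
    rw [Field.primitive_element_iff_minpoly_natDegree_eq, ← hmin, hK]
    exact (hmon ℚ).2
  have hinj : ∀ σ τ : K →+* ℂ, σ α = τ α → σ = τ := by
    intro σ τ h
    have hi := (Field.primitive_element_iff_algHom_eq_of_eval' ℚ ℂ
      (fun x => IsAlgClosed.splits _) α).1 htop
    have h2 : σ.toRatAlgHom = τ.toRatAlgHom := hi (by simpa using h)
    ext x
    have := congrArg (fun f : K →ₐ[ℚ] ℂ => f x) h2
    simpa using this
  obtain ⟨ψ, hψ⟩ : ∃ ψ : K →+* ℂ, ψ α = a := by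
    have h1 : (a : ℂ) ∈ (minpoly ℚ α).rootSet ℂ := by
      rw [← hmin, mem_rootSet]
      refine ⟨(hmon ℚ).1.ne_zero, ?_⟩
      rw [hP]
      simp only [map_sub, map_mul, map_pow, aeval_X, aeval_C, map_one]
      have : ((a ^ n - m * a ^ (n - 1) - 1 : ℝ) : ℂ) = 0 := by rw [ha]; simp
      simpa using this
    rw [← Algebra.IsAlgebraic.range_eval_eq_rootSet_minpoly ℂ α] at h1
    obtain ⟨ψ, hψ⟩ := h1
    exact ⟨ψ.toRingHom, hψ⟩
  have hreal : ComplexEmbedding.IsReal ψ := by
    rw [ComplexEmbedding.isReal_iff]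
    apply hinj
    rw [ComplexEmbedding.conjugate_coe_eq, hψ, Complex.conj_ofReal]
  have hint : IsIntegral ℤ α := by
    refine ⟨X ^ n - C (m : ℤ) * X ^ (n - 1) - 1, (hmon ℤ).1, ?_⟩
    simpa using hα
  have hcomp : Complex.ofRealHom.comp hreal.embedding = ψ := by
    ext x
    simp
  have hφα : hreal.embedding α = a := by
    have := hreal.coe_embedding_apply α
    rw [hψ] at this
    exact_mod_cast this
  refine ⟨⟨α, hint⟩, hreal.embedding, ?_, ?_⟩
  · show |hreal.embedding α - m| * (m : ℝ) ^ (Module.finrank ℚ K - 1) ≤ 1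
    rw [hφα, hK]
    exact haA
  · intro σ hσ
    have hσa : σ α ≠ a := by
      intro h
      exact hσ (by rw [hcomp]; exact hinj σ ψ (by rw [h, hψ]))
    have hroot : (σ α) ^ n - m * (σ α) ^ (n - 1) - 1 = 0 := by
      have := congrArg σ hα
      simpa using this
    refine ⟨(pm_complex n m hn hn3 hm a ha _ hroot hσa).le, α, ?_⟩
    intro him
    apply hσa
    have hre : σ α = ((σ α).re : ℂ) := by
      apply Complex.ext
      · simp
      · simpa using him
    rw [hre]
    congr 1
    apply huniq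
    rw [hre] at hroot
    exact_mod_cast hroot

end Pool.Agent.H8.EF
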