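import Pool.Agent.H8.EF.Arr
import Pool.Agent.H8.EF.Pm
import Pool.Agent.H8.KF.FinK

/-! # [EF-FINAL] The theorem for polynomials in two variables

`arrM F` (file `Bridge`), `eval_arrM`, `Pool.Agent.H8.KF.aeval_lead`, `leadQ_of_irreducible`.
`homogeneousComponent i F = 0` for `i < n - j` means that `arrM F i' k = 0` for `i' + k = i`
(`coeff_homogeneousComponent`, `ex_deg`, ...). -/

namespace Pool.Agent.H8.EF

open Finset NumberField Pool.Agent.H72.ES

theorem arrM_hom (F : MvPolynomial (Fin 2) ℤ) (d i k : ℕ) :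
    (MvPolynomial.homogeneousComponent d F).coeff (ex i k) =
      if i + k = d then arrM F i k else 0 := by
  rw [MvPolynomial.coeff_homogeneousComponent, ex_deg, ex_zero, ex_one]
  rfl

theorem effective (K : Type) [Field K] [NumberField K] (m : ℕ) (A : ℝ) (hA : 1 ≤ A)
    (hK : Anchored K m A) (j n : ℕ) (hj : 2 ≤ j) (hn : 64 * j ^ 7 ≤ n)
    (hKn : Module.finrank ℚ K = n) (hm : (16 * A) ^ (8 * n) ≤ m) (F : MvPolynomial (Fin 2) ℤ)
    (hdeg : F.totalDegree ≤ n)
    (hlow : ∀ i < n - j, MvPolynomial.homogeneousComponent i F = 0)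
    (hsub : MvPolynomial.homogeneousComponent (n - 1) F ≠ 0)
    (hirr : Irreducible (MvPolynomial.map (Int.castRingHom ℚ)
      (MvPolynomial.homogeneousComponent n F)))
    (θ : K) (hθ : MvPolynomial.aeval ![1, θ] (MvPolynomial.homogeneousComponent n F) = 0)
    (H : ℕ) (hH : ∀ s, |F.coeff s| ≤ (H : ℤ)) (x y : ℤ) (h0 : MvPolynomial.eval ![x, y] F = 0) :
    max |x| |y| ≤ ((m * H : ℕ) : ℤ) ^ (15 * n ^ 7) := by
  obtain ⟨hn1, hn2, hn3⟩ := num_n hj hn
  obtain ⟨ha, hirr'⟩ := leadQ_of_irreducible (by omega) hirr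
  refine arr_bound K m A hA hK j n hj hn hKn hm (arrM F) ?_ ?_ ha hirr' θ ?_ H
    (fun i k _ => hH _) x y (by rw [← eval_arrM hdeg]; exact h0)
  · intro i k hik
    have h1 := arrM_hom F (i + k) i k
    rw [if_pos rfl, hlow _ hik, MvPolynomial.coeff_zero] at h1
    exact h1.symm
  · by_contra hcon
    push Not at hcon
    apply hsub
    ext s
    rw [← ex_eta s, arrM_hom, MvPolynomial.coeff_zero]
    split_ifs with h
    · have h2 := hcon (s 1) (by omega)
      have h3 : n - 1 - s 1 = s 0 := by omega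
      rw [h3] at h2
      exact h2
    · rfl
  · have h1 := Pool.Agent.H8.KF.aeval_lead (n := n) F
    have h2 : Polynomial.aeval θ (MvPolynomial.aeval ![(1 : Polynomial ℚ), Polynomial.X]
        (MvPolynomial.homogeneousComponent n F)) =
        MvPolynomial.aeval ![1, θ] (MvPolynomial.homogeneousComponent n F) := by
      have h3 := MvPolynomial.map_aeval ![(1 : Polynomial ℚ), Polynomial.X]
        ((Polynomial.aeval θ : Polynomial ℚ →ₐ[ℚ] K) : Polynomial ℚ →+* K)
        (MvPolynomial.homogeneousComponent n F)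
      rw [RingHom.coe_coe] at h3
      rw [h3, MvPolynomial.aeval_def]
      change MvPolynomial.eval₂ _ _ _ = _
      congr 1
      · exact RingHom.ext_int _ _
      · funext i
        fin_cases i
        · simp
        · simp
    rw [← h1, h2]
    exact hθ

end Pool.Agent.H8.EF
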