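import Pool.Agent.H8.EF.W1

/-! # [EF-HERM] Hermite independence of the functionals

For `σ : K →+* ℂ` put `θ_σ = σ θ`, `κ_σ = σ κ ≠ 0`, `w_σ = map w`, `Z_σ = C θ_σ + C κ_σ w_σ`.
(1) `w_one`, `kappa_ne` (file `W1`): the coefficient of `X` in the branch equation: with `w = w_1 X + ...`,
`κ w_1 κ + a_1(θ) κ² = 0` in `𝓞 K` (constant term `f(θ) = 0`), so `w_1 = - a_1(θ)`;
`a_1(θ) ≠ 0` because `a_1 ≠ 0` has degree `< n` (`theta_indep`, `ak_props`). So `σ w_1 ≠ 0`.
(`κ ≠ 0`: `f'` is nonzero of degree `< n`.)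
(2) `herm`: `expn κ_σ θ_σ w_σ (P g1) = P(Z_σ) * expn κ_σ θ_σ w_σ g1`
(`eval₂ (P * g) = eval₂ P * eval₂ g`). The second factor has constant coefficient
`(g1 0)(θ_σ) = σ(aeval θ (g1 0)) ≠ 0` (`theta_indep`, `g1 0 ≠ 0` of degree `< n`), so it is a
unit, and `lam .. l = 0` for `l ≤ r` gives `X^(r+1) ∣ P(Z_σ)`. Write
`P = (X - θ_σ)^k P₁`, `P₁(θ_σ) ≠ 0` (if `P ≠ 0`); `P(Z_σ) = (C κ_σ w_σ)^k P₁(Z_σ)` has order exactly
`k` (`w_σ = w_1 X + ...`, `σ w_1 ≠ 0`), so `k ≥ r+1`: `(X - θ_σ)^(r+1) ∣ P`. The `θ_σ` are pairwise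
different (`emb_inj`), so `∏_(σ ∈ S') (X - θ_σ)^(r+1) ∣ P`, whose degree is `(r+1) card S'`; hence
`P = 0`. -/

namespace Pool.Agent.H8.EF

open Finset Polynomial Pool.Agent.H72.ES NumberField

variable {K : Type} [Field K] [NumberField K] {j n Q m : ℕ} {A : ℝ} {f : ℤ[X]} {F : ℕ → ℕ → ℤ}

/-- multiplying all the coefficient polynomials by `P` -/
private lemma expn_mul {S : Type*} [CommRing S] {j : ℕ} (κ θ : S) (w : PowerSeries S)
    (P : S[X]) (g : Fin (j + 1) → S[X]) :
    expn κ θ w (fun k => P * g k) =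
      P.eval₂ PowerSeries.C (PowerSeries.C θ + PowerSeries.C κ * w) * expn κ θ w g := by
  unfold expn
  rw [mul_sum]
  apply sum_congr rfl
  intro k _
  rw [eval₂_mul, mul_assoc]

/-- the constant coefficient of an expansion -/
private lemma constantCoeff_expn {S : Type*} [CommRing S] {j : ℕ} (κ θ : S) (w : PowerSeries S)
    (hw : PowerSeries.constantCoeff w = 0) (g : Fin (j + 1) → S[X]) :
    PowerSeries.constantCoeff (expn κ θ w g) = (g 0).eval θ := by
  unfold expn
  rw [map_sum, Fin.sum_univ_succ]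
  have h1 : ∑ i : Fin j, PowerSeries.constantCoeff (eval₂ PowerSeries.C
      (PowerSeries.C θ + PowerSeries.C κ * w) (g i.succ) *
      (PowerSeries.C κ ^ 2 * PowerSeries.X) ^ ((i.succ : Fin (j + 1)) : ℕ)) = 0 := by
    apply sum_eq_zero
    intro i _
    rw [map_mul, map_pow, map_mul, PowerSeries.constantCoeff_X, mul_zero, Fin.val_succ,
      pow_succ, mul_zero, mul_zero]
  rw [h1, add_zero, map_mul, hom_eval₂]
  have h2 : (PowerSeries.constantCoeff (R := S)).comp PowerSeries.C = RingHom.id S := by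
    ext x; simp
  have h3 : PowerSeries.constantCoeff (PowerSeries.C θ + PowerSeries.C κ * w) = θ := by
    rw [map_add, map_mul, hw, mul_zero, add_zero, PowerSeries.constantCoeff_C]
  rw [h2, h3, eval₂_id, Fin.val_zero, pow_zero, map_one, mul_one]

/-- the order of vanishing of `P (θ + κ w)` is that of `P` at `θ` -/
private lemma pow_dvd_of_X_pow_dvd {S : Type*} [Field S] (κ θ : S) (w : PowerSeries S)
    (hκ : κ ≠ 0) (hw : PowerSeries.constantCoeff w = 0) (hw1 : PowerSeries.coeff 1 w ≠ 0)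
    (r : ℕ) (P : S[X])
    (h : (PowerSeries.X : PowerSeries S) ^ (r + 1) ∣
      P.eval₂ PowerSeries.C (PowerSeries.C θ + PowerSeries.C κ * w)) :
    (X - C θ) ^ (r + 1) ∣ P := by
  by_cases hP : P = 0
  · rw [hP]; exact dvd_zero _
  obtain ⟨P₁, hP₁, hnd⟩ := exists_eq_pow_rootMultiplicity_mul_and_not_dvd P hP θ
  rw [← le_rootMultiplicity_iff hP]
  set k := rootMultiplicity θ P with hk
  -- `w = X w'`
  have hXw : (PowerSeries.X : PowerSeries S) ∣ w := PowerSeries.X_dvd_iff.2 hw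
  obtain ⟨w', hw'⟩ := hXw
  have hw'0 : PowerSeries.constantCoeff w' ≠ 0 := by
    have : PowerSeries.coeff 1 w = PowerSeries.constantCoeff w' := by
      rw [hw', show (1:ℕ) = 0 + 1 from rfl, PowerSeries.coeff_succ_X_mul,
        PowerSeries.coeff_zero_eq_constantCoeff_apply]
    rwa [← this]
  have hev : P.eval₂ PowerSeries.C (PowerSeries.C θ + PowerSeries.C κ * w) =
      PowerSeries.X ^ k * ((PowerSeries.C κ * w') ^ k *
        P₁.eval₂ PowerSeries.C (PowerSeries.C θ + PowerSeries.C κ * w)) := by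
    conv_lhs => rw [hP₁]
    rw [eval₂_mul, eval₂_pow, eval₂_sub, eval₂_X, eval₂_C]
    have : (PowerSeries.C θ + PowerSeries.C κ * w - PowerSeries.C θ) =
        PowerSeries.X * (PowerSeries.C κ * w') := by
      rw [add_sub_cancel_left]
      conv_lhs => rw [hw']
      ring
    rw [this, mul_pow]
    ring
  have hunit : IsUnit ((PowerSeries.C κ * w') ^ k *
        P₁.eval₂ PowerSeries.C (PowerSeries.C θ + PowerSeries.C κ * w)) := by
    rw [PowerSeries.isUnit_iff_constantCoeff, isUnit_iff_ne_zero, map_mul, map_pow, map_mul,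
      PowerSeries.constantCoeff_C, hom_eval₂]
    have h2 : (PowerSeries.constantCoeff (R := S)).comp PowerSeries.C = RingHom.id S := by
      ext x; simp
    have h3 : PowerSeries.constantCoeff (PowerSeries.C θ + PowerSeries.C κ * w) = θ := by
      rw [map_add, map_mul, hw, mul_zero, add_zero, PowerSeries.constantCoeff_C]
    rw [h2, h3, eval₂_id]
    refine mul_ne_zero (pow_ne_zero _ (mul_ne_zero hκ hw'0)) ?_
    intro h0
    apply hnd
    rw [dvd_iff_isRoot, IsRoot.def]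
    exact h0
  rw [hev, hunit.dvd_mul_right] at h
  by_contra hlt
  push Not at hlt
  have := (PowerSeries.X_pow_dvd_iff.1 h) k hlt
  rw [PowerSeries.coeff_X_pow_self] at this
  exact one_ne_zero this

theorem herm (D : Dat K j n Q m A f F) (g1 : Fin (j + 1) → ℚ[X]) (hg1 : (g1 0).degree < n)
    (h0 : g1 0 ≠ 0) (S' : Finset (K →+* ℂ)) (r : ℕ) (P : ℂ[X])
    (hP : P.degree < (((r + 1) * S'.card : ℕ) : WithBot ℕ))
    (hz : ∀ σ ∈ S', ∀ l ≤ r, D.lamS σ l (fun k => P * (g1 k).map (algebraMap ℚ ℂ)) = 0) :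
    P = 0 := by
  by_contra hP0
  have hkey : ∀ σ ∈ S', (X - C (σ (D.θ : K))) ^ (r + 1) ∣ P := by
    intro σ hσ
    have hκ : Dat.em K σ D.κ ≠ 0 := by
      have h1 : (algebraMap (𝓞 K) K) D.κ ≠ 0 := by
        rw [Ne, RingOfIntegers.coe_eq_zero_iff]
        exact kappa_ne D
      show σ (algebraMap (𝓞 K) K D.κ) ≠ 0
      rw [Ne, map_eq_zero]
      exact h1
    have hw0 : PowerSeries.constantCoeff (PowerSeries.map (Dat.em K σ) D.w) = 0 := by
      rw [← PowerSeries.coeff_zero_eq_constantCoeff_apply, PowerSeries.coeff_map,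
        PowerSeries.coeff_zero_eq_constantCoeff_apply, D.w0, map_zero]
    have hw1 : PowerSeries.coeff 1 (PowerSeries.map (Dat.em K σ) D.w) ≠ 0 := by
      rw [PowerSeries.coeff_map]
      show σ (algebraMap (𝓞 K) K (PowerSeries.coeff 1 D.w)) ≠ 0
      rw [Ne, map_eq_zero, RingOfIntegers.coe_eq_zero_iff]
      exact (w_one D).2
    refine pow_dvd_of_X_pow_dvd (Dat.em K σ D.κ) (σ (D.θ : K)) _ hκ hw0 hw1 r P ?_
    have hE : IsUnit (expn (Dat.em K σ D.κ) (σ (D.θ : K)) (PowerSeries.map (Dat.em K σ) D.w)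
        (fun k => (g1 k).map (algebraMap ℚ ℂ))) := by
      rw [PowerSeries.isUnit_iff_constantCoeff, isUnit_iff_ne_zero, constantCoeff_expn _ _ _ hw0]
      intro hE
      apply h0
      apply theta_indep D (g1 0) hg1
      have h1 : σ (aeval (D.θ : K) (g1 0)) = eval (σ (D.θ : K)) ((g1 0).map (algebraMap ℚ ℂ)) := by
        rw [aeval_def, hom_eval₂, eval_map]
        congr 1
        exact Subsingleton.elim _ _
      rw [← h1, map_eq_zero] at hE
      exact hE
    have hd : (PowerSeries.X : PowerSeries ℂ) ^ (r + 1) ∣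
        expn (Dat.em K σ D.κ) (σ (D.θ : K)) (PowerSeries.map (Dat.em K σ) D.w)
          (fun k => P * (g1 k).map (algebraMap ℚ ℂ)) := by
      rw [PowerSeries.X_pow_dvd_iff]
      intro l hl
      exact hz σ hσ l (by omega)
    rw [expn_mul, hE.dvd_mul_right] at hd
    exact hd
  have hprod : ∏ σ ∈ S', (X - C (σ (D.θ : K))) ^ (r + 1) ∣ P := by
    apply Finset.prod_dvd_of_coprime _ hkey
    intro σ _ τ _ hστ
    apply IsCoprime.pow
    apply isCoprime_X_sub_C_of_isUnit_sub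
    rw [isUnit_iff_ne_zero, sub_ne_zero]
    intro h
    exact hστ (emb_inj D σ τ h)
  have hdeg := natDegree_le_of_dvd hprod hP0
  rw [natDegree_prod_of_monic _ _ (fun σ _ => (monic_X_sub_C _).pow _)] at hdeg
  simp only [natDegree_pow, natDegree_X_sub_C, mul_one, sum_const, smul_eq_mul] at hdeg
  rw [degree_eq_natDegree hP0] at hP
  have hP' : P.natDegree < (r + 1) * S'.card := by exact_mod_cast hP
  rw [mul_comm] at hdeg
  omega

end Pool.Agent.H8.EF
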