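import Pool.Agent.H8.EF.Defs

/-! # [EF-NRM] A small algebraic integer vanishes

`∏_σ ‖σ x‖ = |N x|` (`Algebra.norm_eq_prod_embeddings` or `NumberField.InfinitePlace`...) is a
non-negative integer (`Algebra.isIntegral_norm`), it is `< 1` because the factor at
`σ₀ = ofRealHom.comp φ` is `|φ x|` and the other `n - 1` factors are `≤ Y`
(`NumberField.Embeddings.card K ℂ : card = finrank = n`); so `N x = 0` and `x = 0`. -/

namespace Pool.Agent.H8.EF

open Finset Polynomial Pool.Agent.H72.ES NumberField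

theorem norm_zero {K : Type} [Field K] [NumberField K] {n : ℕ} (hK : Module.finrank ℚ K = n)
    (φ : K →+* ℝ) (x : 𝓞 K) (Y : ℝ) (hY : 0 ≤ Y)
    (h1 : ∀ σ : K →+* ℂ, σ ≠ Complex.ofRealHom.comp φ → ‖σ (x : K)‖ ≤ Y)
    (h2 : |φ (x : K)| * Y ^ (n - 1) < 1) : x = 0 := by
  classical
  by_contra hx0
  have hxK : (x : K) ≠ 0 := by
    intro h
    apply hx0
    exact_mod_cast h
  -- the norm is a nonzero integer
  have hnorm : (1 : ℝ) ≤ ∏ σ : K →+* ℂ, ‖σ (x : K)‖ := by
    have hprod : (Algebra.norm ℚ (x : K) : ℂ) = ∏ σ : K →+* ℂ, σ (x : K) := by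
      have h := Algebra.norm_eq_prod_embeddings ℚ ℂ (x : K)
      rw [eq_ratCast] at h
      rw [h]
      exact Fintype.prod_equiv (RingHom.equivRatAlgHom K ℂ).symm _ _ (fun σ => rfl)
    rw [← norm_prod, ← hprod]
    obtain ⟨z, hz⟩ : ∃ z : ℤ, (z : ℚ) = Algebra.norm ℚ (x : K) := by
      refine ⟨Algebra.norm ℤ x, ?_⟩
      exact (Algebra.coe_norm_int x)
    rw [← hz]
    have hz0 : z ≠ 0 := by
      rintro rfl
      apply hxK
      rw [Int.cast_zero] at hz
      exact Algebra.norm_eq_zero_iff.mp hz.symm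
    have : (1 : ℝ) ≤ |(z : ℝ)| := by
      exact_mod_cast Int.one_le_abs hz0
    calc (1 : ℝ) ≤ |(z : ℝ)| := this
      _ = ‖((z : ℚ) : ℂ)‖ := by
        rw [Rat.cast_intCast, Complex.norm_intCast]
  have hcard : Fintype.card (K →+* ℂ) = n := by
    rw [← hK]
    exact NumberField.Embeddings.card K ℂ
  rw [← Finset.mul_prod_erase Finset.univ _ (Finset.mem_univ (Complex.ofRealHom.comp φ))] at hnorm
  have h3 : ∏ σ ∈ Finset.univ.erase (Complex.ofRealHom.comp φ), ‖σ (x : K)‖ ≤ Y ^ (n - 1) := by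
    calc ∏ σ ∈ Finset.univ.erase (Complex.ofRealHom.comp φ), ‖σ (x : K)‖
        ≤ ∏ _σ ∈ Finset.univ.erase (Complex.ofRealHom.comp φ), Y :=
          Finset.prod_le_prod (fun _ _ => norm_nonneg _)
            (fun σ hσ => h1 σ (Finset.ne_of_mem_erase hσ))
      _ = Y ^ (n - 1) := by
          rw [Finset.prod_const, Finset.card_erase_of_mem (Finset.mem_univ _), Finset.card_univ,
            hcard]
  have h4 : ‖(Complex.ofRealHom.comp φ) (x : K)‖ = |φ (x : K)| := by
    simp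
  rw [h4] at hnorm
  have h5 : |φ (x : K)| * ∏ σ ∈ Finset.univ.erase (Complex.ofRealHom.comp φ), ‖σ (x : K)‖ ≤
      |φ (x : K)| * Y ^ (n - 1) := mul_le_mul_of_nonneg_left h3 (abs_nonneg _)
  linarith

end Pool.Agent.H8.EF
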