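import Pool.Agent.H8.EF.Num

/-! # [EF-NUMB] More facts about the parameters

See `Num`. `D' ≥ 2 n²`, `DD = n q D'`, `II s = ι q D'` (`s ≥ 1`), `II 0 = (q (M - j ι) - 1) D'`,
`JJ = n D' + (j+2) n M`, `n ≤ M ≤ 5n/4`, `3 q² j + n ≤ q ι ≤ 3 q² j + n + q` (`num_io`),
`j ι + 1 ≤ e` (`io_lt_ee`), `j ι < M` (`num_ee`).

* `num_II`: `M - j ι ≤ n` because `j ι ≥ 3 q j² ≥ j(j+1)/2`; `ι ≤ n`.
* `num_JJ`: `JJ ≤ n D' + (j+2)(5/4) n² ≤ n D' + (j+2) D' ≤ (3 q² j + n) D' ≤ II s` for `s ≥ 1`; for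
  `s = 0` use `q (M - jι) - 1 ≥ q (M - e) ..`, `M - j ι ≥ M - e ≥ n/2`.
* `num_sum`: `(q(M - jι) - 1) + j ι q = q M - 1`.
* `num_exp`, `l ≥ 1`: divide by `D'`: `(j-l) 3 n q² + 2 n q² + n q - n q ι + (n-1) n ≤
  n (3 q² (j-1) + 2 q² + q - 3 q² j - n + n - 1) = - n (q² - q + 1)`, and the terms without `D'`:
  `(j-l) 3 n q² + (n-1)(j+2) n M ≤ n D' (q²-q)/2 ` as `D' ≥ 2 n²`, `6 q² ≤ n`, `M ≤ 5n/4`, ...
  `l = 0`: `n q (M - j ι) ≥ n q M - n j (3 q² j + n + q)`, and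
  `n (q - j - 1) ≥ 3 j q² (q - j - 1) ≥ 9 j (j+1) q² ≥ q² (3 j² + 3 j + 3) + q (j+1)` (`num_qn`;
  `q - j - 1 ≥ 3 (j+1)`).
* `num_z1`: `n ∑ (II s - (r-1)) ≥ n (qM-1) D' - n (j+1)(r-1)`, `r ≤ M - 1`,
  `n (q M - 1) D' - r n q D' ≥ n (q-1) D' > n (j+1) M`.
* `num_z2`: `n (qM-1) D' - n (j+1)(M-1) + n D' + (j+2) n M - (M-1) > n q M D'`.
* `num_z3`: `n II 0 = n q M D' - n q j ι D' - n D' `, `r ≤ M - e`, `e ≥ jι + 1`:
  `n II 0 - r n q D' ≥ n q (e - jι) D' - n D' ≥ n (q - 1) D' > n (r - 1)`.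
* `num_z4`: `n (ι q D' - (r-1)) > r n q D'` as `ι ≥ r + 1`.
All statements below were checked numerically. -/

namespace Pool.Agent.H8.EF

open Finset Polynomial Pool.Agent.H72.ES NumberField

variable {j n : ℕ}

theorem nb_q (hj : 2 ≤ j) : 12 * (j + 1) ≤ qq j := by
  unfold qq
  nlinarith [Nat.mul_le_mul hj (le_refl (j + 1)), Nat.mul_le_mul hj hj]

theorem nb_e (hj : 2 ≤ j) (hn : 64 * j ^ 7 ≤ n) : 2 * ee j n ≤ n := by
  obtain ⟨h1, -, -⟩ := num_n hj hn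
  obtain ⟨-, -, h2, -, -, -⟩ := num_ee hj hn
  have h3 : n / (j + 1) ≤ n / 3 := Nat.div_le_div_left (by omega) (by norm_num)
  have h4 : ee j n * 3 ≤ ee j n * (j + 1) := Nat.mul_le_mul_left _ (by omega)
  omega

/-- lower bound for `M - j ι` -/
theorem nb_Mi (hj : 2 ≤ j) (hn : 64 * j ^ 7 ≤ n) : n ≤ 2 * (MM j n - j * io j n) ∧
    MM j n - j * io j n ≤ n ∧ j * io j n < MM j n := by
  obtain ⟨h1, -, -⟩ := num_n hj hn
  obtain ⟨h2, -, h3⟩ := num_M hj hn
  obtain ⟨h4, -, -⟩ := num_io hj hn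
  have h5 := io_lt_ee hj hn
  have h6 := nb_e hj hn
  obtain ⟨-, -, -, -, -, h7⟩ := num_ee hj hn
  have h8 : MM j n = n + j * (j + 1) / 2 := rfl
  have h9 : 1 * io j n ≤ j * io j n := Nat.mul_le_mul_right _ (by omega)
  refine ⟨by omega, by omega, h7⟩

theorem nb_small (hj : 2 ≤ j) (hn : 64 * j ^ 7 ≤ n) (D' : ℕ) (hD : 2 * n ^ 2 ≤ D') :
    8 * (j + 2) * n * MM j n ≤ 5 * (j + 2) * D' := by
  obtain ⟨-, h2, -⟩ := num_M hj hn
  have h1 : 4 * (n * MM j n) ≤ 5 * n ^ 2 := by nlinarith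
  calc 8 * (j + 2) * n * MM j n = 2 * (j + 2) * (4 * (n * MM j n)) := by ring
    _ ≤ 2 * (j + 2) * (5 * n ^ 2) := Nat.mul_le_mul_left _ h1
    _ = 5 * (j + 2) * (2 * n ^ 2) := by ring
    _ ≤ 5 * (j + 2) * D' := Nat.mul_le_mul_left _ hD

theorem nb_D (hj : 2 ≤ j) (hn : 64 * j ^ 7 ≤ n) (D' : ℕ) (hD : 2 * n ^ 2 ≤ D') :
    (j + 1) * MM j n < D' := by
  obtain ⟨-, h2, -⟩ := num_M hj hn
  obtain ⟨h1, h3, -⟩ := num_n hj hn
  have h4 : 4 * (j + 1) ≤ n := by omega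
  have h5 : 4 * (j + 1) * (4 * MM j n) ≤ n * (5 * n) := Nat.mul_le_mul h4 h2
  nlinarith

theorem num_II (hj : 2 ≤ j) (hn : 64 * j ^ 7 ≤ n) (D' s : ℕ) : II j n D' s ≤ DD j n D' := by
  unfold II DD
  obtain ⟨-, h1, -⟩ := nb_Mi hj hn
  obtain ⟨h2, -⟩ := num_q hj
  obtain ⟨-, -, h3⟩ := num_io hj hn
  obtain ⟨-, h4, h5⟩ := num_qn hj hn
  split_ifs with hs
  · apply Nat.mul_le_mul_right
    calc qq j * (MM j n - j * io j n) - 1 ≤ qq j * (MM j n - j * io j n) := Nat.sub_le _ _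
      _ ≤ qq j * n := Nat.mul_le_mul_left _ h1
      _ = n * qq j := mul_comm _ _
  · apply Nat.mul_le_mul_right
    have h6 : qq j * 1 ≤ qq j * (j + 1) := Nat.mul_le_mul_left _ (by omega)
    have h7 : n * 36 ≤ n * qq j := Nat.mul_le_mul_left _ h2
    have h8 : 3 * qq j ^ 2 * j = 3 * j * qq j ^ 2 := by ring
    have h9 : io j n * qq j = qq j * io j n := mul_comm _ _
    omega

theorem num_JJ (hj : 2 ≤ j) (hn : 64 * j ^ 7 ≤ n) (D' s : ℕ) (hD : 2 * n ^ 2 ≤ D') :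
    JJ j n D' ≤ II j n D' s := by
  unfold II JJ
  obtain ⟨h1, -, h0⟩ := nb_Mi hj hn
  obtain ⟨h2, -⟩ := num_q hj
  obtain ⟨-, h3, -⟩ := num_io hj hn
  obtain ⟨hn1, hn2, -⟩ := num_n hj hn
  have h5 := nb_small hj hn D' hD
  have h6 : n * D' + (j + 2) * n * MM j n ≤ (n + j + 2) * D' := by nlinarith
  refine h6.trans ?_
  split_ifs with hs
  · apply Nat.mul_le_mul_right
    have h7 : 36 * (MM j n - j * io j n) ≤ qq j * (MM j n - j * io j n) :=
      Nat.mul_le_mul_right _ h2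
    omega
  · apply Nat.mul_le_mul_right
    have h7 : 2 ≤ 3 * qq j ^ 2 := by nlinarith
    have h8 : 2 * j ≤ 3 * qq j ^ 2 * j := Nat.mul_le_mul_right j h7
    have h9 : io j n * qq j = qq j * io j n := mul_comm _ _
    omega

theorem num_sum (hj : 2 ≤ j) (hn : 64 * j ^ 7 ≤ n) (D' : ℕ) :
    ∑ s ∈ range (j + 1), II j n D' s = (qq j * MM j n - 1) * D' := by
  obtain ⟨-, -, h0⟩ := nb_Mi hj hn
  obtain ⟨h2, -⟩ := num_q hj
  rw [sum_range_succ']
  have h1 : ∀ s ∈ range j, II j n D' (s + 1) = io j n * qq j * D' := by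
    intro s _
    unfold II
    rw [if_neg (Nat.succ_ne_zero s)]
  rw [sum_congr rfl h1, sum_const, card_range, smul_eq_mul]
  have h3 : II j n D' 0 = (qq j * (MM j n - j * io j n) - 1) * D' := by
    unfold II
    rw [if_pos rfl]
  rw [h3]
  have h4 : j * (io j n * qq j * D') = (qq j * (j * io j n)) * D' := by ring
  rw [h4, ← Nat.add_mul]
  congr 1
  have h5 : qq j * (MM j n - j * io j n) + qq j * (j * io j n) = qq j * MM j n := by
    rw [← Nat.mul_add]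
    congr 1
    omega
  have h6 : 1 ≤ qq j * (MM j n - j * io j n) := Nat.mul_pos (by omega) (by omega)
  omega

/-- the exponent of `m` in the main upper bound, `l ≤ j`:
`(j-l) L (D'+1) + h D + D - n I_l + (n-1) J ≤ - n D' (q² - q) / 2`. -/
theorem num_exp (hj : 2 ≤ j) (hn : 64 * j ^ 7 ≤ n) (D' l : ℕ) (hl : l ≤ j) (hD : 2 * n ^ 2 ≤ D') :
    2 * (((j - l : ℕ) * LL j n * (D' + 1) : ℕ) + (2 * qq j * DD j n D' : ℕ) + (DD j n D' : ℕ) -
      (n * II j n D' l : ℕ) + ((n - 1) * JJ j n D' : ℕ) : ℤ) ≤ -(n * D' * (qq j ^ 2 - qq j) : ℤ) := by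
  obtain ⟨h1, h1', h0⟩ := nb_Mi hj hn
  obtain ⟨h2, -⟩ := num_q hj
  obtain ⟨-, h3, h3'⟩ := num_io hj hn
  obtain ⟨hn1, hn2, -⟩ := num_n hj hn
  obtain ⟨-, h4, -⟩ := num_qn hj hn
  obtain ⟨hM1, hM2, -⟩ := num_M hj hn
  have h5 := nb_small hj hn D' hD
  have hq12 := nb_q hj
  set q := qq j with hq
  set M := MM j n with hM
  set i := io j n with hi
  have hn0 : 1 ≤ n := by omega
  have hsub : ((n - 1 : ℕ) : ℤ) = n - 1 := by push_cast [hn0]; ring
  -- integer versions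
  have e2 : (36 : ℤ) ≤ q := by exact_mod_cast h2
  have e3 : (3 : ℤ) * q ^ 2 * j + n ≤ q * i := by exact_mod_cast h3
  have e3' : (q : ℤ) * i ≤ 3 * q ^ 2 * j + n + q := by exact_mod_cast h3'
  have e4 : (3 : ℤ) * j * q ^ 2 ≤ n := by exact_mod_cast h4
  have e5 : (8 : ℤ) * (j + 2) * n * M ≤ 5 * (j + 2) * D' := by exact_mod_cast h5
  have ej : (2 : ℤ) ≤ j := by exact_mod_cast hj
  have en : (8192 : ℤ) ≤ n := by exact_mod_cast hn1
  have enj : (4096 : ℤ) * j ≤ n := by exact_mod_cast hn2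
  have eM : (n : ℤ) ≤ M := by exact_mod_cast hM1
  have eq12 : (12 : ℤ) * (j + 1) ≤ q := by exact_mod_cast hq12
  have eD : (2 : ℤ) * n ^ 2 ≤ D' := by exact_mod_cast hD
  have eD0 : (0 : ℤ) ≤ D' := by positivity
  have eDn : (n : ℤ) ≤ D' := by nlinarith
  have hMnn : (0 : ℤ) ≤ M := by positivity
  -- the terms without D'
  have ter : 2 * (3 * q ^ 2 * j + (n - 1) * (j + 2) * M : ℤ) ≤ D' * (q ^ 2 - q) := by
    have t1 : (3 : ℤ) * q ^ 2 * j ≤ D' := by nlinarith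
    have t2 : ((n : ℤ) - 1) * (j + 2) * M ≤ (j + 2) * D' := by
      have : (0 : ℤ) ≤ (j + 2) * M := by positivity
      nlinarith
    have t3 : (2 : ℤ) * (1 + (j + 2)) ≤ q ^ 2 - q := by nlinarith
    nlinarith
  unfold LL DD JJ
  rw [← hq, ← hM]
  rcases Nat.eq_zero_or_pos l with hl0 | hl0
  · subst hl0
    have hII : (II j n D' 0 : ℤ) = (q * (M - j * i) - 1) * D' := by
      unfold II
      rw [if_pos rfl, ← hq, ← hM, ← hi]
      have h6 : 1 ≤ q * (M - j * i) := Nat.mul_pos (by omega) (by omega)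
      push_cast [h6, h0.le]
      ring
    push_cast
    rw [hII, hsub]
    have hj0 : ((j - 0 : ℕ) : ℤ) = j := by simp
    have key : (3 : ℤ) * q ^ 2 * j + 2 * q ^ 2 + q - q * M + j * (q * i) + n ≤ -q ^ 2 := by
      have k1 : (j : ℤ) * (q * i) ≤ j * (3 * q ^ 2 * j + n + q) :=
        mul_le_mul_of_nonneg_left e3' (by positivity)
      have k2 : (q : ℤ) * n ≤ q * M := mul_le_mul_of_nonneg_left eM (by positivity)
      have k3 : (3 : ℤ) * j * q ^ 2 * (11 * (j + 1)) ≤ n * (q - j - 1) :=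
        mul_le_mul e4 (by linarith) (by positivity) (by positivity)
      have k4 : (q : ℤ) * (j + 1) ≤ q ^ 2 := by nlinarith
      have k5 : (2 : ℤ) * q ^ 2 ≤ j * q ^ 2 := mul_le_mul_of_nonneg_right ej (by positivity)
      have k6 : (0 : ℤ) ≤ j * q ^ 2 * j := by positivity
      nlinarith
    have hnn : (0 : ℤ) ≤ n := by positivity
    have hnD : (0 : ℤ) ≤ n * D' := by positivity
    have key2 := mul_le_mul_of_nonneg_left key hnD
    have ter2 := mul_le_mul_of_nonneg_left ter hnn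
    have hqnn : (0 : ℤ) ≤ n * D' * q := by positivity
    simp only [Nat.sub_zero]
    nlinarith
  · have hII : (II j n D' l : ℤ) = i * q * D' := by
      unfold II
      rw [if_neg (by omega), ← hq, ← hi]
      push_cast
      ring
    push_cast
    rw [hII, hsub]
    have hjl : ((j - l : ℕ) : ℤ) ≤ j - 1 := by
      have : j - l ≤ j - 1 := by omega
      have h' : ((j - l : ℕ) : ℤ) ≤ ((j - 1 : ℕ) : ℤ) := by exact_mod_cast this
      have h'' : ((j - 1 : ℕ) : ℤ) = j - 1 := by push_cast [show 1 ≤ j by omega]; ring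
      linarith
    have hL : ((j - l : ℕ) : ℤ) * (3 * n * q ^ 2) * (D' + 1) ≤
        (j - 1) * (3 * n * q ^ 2) * (D' + 1) := by gcongr
    have hnn : (0 : ℤ) ≤ n := by positivity
    have hnD : (0 : ℤ) ≤ n * D' := by positivity
    have key2 := mul_le_mul_of_nonneg_left e3 hnD
    have ter2 := mul_le_mul_of_nonneg_left ter hnn
    have hqnn : (0 : ℤ) ≤ n * D' * q := by positivity
    have hqn2 : (0 : ℤ) ≤ n * q ^ 2 := by positivity
    nlinarith

/-- truncated subtraction in the sums -/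
theorem nb_sum (hj : 2 ≤ j) (hn : 64 * j ^ 7 ≤ n) (D' a : ℕ) :
    (qq j * MM j n - 1) * D' ≤ ∑ s ∈ range (j + 1), (II j n D' s - a) + (j + 1) * a := by
  rw [← num_sum hj hn D']
  have h1 : (j + 1) * a = ∑ s ∈ range (j + 1), a := by simp
  rw [h1, ← sum_add_distrib]
  exact sum_le_sum fun s _ => by omega

/-- full rank, dimension less than `M` -/
theorem num_z1 (hj : 2 ≤ j) (hn : 64 * j ^ 7 ≤ n) (D' r : ℕ) (hr : 1 ≤ r) (hrM : r < MM j n)
    (hD : 2 * n ^ 2 ≤ D') :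
    r * DD j n D' < n * ∑ s ∈ range (j + 1), (II j n D' s - (r - 1)) := by
  unfold DD
  obtain ⟨hn1, hn2, -⟩ := num_n hj hn
  obtain ⟨h2, -⟩ := num_q hj
  have h1 := nb_sum hj hn D' (r - 1)
  have h3 := nb_D hj hn D' hD
  set X := ∑ s ∈ range (j + 1), (II j n D' s - (r - 1)) with hX
  have h4 : (r * qq j + 1) * D' ≤ (qq j * MM j n - 1) * D' := by
    apply Nat.mul_le_mul_right
    have h5 : qq j * (r + 1) ≤ qq j * MM j n := Nat.mul_le_mul_left _ hrM
    have h6 : qq j * (r + 1) = r * qq j + qq j := by ring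
    omega
  have h7 : (j + 1) * (r - 1) ≤ (j + 1) * MM j n := Nat.mul_le_mul_left _ (by omega)
  have h8 : r * qq j * D' < X := by nlinarith
  calc r * (n * qq j * D') = n * (r * qq j * D') := by ring
    _ < n * X := Nat.mul_lt_mul_of_pos_left h8 (by omega)

/-- full rank, dimension `M` -/
theorem num_z2 (hj : 2 ≤ j) (hn : 64 * j ^ 7 ≤ n) (D' : ℕ) (hD : 2 * n ^ 2 ≤ D') :
    MM j n * DD j n D' < n * ∑ s ∈ range (j + 1), (II j n D' s - (MM j n - 1)) +
      (JJ j n D' - (MM j n - 1)) := by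
  unfold DD JJ
  obtain ⟨hn1, hn2, -⟩ := num_n hj hn
  obtain ⟨hM1, -, -⟩ := num_M hj hn
  obtain ⟨h2, -⟩ := num_q hj
  have h1 := nb_sum hj hn D' (MM j n - 1)
  set X := ∑ s ∈ range (j + 1), (II j n D' s - (MM j n - 1)) with hX
  set M := MM j n with hM
  have hM0 : 1 ≤ M := by omega
  have h3 : M - 1 + 1 = M := by omega
  have h4 : qq j * M - 1 + 1 = qq j * M := by
    have : 1 ≤ qq j * M := Nat.mul_pos (by omega) hM0
    omega
  have h5 : M - 1 ≤ n * D' + (j + 2) * n * M := by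
    have : M * 1 ≤ M * ((j + 2) * n) := Nat.mul_le_mul_left _ (by nlinarith)
    have h' : M * ((j + 2) * n) = (j + 2) * n * M := by ring
    omega
  have h6 : n * D' + (j + 2) * n * M - (M - 1) + (M - 1) = n * D' + (j + 2) * n * M := by omega
  generalize n * D' + (j + 2) * n * M - (M - 1) = Y at *
  generalize M - 1 = M₁ at *
  generalize qq j * M - 1 = P at *
  have h7 : n * (P * D') ≤ n * (X + (j + 1) * M₁) := Nat.mul_le_mul_left _ h1
  have h8 : M * (n * qq j * D') = n * (P * D') + n * D' := by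
    calc M * (n * qq j * D') = n * (qq j * M) * D' := by ring
      _ = n * (P + 1) * D' := by rw [h4]
      _ = _ := by ring
  have h9 : n * (X + (j + 1) * M₁) = n * X + n * (j + 1) * M₁ := by ring
  have h10 : (j + 2) * n * M = n * (j + 1) * M₁ + n * (j + 1) + n * M := by
    rw [← h3]; ring
  have h11 : M ≤ n * M := Nat.le_mul_of_pos_left _ (by omega)
  have h12 : 0 < n * (j + 1) := Nat.mul_pos (by omega) (by omega)
  omega

/-- dependent functionals -/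
theorem num_z3 (hj : 2 ≤ j) (hn : 64 * j ^ 7 ≤ n) (D' r : ℕ) (hr : 1 ≤ r)
    (hrM : r + ee j n ≤ MM j n) (hD : 2 * n ^ 2 ≤ D') :
    r * DD j n D' < n * (II j n D' 0 - (r - 1)) := by
  unfold DD II
  rw [if_pos rfl]
  obtain ⟨hn1, hn2, -⟩ := num_n hj hn
  obtain ⟨h2, -⟩ := num_q hj
  have h3 := nb_D hj hn D' hD
  have h4 := io_lt_ee hj hn
  have h5 : (r * qq j + 1) * D' ≤ (qq j * (MM j n - j * io j n) - 1) * D' := by
    apply Nat.mul_le_mul_right
    have h5 : qq j * (r + 1) ≤ qq j * (MM j n - j * io j n) := Nat.mul_le_mul_left _ (by omega)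
    have h6 : qq j * (r + 1) = r * qq j + qq j := by ring
    omega
  have h7 : 1 * MM j n ≤ (j + 1) * MM j n := Nat.mul_le_mul_right _ (by omega)
  have h9 : (r * qq j + 1) * D' = r * qq j * D' + D' := by ring
  have h8 : r * qq j * D' < (qq j * (MM j n - j * io j n) - 1) * D' - (r - 1) := by omega
  calc r * (n * qq j * D') = n * (r * qq j * D') := by ring
    _ < n * ((qq j * (MM j n - j * io j n) - 1) * D' - (r - 1)) :=
      Nat.mul_lt_mul_of_pos_left h8 (by omega)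

/-- the first functional vanishes -/
theorem num_z4 (hj : 2 ≤ j) (hn : 64 * j ^ 7 ≤ n) (D' r s : ℕ) (hr : 1 ≤ r)
    (hrM : r ≤ j * (j + 1) / 2) (hs : 1 ≤ s) (hD : 2 * n ^ 2 ≤ D') :
    r * DD j n D' < n * (II j n D' s - (r - 1)) := by
  unfold DD II
  rw [if_neg (by omega)]
  obtain ⟨hn1, hn2, -⟩ := num_n hj hn
  obtain ⟨h2, -⟩ := num_q hj
  obtain ⟨h4, -, -⟩ := num_io hj hn
  have h3 := nb_D hj hn D' hD
  have hM : MM j n = n + j * (j + 1) / 2 := rfl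
  have h5 : (r + 1) * qq j * D' ≤ io j n * qq j * D' := by
    apply Nat.mul_le_mul_right
    apply Nat.mul_le_mul_right
    omega
  have h6 : (r + 1) * qq j * D' = r * qq j * D' + qq j * D' := by ring
  have h7 : 1 * MM j n ≤ (j + 1) * MM j n := Nat.mul_le_mul_right _ (by omega)
  have h8 : 1 * D' ≤ qq j * D' := Nat.mul_le_mul_right _ (by omega)
  have h9 : r * qq j * D' < io j n * qq j * D' - (r - 1) := by omega
  calc r * (n * qq j * D') = n * (r * qq j * D') := by ring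
    _ < n * (io j n * qq j * D' - (r - 1)) := Nat.mul_lt_mul_of_pos_left h9 (by omega)

end Pool.Agent.H8.EF
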