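import Mathlib

/-! # [EF-PIG] A pigeonhole lemma: exact integer equations and real inequalities

Box `x ∈ {0..Q₀}^ι`, `(Q₀+1)^(card ι)` points. For an integer linear form `L` with `∑ |L i| ≤ B`
the values on the box lie in an interval of length `≤ B Q₀` (from `-Q₀ ∑ L⁻` to `Q₀ ∑ L⁺`): at most
`B Q₀ + 1` values. For a real form `ℓ` with `∑ |ℓ i| ≤ T` the values lie in an interval
`[u, u + T Q₀]`; cut into half-open pieces of length `ε`: `⌊(ℓ x - u)/ε⌋ ≤ T Q₀ / ε`, so at most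
`T Q₀ / ε + 1 ≤ N` pieces. If `(B Q₀ + 1)^(card κ₁) N^(card κ₂) < (Q₀+1)^(card ι)` two different
points fall in the same class (`Finset.exists_ne_map_eq_of_card_lt_of_maps_to` or
`Fintype.exists_ne_map_eq_of_card_lt`); take their difference. -/

namespace Pool.Agent.H8.EF

open Finset

theorem pigeon {ι κ₁ κ₂ : Type} [Fintype ι] [Fintype κ₁] [Fintype κ₂] (L : κ₁ → ι → ℤ)
    (ℓ : κ₂ → ι → ℝ) (Q₀ B N : ℕ) (T ε : ℝ) (hL : ∀ k, ∑ i, |L k i| ≤ (B : ℤ))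
    (hℓ : ∀ k, ∑ i, |ℓ k i| ≤ T) (hε : 0 < ε) (hN : T * Q₀ / ε + 1 ≤ N)
    (hcount : (B * Q₀ + 1) ^ Fintype.card κ₁ * N ^ Fintype.card κ₂ < (Q₀ + 1) ^ Fintype.card ι) :
    ∃ x : ι → ℤ, x ≠ 0 ∧ (∀ i, |x i| ≤ (Q₀ : ℤ)) ∧ (∀ k, ∑ i, L k i * x i = 0) ∧
      ∀ k, |∑ i, ℓ k i * (x i : ℝ)| < ε := by
  classical
  -- lower ends
  set A : κ₁ → ℤ := fun k => ∑ i, (min (L k i) 0) * Q₀ with hA
  set u : κ₂ → ℝ := fun k => ∑ i, (min (ℓ k i) 0) * Q₀ with hu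
  have hAlow : ∀ (k : κ₁) (x : ι → Fin (Q₀ + 1)), A k ≤ ∑ i, L k i * ((x i : ℕ) : ℤ) := by
    intro k x
    refine Finset.sum_le_sum fun i _ => ?_
    have h1 : ((x i : ℕ) : ℤ) ≤ Q₀ := by exact_mod_cast Nat.lt_succ_iff.1 (x i).2
    have h2 : (0 : ℤ) ≤ ((x i : ℕ) : ℤ) := by positivity
    rcases le_total (L k i) 0 with h | h
    · rw [min_eq_left h]
      nlinarith
    · rw [min_eq_right h]
      nlinarith
  have hAupp : ∀ (k : κ₁) (x : ι → Fin (Q₀ + 1)), ∑ i, L k i * ((x i : ℕ) : ℤ) ≤ A k + B * Q₀ := by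
    intro k x
    have h0 : ∑ i, L k i * ((x i : ℕ) : ℤ) ≤ A k + (∑ i, |L k i|) * Q₀ := by
      rw [hA, Finset.sum_mul, ← Finset.sum_add_distrib]
      refine Finset.sum_le_sum fun i _ => ?_
      have h1 : ((x i : ℕ) : ℤ) ≤ Q₀ := by exact_mod_cast Nat.lt_succ_iff.1 (x i).2
      have h2 : (0 : ℤ) ≤ ((x i : ℕ) : ℤ) := by positivity
      rcases le_total (L k i) 0 with h | h
      · rw [min_eq_left h, abs_of_nonpos h]
        nlinarith
      · rw [min_eq_right h, abs_of_nonneg h]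
        nlinarith
    have h3 : (∑ i, |L k i|) * (Q₀ : ℤ) ≤ B * Q₀ :=
      mul_le_mul_of_nonneg_right (hL k) (by positivity)
    linarith
  have hulow : ∀ (k : κ₂) (x : ι → Fin (Q₀ + 1)), u k ≤ ∑ i, ℓ k i * ((x i : ℕ) : ℝ) := by
    intro k x
    refine Finset.sum_le_sum fun i _ => ?_
    have h1 : ((x i : ℕ) : ℝ) ≤ Q₀ := by exact_mod_cast Nat.lt_succ_iff.1 (x i).2
    have h2 : (0 : ℝ) ≤ ((x i : ℕ) : ℝ) := by positivity
    rcases le_total (ℓ k i) 0 with h | h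
    · rw [min_eq_left h]
      nlinarith
    · rw [min_eq_right h]
      nlinarith
  have huupp : ∀ (k : κ₂) (x : ι → Fin (Q₀ + 1)), ∑ i, ℓ k i * ((x i : ℕ) : ℝ) ≤ u k + T * Q₀ := by
    intro k x
    have h0 : ∑ i, ℓ k i * ((x i : ℕ) : ℝ) ≤ u k + (∑ i, |ℓ k i|) * Q₀ := by
      rw [hu, Finset.sum_mul, ← Finset.sum_add_distrib]
      refine Finset.sum_le_sum fun i _ => ?_
      have h1 : ((x i : ℕ) : ℝ) ≤ Q₀ := by exact_mod_cast Nat.lt_succ_iff.1 (x i).2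
      have h2 : (0 : ℝ) ≤ ((x i : ℕ) : ℝ) := by positivity
      rcases le_total (ℓ k i) 0 with h | h
      · rw [min_eq_left h, abs_of_nonpos h]
        nlinarith
      · rw [min_eq_right h, abs_of_nonneg h]
        nlinarith
    have h3 : (∑ i, |ℓ k i|) * (Q₀ : ℝ) ≤ T * Q₀ :=
      mul_le_mul_of_nonneg_right (hℓ k) (by positivity)
    linarith
  -- classes
  have hc1 : ∀ (k : κ₁) (x : ι → Fin (Q₀ + 1)),
      ((∑ i, L k i * ((x i : ℕ) : ℤ)) - A k).toNat < B * Q₀ + 1 := by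
    intro k x
    have h1 := hAlow k x
    have h2 := hAupp k x
    have h3 : ((B : ℤ) * Q₀) = ((B * Q₀ : ℕ) : ℤ) := by push_cast; ring
    rw [h3] at h2
    omega
  have hc2 : ∀ (k : κ₂) (x : ι → Fin (Q₀ + 1)),
      ⌊((∑ i, ℓ k i * ((x i : ℕ) : ℝ)) - u k) / ε⌋₊ < N := by
    intro k x
    have h1 := hulow k x
    have h2 := huupp k x
    have h4 : ((∑ i, ℓ k i * ((x i : ℕ) : ℝ)) - u k) / ε ≤ T * Q₀ / ε :=
      div_le_div_of_nonneg_right (by linarith) hε.le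
    have h5 : ((∑ i, ℓ k i * ((x i : ℕ) : ℝ)) - u k) / ε < N := by linarith
    exact (Nat.floor_lt (div_nonneg (by linarith) hε.le)).2 h5
  let F : (ι → Fin (Q₀ + 1)) → (κ₁ → Fin (B * Q₀ + 1)) × (κ₂ → Fin N) := fun x =>
    (fun k => ⟨_, hc1 k x⟩, fun k => ⟨_, hc2 k x⟩)
  have hcard : Fintype.card ((κ₁ → Fin (B * Q₀ + 1)) × (κ₂ → Fin N)) <
      Fintype.card (ι → Fin (Q₀ + 1)) := by
    simpa [Fintype.card_prod] using hcount
  obtain ⟨x, y, hxy, hF⟩ := Fintype.exists_ne_map_eq_of_card_lt F hcard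
  have hF1 : ∀ k, ((∑ i, L k i * ((x i : ℕ) : ℤ)) - A k).toNat =
      ((∑ i, L k i * ((y i : ℕ) : ℤ)) - A k).toNat := by
    intro k
    have := congrFun (congrArg Prod.fst hF) k
    simpa [F] using this
  have hF2 : ∀ k, ⌊((∑ i, ℓ k i * ((x i : ℕ) : ℝ)) - u k) / ε⌋₊ =
      ⌊((∑ i, ℓ k i * ((y i : ℕ) : ℝ)) - u k) / ε⌋₊ := by
    intro k
    have := congrFun (congrArg Prod.snd hF) k
    simpa [F] using this
  refine ⟨fun i => ((x i : ℕ) : ℤ) - ((y i : ℕ) : ℤ), ?_, ?_, ?_, ?_⟩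
  · intro h
    apply hxy
    funext i
    have h1 := congrFun h i
    simp only [Pi.zero_apply] at h1
    apply Fin.ext
    omega
  · intro i
    have h1 : (x i : ℕ) < Q₀ + 1 := (x i).2
    have h2 : (y i : ℕ) < Q₀ + 1 := (y i).2
    beta_reduce
    rw [abs_le]
    constructor <;> omega
  · intro k
    have h1 := hF1 k
    have h2 := hAlow k x
    have h3 := hAlow k y
    have h4 : (∑ i, L k i * ((x i : ℕ) : ℤ)) = ∑ i, L k i * ((y i : ℕ) : ℤ) := by omega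
    simp only [mul_sub, Finset.sum_sub_distrib, h4, sub_self]
  · intro k
    have h1 := hF2 k
    have h2 := hulow k x
    have h3 := hulow k y
    have hx0 : 0 ≤ ((∑ i, ℓ k i * ((x i : ℕ) : ℝ)) - u k) / ε := div_nonneg (by linarith) hε.le
    have hy0 : 0 ≤ ((∑ i, ℓ k i * ((y i : ℕ) : ℝ)) - u k) / ε := div_nonneg (by linarith) hε.le
    have h4 := Nat.floor_le hx0
    have h5 := Nat.lt_floor_add_one (((∑ i, ℓ k i * ((x i : ℕ) : ℝ)) - u k) / ε)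
    have h6 := Nat.floor_le hy0
    have h7 := Nat.lt_floor_add_one (((∑ i, ℓ k i * ((y i : ℕ) : ℝ)) - u k) / ε)
    rw [h1] at h4 h5
    have h8 : |((∑ i, ℓ k i * ((x i : ℕ) : ℝ)) - u k) / ε - ((∑ i, ℓ k i * ((y i : ℕ) : ℝ)) - u k) / ε| < 1 := by
      rw [abs_lt]
      constructor <;> linarith
    rw [← sub_div, abs_div, abs_of_pos hε, div_lt_one hε] at h8
    have h9 : (∑ i, ℓ k i * (((((x i : ℕ) : ℤ) - ((y i : ℕ) : ℤ) : ℤ)) : ℝ)) =
        ((∑ i, ℓ k i * ((x i : ℕ) : ℝ)) - u k) - ((∑ i, ℓ k i * ((y i : ℕ) : ℝ)) - u k) := by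
      push_cast
      simp only [mul_sub, Finset.sum_sub_distrib]
      ring
    rw [h9]
    exact h8

end Pool.Agent.H8.EF
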