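import Pool.Agent.H8.EF.NumB

/-! # [EF-SIEGCOUNT] The auxiliary function: the numerical inequality

(1) `sieg_count`: the numerical inequality. Put `b = bb n Q`, `q = qq j`, `DD = n q D'`,
`Q₀ = m^(2 q DD)`, `B = 2 (n+1) Q`, `Y = siegY`, `ε = 1 / Y^(n-1)`, `T = siegT`.
`T Q₀ / ε = T Q₀ Y^(n-1) ≥ 1`, so with `N = ⌈T Q₀ Y^(n-1)⌉₊ + 1 ≤ 3 T Q₀ Y^(n-1)`:
`N ≤ ((16 A)^DD b^(2j+2) Q₀)^n m^DD` (`DD + 1 ≤ 2^DD`, `3 ≤ 4^DD`, `n² ≤ b`; for every factor `n`).
`B Q₀ + 1 ≤ b Q₀` (`2(n+1)Q + 1 ≤ Q^3 ≤ b`).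
After cancelling the powers of `Q₀` (`E = j (n-1-j)`, `U = E + M`, `n (q M - 1) D' = M DD - n D'`)
it is enough that
`b^(E (DD+1)) (16 A)^(n DD (qM-1) D') b^((2j+2) n (qM-1) D') m^(DD (qM-1) D') < Q₀^(M + n D')`,
`Q₀^(M + n D') = m^(2 q DD (M + n D'))`.
Use `4 M ≤ 5 n`; `(16 A)^(8 n) ≤ m` so `(16A)^(n DD q M D') ` to the power 8 is `≤ m^(DD q M D')`;
`E (DD+1) + (2j+2) n q M D' ≤ 4.5 (j+1) n DD` and `b^(16 (j+1)) ≤ m^(q D')`, so the powers of `b`
to the power 16·.. are bounded: exponent of `m` at most `(4.5/16) q D' n DD`; in total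
`(5/4 + 5/32 + 9/32) q n DD D' < 2 q n DD D'`. (Raise everything to the power 32 to avoid
fractions, or take logarithms.) -/

namespace Pool.Agent.H8.EF

open Finset Polynomial Pool.Agent.H72.ES NumberField

variable {K : Type} [Field K] [NumberField K] {j n Q m : ℕ} {A : ℝ} {f : ℤ[X]} {F : ℕ → ℕ → ℤ}

/-- bound for the conjugates -/
noncomputable def siegY (j n Q m : ℕ) (A : ℝ) (D' : ℕ) : ℝ :=
  (DD j n D' + 1) * 2 ^ DD j n D' * A ^ DD j n D' * (n ^ 2 * bb n Q ^ (1 + 2 * j) * QZ j n m D')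

/-- bound for the real linear forms -/
noncomputable def siegT (j n Q m : ℕ) (D' : ℕ) : ℝ :=
  (DD j n D' + 1) * 2 ^ DD j n D' * (2 * m) ^ DD j n D' * (n ^ 2 * bb n Q ^ (1 + 2 * j))


/-- the logarithmic form of the main inequality -/
private theorem log_core (q M n D' j DD E : ℕ) (L β a : ℝ) (hL : 0 ≤ L) (hβ : 0 ≤ β)
    (ha : 0 ≤ a) (hDD : DD = n * q * D') (hDD1 : 1 ≤ DD) (hqM : 1 ≤ q * M) (hE : E ≤ j * n)
    (hM : 4 * M ≤ 5 * n) (h1 : 16 * ((j : ℝ) + 1) * β ≤ q * D' * L) (h2 : 8 * (n : ℝ) * a ≤ L) :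
    ((DD : ℝ) + 1) * E * (β + 2 * q * DD * L) +
      (((q * M - 1) * D' : ℕ) : ℝ) * (n * DD * a + (2 * j + 2) * n * β + n * (2 * q * DD * L) + DD * L) ≤
    ((DD : ℝ) + 1) * (E + M) * (2 * q * DD * L) := by
  have hDDr : (DD : ℝ) = n * q * D' := by exact_mod_cast hDD
  have hDD1r : (1 : ℝ) ≤ DD := by exact_mod_cast hDD1
  have hEr : (E : ℝ) ≤ j * n := by exact_mod_cast hE
  have hMr : 4 * (M : ℝ) ≤ 5 * n := by exact_mod_cast hM
  have hT : (((q * M - 1) * D' : ℕ) : ℝ) = q * M * D' - D' := by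
    rw [Nat.cast_mul, Nat.cast_sub hqM]
    push_cast
    ring
  rw [hT]
  have n0 : (0 : ℝ) ≤ n := Nat.cast_nonneg _
  have q0 : (0 : ℝ) ≤ q := Nat.cast_nonneg _
  have M0 : (0 : ℝ) ≤ M := Nat.cast_nonneg _
  have D0 : (0 : ℝ) ≤ D' := Nat.cast_nonneg _
  have j0 : (0 : ℝ) ≤ j := Nat.cast_nonneg _
  have E0 : (0 : ℝ) ≤ E := Nat.cast_nonneg _
  have d0 : (0 : ℝ) ≤ DD := Nat.cast_nonneg _
  set U : ℝ := (n : ℝ) * q * D' * DD * L with hU
  have hU0 : 0 ≤ U := by positivity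
  -- (i)
  have i1 : (q : ℝ) * M * D' * (n * DD * a) ≤ 5 / 32 * U := by
    have t1 : (q : ℝ) * M * D' * (n * DD * a) = (q * M * D' * DD / 8) * (8 * n * a) := by ring
    have t2 : (q * M * D' * DD / 8 : ℝ) * (8 * n * a) ≤ (q * M * D' * DD / 8) * L :=
      mul_le_mul_of_nonneg_left h2 (by positivity)
    have t3 : (q * M * D' * DD / 8 : ℝ) * L = (q * D' * DD * L / 32) * (4 * M) := by ring
    have t4 : (q * D' * DD * L / 32 : ℝ) * (4 * M) ≤ (q * D' * DD * L / 32) * (5 * n) :=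
      mul_le_mul_of_nonneg_left hMr (by positivity)
    rw [t1]
    refine t2.trans ?_
    rw [t3]
    refine t4.trans (le_of_eq ?_)
    rw [hU]; ring
  -- (ii)
  have i2 : (q : ℝ) * M * D' * (DD * L) ≤ 5 / 4 * U := by
    have t3 : (q : ℝ) * M * D' * (DD * L) = (q * D' * DD * L / 4) * (4 * M) := by ring
    have t4 : (q * D' * DD * L / 4 : ℝ) * (4 * M) ≤ (q * D' * DD * L / 4) * (5 * n) :=
      mul_le_mul_of_nonneg_left hMr (by positivity)
    rw [t3]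
    refine t4.trans (le_of_eq ?_)
    rw [hU]; ring
  -- (iii)
  have i3 : ((DD : ℝ) + 1) * E * β + (q : ℝ) * M * D' * ((2 * j + 2) * n * β) ≤ 9 / 32 * U := by
    have t1 : ((DD : ℝ) + 1) * E ≤ 2 * (j + 1) * n * DD := by
      have t5 : ((DD : ℝ) + 1) * E ≤ (2 * DD) * (j * n) :=
        mul_le_mul (by linarith) hEr E0 (by positivity)
      have t6 : (0 : ℝ) ≤ n * DD := by positivity
      nlinarith
    have t2 : (q : ℝ) * M * D' * ((2 * j + 2) * n) ≤ 5 / 2 * (j + 1) * n * DD := by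
      have t7 : (q : ℝ) * M * D' * ((2 * j + 2) * n) = ((j + 1) * DD / 2) * (4 * M) := by
        rw [hDDr]; ring
      rw [t7]
      refine (mul_le_mul_of_nonneg_left hMr (by positivity)).trans (le_of_eq ?_)
      ring
    have t3 : ((DD : ℝ) + 1) * E * β + (q : ℝ) * M * D' * ((2 * j + 2) * n * β) =
        (((DD : ℝ) + 1) * E + (q : ℝ) * M * D' * ((2 * j + 2) * n)) * β := by ring
    have t4 : ((DD : ℝ) + 1) * E + (q : ℝ) * M * D' * ((2 * j + 2) * n) ≤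
        9 / 2 * (j + 1) * n * DD := by linarith
    rw [t3]
    refine (mul_le_mul_of_nonneg_right t4 hβ).trans ?_
    have t8 : 9 / 2 * ((j : ℝ) + 1) * n * DD * β = (9 / 32 * n * DD) * (16 * (j + 1) * β) := by ring
    rw [t8]
    refine (mul_le_mul_of_nonneg_left h1 (by positivity)).trans (le_of_eq ?_)
    rw [hU]; ring
  -- subtraction terms
  have i4 : 0 ≤ (D' : ℝ) * (n * DD * a + (2 * j + 2) * n * β + DD * L) := by positivity
  have i5 : (n : ℝ) * q * D' * (q * DD * L) * 2 = 2 * DD * (q * DD * L) := by rw [hDDr]; ring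
  have i6 : 0 ≤ (M : ℝ) * (q * DD * L) := by positivity
  have i7 : 2 * U = 2 * (n * D') * (q * DD * L) := by rw [hU]; ring
  have e1 : ((DD : ℝ) + 1) * E * (β + 2 * q * DD * L) +
      (q * M * D' - D') * (n * DD * a + (2 * j + 2) * n * β + n * (2 * q * DD * L) + DD * L) =
      (((DD : ℝ) + 1) * E * β + (q : ℝ) * M * D' * ((2 * j + 2) * n * β)) +
      (q : ℝ) * M * D' * (n * DD * a) + (q : ℝ) * M * D' * (DD * L) -
      (D' : ℝ) * (n * DD * a + (2 * j + 2) * n * β + DD * L) +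
      ((DD : ℝ) + 1) * E * (2 * q * DD * L) + M * (n * q * D' * (q * DD * L) * 2)
      - 2 * (n * D') * (q * DD * L) := by ring
  rw [e1, i5, ← i7]
  have e2 : ((DD : ℝ) + 1) * (E + M) * (2 * q * DD * L) =
      ((DD : ℝ) + 1) * E * (2 * q * DD * L) + M * (2 * DD * (q * DD * L)) +
      2 * (M * (q * DD * L)) := by ring
  rw [e2]
  nlinarith

theorem sieg_count (D : Dat K j n Q m A f F) (D' : ℕ) (hD1 : 2 * n ^ 2 ≤ D')
    (hb : bb n Q ^ (16 * (j + 1)) ≤ (m : ℝ) ^ (qq j * D')) :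
    ∃ N : ℕ, siegT j n Q m D' * QZ j n m D' / (1 / siegY j n Q m A D' ^ (n - 1)) + 1 ≤ N ∧
      (2 * (n + 1) * Q * QZ j n m D' + 1) ^ ((DD j n D' + 1) * (j * (n - 1 - j))) *
        N ^ ((qq j * MM j n - 1) * D') <
      (QZ j n m D' + 1) ^ ((DD j n D' + 1) * (j * (n - 1 - j) + MM j n)) := by
  have hn4 := D.hF.hn
  have hQ := D.hF.hQ
  have hj := D.hj
  have hjn := D.hjn
  have hA := D.hA
  have hb1 : (1 : ℝ) ≤ bb n Q := one_le_bb hn4 hQ
  have hb0 : (0 : ℝ) < bb n Q := bb_pos hn4 hQ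
  have hq := (num_q hj).1
  have hM := num_M hj hjn
  have hD'1 : 1 ≤ D' := by nlinarith
  -- `m`
  have h16 : (16 : ℝ) ≤ 16 * A := by linarith
  have hm16 : (16 : ℝ) ≤ m := by
    refine le_trans ?_ D.hm
    calc (16 : ℝ) ≤ 16 * A := h16
      _ = (16 * A) ^ 1 := (pow_one _).symm
      _ ≤ (16 * A) ^ (8 * n) := pow_le_pow_right₀ (by linarith) (by omega)
  have hm0 : (0 : ℝ) < m := by linarith
  have hm1 : (1 : ℝ) ≤ m := by linarith
  set dd := DD j n D' with hdd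
  have hdd' : dd = n * qq j * D' := rfl
  have hdd2 : 2 ≤ dd := by
    rw [hdd']
    calc 2 ≤ 4 * 36 * 1 := by norm_num
      _ ≤ n * qq j * D' := Nat.mul_le_mul (Nat.mul_le_mul hn4 hq) hD'1
  set q := qq j with hqdef
  set M := MM j n with hMdef
  set E := j * (n - 1 - j) with hE
  have hQZ : ((QZ j n m D' : ℕ) : ℝ) = (m : ℝ) ^ (2 * q * dd) := by
    unfold QZ
    push_cast
    rfl
  set Q0 : ℝ := (m : ℝ) ^ (2 * q * dd) with hQ0
  have hQ01 : 1 ≤ Q0 := one_le_pow₀ hm1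
  have hQ00 : 0 < Q0 := by positivity
  set b := bb n Q with hbdef
  set G : ℝ := (16 * A) ^ dd * b ^ (2 * j + 2) * Q0 with hG
  have hA0 : 0 < A := by linarith
  have hdd2r : ((dd : ℝ) + 1) ≤ 2 ^ dd := by exact_mod_cast Nat.lt_two_pow_self (n := dd)
  have hn2b : (n : ℝ) ^ 2 ≤ b := (n_sq_leR hn4 hQ).trans (Q_le_bb hn4 hQ)
  have hn2 : (1 : ℝ) ≤ (n : ℝ) ^ 2 := by
    have : (4 : ℝ) ≤ n := by exact_mod_cast hn4
    nlinarith
  have hbb : (n : ℝ) ^ 2 * b ^ (1 + 2 * j) ≤ b ^ (2 * j + 2) := by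
    calc (n : ℝ) ^ 2 * b ^ (1 + 2 * j) ≤ b * b ^ (1 + 2 * j) :=
          mul_le_mul_of_nonneg_right hn2b (by positivity)
      _ = _ := by rw [← pow_succ']; congr 1; ring
  -- bounds for `T`, `Y`
  have hT : 3 * siegT j n Q m D' ≤ (16 * A) ^ dd * b ^ (2 * j + 2) * (m : ℝ) ^ dd := by
    unfold siegT
    rw [← hdd, ← hbdef, mul_pow]
    have h3 : (3 : ℝ) ≤ 2 ^ dd := by
      calc (3 : ℝ) ≤ 2 ^ 2 := by norm_num
        _ ≤ 2 ^ dd := pow_le_pow_right₀ (by norm_num) hdd2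
    calc 3 * (((dd : ℝ) + 1) * 2 ^ dd * (2 ^ dd * (m : ℝ) ^ dd) * ((n : ℝ) ^ 2 * b ^ (1 + 2 * j)))
        ≤ 2 ^ dd * (2 ^ dd * 2 ^ dd * (2 ^ dd * (m : ℝ) ^ dd) * b ^ (2 * j + 2)) := by
          gcongr
      _ = (2 * 2 * 2 * 2) ^ dd * b ^ (2 * j + 2) * (m : ℝ) ^ dd := by
          rw [mul_pow, mul_pow, mul_pow]; ring
      _ ≤ (16 * A) ^ dd * b ^ (2 * j + 2) * (m : ℝ) ^ dd := by
          have : (2 * 2 * 2 * 2 : ℝ) ≤ 16 * A := by linarith
          gcongr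
  have hY : siegY j n Q m A D' ≤ G := by
    unfold siegY
    rw [← hdd, ← hbdef, hQZ]
    calc ((dd : ℝ) + 1) * 2 ^ dd * A ^ dd * ((n : ℝ) ^ 2 * b ^ (1 + 2 * j) * Q0)
        ≤ 2 ^ dd * 2 ^ dd * A ^ dd * (b ^ (2 * j + 2) * Q0) := by gcongr
      _ = (2 * 2 * A) ^ dd * b ^ (2 * j + 2) * Q0 := by rw [mul_pow, mul_pow]; ring
      _ ≤ G := by
          rw [hG]
          have : (2 * 2 * A : ℝ) ≤ 16 * A := by linarith
          gcongr
  have hT1 : 1 ≤ siegT j n Q m D' := by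
    unfold siegT
    rw [← hdd, ← hbdef]
    have a1 : (1 : ℝ) ≤ (dd : ℝ) + 1 := by
      have : (0 : ℝ) ≤ dd := Nat.cast_nonneg _
      linarith
    have a2 : (1 : ℝ) ≤ 2 ^ dd := one_le_pow₀ (by norm_num)
    have a3 : (1 : ℝ) ≤ (2 * (m : ℝ)) ^ dd := one_le_pow₀ (by linarith)
    have a4 : (1 : ℝ) ≤ b ^ (1 + 2 * j) := one_le_pow₀ hb1
    exact one_le_mul_of_one_le_of_one_le
      (one_le_mul_of_one_le_of_one_le (one_le_mul_of_one_le_of_one_le a1 a2) a3)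
      (one_le_mul_of_one_le_of_one_le hn2 a4)
  have hY1 : 1 ≤ siegY j n Q m A D' := by
    unfold siegY
    rw [← hdd, ← hbdef, hQZ]
    have a1 : (1 : ℝ) ≤ (dd : ℝ) + 1 := by
      have : (0 : ℝ) ≤ dd := Nat.cast_nonneg _
      linarith
    have a2 : (1 : ℝ) ≤ 2 ^ dd := one_le_pow₀ (by norm_num)
    have a3 : (1 : ℝ) ≤ A ^ dd := one_le_pow₀ hA
    have a4 : (1 : ℝ) ≤ b ^ (1 + 2 * j) := one_le_pow₀ hb1
    exact one_le_mul_of_one_le_of_one_le
      (one_le_mul_of_one_le_of_one_le (one_le_mul_of_one_le_of_one_le a1 a2) a3)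
      (one_le_mul_of_one_le_of_one_le (one_le_mul_of_one_le_of_one_le hn2 a4) hQ01)
  have hY0 : 0 < siegY j n Q m A D' := by linarith
  set R : ℝ := siegT j n Q m D' * Q0 * siegY j n Q m A D' ^ (n - 1) with hR
  have hR1 : 1 ≤ R := one_le_mul_of_one_le_of_one_le
    (one_le_mul_of_one_le_of_one_le hT1 hQ01) (one_le_pow₀ hY1)
  have hR3 : 3 * R ≤ (m : ℝ) ^ dd * G ^ n := by
    have hG0 : 0 < G := by positivity
    calc 3 * R = (3 * siegT j n Q m D') * Q0 * siegY j n Q m A D' ^ (n - 1) := by rw [hR]; ring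
      _ ≤ ((16 * A) ^ dd * b ^ (2 * j + 2) * (m : ℝ) ^ dd) * Q0 * G ^ (n - 1) := by gcongr
      _ = (m : ℝ) ^ dd * (G * G ^ (n - 1)) := by rw [hG]; ring
      _ = (m : ℝ) ^ dd * G ^ n := by
          rw [← pow_succ', Nat.sub_add_cancel (by omega)]
  refine ⟨⌈R⌉₊ + 1, ?_, ?_⟩
  · rw [hQZ, one_div, div_inv_eq_mul]
    push_cast
    have := Nat.le_ceil R
    linarith
  · -- the real inequality
    have hN : ((⌈R⌉₊ + 1 : ℕ) : ℝ) ≤ (m : ℝ) ^ dd * G ^ n := by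
      push_cast
      have := Nat.ceil_lt_add_one (by linarith : (0 : ℝ) ≤ R)
      linarith
    have hB : ((2 * (n + 1) * Q * QZ j n m D' + 1 : ℕ) : ℝ) ≤ b * Q0 := by
      push_cast
      rw [hQZ]
      have h1 : ((n : ℝ) + 1) ≤ Q := n_add_one_leR hn4 hQ
      have h2 : (16 : ℝ) ≤ Q := sixteen_leR hn4 hQ
      have h3 : (Q : ℝ) ^ 3 ≤ b := Qpow_le_bb hn4 hQ (by nlinarith)
      have h4 : 2 * ((n : ℝ) + 1) * Q + 1 ≤ (Q : ℝ) ^ 3 := by nlinarith [mul_nonneg (by linarith : (0:ℝ) ≤ Q) (by linarith : (0:ℝ) ≤ Q)]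
      calc 2 * ((n : ℝ) + 1) * Q * Q0 + 1 ≤ 2 * ((n : ℝ) + 1) * Q * Q0 + Q0 := by linarith
        _ = (2 * ((n : ℝ) + 1) * Q + 1) * Q0 := by ring
        _ ≤ b * Q0 := mul_le_mul_of_nonneg_right (h4.trans h3) hQ00.le
    have hlog : (b * Q0) ^ ((dd + 1) * E) * ((m : ℝ) ^ dd * G ^ n) ^ ((q * M - 1) * D') ≤
        Q0 ^ ((dd + 1) * (E + M)) := by
      have hG0 : 0 < G := by positivity
      rw [← Real.log_le_log_iff (by positivity) (by positivity)]
      have lG : Real.log G = dd * Real.log (16 * A) + (2 * j + 2) * Real.log b +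
          2 * q * dd * Real.log m := by
        rw [hG, Real.log_mul (by positivity) (by positivity),
          Real.log_mul (by positivity) (by positivity), Real.log_pow, Real.log_pow, hQ0,
          Real.log_pow]
        push_cast
        ring
      have lQ0 : Real.log Q0 = 2 * q * dd * Real.log m := by
        rw [hQ0, Real.log_pow]; push_cast; ring
      rw [Real.log_mul (by positivity) (by positivity), Real.log_pow _ ((dd + 1) * E),
        Real.log_pow _ ((q * M - 1) * D'), Real.log_pow _ ((dd + 1) * (E + M)),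
        Real.log_mul hb0.ne' hQ00.ne', Real.log_mul (by positivity) (by positivity),
        Real.log_pow _ dd, Real.log_pow _ n, lG, lQ0]
      have hL : 0 ≤ Real.log m := Real.log_nonneg hm1
      have hβ : 0 ≤ Real.log b := Real.log_nonneg hb1
      have ha : 0 ≤ Real.log (16 * A) := Real.log_nonneg (by linarith)
      have h1 : 16 * ((j : ℝ) + 1) * Real.log b ≤ q * D' * Real.log m := by
        have := Real.log_le_log (by positivity) hb
        rw [Real.log_pow, Real.log_pow] at this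
        push_cast at this
        linarith
      have h2 : 8 * (n : ℝ) * Real.log (16 * A) ≤ Real.log m := by
        have := Real.log_le_log (by positivity) D.hm
        rw [Real.log_pow] at this
        push_cast at this
        linarith
      have hqM : 1 ≤ q * M := Nat.mul_pos (by omega) (by omega)
      have hEn : E ≤ j * n := Nat.mul_le_mul_left _ (by omega)
      have := log_core q M n D' j dd E (Real.log m) (Real.log b) (Real.log (16 * A)) hL hβ ha hdd'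
        (by omega) hqM hEn hM.2.1 h1 h2
      push_cast at this ⊢
      refine le_trans (le_of_eq ?_) (this.trans (le_of_eq ?_))
      · ring
      · ring
    have hfin : (((2 * (n + 1) * Q * QZ j n m D' + 1) ^ ((dd + 1) * E) *
        (⌈R⌉₊ + 1) ^ ((q * M - 1) * D') : ℕ) : ℝ) <
        (((QZ j n m D' + 1) ^ ((dd + 1) * (E + M)) : ℕ) : ℝ) := by
      calc (((2 * (n + 1) * Q * QZ j n m D' + 1) ^ ((dd + 1) * E) *
        (⌈R⌉₊ + 1) ^ ((q * M - 1) * D') : ℕ) : ℝ)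
          = ((2 * (n + 1) * Q * QZ j n m D' + 1 : ℕ) : ℝ) ^ ((dd + 1) * E) *
            ((⌈R⌉₊ + 1 : ℕ) : ℝ) ^ ((q * M - 1) * D') := by push_cast; rfl
        _ ≤ (b * Q0) ^ ((dd + 1) * E) * ((m : ℝ) ^ dd * G ^ n) ^ ((q * M - 1) * D') := by
            gcongr
        _ ≤ Q0 ^ ((dd + 1) * (E + M)) := hlog
        _ < (Q0 + 1) ^ ((dd + 1) * (E + M)) := by
            apply pow_lt_pow_left₀ (by linarith) hQ00.le
            have : 0 < M := by omega
            positivity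
        _ = _ := by push_cast; rw [hQZ]
    exact_mod_cast hfin

end Pool.Agent.H8.EF
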