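import Pool.Agent.H8.EF.Mu
import Pool.Agent.H8.EF.Emb
import Pool.Agent.H8.EF.Nrm
import Pool.Agent.H8.EF.Pig
import Pool.Agent.H8.EF.SiegCount

/-! # [EF-SIEG] The auxiliary function

(1) `sieg_count`: file `SiegCount`.

(2) `sieg`: apply `pigeon` with
`ι = Fin (DD+1) × (Σ k : Fin (j+1), Fin (n-k))` (the coefficients of `g_e`, `e ≤ DD`),
`κ₁ = Fin (DD+1) × Fin j × Fin (n-1-j)`: for `k = k'+1` the coefficient of degree
`n + j + 1 - k + d`, `d < n-1-j`, of `a_0 g_k - a_k g_0` (the coefficients of higher degree vanish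
automatically: the degree is `≤ 2n-1-k`), sum of absolute values `≤ 2 (n+1) Q`;
`κ₂ = Σ s : Fin (j+1), Fin (II j n D' s)`: the real linear form
`x ↦ φ (hasseDeriv i H_s (α)) = ∑ C(e,i) (φ α)^(e-i) φ(mu s k i') x_(e,k,i')`
(`hasseDeriv_apply`, `lam_eq_sum`), sum of absolute values
`≤ (DD+1) 2^DD (2m)^DD n² b^(1+2j) = T` (`mu_bound`, `norm_em_le_hs`, `1 ≤ φ α ≤ 2m`).
Cardinalities: `Fintype.card_sigma`, `num_count`, `num_sum`. The integer vector found gives `g`;
for `s ≤ j`, `i < II s` let `Λ = (hasseDeriv i (D.HH s DD g)).eval α ∈ 𝓞 K`. Then `|φ Λ| < ε` and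
`‖σ Λ‖ ≤ (DD+1) 2^DD A^DD n² b^(1+2j) Q₀ = Y` for the other `σ` (`D.other`, `lamZ_bound`), so
`Λ = 0` by `norm_zero` (`|φ Λ| Y^(n-1) < 1`). -/

namespace Pool.Agent.H8.EF

open Finset Polynomial Pool.Agent.H72.ES NumberField

namespace SiegAux

/-- index set of the unknowns -/
abbrev Iot (N j n : ℕ) : Type := Fin (N + 1) × (Σ k : Fin (j + 1), Fin (n - k))

theorem sum_iot {R : Type*} [AddCommMonoid R] (N j n : ℕ) (f : ℕ → ℕ → ℕ → R) :
    ∑ p : Iot N j n, f p.1 p.2.1 p.2.2 =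
      ∑ e ∈ range (N + 1), ∑ k ∈ range (j + 1), ∑ i ∈ range (n - k), f e k i := by
  rw [Fintype.sum_prod_type, Finset.sum_range]
  refine Finset.sum_congr rfl fun e _ => ?_
  rw [Fintype.sum_sigma, Finset.sum_range]
  refine Finset.sum_congr rfl fun k _ => ?_
  rw [Finset.sum_range]

/-- extension by zero -/
def extz (N j n : ℕ) (x : Iot N j n → ℤ) (e k i : ℕ) : ℤ :=
  if h : e < N + 1 ∧ k < j + 1 ∧ i < n - k then x (⟨e, h.1⟩, ⟨⟨k, h.2.1⟩, ⟨i, h.2.2⟩⟩) else 0

theorem extz_coe (N j n : ℕ) (x : Iot N j n → ℤ) (p : Iot N j n) :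
    extz N j n x p.1 p.2.1 p.2.2 = x p := by
  obtain ⟨e, k, i⟩ := p
  have h : (e : ℕ) < N + 1 ∧ (k : ℕ) < j + 1 ∧ (i : ℕ) < n - k := ⟨e.2, k.2, i.2⟩
  simp only [extz]
  rw [dif_pos h]

theorem extz_abs_le (N j n : ℕ) (x : Iot N j n → ℤ) (B : ℤ) (hB0 : 0 ≤ B) (hB : ∀ p, |x p| ≤ B)
    (e k i : ℕ) : |extz N j n x e k i| ≤ B := by
  simp only [extz]
  split_ifs with h
  · exact hB _
  · simpa using hB0

theorem extz_zero (N j n : ℕ) (x : Iot N j n → ℤ) {e : ℕ} (he : N < e) (k i : ℕ) :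
    extz N j n x e k i = 0 := by
  simp only [extz]
  rw [dif_neg]
  omega

/-- the polynomial of degree `< n - k` with given coefficients -/
noncomputable def gp (n : ℕ) (y : ℕ → ℕ → ℤ) (k : ℕ) : ℤ[X] :=
  ∑ i ∈ range (n - k), C (y k i) * X ^ i

theorem gp_coeff (n : ℕ) (y : ℕ → ℕ → ℤ) (k i : ℕ) :
    (gp n y k).coeff i = if i < n - k then y k i else 0 := by
  simp only [gp, finsetSum_coeff, coeff_C_mul, coeff_X_pow, mul_ite, mul_one, mul_zero]
  rw [Finset.sum_ite_eq]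
  simp

theorem gp_mem (n : ℕ) (y : ℕ → ℕ → ℤ) (k : ℕ) : gp n y k ∈ degreeLT ℤ (n - k) := by
  rw [mem_degreeLT, degree_lt_iff_coeff_zero]
  intro m hm
  rw [gp_coeff, if_neg (by omega)]

theorem coeff_mul_gp (n : ℕ) (y : ℕ → ℕ → ℤ) (k : ℕ) (a : ℤ[X]) (M : ℕ) (hM : n ≤ M) :
    (a * gp n y k).coeff M = ∑ i ∈ range (n - k), a.coeff (M - i) * y k i := by
  rw [gp, Finset.mul_sum, finsetSum_coeff]
  refine Finset.sum_congr rfl fun i hi => ?_
  have hi' := Finset.mem_range.1 hi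
  rw [← mul_assoc, coeff_mul_X_pow', if_pos (by omega), coeff_mul_C]

theorem ak_coeff (n : ℕ) (F : ℕ → ℕ → ℤ) (k i : ℕ) :
    (ak n F k).coeff i = if i < n + 1 - k then F (n - k - i) i else 0 := by
  simp only [ak, finsetSum_coeff, coeff_C_mul, coeff_X_pow, mul_ite, mul_one, mul_zero]
  rw [Finset.sum_ite_eq]
  simp

theorem ak_coeff_le {n Q : ℕ} {f : ℤ[X]} {F : ℕ → ℕ → ℤ} (hF : Norml n Q f F) (k i : ℕ) :
    |(ak n F k).coeff i| ≤ (Q : ℤ) := by
  rw [ak_coeff]
  split_ifs with h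
  · exact hF.bound _ _ (by omega)
  · simp

/-- the integral linear forms -/
noncomputable def c1 (j n : ℕ) (F : ℕ → ℕ → ℤ) (e₀ k₀ d e k i : ℕ) : ℤ :=
  if e = e₀ then
    (if k = k₀ + 1 then (ak n F 0).coeff (n + j - k₀ + d - i) else 0) -
    (if k = 0 then (ak n F (k₀ + 1)).coeff (n + j - k₀ + d - i) else 0) else 0

theorem c1_sum (j n N : ℕ) (F : ℕ → ℕ → ℤ) (e₀ k₀ d : ℕ) (he : e₀ < N + 1) (hk : k₀ < j)
    (y : ℕ → ℕ → ℕ → ℤ) :
    ∑ e ∈ range (N + 1), ∑ k ∈ range (j + 1), ∑ i ∈ range (n - k),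
      c1 j n F e₀ k₀ d e k i * y e k i =
      (ak n F 0 * gp n (y e₀) (k₀ + 1) - ak n F (k₀ + 1) * gp n (y e₀) 0).coeff
        (n + j - k₀ + d) := by
  rw [coeff_sub, coeff_mul_gp _ _ _ _ _ (by omega), coeff_mul_gp _ _ _ _ _ (by omega)]
  rw [Finset.sum_eq_single_of_mem e₀ (Finset.mem_range.2 he)]
  · simp only [c1, if_true, sub_mul, Finset.sum_sub_distrib]
    congr 1
    · rw [Finset.sum_eq_single_of_mem (k₀ + 1) (Finset.mem_range.2 (by omega))]
      · simp
      · intro k _ hk'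
        simp [hk']
    · rw [Finset.sum_eq_single_of_mem 0 (Finset.mem_range.2 (by omega))]
      · simp
      · intro k _ hk'
        simp [hk']
  · intro e _ he'
    simp [c1, he']

theorem c1_abs (j n N Q : ℕ) {f : ℤ[X]} {F : ℕ → ℕ → ℤ} (hF : Norml n Q f F) (e₀ k₀ d : ℕ)
    (he : e₀ < N + 1) (hk : k₀ < j) :
    ∑ e ∈ range (N + 1), ∑ k ∈ range (j + 1), ∑ i ∈ range (n - k), |c1 j n F e₀ k₀ d e k i| ≤
      ((2 * (n + 1) * Q : ℕ) : ℤ) := by
  have hQ0 : (0 : ℤ) ≤ Q := Int.natCast_nonneg _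
  have h1 : ∀ e k i, |c1 j n F e₀ k₀ d e k i| ≤
      if e = e₀ then (if k = k₀ + 1 then (Q : ℤ) else 0) + (if k = 0 then (Q : ℤ) else 0) else 0 := by
    intro e k i
    simp only [c1]
    by_cases h : e = e₀
    · rw [if_pos h, if_pos h]
      refine (abs_sub _ _).trans (add_le_add ?_ ?_)
      · split_ifs
        · exact ak_coeff_le hF _ _
        · simp
      · split_ifs
        · exact ak_coeff_le hF _ _
        · simp
    · rw [if_neg h, if_neg h, abs_zero]
  calc _ ≤ ∑ e ∈ range (N + 1), ∑ k ∈ range (j + 1), ∑ i ∈ range (n - k),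
        (if e = e₀ then (if k = k₀ + 1 then (Q : ℤ) else 0) + (if k = 0 then (Q : ℤ) else 0)
          else 0) :=
        Finset.sum_le_sum fun e _ => Finset.sum_le_sum fun k _ => Finset.sum_le_sum fun i _ => h1 e k i
    _ = ((n - (k₀ + 1) : ℕ) : ℤ) * Q + (n : ℤ) * Q := by
        rw [Finset.sum_eq_single_of_mem e₀ (Finset.mem_range.2 he)]
        · simp only [if_true, Finset.sum_const, Finset.card_range, nsmul_eq_mul, mul_add,
            Finset.sum_add_distrib]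
          congr 1
          · rw [Finset.sum_eq_single_of_mem (k₀ + 1) (Finset.mem_range.2 (by omega))]
            · simp
            · intro k _ hk'
              simp [hk']
          · rw [Finset.sum_eq_single_of_mem 0 (Finset.mem_range.2 (by omega))]
            · simp
            · intro k _ hk'
              simp [hk']
        · intro e _ he'
          simp [he']
    _ ≤ _ := by
        have h2 : ((n - (k₀ + 1) : ℕ) : ℤ) ≤ n + 1 := by omega
        push_cast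
        nlinarith [mul_le_mul_of_nonneg_right h2 hQ0]

/-- the family of polynomials belongs to the space of functions -/
theorem gp_Lsp (j n : ℕ) (F : ℕ → ℕ → ℤ) (y : ℕ → ℕ → ℤ)
    (h : ∀ k₀ < j, ∀ d < n - 1 - j,
      (ak n F 0 * gp n y (k₀ + 1) - ak n F (k₀ + 1) * gp n y 0).coeff (n + j - k₀ + d) = 0) :
    (fun k : Fin (j + 1) => gp n y k) ∈ Lsp ℤ j n 0 (ak n F) := by
  rw [mem_Lsp]
  intro k
  refine ⟨by simpa using gp_mem n y k, ?_⟩
  rw [mem_degreeLT, degree_lt_iff_coeff_zero]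
  intro N hN
  obtain ⟨k, hk⟩ := k
  simp only [Nat.sub_zero] at hN
  rcases Nat.eq_zero_or_pos k with rfl | hk0
  · simp
  obtain ⟨k₀, rfl⟩ : ∃ k₀, k = k₀ + 1 := ⟨k - 1, by omega⟩
  simp only [Fin.val_zero]
  by_cases hN2 : N < 2 * n - 1 - k₀
  · have := h k₀ (by omega) (N - (n + j - k₀)) (by omega)
    rwa [show n + j - k₀ + (N - (n + j - k₀)) = N by omega] at this
  · rw [coeff_sub, coeff_mul_gp _ _ _ _ _ (by omega), coeff_mul_gp _ _ _ _ _ (by omega)]
    rw [Finset.sum_eq_zero, Finset.sum_eq_zero, sub_zero]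
    · intro i hi
      have hi' := Finset.mem_range.1 hi
      rw [ak_coeff, if_neg (by omega), zero_mul]
    · intro i hi
      have hi' := Finset.mem_range.1 hi
      rw [ak_coeff, if_neg (by omega), zero_mul]

variable {K : Type} [Field K] [NumberField K] {j n Q m : ℕ} {A : ℝ} {f : ℤ[X]} {F : ℕ → ℕ → ℤ}

/-- the value of the Hasse derivative -/
theorem hasse_HH (D : Dat K j n Q m A f F) (l N i₀ : ℕ) (g : ℕ → Fin (j + 1) → ℤ[X]) :
    (hasseDeriv i₀ (D.HH l N g)).eval D.α =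
      ∑ e ∈ range (N + 1), (e.choose i₀ : 𝓞 K) * D.α ^ (e - i₀) * D.lamZ l (g e) := by
  simp only [Dat.HH, map_sum, eval_finsetSum]
  refine Finset.sum_congr rfl fun e _ => ?_
  rw [C_mul_X_pow_eq_monomial, hasseDeriv_monomial, eval_monomial]
  ring

theorem lamZ_gp (D : Dat K j n Q m A f F) (l : ℕ) (y : ℕ → ℕ → ℤ) :
    D.lamZ l (fun k : Fin (j + 1) => gp n y k) =
      ∑ k ∈ range (j + 1), ∑ i ∈ range (n - k), (y k i : 𝓞 K) * mu D.κ D.θ D.w l k i := by
  rw [Dat.lamZ, lam_eq_sum _ _ _ _ n, Finset.sum_range]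
  · refine Finset.sum_congr rfl fun k _ => Finset.sum_congr rfl fun i hi => ?_
    simp only [mapG, coeff_map, gp_coeff, if_pos (Finset.mem_range.1 hi), eq_intCast]
  · intro k
    simp only [mapG]
    rw [mem_degreeLT, degree_lt_iff_coeff_zero]
    intro M hM
    rw [coeff_map, gp_coeff, if_neg (by omega), map_zero]

/-- the real linear forms -/
noncomputable def c2 (D : Dat K j n Q m A f F) (l i₀ e k i : ℕ) : ℝ :=
  (e.choose i₀ : ℝ) * D.φ (D.α : K) ^ (e - i₀) * D.φ ((mu D.κ D.θ D.w l k i : 𝓞 K) : K)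

theorem c2_sum (D : Dat K j n Q m A f F) (l N i₀ : ℕ) (y : ℕ → ℕ → ℕ → ℤ) :
    D.φ (((hasseDeriv i₀ (D.HH l N (fun e (k : Fin (j + 1)) => gp n (y e) k))).eval D.α : 𝓞 K) : K) =
      ∑ e ∈ range (N + 1), ∑ k ∈ range (j + 1), ∑ i ∈ range (n - k), c2 D l i₀ e k i * y e k i := by
  change Dat.em K D.φ _ = _
  rw [hasse_HH, map_sum]
  refine Finset.sum_congr rfl fun e _ => ?_
  rw [lamZ_gp, Finset.mul_sum, map_sum]
  refine Finset.sum_congr rfl fun k _ => ?_
  rw [Finset.mul_sum, map_sum]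
  refine Finset.sum_congr rfl fun i _ => ?_
  have h1 : ∀ a : 𝓞 K, Dat.em K D.φ a = D.φ (a : K) := fun _ => rfl
  simp only [c2, map_mul, map_pow, map_natCast, map_intCast, h1]
  ring

theorem bb_ge_one (hF : Norml n Q f F) : 1 ≤ bb n Q := by
  have h1 : (1 : ℝ) ≤ Q := by
    have : 1 ≤ Q := le_trans Nat.one_le_two_pow hF.hQ
    exact_mod_cast this
  exact one_le_pow₀ h1

theorem abs_phi_le_hs (D : Dat K j n Q m A f F) (a : 𝓞 K) : |D.φ (a : K)| ≤ hs K a := by
  have h := norm_em_le_hs (Complex.ofRealHom.comp D.φ) a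
  simpa using h

theorem c2_abs (D : Dat K j n Q m A f F) (D' l i₀ : ℕ) (hl : l ≤ j) :
    ∑ e ∈ range (DD j n D' + 1), ∑ k ∈ range (j + 1), ∑ i ∈ range (n - k), |c2 D l i₀ e k i| ≤
      siegT j n Q m D' := by
  obtain ⟨hm16, -, ha1, ha2⟩ := alpha_bounds D
  obtain ⟨hn1, hn2, hn3⟩ := num_n D.hj D.hjn
  have hb1 := bb_ge_one D.hF
  set N := DD j n D' with hN
  have h1 : ∀ e ∈ range (N + 1), ∀ k ∈ range (j + 1), ∀ i ∈ range (n - k),
      |c2 D l i₀ e k i| ≤ 2 ^ N * (2 * m) ^ N * bb n Q ^ (1 + 2 * j) := by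
    intro e he k hk i hi
    have he' := Finset.mem_range.1 he
    have hi' := Finset.mem_range.1 hi
    simp only [c2, abs_mul, abs_pow]
    have e1 : |((e.choose i₀ : ℕ) : ℝ)| ≤ 2 ^ N := by
      rw [Nat.abs_cast]
      have : e.choose i₀ ≤ 2 ^ N := (Nat.choose_le_two_pow e i₀).trans
        (Nat.pow_le_pow_right (by norm_num) (by omega))
      exact_mod_cast this
    have e2 : |D.φ (D.α : K)| ^ (e - i₀) ≤ (2 * m) ^ N := by
      rw [abs_of_nonneg (by linarith)]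
      calc D.φ (D.α : K) ^ (e - i₀) ≤ D.φ (D.α : K) ^ N := pow_le_pow_right₀ ha1 (by omega)
        _ ≤ (2 * m) ^ N := pow_le_pow_left₀ (by linarith) ha2 _
    have e3 : |D.φ ((mu D.κ D.θ D.w l k i : 𝓞 K) : K)| ≤ bb n Q ^ (1 + 2 * j) :=
      ((abs_phi_le_hs D _).trans (mu_bound D l k i (by omega))).trans
        (pow_le_pow_right₀ hb1 (by omega))
    exact mul_le_mul (mul_le_mul e1 e2 (by positivity) (by positivity)) e3 (by positivity)
      (by positivity)
  calc _ ≤ ∑ e ∈ range (N + 1), ∑ k ∈ range (j + 1), ∑ i ∈ range n,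
        (2 ^ N * (2 * (m : ℝ)) ^ N * bb n Q ^ (1 + 2 * j)) := by
        refine Finset.sum_le_sum fun e he => Finset.sum_le_sum fun k hk => ?_
        refine (Finset.sum_le_sum fun i hi => h1 e he k hk i hi).trans ?_
        refine Finset.sum_le_sum_of_subset_of_nonneg ?_ fun i _ _ => by positivity
        intro i hi
        have := Finset.mem_range.1 hi
        exact Finset.mem_range.2 (by omega)
    _ = (N + 1 : ℝ) * ((j + 1 : ℝ) * (n * (2 ^ N * (2 * (m : ℝ)) ^ N * bb n Q ^ (1 + 2 * j)))) := by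
        simp only [Finset.sum_const, Finset.card_range, nsmul_eq_mul]
        push_cast
        ring
    _ ≤ siegT j n Q m D' := by
        have h3 : ((j : ℝ) + 1) ≤ n := by
          have : j + 1 ≤ n := by omega
          exact_mod_cast this
        have h4 : (0 : ℝ) ≤ n * (2 ^ N * (2 * (m : ℝ)) ^ N * bb n Q ^ (1 + 2 * j)) := by positivity
        have h5 := mul_le_mul_of_nonneg_right h3 h4
        refine (mul_le_mul_of_nonneg_left h5 (by positivity)).trans (le_of_eq ?_)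
        rw [siegT, ← hN]
        ring

theorem siegY_pos (D : Dat K j n Q m A f F) (D' : ℕ) : 0 < siegY j n Q m A D' := by
  obtain ⟨hn1, hn2, hn3⟩ := num_n D.hj D.hjn
  obtain ⟨hm16, -, -, -⟩ := alpha_bounds D
  have hb1 := bb_ge_one D.hF
  have hA := D.hA
  have hn0 : (0 : ℝ) < n := by
    have : 0 < n := by omega
    exact_mod_cast this
  have hm0 : 0 < m := by omega
  have hz : (0 : ℝ) < QZ j n m D' := by
    have : 0 < QZ j n m D' := Nat.pow_pos hm0
    exact_mod_cast this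
  rw [siegY]
  positivity

end SiegAux

open SiegAux

variable {K : Type} [Field K] [NumberField K] {j n Q m : ℕ} {A : ℝ} {f : ℤ[X]} {F : ℕ → ℕ → ℤ}

theorem sieg (D : Dat K j n Q m A f F) (D' : ℕ) (hD1 : 2 * n ^ 2 ≤ D')
    (hb : bb n Q ^ (16 * (j + 1)) ≤ (m : ℝ) ^ (qq j * D')) :
    ∃ g : ℕ → Fin (j + 1) → ℤ[X], (∀ e, g e ∈ Lsp ℤ j n 0 (ak n F)) ∧
      (∃ e ≤ DD j n D', g e ≠ 0) ∧ (∀ e k i, |(g e k).coeff i| ≤ (QZ j n m D' : ℤ)) ∧
      ∀ l ≤ j, ∀ i < II j n D' l, (hasseDeriv i (D.HH l (DD j n D') g)).eval D.α = 0 := by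
  classical
  obtain ⟨hn1, hn2, hn3⟩ := num_n D.hj D.hjn
  have hb1 := bb_ge_one D.hF
  have hA := D.hA
  have hY := siegY_pos D D'
  obtain ⟨N, hN1, hN2⟩ := sieg_count D D' hD1 hb
  set N₀ := DD j n D' with hN₀
  set Y := siegY j n Q m A D' with hYdef
  let κ₁ : Type := Fin (N₀ + 1) × Fin j × Fin (n - 1 - j)
  let κ₂ : Type := Σ s : Fin (j + 1), Fin (II j n D' s)
  have hc1 : Fintype.card κ₁ = (N₀ + 1) * (j * (n - 1 - j)) := by
    simp only [κ₁, Fintype.card_prod, Fintype.card_fin]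
  have hc2 : Fintype.card κ₂ = (qq j * MM j n - 1) * D' := by
    simp only [κ₂, Fintype.card_sigma, Fintype.card_fin]
    rw [← num_sum D.hj D.hjn D', Finset.sum_range]
  have hc3 : Fintype.card (Iot N₀ j n) = (N₀ + 1) * (j * (n - 1 - j) + MM j n) := by
    simp only [Iot, Fintype.card_prod, Fintype.card_sigma, Fintype.card_fin]
    rw [← num_count D.hj D.hjn, Finset.sum_range]
  obtain ⟨x, hx0, hxB, hxL, hxl⟩ := pigeon (ι := Iot N₀ j n) (κ₁ := κ₁) (κ₂ := κ₂)
    (fun q p => c1 j n F q.1 q.2.1 q.2.2 p.1 p.2.1 p.2.2)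
    (fun q p => c2 D q.1 q.2 p.1 p.2.1 p.2.2) (QZ j n m D') (2 * (n + 1) * Q) N
    (siegT j n Q m D') (1 / Y ^ (n - 1))
    (by
      intro q
      have h1 := sum_iot N₀ j n fun e k i => |c1 j n F q.1 q.2.1 q.2.2 e k i|
      rw [h1]
      exact c1_abs j n N₀ Q D.hF _ _ _ q.1.2 q.2.1.2)
    (by
      intro q
      have h1 := sum_iot N₀ j n fun e k i => |c2 D q.1 q.2 e k i|
      rw [h1]
      exact c2_abs D D' q.1 q.2 (by have := q.1.2; omega))
    (by positivity) hN1 (by rw [hc1, hc2, hc3]; exact hN2)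
  set y := extz N₀ j n x with hy
  have hQZ0 : (0 : ℤ) ≤ (QZ j n m D' : ℤ) := Int.natCast_nonneg _
  have hyB := extz_abs_le N₀ j n x _ hQZ0 hxB
  have hcoef : ∀ e k i, |(gp n (y e) k).coeff i| ≤ (QZ j n m D' : ℤ) := by
    intro e k i
    rw [gp_coeff]
    split_ifs
    · exact hyB e k i
    · simpa using hQZ0
  have hLsp : ∀ e, (fun k : Fin (j + 1) => gp n (y e) k) ∈ Lsp ℤ j n 0 (ak n F) := by
    intro e
    refine gp_Lsp j n F (y e) fun k₀ hk₀ d hd => ?_
    by_cases he : e < N₀ + 1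
    · have h1 := hxL (⟨e, he⟩, ⟨k₀, hk₀⟩, ⟨d, hd⟩)
      rw [← c1_sum j n N₀ F e k₀ d he hk₀ y, ← h1, ← sum_iot N₀ j n
        fun e' k i => c1 j n F e k₀ d e' k i * y e' k i]
      refine Finset.sum_congr rfl fun p _ => ?_
      simp only [hy, extz_coe]
    · have h2 : ∀ k, gp n (y e) k = 0 := by
        intro k
        simp only [gp, hy]
        refine Finset.sum_eq_zero fun i _ => ?_
        rw [extz_zero N₀ j n x (by omega), C_0, zero_mul]
      rw [h2, h2, mul_zero, mul_zero, sub_zero, coeff_zero]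
  refine ⟨fun e (k : Fin (j + 1)) => gp n (y e) k, hLsp, ?_, fun e k i => hcoef e k i, ?_⟩
  · obtain ⟨p, hp⟩ := Function.ne_iff.1 hx0
    refine ⟨p.1, by have := p.1.2; omega, ?_⟩
    intro h
    have h1 := congrFun h p.2.1
    have h2 := congrArg (fun P => P.coeff p.2.2) h1
    simp only [gp_coeff, Pi.zero_apply, coeff_zero] at h2
    rw [if_pos p.2.2.2, hy, extz_coe] at h2
    exact hp h2
  · intro l hl i hi
    refine norm_zero D.hK D.φ _ Y hY.le ?_ ?_
    · intro σ hσ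
      obtain ⟨hσ1, -⟩ := D.other σ hσ
      change ‖Dat.em K σ _‖ ≤ Y
      rw [hasse_HH, map_sum]
      have h0 : ∀ a : 𝓞 K, Dat.em K σ a = σ (a : K) := fun _ => rfl
      have h1 : ∀ e ∈ range (N₀ + 1), ‖Dat.em K σ ((e.choose i : 𝓞 K) * D.α ^ (e - i) *
          D.lamZ l (fun k : Fin (j + 1) => gp n (y e) k))‖ ≤
          2 ^ N₀ * A ^ N₀ * (n ^ 2 * bb n Q ^ (1 + 2 * j) * QZ j n m D') := by
        intro e he
        have he' := Finset.mem_range.1 he
        simp only [map_mul, map_pow, map_natCast, norm_mul, norm_pow, h0]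
        have e1 : ‖((e.choose i : ℕ) : ℂ)‖ ≤ 2 ^ N₀ := by
          rw [Complex.norm_natCast]
          have : e.choose i ≤ 2 ^ N₀ := (Nat.choose_le_two_pow e i).trans
            (Nat.pow_le_pow_right (by norm_num) (by omega))
          exact_mod_cast this
        have e2 : ‖σ (D.α : K)‖ ^ (e - i) ≤ A ^ N₀ :=
          calc ‖σ (D.α : K)‖ ^ (e - i) ≤ A ^ (e - i) := pow_le_pow_left₀ (norm_nonneg _) hσ1 _
            _ ≤ A ^ N₀ := pow_le_pow_right₀ hA (by omega)
        have e3 : ‖σ ((D.lamZ l (fun k : Fin (j + 1) => gp n (y e) k) : 𝓞 K) : K)‖ ≤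
            n ^ 2 * bb n Q ^ (1 + 2 * j) * QZ j n m D' := by
          refine (norm_em_le_hs σ _).trans ?_
          refine (lamZ_bound D l _ (fun k => gp_mem n (y e) k) (QZ j n m D') ?_).trans ?_
          · intro k i
            have := hcoef e k i
            exact_mod_cast this
          · have h3 : bb n Q ^ (1 + 2 * l) ≤ bb n Q ^ (1 + 2 * j) :=
              pow_le_pow_right₀ hb1 (by omega)
            gcongr
        exact mul_le_mul (mul_le_mul e1 e2 (by positivity) (by positivity)) e3 (by positivity)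
          (by positivity)
      refine (norm_sum_le_of_le _ h1).trans (le_of_eq ?_)
      rw [Finset.sum_const, Finset.card_range, nsmul_eq_mul, hYdef, siegY, ← hN₀]
      push_cast
      ring
    · have h1 := hxl ⟨⟨l, by omega⟩, ⟨i, hi⟩⟩
      have h2 : ∑ p : Iot N₀ j n, c2 D l i p.1 p.2.1 p.2.2 * (x p : ℝ) =
          D.φ (((hasseDeriv i (D.HH l N₀ (fun e (k : Fin (j + 1)) => gp n (y e) k))).eval D.α :
            𝓞 K) : K) := by
        rw [c2_sum, ← sum_iot N₀ j n fun e k i' => c2 D l i e k i' * (y e k i' : ℝ)]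
        refine Finset.sum_congr rfl fun p _ => ?_
        simp only [hy, extz_coe]
      simp only at h1
      rw [h2, lt_div_iff₀ (by positivity)] at h1
      exact h1

end Pool.Agent.H8.EF
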