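import Pool.Agent.H8.EF.Defs
import Pool.Agent.H72.ES.Taylor

/-! # [EF-UNIQ] Uniqueness of the branch

`Z = C θ + C κ w`, `Z' = C θ + C κ w'`, `T = C κ ^ 2 * X`. `0 = evt n F T Z - evt n F T Z' =
(Z - Z') U`, where `U = ∑ F_ij T^(n-i-j) (∑_(a+b=j-1) Z^a Z'^b)` has constant coefficient
`f'(θ) = κ ≠ 0` (the constant coefficients of `T, Z, Z'` are `0, θ, θ`; `lead n F = f`). The ring
`S⟦X⟧` is a domain, so `Z = Z'`, `C κ (w - w') = 0`, `w = w'`. -/

namespace Pool.Agent.H8.EF

open Finset Polynomial Pool.Agent.H72.ES

theorem branch_unique {S : Type*} [CommRing S] [IsDomain S] {n : ℕ} {F : ℕ → ℕ → ℤ} (θ : S)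
    (κ : S) (hκ : κ = aeval θ (derivative (lead n F))) (hκ0 : κ ≠ 0) (w w' : PowerSeries S)
    (h0 : PowerSeries.constantCoeff w = 0) (h0' : PowerSeries.constantCoeff w' = 0)
    (he : evt n (cst (PowerSeries S) F) (PowerSeries.C κ ^ 2 * PowerSeries.X)
      (PowerSeries.C θ + PowerSeries.C κ * w) = 0)
    (he' : evt n (cst (PowerSeries S) F) (PowerSeries.C κ ^ 2 * PowerSeries.X)
      (PowerSeries.C θ + PowerSeries.C κ * w') = 0) : w = w' := by
  set T : PowerSeries S := PowerSeries.C κ ^ 2 * PowerSeries.X with hT
  set v : PowerSeries S := PowerSeries.C κ * w with hv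
  set v' : PowerSeries S := PowerSeries.C κ * w' with hv'
  rw [evt_taylor] at he he'
  -- the cofactor
  set U : PowerSeries S := ∑ i ∈ range (n + 1), ∑ j ∈ range (n + 1),
    tc n F (PowerSeries.C θ) i j * T ^ i * (∑ a ∈ range j, v ^ a * v' ^ (j - 1 - a)) with hU
  have hprod : U * (v - v') = 0 := by
    have h1 : U * (v - v') =
        (∑ i ∈ range (n + 1), ∑ j ∈ range (n + 1), tc n F (PowerSeries.C θ) i j * T ^ i * v ^ j) -
        ∑ i ∈ range (n + 1), ∑ j ∈ range (n + 1), tc n F (PowerSeries.C θ) i j * T ^ i * v' ^ j := by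
      rw [hU, sum_mul, ← sum_sub_distrib]
      refine sum_congr rfl fun i _ => ?_
      rw [sum_mul, ← sum_sub_distrib]
      refine sum_congr rfl fun j _ => ?_
      rw [mul_assoc, (Commute.all v v').geom_sum₂_mul, mul_sub]
    rw [h1, he, he', sub_zero]
  have hcT : PowerSeries.constantCoeff T = 0 := by simp [hT]
  have hcv : PowerSeries.constantCoeff v = 0 := by simp [hv, h0]
  have hcv' : PowerSeries.constantCoeff v' = 0 := by simp [hv', h0']
  have hlead : κ = tc n F θ 0 1 := by rw [hκ, tc_zero_one]
  have htc : ∀ i j, PowerSeries.constantCoeff (tc n F (PowerSeries.C θ) i j) = tc n F θ i j := by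
    intro i j
    rw [tc_map]
    simp
  have hcU : PowerSeries.constantCoeff U = κ := by
    rw [hU, map_sum]
    rw [sum_eq_single 0]
    · rw [map_sum]
      by_cases hn : n = 0
      · subst hn
        exfalso
        apply hκ0
        rw [hlead]
        simp [tc]
      rw [sum_eq_single 1]
      · simp only [map_mul, map_pow, map_sum, htc, hcT, hcv, hcv', hlead]
        simp
      · intro j _ hj
        simp only [map_mul, map_pow, map_sum, htc, hcT, hcv, hcv']
        rcases Nat.lt_or_gt_of_ne hj with hj | hj
        · have : j = 0 := by omega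
          subst this
          simp
        · have : ∑ a ∈ range j, (0 : S) ^ a * 0 ^ (j - 1 - a) = 0 := by
            refine sum_eq_zero fun a ha => ?_
            simp only [mem_range] at ha
            by_cases h : a = 0
            · subst h
              rw [zero_pow (n := j - 1 - 0) (by omega), mul_zero]
            · rw [zero_pow h, zero_mul]
          rw [this, mul_zero]
      · intro h
        exact absurd (mem_range.2 (by omega)) h
    · intro i _ hi
      rw [map_sum]
      refine sum_eq_zero fun j _ => ?_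
      simp only [map_mul, map_pow, hcT]
      rw [zero_pow hi]
      simp
    · intro h
      exact absurd (mem_range.2 (Nat.succ_pos n)) h
  have hU0 : U ≠ 0 := by
    intro h
    rw [h, map_zero] at hcU
    exact hκ0 hcU.symm
  have hvv : v - v' = 0 := (mul_eq_zero.1 hprod).resolve_left hU0
  have h3 : PowerSeries.C κ * (w - w') = 0 := by
    rw [mul_sub]
    exact hvv
  have hC : PowerSeries.C κ ≠ 0 := by
    intro h
    apply hκ0
    have := congrArg PowerSeries.constantCoeff h
    simpa using this
  exact sub_eq_zero.1 ((mul_eq_zero.1 h3).resolve_left hC)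

end Pool.Agent.H8.EF
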