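import Pool.Agent.H8.EF.NumB

/-! # [EF-UPPNUM1] Numerical inequalities of the upper bound: (1)

`b = bb n Q`, `q = qq j`, `DD = n q D'`, `Q₀ = m^(2 q DD)`, `(16 A)^(8 n) ≤ m`, so
`(16 A)^(8 DD) ≤ m^(q D')`; `b^(16 (j+1)) ≤ m^(q D')`.

(1) `upp_num1`: `I = II j n D' l`, `i < JJ j n D' ≤ I ≤ DD` (`num_JJ`, `num_II`).
`(DD+1)² 4^DD (2m)^(DD-I) (A/m^(n-1))^(I-i) ≤ 4 (32 A)^DD m^(DD-I) / m^((n-1)(I-i))`
(`DD + 1 ≤ 2^DD`), `(32 A)^DD ≤ (16 A)^(2 DD) ≤ m^(q D')`; `4 (j+1) n² b · b^(1+2j) b^(2j) ≤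
b^(4j+4) ≤ m^(q D')` (`4 (j+1) n² ≤ b²`). The exponent of `m` in total is at most
`2 q D' + [2 q DD + DD - I - (n-1)(I-i) + (j-l) LL (D'+1)]`, and the bracket is
`≤ - n D' (q² - q)/2` by `num_exp` (`i ≤ JJ`). Since `n (q²-q)/2 ≥ 2 q + 1`, the product is
`≤ 1/m ≤ 1/4 < 1/2`. (Work with integer exponents `zpow`, or multiply out.)

(2) `upp_num2`: exponent of `m`: `DD + 2 q DD - LL D' = - n D' (q² - q)`, and
`b n (DD+1) 2^DD b^(4j+8) ≤ b^(4j+10) 4^DD ≤ m^(2 q D')` (`4j+10 ≤ 16 (j+1)`). -/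

namespace Pool.Agent.H8.EF

open Finset Polynomial Pool.Agent.H72.ES NumberField

variable {j n Q m D' : ℕ} {A : ℝ}

/-- comparison of the exponents of `m` -/
theorem upp_num1_exp (hj : 2 ≤ j) (hn : 64 * j ^ 7 ≤ n) (hD1 : 2 * n ^ 2 ≤ D') (l i : ℕ)
    (hl : l ≤ j) (hi : i < JJ j n D') :
    qq j * D' + (qq j * D' + (2 * qq j * DD j n D' + ((DD j n D' - II j n D' l) +
      LL j n * (D' + 1) * (j - l)))) ≤ (n - 1) * (II j n D' l - i) := by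
  have h1 := num_exp hj hn D' l hl hD1
  have h2 := num_II hj hn D' l
  have h3 := num_JJ hj hn D' l hD1
  obtain ⟨h4, -⟩ := num_q hj
  obtain ⟨h5, -, -⟩ := num_n hj hn
  generalize hd : DD j n D' = d at *
  generalize hI : II j n D' l = I at *
  generalize hJ : JJ j n D' = J at *
  generalize hq : qq j = q at *
  generalize hL : LL j n = L at *
  obtain ⟨u, rfl⟩ : ∃ u, d = I + u := ⟨d - I, by omega⟩
  obtain ⟨v, rfl⟩ : ∃ v, I = i + v := ⟨I - i, by omega⟩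
  obtain ⟨w, rfl⟩ : ∃ w, n = w + 1 := ⟨n - 1, by omega⟩
  have e1 : i + v + u - (i + v) = u := by omega
  have e2 : i + v - i = v := by omega
  have e3 : w + 1 - 1 = w := by omega
  rw [e1, e2, e3]
  zify
  push_cast at h1 ⊢
  have h6 : (4 * q * D' : ℤ) ≤ ((w : ℤ) + 1) * D' * ((q : ℤ) ^ 2 - q) := by
    have h7 : (4 : ℤ) ≤ w + 1 := by
      have : (8192 : ℤ) ≤ ((w + 1 : ℕ) : ℤ) := by exact_mod_cast h5
      push_cast at this
      linarith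
    have h8 : (q : ℤ) ≤ (q : ℤ) ^ 2 - q := by
      have : (36 : ℤ) ≤ q := by exact_mod_cast h4
      nlinarith
    have h9 : (0 : ℤ) ≤ D' := by positivity
    have h10 : (0 : ℤ) ≤ q := by positivity
    calc (4 * q * D' : ℤ) = 4 * (D' * q) := by ring
      _ ≤ ((w : ℤ) + 1) * (D' * ((q : ℤ) ^ 2 - q)) := by
          apply mul_le_mul h7 (mul_le_mul_of_nonneg_left h8 h9) (by positivity) (by linarith)
      _ = _ := by ring
  have h11 : (i : ℤ) + 1 ≤ J := by exact_mod_cast hi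
  have h12 : (w : ℤ) * (i + 1) ≤ w * J := mul_le_mul_of_nonneg_left h11 (by positivity)
  have h13 : (0 : ℤ) ≤ w := by positivity
  nlinarith [h1, h6, h12, h13]

theorem upp_num1 (hj : 2 ≤ j) (hn : 64 * j ^ 7 ≤ n) (hQ : 2 ^ n ≤ Q) (hA : 1 ≤ A)
    (hm : (16 * A) ^ (8 * n) ≤ m) (hD1 : 2 * n ^ 2 ≤ D')
    (hb : bb n Q ^ (16 * (j + 1)) ≤ (m : ℝ) ^ (qq j * D')) (l i : ℕ) (hl : l ≤ j)
    (hi : i < JJ j n D') :
    bb n Q * ((j + 1) * (((DD j n D' + 1) ^ 2 * 4 ^ DD j n D' *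
      (n ^ 2 * bb n Q ^ (1 + 2 * l) * QZ j n m D') * (2 * m) ^ (DD j n D' - II j n D' l) *
      (A / m ^ (n - 1)) ^ (II j n D' l - i)) *
      ((m : ℝ) ^ (LL j n * (D' + 1))) ^ (j - l) * bb n Q ^ (2 * l))) < 1 / 2 := by
  have hexp := upp_num1_exp hj hn hD1 l i hl hi
  obtain ⟨h5, h5', -⟩ := num_n hj hn
  have hII := num_II hj hn D' l
  have hn4 : 4 ≤ n := by omega
  have hb1 : 1 ≤ bb n Q := one_le_bb hn4 hQ
  have hb0 : 0 < bb n Q := bb_pos hn4 hQ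
  have hQb : (Q : ℝ) ≤ bb n Q := by
    have := Qpow_le_bb hn4 hQ (k := 1) (by nlinarith)
    simpa using this
  have hm1 : (1 : ℝ) ≤ m := by
    refine le_trans ?_ hm
    exact one_le_pow₀ (by linarith)
  have hm0 : (0 : ℝ) < m := by linarith
  have hdd : DD j n D' = n * qq j * D' := rfl
  generalize hd : DD j n D' = d at *
  generalize hI : II j n D' l = I at *
  generalize hLL : LL j n = L at *
  generalize hq : qq j = q at *
  have hQZ : ((QZ j n m D' : ℕ) : ℝ) = (m : ℝ) ^ (2 * q * d) := by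
    unfold QZ
    rw [hd, hq]
    push_cast
    rfl
  rw [hQZ]
  generalize bb n Q = b at *
  -- first factor
  have c1 : b * ((j : ℝ) + 1) * ((n : ℝ) ^ 2 * b ^ (1 + 2 * l)) * b ^ (2 * l) ≤
      (m : ℝ) ^ (q * D') / 4 := by
    have hnb : (n : ℝ) ^ 2 ≤ b := (n_sq_leR hn4 hQ).trans hQb
    have hjn : 4 * ((j : ℝ) + 1) ≤ b := by
      have h1 : 4 * (j + 1) ≤ n := by omega
      have h2 : (4 * ((j : ℝ) + 1)) ≤ n := by exact_mod_cast h1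
      have h3 := n_leR hn4 hQ
      linarith
    have h1 : b ^ (1 + 2 * l) * b ^ (2 * l) ≤ b ^ (1 + 4 * j) := by
      rw [← pow_add]
      exact pow_le_pow_right₀ hb1 (by omega)
    have h2 : b ^ (4 * j + 4) ≤ (m : ℝ) ^ (q * D') :=
      (pow_le_pow_right₀ hb1 (by omega)).trans hb
    have h3 : b * ((j : ℝ) + 1) * ((n : ℝ) ^ 2 * b ^ (1 + 2 * l)) * b ^ (2 * l) =
        (b * (4 * ((j : ℝ) + 1)) * (n : ℝ) ^ 2) * (b ^ (1 + 2 * l) * b ^ (2 * l)) / 4 := by ring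
    rw [h3]
    have h4 : b * (4 * ((j : ℝ) + 1)) * (n : ℝ) ^ 2 ≤ b * b * b := by
      apply mul_le_mul _ hnb (by positivity) (by positivity)
      exact mul_le_mul_of_nonneg_left hjn hb0.le
    have h5 : (b * (4 * ((j : ℝ) + 1)) * (n : ℝ) ^ 2) * (b ^ (1 + 2 * l) * b ^ (2 * l)) ≤
        (b * b * b) * b ^ (1 + 4 * j) := mul_le_mul h4 h1 (by positivity) (by positivity)
    have h6 : (b * b * b) * b ^ (1 + 4 * j) = b ^ (4 * j + 4) := by ring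
    linarith
  -- second factor
  have c2 : ((d : ℝ) + 1) ^ 2 * 4 ^ d * 2 ^ (d - I) * A ^ (I - i) ≤ (m : ℝ) ^ (q * D') := by
    have h1 : ((d : ℝ) + 1) ≤ 2 ^ d := by
      have : d + 1 ≤ 2 ^ d := Nat.lt_two_pow_self
      exact_mod_cast this
    have h2 : ((d : ℝ) + 1) ^ 2 ≤ 4 ^ d := by
      calc ((d : ℝ) + 1) ^ 2 ≤ (2 ^ d) ^ 2 := pow_le_pow_left₀ (by positivity) h1 2
        _ = 4 ^ d := by rw [← pow_mul, mul_comm, pow_mul]; norm_num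
    have h3 : (2 : ℝ) ^ (d - I) ≤ 2 ^ d := pow_le_pow_right₀ (by norm_num) (by omega)
    have h4 : A ^ (I - i) ≤ A ^ d := pow_le_pow_right₀ hA (by omega)
    have h5 : ((d : ℝ) + 1) ^ 2 * 4 ^ d * 2 ^ (d - I) * A ^ (I - i) ≤
        4 ^ d * 4 ^ d * 2 ^ d * A ^ d := by
      gcongr
    have h6 : (4 : ℝ) ^ d * 4 ^ d * 2 ^ d * A ^ d = (32 * A) ^ d := by
      rw [← mul_pow, ← mul_pow, ← mul_pow]
      norm_num
    have h7 : (32 * A) ^ d ≤ ((16 * A) ^ 8) ^ d := by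
      apply pow_le_pow_left₀ (by positivity)
      have : (1 : ℝ) ≤ 16 * A := by linarith
      calc 32 * A ≤ (16 * A) ^ 2 := by nlinarith
        _ ≤ (16 * A) ^ 8 := pow_le_pow_right₀ this (by norm_num)
    have h8 : ((16 * A) ^ 8) ^ d = ((16 * A) ^ (8 * n)) ^ (q * D') := by
      rw [← pow_mul, ← pow_mul, hdd]
      congr 1
      ring
    have h9 : ((16 * A) ^ (8 * n)) ^ (q * D') ≤ (m : ℝ) ^ (q * D') :=
      pow_le_pow_left₀ (by positivity) hm _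
    calc _ ≤ _ := h5
      _ = _ := h6
      _ ≤ _ := h7
      _ = _ := h8
      _ ≤ _ := h9
  -- powers of m
  have c3 : (m : ℝ) ^ (q * D') * ((m : ℝ) ^ (q * D') * ((m : ℝ) ^ (2 * q * d) *
      ((m : ℝ) ^ (d - I) * ((m : ℝ) ^ (L * (D' + 1))) ^ (j - l)))) ≤
      ((m : ℝ) ^ (n - 1)) ^ (I - i) := by
    rw [← pow_mul, ← pow_mul, ← pow_add, ← pow_add, ← pow_add, ← pow_add]
    exact pow_le_pow_right₀ hm1 hexp
  have c4 : b * ((j + 1) * (((d + 1) ^ 2 * 4 ^ d *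
      (n ^ 2 * b ^ (1 + 2 * l) * (m : ℝ) ^ (2 * q * d)) * (2 * m) ^ (d - I) *
      (A / m ^ (n - 1)) ^ (I - i)) *
      ((m : ℝ) ^ (L * (D' + 1))) ^ (j - l) * b ^ (2 * l))) =
      (b * ((j : ℝ) + 1) * ((n : ℝ) ^ 2 * b ^ (1 + 2 * l)) * b ^ (2 * l)) *
      ((((d : ℝ) + 1) ^ 2 * 4 ^ d * 2 ^ (d - I) * A ^ (I - i)) *
      ((m : ℝ) ^ (2 * q * d) * ((m : ℝ) ^ (d - I) * ((m : ℝ) ^ (L * (D' + 1))) ^ (j - l)))) /
      ((m : ℝ) ^ (n - 1)) ^ (I - i) := by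
    rw [mul_pow, div_pow]
    ring
  rw [c4, div_lt_iff₀ (by positivity)]
  have c5 : (b * ((j : ℝ) + 1) * ((n : ℝ) ^ 2 * b ^ (1 + 2 * l)) * b ^ (2 * l)) *
      ((((d : ℝ) + 1) ^ 2 * 4 ^ d * 2 ^ (d - I) * A ^ (I - i)) *
      ((m : ℝ) ^ (2 * q * d) * ((m : ℝ) ^ (d - I) * ((m : ℝ) ^ (L * (D' + 1))) ^ (j - l)))) ≤
      ((m : ℝ) ^ (q * D') / 4) * ((m : ℝ) ^ (q * D') * ((m : ℝ) ^ (2 * q * d) *
      ((m : ℝ) ^ (d - I) * ((m : ℝ) ^ (L * (D' + 1))) ^ (j - l)))) := by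
    gcongr
  have c6 : (0 : ℝ) < ((m : ℝ) ^ (n - 1)) ^ (I - i) := by positivity
  linarith

end Pool.Agent.H8.EF
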