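import Mathlib

/-! # [EF-WRONNE] The Wronskian of linearly independent polynomials is not zero

Classical; e.g. induction on `ρ`; or: change (over `F`) to a basis with pairwise different degrees
`d_1 < ... < d_ρ`: the coefficient of degree `∑ d_b - ρ(ρ-1)/2` of the Wronskian is the product of
the leading coefficients times `det (d_b (d_b-1) ... (d_b-a+1)) = ∏_(b<b') (d_b' - d_b) ≠ 0`;
or: formally (over any differential field) if `W = 0` take a minimal dependent subfamily over the
field of fractions, normalise the relation `φ_ρ = ∑ c_b φ_b` (`c_b` rational functions),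
differentiate: `∑ c_b' φ_b^(a) = 0` for `a ≤ ρ - 2`, so `c_b' = 0`, `c_b` is a constant
(characteristic zero); or adapt `Pool.Agent.H72.ES.wronsk` (file `Pool/Agent/H72/ES/Wronsk.lean`):
the same statement for power series over `ℤ` (with `m = 1`, `g = 1`), by induction on the number
of series, dividing by the first one. -/

namespace Pool.Agent.H8.EF

open Finset Polynomial

/-- the Wronskian of a family of polynomials -/
noncomputable def wron {F : Type*} [Field F] {ρ : ℕ} (φ : Fin ρ → F[X]) : F[X] :=
  (Matrix.of fun (a b : Fin ρ) => derivative^[(a : ℕ)] (φ b)).det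

/-- equal degrees -/
theorem natDegree_eq_of_wronsk {F : Type*} [Field F] [CharZero F] {r q : F[X]} (hr : r ≠ 0)
    (hq : q ≠ 0) (h : q * derivative r = derivative q * r) : r.natDegree = q.natDegree := by
  rcases Nat.eq_zero_or_pos r.natDegree with h0 | hrp
  · rw [h0]
    have h1 : derivative r = 0 := by
      rw [Polynomial.eq_C_of_natDegree_eq_zero h0, derivative_C]
    rw [h1, mul_zero] at h
    have h2 : derivative q = 0 := by
      rcases mul_eq_zero.1 h.symm with h | h
      · exact h
      · exact absurd h hr
    exact (Polynomial.natDegree_eq_zero_of_derivative_eq_zero h2).symm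
  · rcases Nat.eq_zero_or_pos q.natDegree with h0 | hqp
    · rw [h0]
      have h1 : derivative q = 0 := by
        rw [Polynomial.eq_C_of_natDegree_eq_zero h0, derivative_C]
      rw [h1, zero_mul] at h
      have h2 : derivative r = 0 := by
        rcases mul_eq_zero.1 h with h | h
        · exact absurd h hq
        · exact h
      exact Polynomial.natDegree_eq_zero_of_derivative_eq_zero h2
    · obtain ⟨s, hs⟩ := Nat.exists_eq_succ_of_ne_zero hrp.ne'
      obtain ⟨t, ht⟩ := Nat.exists_eq_succ_of_ne_zero hqp.ne'
      have hr' : r.natDegree ≤ s + 1 := hs.le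
      have hq' : q.natDegree ≤ t + 1 := ht.le
      have hdr : (derivative r).natDegree ≤ s := by
        have := natDegree_derivative_le r
        omega
      have hdq : (derivative q).natDegree ≤ t := by
        have := natDegree_derivative_le q
        omega
      have h1 := congrArg (fun p => p.coeff ((t + 1) + s)) h
      beta_reduce at h1
      rw [coeff_mul_add_eq_of_natDegree_le hq' hdr] at h1
      have e : (t + 1) + s = t + (s + 1) := by ring
      rw [e, coeff_mul_add_eq_of_natDegree_le hdq hr', coeff_derivative, coeff_derivative] at h1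
      have hrc : r.coeff (s + 1) ≠ 0 := by
        have : r.leadingCoeff ≠ 0 := leadingCoeff_ne_zero.2 hr
        rwa [leadingCoeff, hs] at this
      have hqc : q.coeff (t + 1) ≠ 0 := by
        have : q.leadingCoeff ≠ 0 := leadingCoeff_ne_zero.2 hq
        rwa [leadingCoeff, ht] at this
      have h2 : ((s : F) + 1) = (t : F) + 1 := by
        have h3 : (q.coeff (t + 1) * r.coeff (s + 1)) * ((s : F) + 1) =
            (q.coeff (t + 1) * r.coeff (s + 1)) * ((t : F) + 1) := by
          linear_combination h1
        exact mul_left_cancel₀ (mul_ne_zero hqc hrc) h3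
      have h4 : s = t := by
        have := add_right_cancel h2
        exact_mod_cast this
      rw [hs, ht, h4]

/-- proportional polynomials -/
theorem prop_of_wronsk {F : Type*} [Field F] [CharZero F] {p q : F[X]} (hq : q ≠ 0)
    (h : q * derivative p = derivative q * p) : ∃ c : F, p = C c * q := by
  by_cases hp : p = 0
  · exact ⟨0, by rw [hp, C_0, zero_mul]⟩
  have hd := natDegree_eq_of_wronsk hp hq h
  refine ⟨p.leadingCoeff / q.leadingCoeff, ?_⟩
  by_contra hne
  set c := p.leadingCoeff / q.leadingCoeff with hc
  have hr : p - C c * q ≠ 0 := sub_ne_zero.2 hne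
  have hrel : q * derivative (p - C c * q) = derivative q * (p - C c * q) := by
    rw [derivative_sub, derivative_C_mul]
    linear_combination h
  have hd2 := natDegree_eq_of_wronsk hr hq hrel
  have hql : q.leadingCoeff ≠ 0 := leadingCoeff_ne_zero.2 hq
  have h0 : (p - C c * q).coeff q.natDegree = 0 := by
    rw [coeff_sub, coeff_C_mul, ← hd]
    have e1 : p.coeff p.natDegree = p.leadingCoeff := rfl
    have e2 : q.coeff p.natDegree = q.leadingCoeff := by rw [hd]; rfl
    rw [e1, e2, hc]
    field_simp
    ring
  have h1 : (p - C c * q).leadingCoeff = 0 := by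
    rw [leadingCoeff, hd2, h0]
  exact hr (leadingCoeff_eq_zero.1 h1)

theorem wron_ne {F : Type*} [Field F] [CharZero F] {ρ : ℕ} (φ : Fin ρ → F[X])
    (hlin : LinearIndependent F φ) : wron φ ≠ 0 := by
  induction ρ with
  | zero =>
    unfold wron
    rw [Matrix.det_isEmpty]
    exact one_ne_zero
  | succ ρ ih =>
    intro hW
    have hsub := ih (φ ∘ Fin.castSucc) (hlin.comp Fin.castSucc (Fin.castSucc_injective ρ))
    unfold wron at hW hsub
    obtain ⟨c, hc0, hc⟩ := Matrix.exists_mulVec_eq_zero_iff.2 hW
    have hrow : ∀ a : Fin (ρ + 1), ∑ b, derivative^[(a : ℕ)] (φ b) * c b = 0 := by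
      intro a
      have := congrFun hc a
      simpa [Matrix.mulVec, dotProduct] using this
    have hlast : c (Fin.last ρ) ≠ 0 := by
      intro h0
      have hv : (fun b : Fin ρ => c (Fin.castSucc b)) = 0 := by
        refine Matrix.eq_zero_of_mulVec_eq_zero hsub ?_
        ext1 a
        have h1 := hrow (Fin.castSucc a)
        rw [Fin.sum_univ_castSucc, h0, mul_zero, add_zero] at h1
        simpa [Matrix.mulVec, dotProduct] using h1
      apply hc0
      ext1 b
      refine Fin.lastCases ?_ (fun b => ?_) b
      · exact h0
      · exact congrFun hv b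
    have hrow' : ∀ a : Fin ρ, ∑ b, derivative^[(a : ℕ)] (φ b) * derivative (c b) = 0 := by
      intro a
      have h1 := hrow (Fin.castSucc a)
      have h2 := hrow (Fin.succ a)
      have h3 := congrArg (fun p => derivative p) h1
      simp only [derivative_sum, derivative_mul, derivative_zero, Fin.val_castSucc] at h3
      rw [Finset.sum_add_distrib] at h3
      have h4 : ∑ b, derivative (derivative^[(a : ℕ)] (φ b)) * c b = 0 := by
        simpa only [Fin.val_succ, Function.iterate_succ_apply'] using h2
      rw [h4, zero_add] at h3
      exact h3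
    have hv : (fun b : Fin ρ => c (Fin.last ρ) * derivative (c (Fin.castSucc b)) -
        derivative (c (Fin.last ρ)) * c (Fin.castSucc b)) = 0 := by
      refine Matrix.eq_zero_of_mulVec_eq_zero hsub ?_
      ext1 a
      have h1 := hrow (Fin.castSucc a)
      have h2 := hrow' a
      rw [Fin.sum_univ_castSucc] at h1 h2
      simp only [Fin.val_castSucc] at h1
      simp only [Matrix.mulVec, dotProduct, Matrix.of_apply, Function.comp_apply, Pi.zero_apply]
      have h3 : ∑ b : Fin ρ, derivative^[(a : ℕ)] (φ (Fin.castSucc b)) *
          (c (Fin.last ρ) * derivative (c (Fin.castSucc b)) -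
            derivative (c (Fin.last ρ)) * c (Fin.castSucc b)) =
          c (Fin.last ρ) * (∑ b : Fin ρ, derivative^[(a : ℕ)] (φ (Fin.castSucc b)) *
            derivative (c (Fin.castSucc b))) -
          derivative (c (Fin.last ρ)) * (∑ b : Fin ρ, derivative^[(a : ℕ)] (φ (Fin.castSucc b)) *
            c (Fin.castSucc b)) := by
        rw [Finset.mul_sum, Finset.mul_sum, ← Finset.sum_sub_distrib]
        exact Finset.sum_congr rfl fun b _ => by ring
      rw [h3]
      linear_combination c (Fin.last ρ) * h2 - derivative (c (Fin.last ρ)) * h1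
    have hprop : ∀ b : Fin (ρ + 1), ∃ d : F, c b = C d * c (Fin.last ρ) := by
      intro b
      refine Fin.lastCases ?_ (fun b => ?_) b
      · exact ⟨1, by rw [C_1, one_mul]⟩
      · exact prop_of_wronsk hlast (sub_eq_zero.1 (congrFun hv b))
    choose d hd using hprop
    have h0 := hrow 0
    simp only [Fin.val_zero, Function.iterate_zero, id_eq] at h0
    have h1 : (∑ b, d b • φ b) * c (Fin.last ρ) = 0 := by
      rw [Finset.sum_mul, ← h0]
      refine Finset.sum_congr rfl fun b _ => ?_
      rw [hd b, smul_eq_C_mul]
      ring
    have h2 : ∑ b, d b • φ b = 0 := by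
      rcases mul_eq_zero.1 h1 with h | h
      · exact h
      · exact absurd h hlast
    have h3 := (Fintype.linearIndependent_iff.1 hlin) d h2 (Fin.last ρ)
    have h4 := hd (Fin.last ρ)
    rw [h3, C_0, zero_mul] at h4
    exact hlast h4

end Pool.Agent.H8.EF
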